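import Pool.Agent.Y683.AA.Prm

/-!
The average over all primitive characters of conductor at most `X`.
-/

set_option autoImplicit false

namespace Pool.Agent.Y683.AA

open Finset
open Pool.Agent.TH940 (tot GH)

lemma exp_absorb {c : ℝ} (hc : 0 < c) : ∃ C : ℝ, 0 < C ∧ ∀ u : ℝ, 0 ≤ u →
    (1 + u ^ 3) ^ 3 * Real.exp (-c * u) ≤ C * Real.exp (-(c / 2) * u) := by
  refine ⟨4 + 4 * (362880 * (2 / c) ^ 9), by positivity, fun u hu => ?_⟩
  have h1 := Real.pow_div_factorial_le_exp (c / 2 * u) (by positivity) 9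
  have h2 : u ^ 9 ≤ 362880 * (2 / c) ^ 9 * Real.exp (c / 2 * u) := by
    have h3 : (Nat.factorial 9 : ℝ) = 362880 := by norm_num [Nat.factorial]
    rw [h3, div_le_iff₀ (by norm_num)] at h1
    have h4 : u ^ 9 = (2 / c) ^ 9 * (c / 2 * u) ^ 9 := by
      rw [← mul_pow]
      congr 1
      field_simp
    rw [h4]
    calc (2 / c) ^ 9 * (c / 2 * u) ^ 9 ≤ (2 / c) ^ 9 * (Real.exp (c / 2 * u) * 362880) :=
          mul_le_mul_of_nonneg_left h1 (by positivity)
      _ = _ := by ring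
  have h5 : (1 + u ^ 3) ^ 3 ≤ 4 + 4 * u ^ 9 := by
    have hv : 0 ≤ u ^ 3 := by positivity
    have e : u ^ 9 = (u ^ 3) ^ 3 := by ring
    rw [e]
    nlinarith [mul_nonneg hv (sq_nonneg (u ^ 3 - 1)), sq_nonneg (u ^ 3 - 1)]
  have h6 : 1 ≤ Real.exp (c / 2 * u) := Real.one_le_exp (by positivity)
  have h7 : (1 + u ^ 3) ^ 3 ≤ (4 + 4 * (362880 * (2 / c) ^ 9)) * Real.exp (c / 2 * u) := by
    nlinarith
  calc (1 + u ^ 3) ^ 3 * Real.exp (-c * u) ≤
      ((4 + 4 * (362880 * (2 / c) ^ 9)) * Real.exp (c / 2 * u)) * Real.exp (-c * u) :=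
        mul_le_mul_of_nonneg_right h7 (Real.exp_pos _).le
    _ = _ := by
        rw [mul_assoc, ← Real.exp_add]
        congr 2
        ring

open Classical in
/-- the exceptional moduli -/
theorem moduli {N : ℕ} {K : ℝ} {G : (q : ℕ) → DirichletCharacter ℂ q → ℕ} (hG : GH N K G)
    {ε : ℝ} (hε : 0 < ε) : ∃ C c : ℝ, 0 < C ∧ 0 < c ∧ ∀ X : ℕ, 1 ≤ X →
      (((Icc 1 X).filter (fun q : ℕ => Nat.Coprime q N ∧
        C * (q : ℝ) ^ (3 / 4 + ε) < tot G q)).card : ℝ) ≤ C * X * Real.exp (-c * cr X) := by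
  obtain ⟨C1, hC1, h1⟩ := tot_gen hG hε
  obtain ⟨C2, c, hC2, hc, h2⟩ := carmichael_exc (ε := ε / 5) (by positivity)
  refine ⟨max C1 C2, c, lt_max_of_lt_left hC1, hc, fun X hX => ?_⟩
  have hsub : (Icc 1 X).filter (fun q : ℕ => Nat.Coprime q N ∧
        max C1 C2 * (q : ℝ) ^ (3 / 4 + ε) < tot G q) ⊆ (Icc 1 X).filter (fun q : ℕ =>
      ((ArithmeticFunction.carmichael q : ℕ) : ℝ) < (q : ℝ) ^ (1 - ε / 5)) := by
    intro q hq
    rw [mem_filter] at hq ⊢
    refine ⟨hq.1, ?_⟩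
    by_contra hcon
    push Not at hcon
    have h3 := h1 q (mem_Icc.1 hq.1).1 hq.2.1 hcon
    have h4 : C1 * (q : ℝ) ^ (3 / 4 + ε) ≤ max C1 C2 * (q : ℝ) ^ (3 / 4 + ε) :=
      mul_le_mul_of_nonneg_right (le_max_left _ _) (by positivity)
    linarith [hq.2.2]
  have h3 : (((Icc 1 X).filter (fun q : ℕ => Nat.Coprime q N ∧
        max C1 C2 * (q : ℝ) ^ (3 / 4 + ε) < tot G q)).card : ℝ) ≤
      (((Icc 1 X).filter (fun q : ℕ =>
      ((ArithmeticFunction.carmichael q : ℕ) : ℝ) < (q : ℝ) ^ (1 - ε / 5))).card : ℝ) := by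
    exact_mod_cast card_le_card hsub
  refine (h3.trans (h2 X hX)).trans ?_
  refine mul_le_mul_of_nonneg_right ?_ (Real.exp_pos _).le
  exact mul_le_mul_of_nonneg_right (le_max_right _ _) (Nat.cast_nonneg _)

/-- the sum over all primitive characters -/
theorem sum_le {N : ℕ} {K : ℝ} {G : (q : ℕ) → DirichletCharacter ℂ q → ℕ} (hG : GH N K G) :
    ∃ C c : ℝ, 0 < C ∧ 0 < c ∧ ∀ X : ℕ, 1 ≤ X →
      ((∑ᶠ x ∈ Prim N X, G x.1 x.2 : ℕ) : ℝ) ≤
        C * (X : ℝ) ^ 2 * (1 + Real.log X) * Real.exp (-c * cr X) := by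
  classical
  have hK := hG.pos
  obtain ⟨C1, c1, hC1, hc1, h1⟩ := moduli hG (ε := 1 / 8) (by norm_num)
  set c : ℝ := min c1 (1 / 8) with hc
  have hc0 : 0 < c := lt_min hc1 (by norm_num)
  refine ⟨C1 * K + 16 * C1, c, by positivity, hc0, fun X hX => ?_⟩
  have hXr : (1 : ℝ) ≤ X := by exact_mod_cast hX
  have hX0 : (0 : ℝ) < X := by linarith
  have hlog : 0 ≤ Real.log X := Real.log_natCast_nonneg X
  have hu0 := cr_nonneg X
  rw [finsum_prim]
  have hle : ∀ q ∈ md N X, ∑ χ ∈ pc q, G q χ ≤ tot G q := by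
    intro q hq
    rw [md, mem_filter, mem_Icc] at hq
    have : NeZero q := ⟨by omega⟩
    unfold tot
    rw [finsum_eq_sum_of_fintype]
    calc ∑ χ ∈ pc q, G q χ = ∑ χ ∈ pc q, G χ.conductor χ.primitiveCharacter :=
          sum_congr rfl fun χ hχ => (G_prim G χ (mem_pc.1 hχ)).symm
      _ ≤ _ := sum_le_sum_of_subset (subset_univ _)
  have h2 : ((∑ q ∈ md N X, ∑ χ ∈ pc q, G q χ : ℕ) : ℝ) ≤ ∑ q ∈ md N X, (tot G q : ℝ) := by
    have := sum_le_sum hle
    exact_mod_cast this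
  refine h2.trans ?_
  set B := (md N X).filter (fun q : ℕ => C1 * (q : ℝ) ^ (3 / 4 + 1 / 8 : ℝ) < tot G q) with hB
  rw [← sum_filter_add_sum_filter_not (md N X)
    (fun q : ℕ => C1 * (q : ℝ) ^ (3 / 4 + 1 / 8 : ℝ) < tot G q)]
  have hBcard : (B.card : ℝ) ≤ C1 * X * Real.exp (-c1 * cr X) := by
    refine le_trans ?_ (h1 X hX)
    have : B ⊆ (Icc 1 X).filter (fun q : ℕ => Nat.Coprime q N ∧
        C1 * (q : ℝ) ^ (3 / 4 + 1 / 8 : ℝ) < tot G q) := by
      intro q hq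
      rw [hB, mem_filter, md, mem_filter] at hq
      rw [mem_filter]
      exact ⟨hq.1.1, hq.1.2, hq.2⟩
    exact_mod_cast card_le_card this
  have hexp : Real.exp (-c1 * cr X) ≤ Real.exp (-c * cr X) := by
    refine Real.exp_le_exp.2 ?_
    have : c ≤ c1 := min_le_left _ _
    nlinarith
  have h3 : ∑ q ∈ B, (tot G q : ℝ) ≤ (C1 * X * Real.exp (-c * cr X)) *
      (X * (K * (1 + Real.log X))) := by
    calc ∑ q ∈ B, (tot G q : ℝ) ≤ ∑ q ∈ B, (X : ℝ) * (K * (1 + Real.log X)) := by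
          refine sum_le_sum fun q hq => ?_
          rw [hB, mem_filter, md, mem_filter, mem_Icc] at hq
          obtain ⟨⟨⟨k1, k2⟩, k3⟩, -⟩ := hq
          refine (tot_triv hG k1 k3).trans ?_
          have k4 : (q : ℝ) ≤ X := by exact_mod_cast k2
          have k5 : (0 : ℝ) < q := by exact_mod_cast k1
          have k6 : Real.log q ≤ Real.log X := Real.log_le_log k5 k4
          have k7 : 0 ≤ Real.log q := Real.log_natCast_nonneg q
          gcongr
      _ = (B.card : ℝ) * (X * (K * (1 + Real.log X))) := by rw [sum_const, nsmul_eq_mul]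
      _ ≤ _ := by
          refine mul_le_mul_of_nonneg_right (hBcard.trans ?_) (by positivity)
          exact mul_le_mul_of_nonneg_left hexp (by positivity)
  have h4 : ∑ q ∈ (md N X).filter (fun q : ℕ => ¬ C1 * (q : ℝ) ^ (3 / 4 + 1 / 8 : ℝ) < tot G q),
      (tot G q : ℝ) ≤ 16 * C1 * (X : ℝ) ^ 2 * Real.exp (-c * cr X) := by
    have hX8 : (X : ℝ) * (X : ℝ) ^ (3 / 4 + 1 / 8 : ℝ) ≤ 16 * (X ^ 2 * Real.exp (-c * cr X)) := by
      have hs := sqrt_le hX (c := 4 * c) (by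
        have : c ≤ 1 / 8 := min_le_right _ _
        linarith)
      have e1 : (X : ℝ) * (X : ℝ) ^ (3 / 4 + 1 / 8 : ℝ) = X ^ 2 * (X : ℝ) ^ (-(1 / 8) : ℝ) := by
        rw [← Real.rpow_natCast, ← Real.rpow_add hX0]
        nth_rewrite 1 [← Real.rpow_one (X : ℝ)]
        rw [← Real.rpow_add hX0]
        norm_num
      rw [e1]
      have e2 : (X : ℝ) ^ (-(1 / 8) : ℝ) ≤ 16 * Real.exp (-c * cr X) := by
        have e3 : (X : ℝ) ^ (-(1 / 2) : ℝ) ≤ 2 * Real.exp (-(4 * c) * cr X) := by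
          have e4 : (X : ℝ) ^ ((1 : ℝ) / 2) = X * (X : ℝ) ^ (-(1 / 2) : ℝ) := by
            nth_rewrite 2 [← Real.rpow_one (X : ℝ)]
            rw [← Real.rpow_add hX0]
            norm_num
          rw [e4] at hs
          have e5 : (X : ℝ) * (X : ℝ) ^ (-(1 / 2) : ℝ) ≤
              X * (2 * Real.exp (-(4 * c) * cr X)) := by linarith
          exact le_of_mul_le_mul_left e5 hX0
        have e6 : ((X : ℝ) ^ (-(1 / 8) : ℝ)) ^ 4 = (X : ℝ) ^ (-(1 / 2) : ℝ) := by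
          rw [← Real.rpow_natCast, ← Real.rpow_mul hX0.le]
          norm_num
        have e7 : (16 * Real.exp (-c * cr X)) ^ 4 = 65536 * Real.exp (-(4 * c) * cr X) := by
          rw [mul_pow, ← Real.exp_nat_mul]
          norm_num
          ring_nf
        refine le_of_pow_le_pow_left₀ (n := 4) (by norm_num) (by positivity) ?_
        rw [e6, e7]
        refine e3.trans ?_
        have := Real.exp_pos (-(4 * c) * cr X)
        nlinarith
      calc (X : ℝ) ^ 2 * (X : ℝ) ^ (-(1 / 8) : ℝ) ≤ X ^ 2 * (16 * Real.exp (-c * cr X)) :=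
            mul_le_mul_of_nonneg_left e2 (by positivity)
        _ = _ := by ring
    calc ∑ q ∈ (md N X).filter (fun q : ℕ => ¬ C1 * (q : ℝ) ^ (3 / 4 + 1 / 8 : ℝ) < tot G q),
        (tot G q : ℝ) ≤ ∑ q ∈ (md N X).filter
          (fun q : ℕ => ¬ C1 * (q : ℝ) ^ (3 / 4 + 1 / 8 : ℝ) < tot G q),
          C1 * (X : ℝ) ^ (3 / 4 + 1 / 8 : ℝ) := by
          refine sum_le_sum fun q hq => ?_
          rw [mem_filter, md, mem_filter, mem_Icc] at hq
          obtain ⟨⟨⟨k1, k2⟩, k3⟩, k4⟩ := hq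
          push Not at k4
          refine k4.trans ?_
          have k5 : (q : ℝ) ≤ X := by exact_mod_cast k2
          gcongr
      _ = (((md N X).filter
          (fun q : ℕ => ¬ C1 * (q : ℝ) ^ (3 / 4 + 1 / 8 : ℝ) < tot G q)).card : ℝ) *
          (C1 * (X : ℝ) ^ (3 / 4 + 1 / 8 : ℝ)) := by rw [sum_const, nsmul_eq_mul]
      _ ≤ X * (C1 * (X : ℝ) ^ (3 / 4 + 1 / 8 : ℝ)) := by
          refine mul_le_mul_of_nonneg_right ?_ (by positivity)
          have h5 : ((md N X).filter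
            (fun q : ℕ => ¬ C1 * (q : ℝ) ^ (3 / 4 + 1 / 8 : ℝ) < tot G q)).card ≤ X := by
            refine (card_filter_le _ _).trans ((card_filter_le _ _).trans ?_)
            rw [Nat.card_Icc]
            omega
          exact_mod_cast h5
      _ = C1 * (X * (X : ℝ) ^ (3 / 4 + 1 / 8 : ℝ)) := by ring
      _ ≤ C1 * (16 * (X ^ 2 * Real.exp (-c * cr X))) := mul_le_mul_of_nonneg_left hX8 hC1.le
      _ = _ := by ring
  have h5 : 16 * C1 * (X : ℝ) ^ 2 * Real.exp (-c * cr X) ≤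
      16 * C1 * (X : ℝ) ^ 2 * (1 + Real.log X) * Real.exp (-c * cr X) := by
    refine mul_le_mul_of_nonneg_right ?_ (Real.exp_pos _).le
    have : 16 * C1 * (X : ℝ) ^ 2 * 1 ≤ 16 * C1 * (X : ℝ) ^ 2 * (1 + Real.log X) :=
      mul_le_mul_of_nonneg_left (by linarith) (by positivity)
    linarith
  calc ∑ q ∈ B, (tot G q : ℝ) + ∑ q ∈ (md N X).filter (fun q : ℕ =>
          ¬ C1 * (q : ℝ) ^ (3 / 4 + 1 / 8 : ℝ) < tot G q), (tot G q : ℝ) ≤
      (C1 * X * Real.exp (-c * cr X)) * (X * (K * (1 + Real.log X))) +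
        16 * C1 * (X : ℝ) ^ 2 * (1 + Real.log X) * Real.exp (-c * cr X) :=
        add_le_add h3 (h4.trans h5)
    _ = _ := by ring

/-- **The average over all primitive characters** -/
theorem average {N : ℕ} (hN : 1 ≤ N) {K : ℝ} {G : (q : ℕ) → DirichletCharacter ℂ q → ℕ}
    (hG : GH N K G) : ∃ C c : ℝ, 0 < C ∧ 0 < c ∧ ∀ X : ℕ, 1 ≤ X →
      ((∑ᶠ x ∈ Prim N X, G x.1 x.2 : ℕ) : ℝ) ≤
        C * Real.exp (-c * cr X) * (Prim N X).ncard := by
  obtain ⟨C1, c1, hC1, hc1, h1⟩ := sum_le hG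
  obtain ⟨c2, hc2, h2⟩ := ncard_ge N hN
  obtain ⟨C3, hC3, h3⟩ := exp_absorb hc1
  refine ⟨C1 / c2 * C3, c1 / 2, by positivity, by positivity, fun X hX => ?_⟩
  have hXr : (1 : ℝ) ≤ X := by exact_mod_cast hX
  have hX0 : (0 : ℝ) < X := by linarith
  have hlog : 0 ≤ Real.log X := Real.log_natCast_nonneg X
  have h4 := h3 (cr X) (cr_nonneg X)
  rw [cr_pow] at h4
  refine (h1 X hX).trans ?_
  have h5 : C1 * (X : ℝ) ^ 2 * (1 + Real.log X) * Real.exp (-c1 * cr X) =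
      (C1 / c2) * ((1 + Real.log X) ^ 3 * Real.exp (-c1 * cr X)) *
        (c2 * ((X : ℝ) / (1 + Real.log X)) ^ 2) := by
    have : (0 : ℝ) < 1 + Real.log X := by linarith
    field_simp
  rw [h5]
  calc (C1 / c2) * ((1 + Real.log X) ^ 3 * Real.exp (-c1 * cr X)) *
        (c2 * ((X : ℝ) / (1 + Real.log X)) ^ 2) ≤
      (C1 / c2) * (C3 * Real.exp (-(c1 / 2) * cr X)) * (Prim N X).ncard := by
        refine mul_le_mul (mul_le_mul_of_nonneg_left h4 (by positivity)) (h2 X hX)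
          (by positivity) (by positivity)
    _ = _ := by ring

end Pool.Agent.Y683.AA
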