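import Pool.Agent.Y683.AA.SW4

/-!
The order of vanishing over the cyclic extension attached to a character of finite order.
-/

set_option autoImplicit false

open Finset

namespace Pool.Agent.Y683.AA

open Pool.Agent.W192.HK
open Pool.Agent.Y690 (cop_iff cop_congr cop_mono sp_mul sp_pow hc_pow ne_zero_of_cop lift_cop sp_ne)

variable {R : Subring ℂ} {ω : ℂ}

/-- `n` is the order of `χ` -/
def HasOrd (χ : Ideal R → ℂ) (n : ℕ) : Prop :=
  0 < n ∧ ∀ k : ℕ, (∀ I : Ideal R, χ I ≠ 0 → χ I ^ k = 1) ↔ n ∣ k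

/-- the order divides the class number times the order of the finite part -/
lemma ord_pow (hR : QR R ω) {c : Ideal R} {χ : Ideal R → ℂ} (h : Imp 0 c χ)
    {h0 : ℕ} (hh1 : 1 ≤ h0) (hpr : ∀ I : Ideal R, ∃ α : R, I ^ h0 = sp α)
    {F : (R ⧸ c)ˣ →* ℂˣ} (hF : IsFin 0 c χ F) {I : Ideal R} (hI : χ I ≠ 0) :
    χ I ^ (h0 * orderOf F) = 1 := by
  have := hR.ded
  have hI' : I ≠ ⊥ ∧ IsCoprime I c := by
    rw [Ne, h.zero] at hI
    push Not at hI
    exact hI
  obtain ⟨α, hα⟩ := hpr I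
  have hα0 : α ≠ 0 := by
    rintro rfl
    have h2 : I ^ h0 = ⊥ := by rw [hα]; exact Ideal.span_singleton_eq_bot.2 rfl
    exact hI'.1 (pow_eq_zero_iff (by omega)|>.1 h2)
  have hαc : IsCoprime (sp α) c := by
    rw [← hα]
    exact IsCoprime.pow_left hI'.2
  obtain ⟨v, hv⟩ := isUnit_iff_cop.2 hαc
  have h1 := hF v α hv.symm hα0
  rw [pow_zero, div_one] at h1
  have h2 : (h.un hR ⟨I, hI'⟩) ^ h0 = F v := by
    rw [← map_pow]
    ext
    rw [h1, ← hα]
    rfl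
  have h3 : (h.un hR ⟨I, hI'⟩) ^ (h0 * orderOf F) = 1 := by
    rw [pow_mul, h2, ← MonoidHom.pow_apply, pow_orderOf_eq_one]
    rfl
  have h4 := congrArg (fun x : ℂˣ => (x : ℂ)) h3
  simp only [Units.val_pow_eq_pow_val, Units.val_one] at h4
  exact h4

lemma fin_ord_dvd {c : Ideal R} {χ : Ideal R → ℂ} (h : Imp 0 c χ) {F : (R ⧸ c)ˣ →* ℂˣ}
    (hF : IsFin 0 c χ F) {n : ℕ} (hn : ∀ I : Ideal R, χ I ≠ 0 → χ I ^ n = 1) : orderOf F ∣ n := by
  refine orderOf_dvd_of_pow_eq_one ?_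
  ext v
  obtain ⟨α, hα0, hα⟩ := exists_lift h.ne (v : R ⧸ c)
  have h1 := hF v α hα hα0
  rw [pow_zero, div_one] at h1
  rw [MonoidHom.pow_apply, MonoidHom.one_apply, Units.val_pow_eq_pow_val, Units.val_one, h1]
  refine hn _ ?_
  rw [← h1]
  exact Units.ne_zero _

lemma fin_ord_pos (hb : H_BASIC) (hR : QR R ω) {c : Ideal R} (hc : c ≠ ⊥)
    (F : (R ⧸ c)ˣ →* ℂˣ) : 0 < orderOf F := by
  obtain ⟨b1, -⟩ := hb R ω hR
  have hfinq : Finite (R ⧸ c) := b1 c hc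
  have hGq : Finite (R ⧸ c)ˣ := inferInstance
  refine orderOf_pos_iff.2 (isOfFinOrder_iff_pow_eq_one.2 ⟨Nat.card (R ⧸ c)ˣ, Nat.card_pos, ?_⟩)
  ext u
  rw [MonoidHom.pow_apply, ← map_pow, pow_card_eq_one', map_one]
  rfl

/-- every character of finite order has an order -/
theorem exists_ord (hb : H_BASIC) (hcls : H_CLS) (hR : QR R ω) {c : Ideal R} {χ : Ideal R → ℂ}
    (h : Imp 0 c χ) : ∃ n : ℕ, HasOrd χ n := by
  classical
  obtain ⟨h0, hh1, hpr, -⟩ := hcls R ω hR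
  obtain ⟨F, hF⟩ := h.fin
  have hex : ∃ n : ℕ, 0 < n ∧ ∀ I : Ideal R, χ I ≠ 0 → χ I ^ n = 1 :=
    ⟨h0 * orderOf F, Nat.mul_pos hh1 (fin_ord_pos hb hR h.ne F),
      fun I hI => ord_pow hR h hh1 hpr hF hI⟩
  obtain ⟨h1, h2⟩ := Nat.find_spec hex
  refine ⟨Nat.find hex, h1, fun k => ⟨fun hk => ?_, ?_⟩⟩
  · set n := Nat.find hex with hn
    by_contra hcon
    have h3 : 0 < k % n := Nat.pos_of_ne_zero fun h4 => hcon (Nat.dvd_of_mod_eq_zero h4)
    have h4 : ∀ I : Ideal R, χ I ≠ 0 → χ I ^ (k % n) = 1 := by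
      intro I hI
      have h5 := hk I hI
      rw [← Nat.div_add_mod k n, pow_add, pow_mul, h2 I hI, one_pow, one_mul] at h5
      exact h5
    have h5 : n ≤ k % n := Nat.find_min' hex ⟨h3, h4⟩
    have h6 := Nat.mod_lt k h1
    omega
  · rintro ⟨t, rfl⟩ I hI
    rw [pow_mul, h2 I hI, one_pow]

/-- few powers of `F` have small order -/
lemma card_pow_small {G : Type*} [Group G] {F : G} {h0 n : ℕ} (hD : 0 < orderOf F)
    (hn : n ≤ h0 * orderOf F) {Z : ℝ} (hZ : 0 ≤ Z) :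
    (((range n).filter (fun j => (orderOf (F ^ j) : ℝ) ≤ Z)).card : ℝ) ≤
      ((orderOf F).divisors.card : ℝ) * (h0 * Z) := by
  classical
  set D := orderOf F with hDdef
  have hsub : (range n).filter (fun j => (orderOf (F ^ j) : ℝ) ≤ Z) ⊆
      (D.divisors.filter (fun e : ℕ => (e : ℝ) ≤ Z)).biUnion
        (fun e : ℕ => (range n).filter (fun j => D / e ∣ j)) := by
    intro j hj
    rw [mem_filter] at hj
    rw [mem_biUnion]
    have h1 : orderOf (F ^ j) ∣ D := orderOf_pow_dvd j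
    refine ⟨orderOf (F ^ j), ?_, ?_⟩
    · rw [mem_filter, Nat.mem_divisors]
      exact ⟨⟨h1, hD.ne'⟩, hj.2⟩
    · rw [mem_filter]
      refine ⟨hj.1, ?_⟩
      have h2 : D ∣ j * orderOf (F ^ j) := by
        refine orderOf_dvd_of_pow_eq_one ?_
        rw [pow_mul, pow_orderOf_eq_one]
      obtain ⟨t, ht⟩ := h1
      have h3 : 0 < orderOf (F ^ j) := Nat.pos_of_ne_zero (by
        intro h4
        rw [h4, zero_mul] at ht
        omega)
      rw [ht, Nat.mul_div_cancel_left _ h3]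
      rw [ht, mul_comm] at h2
      exact Nat.dvd_of_mul_dvd_mul_right h3 h2
  have hone : ∀ e ∈ D.divisors.filter (fun e : ℕ => (e : ℝ) ≤ Z),
      (((range n).filter (fun j => D / e ∣ j)).card : ℝ) ≤ h0 * Z := by
    intro e he
    rw [mem_filter, Nat.mem_divisors] at he
    obtain ⟨⟨⟨t, ht⟩, -⟩, heZ⟩ := he
    have he0 : 0 < e := Nat.pos_of_ne_zero (by
      rintro rfl
      rw [zero_mul] at ht
      omega)
    have ht0 : 0 < t := Nat.pos_of_ne_zero (by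
      rintro rfl
      rw [mul_zero] at ht
      omega)
    have h1 : ((range n).filter (fun j => D / e ∣ j)).card ≤ (range (h0 * e)).card := by
      refine card_le_card_of_injOn (fun j => j / t) (fun j hj => ?_) (fun j hj k hk hjk => ?_)
      · rw [mem_coe, mem_filter, mem_range] at hj
        rw [mem_coe, mem_range]
        refine Nat.div_lt_of_lt_mul ?_
        have h2 : n ≤ t * (h0 * e) := by
          calc n ≤ h0 * D := hn
            _ = t * (h0 * e) := by rw [ht]; ring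
        omega
      · rw [mem_coe, mem_filter, ht, Nat.mul_div_cancel_left _ he0] at hj hk
        obtain ⟨j', rfl⟩ := hj.2
        obtain ⟨k', rfl⟩ := hk.2
        simp only [Nat.mul_div_cancel_left _ ht0] at hjk
        rw [hjk]
    rw [card_range] at h1
    have h2 : (((range n).filter (fun j => D / e ∣ j)).card : ℝ) ≤ h0 * e := by exact_mod_cast h1
    exact h2.trans (mul_le_mul_of_nonneg_left heZ (Nat.cast_nonneg _))
  have h1 : (((range n).filter (fun j => (orderOf (F ^ j) : ℝ) ≤ Z)).card : ℝ) ≤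
      ∑ e ∈ D.divisors.filter (fun e : ℕ => (e : ℝ) ≤ Z),
        (((range n).filter (fun j => D / e ∣ j)).card : ℝ) := by
    refine ((Nat.cast_le (α := ℝ)).2 ((card_le_card hsub).trans card_biUnion_le)).trans ?_
    push_cast
    exact le_rfl
  refine h1.trans ((sum_le_sum hone).trans ?_)
  rw [sum_const, nsmul_eq_mul]
  refine mul_le_mul_of_nonneg_right ?_ (by positivity)
  exact_mod_cast card_filter_le _ _

/-- **The total order over the powers of a character** -/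
theorem pow_total (hb : H_BASIC) (hcls : H_CLS) (hfp : H_FP) (hR : QR R ω) {K : ℝ}
    {o : ℕ → (Ideal R → ℂ) → ℕ} (ho : GHk R K o) {η : ℝ} (hη : 0 < η) (hη1 : η ≤ 1) :
    ∃ C : ℝ, 0 < C ∧ ∀ X : ℕ, 1 ≤ X → ∀ (c : Ideal R) (χ : Ideal R → ℂ) (n : ℕ), HC 0 c χ →
      nn c ≤ X → HasOrd χ n → ∀ (m : ℕ) (f : Ideal R) (ψ : Ideal R → ℂ), 1 ≤ m →
      HC (2 * m - 1) f ψ → nm f ≤ (X : ℝ) ^ (η / 16) → ∀ θ : ℕ → Ideal R → ℂ,
      (∀ j < n, (∃ q, HC (2 * m - 1) q (θ j)) ∧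
        ∀ I : Ideal R, ψ I * χ I ≠ 0 → θ j I = ψ I * χ I ^ j) →
      ((∑ j ∈ range n, o m (θ j) : ℕ) : ℝ) ≤
        C * ((m * X : ℝ) ^ η * ((X : ℝ) ^ (2 / 3 : ℝ) + (m * X : ℝ) ^ (1 / 2 : ℝ))) := by
  classical
  set δ : ℝ := η / 16 with hδ
  have hδ0 : 0 < δ := by positivity
  have hδ1 : δ ≤ 1 / 16 := by rw [hδ]; linarith
  obtain ⟨A, hA1, hA⟩ := nv_gen hb hfp hR ho hδ0 hδ1
  obtain ⟨C1, hC1, ht, -⟩ := Pool.Agent.W216.CY.t_div δ hδ0
  obtain ⟨h0, hh1, hpr, -⟩ := hcls R ω hR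
  have hK := ho.pos
  have hh0 : (0 : ℝ) < h0 := by exact_mod_cast hh1
  refine ⟨C1 * (h0 * A) * (K * (2 / δ + 1)), by positivity, fun X hX c χ n hχ hcX hn m f ψ hm hψ hfX
    θ hθ => ?_⟩
  have hX1 : (1 : ℝ) ≤ X := by exact_mod_cast hX
  have hX0 : (0 : ℝ) < X := by linarith
  have hm1 : (1 : ℝ) ≤ m := by exact_mod_cast hm
  have hmX : (1 : ℝ) ≤ m * X := by nlinarith
  have hmX0 : (0 : ℝ) < m * X := by linarith
  have hχ' : Imp 0 c χ := HC.imp hχ
  obtain ⟨F, hF⟩ := hχ'.fin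
  have hD0 := fin_ord_pos hb hR hχ.ne F
  have hnD : n ≤ h0 * orderOf F :=
    Nat.le_of_dvd (Nat.mul_pos hh1 hD0) ((hn.2 _).1 fun I hI => ord_pow hR hχ' hh1 hpr hF hI)
  set B : ℝ := (X : ℝ) ^ (2 / 3 : ℝ) + (m * X : ℝ) ^ (1 / 2 : ℝ) with hB
  have hB1 : 1 ≤ B := by
    have h1 : 1 ≤ (X : ℝ) ^ (2 / 3 : ℝ) := Real.one_le_rpow hX1 (by norm_num)
    have h2 : 0 ≤ (m * X : ℝ) ^ (1 / 2 : ℝ) := by positivity
    linarith
  set Z : ℝ := A * ((m * X : ℝ) ^ (4 * δ) * B) with hZ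
  have hZ1 : 1 ≤ Z := by
    have h1 : 1 ≤ (m * X : ℝ) ^ (4 * δ) := Real.one_le_rpow hmX (by positivity)
    have h2 : 1 ≤ (m * X : ℝ) ^ (4 * δ) * B := by nlinarith
    rw [hZ]
    nlinarith
  have hzero : ∀ j ∈ range n, ¬ ((orderOf (F ^ j) : ℝ) ≤ Z) → o m (θ j) = 0 := by
    intro j hj hjZ
    rw [mem_range] at hj
    obtain ⟨⟨q, hq⟩, hag⟩ := hθ j hj
    have hj0 : j ≠ 0 := by
      rintro rfl
      apply hjZ
      have h00 : orderOf (F ^ 0) = 1 := by
        rw [orderOf_eq_one_iff]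
        ext u
        rw [MonoidHom.pow_apply]
        simp
      rw [h00, Nat.cast_one]
      exact hZ1
    push Not at hjZ
    refine hA X hX c _ (hχ'.pow hj0) hcX (F ^ j) (hF.pow j) m f q ψ (θ j) hm hψ hfX hq
      (fun I hI => ?_) hjZ
    have h1 := mul_ne_zero_iff.1 hI
    have h2 : χ I ≠ 0 := fun h => h1.2 (by
      change χ I ^ j = 0
      rw [h, zero_pow hj0])
    exact hag I (mul_ne_zero h1.1 h2)
  have hbd : ∀ j ∈ range n, (o m (θ j) : ℝ) ≤ K * (2 / δ + 1) * (m * X : ℝ) ^ δ := by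
    intro j hj
    rw [mem_range] at hj
    obtain ⟨⟨q, hq⟩, hag⟩ := hθ j hj
    have h1 := ho.bd m q (θ j) hm hq
    have h2 := cond_bound hb hfp hR hX hχ' hcX hm hψ hfX hq hag
    have hq1 : (1 : ℝ) ≤ nm q := by
      rw [nm_eq]
      exact_mod_cast nn_pos hb hR hq.ne
    have h3 : Real.log (nm q) ≤ 2 * Real.log X := by
      have h4 := Real.log_le_log (by linarith) h2
      rw [Real.log_rpow hX0] at h4
      have h5 := Real.log_nonneg hX1
      nlinarith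
    have h4 : 1 + Real.log (nm q) + Real.log m ≤ 1 + 2 * Real.log (m * X) := by
      rw [Real.log_mul (by positivity) (by positivity)]
      have h5 := Real.log_nonneg hm1
      linarith
    have h5 : 1 + 2 * Real.log (m * X) ≤ (2 / δ + 1) * (m * X : ℝ) ^ δ := by
      have h6 : Real.log (m * X) ≤ (m * X : ℝ) ^ δ / δ := Real.log_le_rpow_div hmX0.le hδ0
      have h7 : 1 ≤ (m * X : ℝ) ^ δ := Real.one_le_rpow hmX hδ0.le
      calc 1 + 2 * Real.log (m * X) ≤ (m * X : ℝ) ^ δ + 2 * ((m * X : ℝ) ^ δ / δ) := by linarith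
        _ = _ := by ring
    calc (o m (θ j) : ℝ) ≤ K * (1 + Real.log (nm q) + Real.log m) := h1
      _ ≤ K * ((2 / δ + 1) * (m * X : ℝ) ^ δ) :=
          mul_le_mul_of_nonneg_left (h4.trans h5) hK.le
      _ = _ := by ring
  have hcard := card_pow_small hD0 hnD (Z := Z) (by linarith)
  have hτ : ((orderOf F).divisors.card : ℝ) ≤ C1 * (m * X : ℝ) ^ δ := by
    refine (ht _ hD0).trans ?_
    obtain ⟨b1, -⟩ := hb R ω hR
    have h1 : (orderOf F : ℝ) ≤ m * X := by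
      have h2 := (ord_le_nn (b1 c hχ.ne) F).trans hcX
      have h3 : (orderOf F : ℝ) ≤ X := by exact_mod_cast h2
      nlinarith
    gcongr
  have hsum : ((∑ j ∈ range n, o m (θ j) : ℕ) : ℝ) ≤
      (((range n).filter (fun j => (orderOf (F ^ j) : ℝ) ≤ Z)).card : ℝ) *
        (K * (2 / δ + 1) * (m * X : ℝ) ^ δ) := by
    rw [← sum_filter_add_sum_filter_not (range n) (fun j => (orderOf (F ^ j) : ℝ) ≤ Z)]
    have h1 : ∑ j ∈ (range n).filter (fun j => ¬ (orderOf (F ^ j) : ℝ) ≤ Z), o m (θ j) = 0 := by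
      refine sum_eq_zero fun j hj => ?_
      rw [mem_filter] at hj
      exact hzero j hj.1 hj.2
    rw [h1, add_zero]
    push_cast
    rw [← nsmul_eq_mul, ← sum_const]
    refine sum_le_sum fun j hj => ?_
    rw [mem_filter] at hj
    exact hbd j hj.1
  have hpos : 0 ≤ K * (2 / δ + 1) * (m * X : ℝ) ^ δ := by positivity
  calc ((∑ j ∈ range n, o m (θ j) : ℕ) : ℝ) ≤ _ := hsum
    _ ≤ ((C1 * (m * X : ℝ) ^ δ) * (h0 * Z)) * (K * (2 / δ + 1) * (m * X : ℝ) ^ δ) := by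
        refine mul_le_mul_of_nonneg_right (hcard.trans ?_) hpos
        exact mul_le_mul_of_nonneg_right hτ (by positivity)
    _ = C1 * (h0 * A) * (K * (2 / δ + 1)) *
        (((m * X : ℝ) ^ δ * (m * X : ℝ) ^ (4 * δ) * (m * X : ℝ) ^ δ) * B) := by rw [hZ]; ring
    _ = C1 * (h0 * A) * (K * (2 / δ + 1)) * ((m * X : ℝ) ^ (6 * δ) * B) := by
        rw [← Real.rpow_add hmX0, ← Real.rpow_add hmX0]
        congr 4
        ring
    _ ≤ C1 * (h0 * A) * (K * (2 / δ + 1)) * ((m * X : ℝ) ^ η * B) := by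
        refine mul_le_mul_of_nonneg_left ?_ (by positivity)
        refine mul_le_mul_of_nonneg_right ?_ (by positivity)
        exact Real.rpow_le_rpow_of_exponent_le hmX (by rw [hδ]; linarith)

end Pool.Agent.Y683.AA
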