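import Pool.Agent.Y683.AA.NFMain
import Pool.Agent.Y683.AA.SW5

/-!
The cyclic number fields attached to almost all Dirichlet characters: the twists of a newform by the
powers of a character.
-/

set_option autoImplicit false

open Finset

namespace Pool.Agent.Y683.AA

open Pool.Agent.TH940 (tot GH order_prim order_dvd)

open Classical in
lemma small_eq (N X : ℕ) (D : ℝ) : {x ∈ Prim N X | (orderOf x.2 : ℝ) ≤ D} =
    (((md N X).sigma fun q => (pc q).filter (fun χ => (orderOf χ : ℝ) ≤ D) : Finset _) :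
      Set (Σ q : ℕ, DirichletCharacter ℂ q)) := by
  ext x
  simp only [Prim, Set.mem_ofPred_eq, coe_sigma, Set.mem_sigma_iff, mem_coe, md, mem_filter,
    mem_Icc, mem_pc]
  tauto

/-- few primitive characters have small order -/
theorem dir_small {ε : ℝ} (hε : 0 < ε) : ∃ C c : ℝ, 0 < C ∧ 0 < c ∧ ∀ N X : ℕ, 1 ≤ X →
    ({x ∈ Prim N X | (orderOf x.2 : ℝ) ≤ (X : ℝ) ^ (1 - ε)}.ncard : ℝ) ≤
      C * (X : ℝ) ^ 2 * Real.exp (-c * cr X) := by
  classical
  set δ : ℝ := ε / 4 with hδ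
  have hδ0 : 0 < δ := by positivity
  obtain ⟨C1, hC1, ht, -⟩ := Pool.Agent.W216.CY.t_div δ hδ0
  obtain ⟨C2, c2, hC2, hc2, h2⟩ := carmichael_exc hδ0
  set c : ℝ := min c2 (ε / 2) with hc
  have hc0 : 0 < c := lt_min hc2 (by positivity)
  refine ⟨C2 + C1 * Real.exp (ε / 2), c, by positivity, hc0, fun N X hX => ?_⟩
  have hX1 : (1 : ℝ) ≤ X := by exact_mod_cast hX
  have hX0 : (0 : ℝ) < X := by linarith
  set D : ℝ := (X : ℝ) ^ (1 - ε) with hD
  have hD0 : 0 ≤ D := by positivity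
  set S : (q : ℕ) → Finset (DirichletCharacter ℂ q) :=
    fun q => (pc q).filter (fun χ => (orderOf χ : ℝ) ≤ D) with hS
  rw [small_eq, Set.ncard_coe_finset, card_sigma]
  push_cast
  -- the two bounds
  have htriv : ∀ q ∈ Icc 1 X, ((S q).card : ℝ) ≤ X := by
    intro q hq
    rw [mem_Icc] at hq
    have hNZ : NeZero q := ⟨by omega⟩
    have h1 : (S q).card ≤ Fintype.card (DirichletCharacter ℂ q) := card_le_univ _
    rw [card_char] at h1
    exact_mod_cast h1.trans ((Nat.totient_le q).trans hq.2)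
  have hgood : ∀ q ∈ Icc 1 X, ¬ (((ArithmeticFunction.carmichael q : ℕ) : ℝ) < (q : ℝ) ^ (1 - δ)) →
      ((S q).card : ℝ) ≤ C1 * (X : ℝ) ^ (1 - ε / 2) := by
    intro q hq hlam
    rw [mem_Icc] at hq
    push Not at hlam
    have hNZ : NeZero q := ⟨by omega⟩
    have hq1 : (1 : ℝ) ≤ q := by exact_mod_cast hq.1
    have hq0 : (0 : ℝ) < q := by linarith
    have hqX : (q : ℝ) ≤ X := by exact_mod_cast hq.2
    have h1 := card_small hD0 (S q) (fun χ hχ => (mem_filter.1 hχ).2)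
    have hl0 : (0 : ℝ) < (ArithmeticFunction.carmichael q : ℕ) := lt_of_lt_of_le (by positivity) hlam
    have hl1 : 1 ≤ ArithmeticFunction.carmichael q := by exact_mod_cast hl0
    have hlq : ((ArithmeticFunction.carmichael q : ℕ) : ℝ) ≤ X := by
      have h3 := Nat.le_of_dvd (Nat.totient_pos.2 hq.1) (ArithmeticFunction.carmichael_dvd_totient q)
      exact_mod_cast h3.trans ((Nat.totient_le q).trans hq.2)
    have htau : (((ArithmeticFunction.carmichael q).divisors.card : ℕ) : ℝ) ≤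
        C1 * (X : ℝ) ^ δ := by
      refine (ht _ hl1).trans ?_
      gcongr
    have h2 : ((S q).card : ℝ) * (q : ℝ) ^ (1 - δ) ≤ D * (C1 * (X : ℝ) ^ δ) * q := by
      calc ((S q).card : ℝ) * (q : ℝ) ^ (1 - δ) ≤
          (S q).card * (ArithmeticFunction.carmichael q : ℕ) :=
            mul_le_mul_of_nonneg_left hlam (Nat.cast_nonneg _)
        _ ≤ _ := h1
        _ ≤ _ := by gcongr
    have h3 : D * (C1 * (X : ℝ) ^ δ) * q = (C1 * (D * (X : ℝ) ^ δ * (q : ℝ) ^ δ)) *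
        (q : ℝ) ^ (1 - δ) := by
      have h4 : (q : ℝ) = (q : ℝ) ^ δ * (q : ℝ) ^ (1 - δ) := by
        rw [← Real.rpow_add hq0]
        norm_num
      nth_rewrite 1 [h4]
      ring
    rw [h3] at h2
    have h5 := le_of_mul_le_mul_right h2 (by positivity)
    refine h5.trans ?_
    refine mul_le_mul_of_nonneg_left ?_ hC1.le
    calc D * (X : ℝ) ^ δ * (q : ℝ) ^ δ ≤ D * (X : ℝ) ^ δ * (X : ℝ) ^ δ := by gcongr
      _ = (X : ℝ) ^ (1 - ε / 2) := by
          rw [hD, ← Real.rpow_add hX0, ← Real.rpow_add hX0]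
          congr 1
          rw [hδ]
          ring
  have hle : ∑ q ∈ md N X, ((S q).card : ℝ) ≤ ∑ q ∈ Icc 1 X, ((S q).card : ℝ) :=
    sum_le_sum_of_subset_of_nonneg (filter_subset _ _) fun _ _ _ => Nat.cast_nonneg _
  refine hle.trans ?_
  rw [← sum_filter_add_sum_filter_not (Icc 1 X)
    (fun q : ℕ => ((ArithmeticFunction.carmichael q : ℕ) : ℝ) < (q : ℝ) ^ (1 - δ))]
  have hE2 : Real.exp (-c2 * cr X) ≤ Real.exp (-c * cr X) := by
    refine Real.exp_le_exp.2 ?_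
    have := mul_le_mul_of_nonneg_right (min_le_left c2 (ε / 2)) (cr_nonneg X)
    linarith
  set B' : Finset ℕ := (Icc 1 X).filter
      (fun q : ℕ => ((ArithmeticFunction.carmichael q : ℕ) : ℝ) < (q : ℝ) ^ (1 - δ)) with hB'
  have hbad : ∑ q ∈ B', ((S q).card : ℝ) ≤ C2 * (X : ℝ) ^ 2 * Real.exp (-c * cr X) := by
    calc ∑ q ∈ B', ((S q).card : ℝ) ≤ ∑ q ∈ B', (X : ℝ) := by
          refine sum_le_sum fun q h => ?_
          rw [hB', mem_filter] at h
          exact htriv q h.1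
      _ = (B'.card : ℝ) * X := by rw [sum_const, nsmul_eq_mul]
      _ ≤ (C2 * X * Real.exp (-c2 * cr X)) * X :=
          mul_le_mul_of_nonneg_right (h2 X hX) hX0.le
      _ ≤ (C2 * X * Real.exp (-c * cr X)) * X := by gcongr
      _ = _ := by ring
  set B : Finset ℕ := (Icc 1 X).filter
      (fun q : ℕ => ¬ (((ArithmeticFunction.carmichael q : ℕ) : ℝ) < (q : ℝ) ^ (1 - δ))) with hB
  have hgd : ∑ q ∈ B, ((S q).card : ℝ) ≤
      C1 * Real.exp (ε / 2) * (X : ℝ) ^ 2 * Real.exp (-c * cr X) := by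
    calc ∑ q ∈ B, ((S q).card : ℝ) ≤ ∑ q ∈ B, C1 * (X : ℝ) ^ (1 - ε / 2) := by
          refine sum_le_sum fun q h => ?_
          rw [hB, mem_filter] at h
          exact hgood q h.1 h.2
      _ = (B.card : ℝ) * (C1 * (X : ℝ) ^ (1 - ε / 2)) := by
          rw [sum_const, nsmul_eq_mul]
      _ ≤ X * (C1 * (X : ℝ) ^ (1 - ε / 2)) := by
          refine mul_le_mul_of_nonneg_right ?_ (by positivity)
          have h9 : B.card ≤ (Icc 1 X).card := card_filter_le _ _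
          rw [Nat.card_Icc, Nat.add_sub_cancel] at h9
          exact_mod_cast h9
      _ = C1 * ((X : ℝ) ^ 2 * (X : ℝ) ^ (-(ε / 2))) := by
          have h3 : (X : ℝ) ^ (1 - ε / 2) = X * (X : ℝ) ^ (-(ε / 2)) := by
            nth_rewrite 2 [← Real.rpow_one (X : ℝ)]
            rw [← Real.rpow_add hX0]
            congr 1
          rw [h3]
          ring
      _ ≤ C1 * ((X : ℝ) ^ 2 * (Real.exp (ε / 2) * Real.exp (-c * cr X))) := by
          have := rpow_neg_le hX (a := ε / 2) (b := c) (by positivity) (min_le_right _ _)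
          gcongr
      _ = _ := by ring
  calc _ ≤ C2 * (X : ℝ) ^ 2 * Real.exp (-c * cr X) +
      C1 * Real.exp (ε / 2) * (X : ℝ) ^ 2 * Real.exp (-c * cr X) := add_le_add hbad hgd
    _ = _ := by ring

/-- comparison with the number of all primitive characters -/
theorem dir_absorb {N : ℕ} (hN : 1 ≤ N) {C1 c1 : ℝ} (hC1 : 0 < C1) (hc1 : 0 < c1) :
    ∃ C c : ℝ, 0 < C ∧ 0 < c ∧ ∀ X : ℕ, 1 ≤ X → ∀ S : ℝ,
      S ≤ C1 * (X : ℝ) ^ 2 * Real.exp (-c1 * cr X) →
      S ≤ C * Real.exp (-c * cr X) * ((Prim N X).ncard : ℝ) := by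
  obtain ⟨c2, hc2, h2⟩ := ncard_ge N hN
  obtain ⟨C3, hC3, h3⟩ := exp_absorb hc1
  refine ⟨C1 / c2 * C3, c1 / 2, by positivity, by positivity, fun X hX S hS => hS.trans ?_⟩
  have hX1 : (1 : ℝ) ≤ X := by exact_mod_cast hX
  have hX0 : (0 : ℝ) < X := by linarith
  have hlog : 0 ≤ Real.log X := Real.log_nonneg hX1
  have h4 := h2 X hX
  have h5 := h3 (cr X) (cr_nonneg X)
  rw [cr_pow] at h5
  have hE := (Real.exp_pos (-c1 * cr X)).le
  have h6 : (1 + Real.log X) ^ 2 ≤ (1 + Real.log X) ^ 3 :=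
    pow_le_pow_right₀ (by linarith) (by norm_num)
  have h7 : (0 : ℝ) < (1 + Real.log X) ^ 2 := by positivity
  calc C1 * (X : ℝ) ^ 2 * Real.exp (-c1 * cr X) =
      C1 / c2 * (c2 * ((X : ℝ) / (1 + Real.log X)) ^ 2) *
        ((1 + Real.log X) ^ 2 * Real.exp (-c1 * cr X)) := by
          rw [div_pow]
          field_simp
    _ ≤ C1 / c2 * ((Prim N X).ncard : ℝ) * ((1 + Real.log X) ^ 3 * Real.exp (-c1 * cr X)) := by
        gcongr
    _ ≤ C1 / c2 * ((Prim N X).ncard : ℝ) * (C3 * Real.exp (-(c1 / 2) * cr X)) :=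
        mul_le_mul_of_nonneg_left h5 (by positivity)
    _ = _ := by ring

/-- the order of a power -/
lemma ord_gcd {G : Type*} [Group G] (x : G) (j : ℕ) :
    orderOf (x ^ j) * Nat.gcd j (orderOf x) = orderOf x := by
  rcases Nat.eq_zero_or_pos j with rfl | hj
  · rw [pow_zero, orderOf_one, one_mul, Nat.gcd_zero_left]
  · rw [orderOf_pow' x hj.ne', Nat.gcd_comm j]
    exact Nat.div_mul_cancel (Nat.gcd_dvd_left _ _)

/-- the characters of small order or with a bad power -/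
def Bc (N : ℕ) (G : (q : ℕ) → DirichletCharacter ℂ q → ℕ) (η : ℝ) (X : ℕ) :
    Set (Σ q : ℕ, DirichletCharacter ℂ q) :=
  {x | x ∈ Prim N X ∧ ((orderOf x.2 : ℝ) ≤ (X : ℝ) ^ (1 - η) ∨ ∃ j : ℕ,
    (Nat.gcd j (orderOf x.2) : ℝ) ≤ (X : ℝ) ^ (1 / 4 - η) ∧
      G (x.2 ^ j).conductor (x.2 ^ j).primitiveCharacter ≠ 0)}

theorem bc_sub {N : ℕ} {K : ℝ} {G : (q : ℕ) → DirichletCharacter ℂ q → ℕ} (hG : GH N K G)
    {η : ℝ} (hη : 0 < η) : ∃ X1 : ℝ, ∀ X : ℕ, X1 ≤ X →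
      Bc N G η X ⊆ {x ∈ Prim N X | (orderOf x.2 : ℝ) ≤ (X : ℝ) ^ (1 - η / 2)} := by
  set δ : ℝ := η / 2 with hδ
  have hδ0 : 0 < δ := by positivity
  obtain ⟨q0, hq0⟩ := hG.nv δ hδ0
  obtain ⟨X1, hX1⟩ := Filter.eventually_atTop.1
    (((tendsto_rpow_atTop (y := 3 / 4) (by positivity)).eventually_ge_atTop q0).and
      ((tendsto_rpow_atTop (y := 3 / 4) (by positivity)).eventually_ge_atTop 2))
  refine ⟨max X1 1, fun X hXX => ?_⟩
  obtain ⟨g1, g2⟩ := hX1 X ((le_max_left _ _).trans hXX)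
  have hX1' : (1 : ℝ) ≤ X := (le_max_right _ _).trans hXX
  have hX0 : (0 : ℝ) < X := by linarith
  rintro ⟨q, χ⟩ ⟨hx, hbad⟩
  refine ⟨hx, ?_⟩
  simp only at hbad ⊢
  obtain ⟨hq1, hqX, hqN, hχ⟩ := hx
  simp only at hq1 hqX hqN hχ
  have hNZ : NeZero q := ⟨by omega⟩
  by_contra hcon
  push Not at hcon
  rcases hbad with h | ⟨j, hj, hne⟩
  · have : (X : ℝ) ^ (1 - η) ≤ (X : ℝ) ^ (1 - δ) :=
      Real.rpow_le_rpow_of_exponent_le hX1' (by rw [hδ]; linarith)
    linarith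
  apply hne
  have hn0 : 0 < orderOf χ := orderOf_pos χ
  have h1 := ord_gcd χ j
  set g : ℕ := Nat.gcd j (orderOf χ) with hg
  have hg0 : 0 < g := Nat.gcd_pos_of_pos_right _ hn0
  have h2 : (X : ℝ) ^ (3 / 4 + δ) < orderOf (χ ^ j) := by
    have h3 : (orderOf χ : ℝ) = orderOf (χ ^ j) * g := by exact_mod_cast h1.symm
    have h4 : (X : ℝ) ^ (1 - δ) < orderOf (χ ^ j) * (X : ℝ) ^ (1 / 4 - η) := by
      calc (X : ℝ) ^ (1 - δ) < orderOf χ := hcon
        _ = orderOf (χ ^ j) * g := h3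
        _ ≤ _ := mul_le_mul_of_nonneg_left hj (Nat.cast_nonneg _)
    have h5 : (X : ℝ) ^ (1 - δ) = (X : ℝ) ^ (3 / 4 + δ) * (X : ℝ) ^ (1 / 4 - η) := by
      rw [← Real.rpow_add hX0]
      congr 1
      rw [hδ]
      ring
    rw [h5] at h4
    exact lt_of_mul_lt_mul_right h4 (by positivity)
  have hc1 : 1 ≤ (χ ^ j).conductor := Nat.one_le_iff_ne_zero.2 (χ ^ j).conductor_ne_zero
  have hNZc : NeZero (χ ^ j).conductor := ⟨(χ ^ j).conductor_ne_zero⟩
  have hcq : (χ ^ j).conductor ≤ q := Nat.le_of_dvd hq1 (χ ^ j).conductor_dvd_level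
  have hoc : orderOf (χ ^ j) ≤ (χ ^ j).conductor := by
    rw [← order_prim]
    exact (Nat.le_of_dvd (Nat.totient_pos.2 hc1) (order_dvd (χ ^ j).primitiveCharacter)).trans
      (Nat.totient_le _)
  have hoc' : (orderOf (χ ^ j) : ℝ) ≤ (χ ^ j).conductor := by exact_mod_cast hoc
  have h34 : (X : ℝ) ^ (3 / 4 : ℝ) ≤ (X : ℝ) ^ (3 / 4 + δ) :=
    Real.rpow_le_rpow_of_exponent_le hX1' (by linarith)
  refine hq0 _ (by linarith) ?_ (Nat.Coprime.coprime_dvd_left (χ ^ j).conductor_dvd_level hqN) _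
    (χ ^ j).primitiveCharacter_isPrimitive ?_
  · have : (2 : ℝ) ≤ (χ ^ j).conductor := by linarith
    have : 2 ≤ (χ ^ j).conductor := by exact_mod_cast this
    omega
  · rw [order_prim]
    refine le_trans ?_ h2.le
    refine Real.rpow_le_rpow (Nat.cast_nonneg _) ?_ (by positivity)
    exact_mod_cast hcq.trans hqX

theorem bc_main {N : ℕ} (hN : 1 ≤ N) {K : ℝ} {G : (q : ℕ) → DirichletCharacter ℂ q → ℕ}
    (hG : GH N K G) {η : ℝ} (hη : 0 < η) : ∃ C c : ℝ, 0 < C ∧ 0 < c ∧ ∀ X : ℕ, 1 ≤ X →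
      (Set.ncard (Bc N G η X) : ℝ) ≤ C * Real.exp (-c * cr X) * ((Prim N X).ncard : ℝ) := by
  obtain ⟨X1, hX1⟩ := bc_sub hG hη
  obtain ⟨C1, c1, hC1, hc1, h1⟩ := dir_small (ε := η / 2) (by positivity)
  obtain ⟨C2, c2, hC2, hc2, h2⟩ := dir_absorb hN hC1 hc1
  obtain ⟨M, hM⟩ := exists_nat_ge X1
  refine ⟨C2 + Real.exp (c2 * cr M), c2, by positivity, hc2, fun X hX => ?_⟩
  have hfin := prim_finite N X
  have hsub : Bc N G η X ⊆ Prim N X := fun χ h => h.1
  have hle : (Set.ncard (Bc N G η X) : ℝ) ≤ ((Prim N X).ncard : ℝ) := by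
    exact_mod_cast Set.ncard_le_ncard hsub hfin
  have hpos : 0 < Real.exp (-c2 * cr X) := Real.exp_pos _
  have hn0 : (0 : ℝ) ≤ ((Prim N X).ncard : ℝ) := Nat.cast_nonneg _
  rcases le_or_gt X1 X with hXX | hXX
  · have h5 : (Set.ncard (Bc N G η X) : ℝ) ≤ C1 * (X : ℝ) ^ 2 * Real.exp (-c1 * cr X) := by
      refine le_trans ?_ (h1 N X hX)
      exact_mod_cast Set.ncard_le_ncard (hX1 X hXX) (hfin.subset fun x h => h.1)
    refine (h2 X hX _ h5).trans ?_
    have := (Real.exp_pos (c2 * cr M)).le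
    gcongr
    linarith
  · refine hle.trans ?_
    have h3 : (1 : ℝ) ≤ (C2 + Real.exp (c2 * cr M)) * Real.exp (-c2 * cr X) := by
      have h4 : cr X ≤ cr M := by
        unfold cr
        have hX0 : (0 : ℝ) < X := by exact_mod_cast hX
        have h5 : (X : ℝ) ≤ M := by linarith
        have h6 := Real.log_le_log hX0 h5
        exact Real.rpow_le_rpow (Real.log_natCast_nonneg X) h6 (by norm_num)
      have h5 : 1 ≤ Real.exp (c2 * cr M) * Real.exp (-c2 * cr X) := by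
        rw [← Real.exp_add]
        refine Real.one_le_exp ?_
        have := mul_le_mul_of_nonneg_left h4 hc2.le
        linarith
      have h6 : 0 ≤ C2 * Real.exp (-c2 * cr X) := by positivity
      linarith [add_mul C2 (Real.exp (c2 * cr M)) (Real.exp (-c2 * cr X))]
    calc ((Prim N X).ncard : ℝ) = 1 * ((Prim N X).ncard : ℝ) := (one_mul _).symm
      _ ≤ _ := mul_le_mul_of_nonneg_right h3 hn0

/-- **The total order over the powers of a Dirichlet character** -/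
theorem dir_total {N : ℕ} {K : ℝ} {G : (q : ℕ) → DirichletCharacter ℂ q → ℕ} (hG : GH N K G)
    {η : ℝ} (hη : 0 < η) : ∃ C : ℝ, 0 < C ∧ ∀ (q : ℕ) (χ : DirichletCharacter ℂ q), 1 ≤ q →
      Nat.Coprime q N → ((∑ j ∈ range (orderOf χ),
        G (χ ^ j).conductor (χ ^ j).primitiveCharacter : ℕ) : ℝ) ≤ C * (q : ℝ) ^ (3 / 4 + η) := by
  classical
  have hK := hG.pos
  set δ : ℝ := η / 3 with hδ
  have hδ0 : 0 < δ := by positivity
  obtain ⟨q1, hq1⟩ := hG.nv δ hδ0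
  set q0 : ℝ := max q1 2 with hq0
  have hq02 : (2 : ℝ) ≤ q0 := le_max_right _ _
  obtain ⟨C1, hC1, ht, -⟩ := Pool.Agent.W216.CY.t_div δ hδ0
  refine ⟨C1 * q0 * (K * (1 + 1 / δ)), by positivity, fun q χ hq hcopr => ?_⟩
  have hNZ : NeZero q := ⟨by omega⟩
  have hq1' : (1 : ℝ) ≤ q := by exact_mod_cast hq
  have hq0' : (0 : ℝ) < q := by linarith
  set n : ℕ := orderOf χ with hn
  have hn0 : 0 < n := orderOf_pos χ
  have hnq : n ≤ q := (Nat.le_of_dvd (Nat.totient_pos.2 hq) (order_dvd χ)).trans (Nat.totient_le q)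
  set Z : ℝ := q0 * (q : ℝ) ^ (3 / 4 + δ) with hZ
  have hq34 : 1 ≤ (q : ℝ) ^ (3 / 4 + δ) := Real.one_le_rpow hq1' (by positivity)
  have hcond : ∀ j : ℕ, 1 ≤ (χ ^ j).conductor ∧ (χ ^ j).conductor ≤ q ∧
      Nat.Coprime (χ ^ j).conductor N ∧ (χ ^ j).primitiveCharacter.IsPrimitive := by
    intro j
    exact ⟨Nat.one_le_iff_ne_zero.2 (χ ^ j).conductor_ne_zero,
      Nat.le_of_dvd hq (χ ^ j).conductor_dvd_level,
      Nat.Coprime.coprime_dvd_left (χ ^ j).conductor_dvd_level hcopr,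
      (χ ^ j).primitiveCharacter_isPrimitive⟩
  have hzero : ∀ j ∈ range n, ¬ ((orderOf (χ ^ j) : ℝ) ≤ Z) →
      G (χ ^ j).conductor (χ ^ j).primitiveCharacter = 0 := by
    intro j _ hjZ
    push Not at hjZ
    obtain ⟨h1, h2, h3, h4⟩ := hcond j
    have hNZc : NeZero (χ ^ j).conductor := ⟨(χ ^ j).conductor_ne_zero⟩
    have hoc : orderOf (χ ^ j) ≤ (χ ^ j).conductor := by
      rw [← order_prim]
      exact (Nat.le_of_dvd (Nat.totient_pos.2 h1) (order_dvd (χ ^ j).primitiveCharacter)).trans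
        (Nat.totient_le _)
    have hoc' : (orderOf (χ ^ j) : ℝ) ≤ (χ ^ j).conductor := by exact_mod_cast hoc
    have hZq : q0 ≤ Z := by
      rw [hZ]
      exact le_mul_of_one_le_right (by linarith) hq34
    refine hq1 _ ((le_max_left _ _).trans (hZq.trans (hjZ.le.trans hoc'))) ?_ h3 _ h4 ?_
    · have : (2 : ℝ) ≤ (χ ^ j).conductor := hq02.trans (hZq.trans (hjZ.le.trans hoc'))
      have : 2 ≤ (χ ^ j).conductor := by exact_mod_cast this
      omega
    · rw [order_prim]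
      refine le_trans ?_ hjZ.le
      calc (((χ ^ j).conductor : ℕ) : ℝ) ^ (3 / 4 + δ) ≤ (q : ℝ) ^ (3 / 4 + δ) :=
            Real.rpow_le_rpow (Nat.cast_nonneg _) (by exact_mod_cast h2) (by positivity)
        _ = 1 * (q : ℝ) ^ (3 / 4 + δ) := (one_mul _).symm
        _ ≤ Z := by rw [hZ]; gcongr; linarith
  have hterm : ∀ j ∈ range n, ((G (χ ^ j).conductor (χ ^ j).primitiveCharacter : ℕ) : ℝ) ≤
      K * (1 + 1 / δ) * (q : ℝ) ^ δ := by
    intro j _
    obtain ⟨h1, h2, h3, h4⟩ := hcond j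
    refine (hG.bd _ _ h1 h3 h4).trans ?_
    have h5 : Real.log (χ ^ j).conductor ≤ Real.log q :=
      Real.log_le_log (by exact_mod_cast h1) (by exact_mod_cast h2)
    have h6 : Real.log q ≤ (q : ℝ) ^ δ / δ := Real.log_le_rpow_div (by linarith) hδ0
    have h7 : 1 ≤ (q : ℝ) ^ δ := Real.one_le_rpow hq1' hδ0.le
    have h8 : 1 + Real.log (χ ^ j).conductor ≤ (1 + 1 / δ) * (q : ℝ) ^ δ := by
      have : (1 + 1 / δ) * (q : ℝ) ^ δ = (q : ℝ) ^ δ + (q : ℝ) ^ δ / δ := by ring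
      rw [this]; linarith
    calc K * (1 + Real.log (χ ^ j).conductor) ≤ K * ((1 + 1 / δ) * (q : ℝ) ^ δ) :=
          mul_le_mul_of_nonneg_left h8 hK.le
      _ = _ := by ring
  have hcard := card_pow_small (F := χ) (h0 := 1) (n := n) hn0 (by rw [one_mul]) (Z := Z)
    (by positivity)
  rw [Nat.cast_one, one_mul] at hcard
  have htau : ((n.divisors.card : ℕ) : ℝ) ≤ C1 * (q : ℝ) ^ δ := by
    refine (ht _ hn0).trans ?_
    have : (n : ℝ) ≤ q := by exact_mod_cast hnq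
    gcongr
  have hsum : ((∑ j ∈ range n, G (χ ^ j).conductor (χ ^ j).primitiveCharacter : ℕ) : ℝ) ≤
      (((range n).filter (fun j => (orderOf (χ ^ j) : ℝ) ≤ Z)).card : ℝ) *
        (K * (1 + 1 / δ) * (q : ℝ) ^ δ) := by
    rw [← sum_filter_add_sum_filter_not (range n) (fun j => (orderOf (χ ^ j) : ℝ) ≤ Z)]
    have h1 : ∑ j ∈ (range n).filter (fun j => ¬ (orderOf (χ ^ j) : ℝ) ≤ Z),
        G (χ ^ j).conductor (χ ^ j).primitiveCharacter = 0 := by
      refine sum_eq_zero fun j hj => ?_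
      rw [mem_filter] at hj
      exact hzero j hj.1 hj.2
    rw [h1, add_zero]
    push_cast
    rw [← nsmul_eq_mul, ← sum_const]
    refine sum_le_sum fun j hj => ?_
    rw [mem_filter] at hj
    exact hterm j hj.1
  refine hsum.trans ?_
  calc _ ≤ ((C1 * (q : ℝ) ^ δ) * Z) * (K * (1 + 1 / δ) * (q : ℝ) ^ δ) := by
        refine mul_le_mul_of_nonneg_right (hcard.trans ?_) (by positivity)
        exact mul_le_mul_of_nonneg_right htau (by positivity)
    _ = C1 * q0 * (K * (1 + 1 / δ)) * ((q : ℝ) ^ δ * (q : ℝ) ^ (3 / 4 + δ) * (q : ℝ) ^ δ) := by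
        rw [hZ]; ring
    _ = C1 * q0 * (K * (1 + 1 / δ)) * (q : ℝ) ^ (3 / 4 + η) := by
        rw [← Real.rpow_add hq0', ← Real.rpow_add hq0']
        congr 2
        rw [hδ]
        ring

end Pool.Agent.Y683.AA
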