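import Mathlib

/-!
Counting the integers with many divisors, with a large square divisor, or with two prime divisors `p`,
`p'` such that `p - 1` and `p' - 1` have a large common divisor.
-/

set_option autoImplicit false

namespace Pool.Agent.Y683.AA

open Finset

/-- the number of multiples -/
lemma card_mult (X d : ℕ) : (((Icc 1 X).filter (fun q => d ∣ q)).card : ℝ) ≤ X / d := by
  have h : ((Icc 1 X).filter (fun q => d ∣ q)).card = X / d := by
    have h1 := Nat.card_multiples X d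
    rw [← h1]
    symm
    refine card_bij (fun i _ => i + 1) ?_ ?_ ?_
    · intro i hi
      rw [mem_filter, mem_range] at hi
      rw [mem_filter, mem_Icc]
      exact ⟨⟨by omega, by omega⟩, hi.2⟩
    · intro a _ b _ hab
      omega
    · intro b hb
      rw [mem_filter, mem_Icc] at hb
      obtain ⟨⟨h1, h2⟩, h3⟩ := hb
      refine ⟨b - 1, ?_, by omega⟩
      rw [mem_filter, mem_range]
      refine ⟨by omega, ?_⟩
      rw [show b - 1 + 1 = b by omega]
      exact h3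
  rw [h]
  exact Nat.cast_div_le

lemma sum_inv_le (X : ℕ) : ∑ u ∈ Icc 1 X, (1 : ℝ) / u ≤ 1 + Real.log X := by
  have h := harmonic_le_one_add_log X
  have h2 : ((harmonic X : ℚ) : ℝ) = ∑ u ∈ Icc 1 X, (1 : ℝ) / u := by
    rw [harmonic_eq_sum_Icc]
    push_cast
    refine sum_congr rfl fun i _ => by rw [one_div]
  rw [← h2]
  exact h

/-- `∑_{g < b ≤ X} 1/b² ≤ 1/g` -/
lemma sum_inv_sq_le (X g : ℕ) (hg : 1 ≤ g) :
    ∑ b ∈ Icc (g + 1) X, (1 : ℝ) / (b : ℝ) ^ 2 ≤ 1 / g := by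
  have hg0 : (0 : ℝ) < g := by exact_mod_cast hg
  suffices h : ∀ n : ℕ, ∑ b ∈ Icc (g + 1) (g + n), (1 : ℝ) / (b : ℝ) ^ 2 ≤
      1 / g - 1 / ((g + n : ℕ) : ℝ) by
    rcases le_or_gt g X with hX | hX
    · obtain ⟨n, rfl⟩ := Nat.exists_eq_add_of_le hX
      refine (h n).trans ?_
      have : (0 : ℝ) ≤ 1 / ((g + n : ℕ) : ℝ) := by positivity
      linarith
    · rw [Icc_eq_empty (by omega)]
      simp
  intro n
  induction n with
  | zero =>
    rw [Icc_eq_empty (by omega)]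
    simp
  | succ n ih =>
    rw [show g + (n + 1) = (g + n) + 1 by ring, sum_Icc_succ_top (by omega)]
    have h0 : (0 : ℝ) < ((g + n : ℕ) : ℝ) := by
      have : 0 < g + n := by omega
      exact_mod_cast this
    have h1 : (1 : ℝ) / (((g + n + 1 : ℕ) : ℝ)) ^ 2 ≤
        1 / ((g + n : ℕ) : ℝ) - 1 / ((g + n + 1 : ℕ) : ℝ) := by
      have e : (((g + n + 1 : ℕ) : ℝ)) = ((g + n : ℕ) : ℝ) + 1 := by push_cast; ring
      rw [e, div_sub_div _ _ h0.ne' (by positivity), div_le_div_iff₀ (by positivity) (by positivity)]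
      nlinarith
    linarith

open Classical in
/-- integers with a large square divisor -/
lemma card_sq (X B : ℕ) (hB : 1 ≤ B) :
    (((Icc 1 X).filter (fun q => ∃ b, B < b ∧ b ^ 2 ∣ q)).card : ℝ) ≤ X / B := by
  have hsub : (Icc 1 X).filter (fun q => ∃ b, B < b ∧ b ^ 2 ∣ q) ⊆
      (Icc (B + 1) X).biUnion (fun b => (Icc 1 X).filter (fun q => b ^ 2 ∣ q)) := by
    intro q hq
    rw [mem_filter, mem_Icc] at hq
    obtain ⟨⟨h1, h2⟩, b, h3, h4⟩ := hq
    rw [mem_biUnion]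
    refine ⟨b, ?_, ?_⟩
    · rw [mem_Icc]
      refine ⟨h3, ?_⟩
      have h5 := Nat.le_of_dvd (by omega) h4
      nlinarith
    · rw [mem_filter, mem_Icc]
      exact ⟨⟨h1, h2⟩, h4⟩
  calc (((Icc 1 X).filter (fun q => ∃ b, B < b ∧ b ^ 2 ∣ q)).card : ℝ) ≤
      ∑ b ∈ Icc (B + 1) X, (((Icc 1 X).filter (fun q => b ^ 2 ∣ q)).card : ℝ) := by
        exact_mod_cast (card_le_card hsub).trans card_biUnion_le
    _ ≤ ∑ b ∈ Icc (B + 1) X, (X : ℝ) * (1 / (b : ℝ) ^ 2) := by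
        refine sum_le_sum fun b _ => ?_
        have := card_mult X (b ^ 2)
        push_cast at this
        rw [mul_one_div]
        exact this
    _ = (X : ℝ) * ∑ b ∈ Icc (B + 1) X, 1 / (b : ℝ) ^ 2 := by rw [mul_sum]
    _ ≤ X * (1 / B) := mul_le_mul_of_nonneg_left (sum_inv_sq_le X B hB) (Nat.cast_nonneg _)
    _ = X / B := by rw [mul_one_div]

/-- the mean value of the divisor function -/
lemma sum_tau (X : ℕ) : ∑ q ∈ Icc 1 X, (q.divisors.card : ℝ) ≤ X * (1 + Real.log X) := by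
  classical
  have h1 : ∀ q ∈ Icc 1 X, (q.divisors.card : ℝ) = ∑ d ∈ Icc 1 X, if d ∣ q then (1 : ℝ) else 0 := by
    intro q hq
    rw [mem_Icc] at hq
    rw [← sum_filter, sum_const, nsmul_eq_mul, mul_one]
    congr 2
    ext d
    rw [Nat.mem_divisors, mem_filter, mem_Icc]
    constructor
    · rintro ⟨h2, h3⟩
      exact ⟨⟨Nat.pos_of_dvd_of_pos h2 (by omega), (Nat.le_of_dvd (by omega) h2).trans hq.2⟩, h2⟩
    · rintro ⟨-, h2⟩
      exact ⟨h2, by omega⟩
  rw [sum_congr rfl h1, sum_comm]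
  calc ∑ d ∈ Icc 1 X, ∑ q ∈ Icc 1 X, (if d ∣ q then (1 : ℝ) else 0) ≤
      ∑ d ∈ Icc 1 X, (X : ℝ) * (1 / d) := by
        refine sum_le_sum fun d _ => ?_
        rw [← sum_filter, sum_const, nsmul_eq_mul, mul_one, mul_one_div]
        exact card_mult X d
    _ = (X : ℝ) * ∑ d ∈ Icc 1 X, 1 / (d : ℝ) := by rw [mul_sum]
    _ ≤ _ := mul_le_mul_of_nonneg_left (sum_inv_le X) (Nat.cast_nonneg _)

/-- integers with many divisors -/
lemma card_tau (X K : ℕ) :
    (((Icc 1 X).filter (fun q => 2 ^ K ≤ q.divisors.card)).card : ℝ) ≤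
      X * (1 + Real.log X) / 2 ^ K := by
  classical
  rw [le_div_iff₀ (by positivity)]
  calc (((Icc 1 X).filter (fun q => 2 ^ K ≤ q.divisors.card)).card : ℝ) * 2 ^ K =
      ∑ q ∈ (Icc 1 X).filter (fun q => 2 ^ K ≤ q.divisors.card), (2 : ℝ) ^ K := by
        rw [sum_const, nsmul_eq_mul]
    _ ≤ ∑ q ∈ (Icc 1 X).filter (fun q => 2 ^ K ≤ q.divisors.card), (q.divisors.card : ℝ) := by
        refine sum_le_sum fun q hq => ?_
        have := (mem_filter.1 hq).2
        exact_mod_cast this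
    _ ≤ ∑ q ∈ Icc 1 X, (q.divisors.card : ℝ) :=
        sum_le_sum_of_subset_of_nonneg (filter_subset _ _) fun _ _ _ => Nat.cast_nonneg _
    _ ≤ _ := sum_tau X

open Classical in
/-- integers with two prime divisors `p`, `p'` with `gcd(p - 1, p' - 1)` large -/
lemma card_gcd (X g : ℕ) (hg : 1 ≤ g) :
    (((Icc 1 X).filter (fun q => ∃ p p' : ℕ, p.Prime ∧ p'.Prime ∧ p ≠ p' ∧ p ∣ q ∧ p' ∣ q ∧
      g < Nat.gcd (p - 1) (p' - 1))).card : ℝ) ≤ X * (1 + Real.log X) ^ 2 / g := by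
  have hsub : (Icc 1 X).filter (fun q => ∃ p p' : ℕ, p.Prime ∧ p'.Prime ∧ p ≠ p' ∧ p ∣ q ∧
      p' ∣ q ∧ g < Nat.gcd (p - 1) (p' - 1)) ⊆
      ((Icc (g + 1) X) ×ˢ ((Icc 1 X) ×ˢ (Icc 1 X))).biUnion
        (fun t => (Icc 1 X).filter (fun q => (t.1 * t.2.1 + 1) * (t.1 * t.2.2 + 1) ∣ q)) := by
    intro q hq
    rw [mem_filter, mem_Icc] at hq
    obtain ⟨⟨h1, h2⟩, p, p', hp, hp', hne, hpq, hpq', hgt⟩ := hq
    set d := Nat.gcd (p - 1) (p' - 1) with hd
    obtain ⟨u, hu⟩ : d ∣ p - 1 := Nat.gcd_dvd_left _ _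
    obtain ⟨v, hv⟩ : d ∣ p' - 1 := Nat.gcd_dvd_right _ _
    have hp2 := hp.two_le
    have hp2' := hp'.two_le
    have hd0 : 0 < d := by omega
    have hu0 : 0 < u := by
      rcases Nat.eq_zero_or_pos u with h | h
      · rw [h, mul_zero] at hu; omega
      · exact h
    have hv0 : 0 < v := by
      rcases Nat.eq_zero_or_pos v with h | h
      · rw [h, mul_zero] at hv; omega
      · exact h
    have hpX : p ≤ X := (Nat.le_of_dvd (by omega) hpq).trans h2
    have hpX' : p' ≤ X := (Nat.le_of_dvd (by omega) hpq').trans h2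
    have hdu : d ≤ d * u := Nat.le_mul_of_pos_right d hu0
    have huu : u ≤ d * u := Nat.le_mul_of_pos_left u hd0
    have hvv : v ≤ d * v := Nat.le_mul_of_pos_left v hd0
    rw [mem_biUnion]
    refine ⟨(d, (u, v)), ?_, ?_⟩
    · simp only [mem_product, mem_Icc]
      refine ⟨⟨by omega, by omega⟩, ⟨by omega, by omega⟩, ⟨by omega, by omega⟩⟩
    · simp only [mem_filter, mem_Icc]
      refine ⟨⟨h1, h2⟩, ?_⟩
      have e1 : d * u + 1 = p := by omega
      have e2 : d * v + 1 = p' := by omega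
      rw [e1, e2]
      exact Nat.Coprime.mul_dvd_of_dvd_of_dvd ((Nat.coprime_primes hp hp').2 hne) hpq hpq'
  have hL : 0 ≤ 1 + Real.log X := by
    have : 0 ≤ Real.log X := Real.log_natCast_nonneg X
    linarith
  calc (((Icc 1 X).filter (fun q => ∃ p p' : ℕ, p.Prime ∧ p'.Prime ∧ p ≠ p' ∧ p ∣ q ∧ p' ∣ q ∧
      g < Nat.gcd (p - 1) (p' - 1))).card : ℝ) ≤
      ∑ t ∈ (Icc (g + 1) X) ×ˢ ((Icc 1 X) ×ˢ (Icc 1 X)),
        (((Icc 1 X).filter (fun q => (t.1 * t.2.1 + 1) * (t.1 * t.2.2 + 1) ∣ q)).card : ℝ) := by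
        exact_mod_cast (card_le_card hsub).trans card_biUnion_le
    _ ≤ ∑ t ∈ (Icc (g + 1) X) ×ˢ ((Icc 1 X) ×ˢ (Icc 1 X)),
        (X : ℝ) * ((1 / (t.1 : ℝ) ^ 2) * ((1 / (t.2.1 : ℝ)) * (1 / (t.2.2 : ℝ)))) := by
        refine sum_le_sum fun t ht => ?_
        simp only [mem_product, mem_Icc] at ht
        obtain ⟨⟨h1, h2⟩, ⟨h3, h4⟩, h5, h6⟩ := ht
        have k1 : (0 : ℝ) < t.1 := by
          have : 0 < t.1 := by omega
          exact_mod_cast this
        have k2 : (0 : ℝ) < t.2.1 := by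
          have : 0 < t.2.1 := by omega
          exact_mod_cast this
        have k3 : (0 : ℝ) < t.2.2 := by
          have : 0 < t.2.2 := by omega
          exact_mod_cast this
        refine (card_mult X _).trans ?_
        rw [div_mul_div_comm, div_mul_div_comm, mul_one, mul_one, mul_one_div]
        refine div_le_div_of_nonneg_left (Nat.cast_nonneg _) (by positivity) ?_
        push_cast
        nlinarith [mul_pos k1 k2, mul_pos k1 k3]
    _ = (X : ℝ) * ((∑ d ∈ Icc (g + 1) X, 1 / (d : ℝ) ^ 2) *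
          ((∑ u ∈ Icc 1 X, 1 / (u : ℝ)) * (∑ v ∈ Icc 1 X, 1 / (v : ℝ)))) := by
        rw [← mul_sum, sum_mul_sum, ← sum_product', sum_mul_sum, ← sum_product']
    _ ≤ (X : ℝ) * ((1 / g) * ((1 + Real.log X) * (1 + Real.log X))) := by
        refine mul_le_mul_of_nonneg_left ?_ (Nat.cast_nonneg _)
        have h1 := sum_inv_sq_le X g hg
        have h2 := sum_inv_le X
        have h3 : 0 ≤ ∑ u ∈ Icc 1 X, 1 / (u : ℝ) := sum_nonneg fun _ _ => by positivity
        have h4 : 0 ≤ ∑ d ∈ Icc (g + 1) X, 1 / (d : ℝ) ^ 2 := sum_nonneg fun _ _ => by positivity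
        gcongr
    _ = _ := by ring

end Pool.Agent.Y683.AA
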