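import Pool.Agent.Y683.AA.Grp
import Pool.Agent.Y683.AA.Cnt

/-!
Almost all integers `q` have exactly dividing primes `p` with `lcm (p - 1) ≥ q^(1 - δ)`; the
exceptional set up to `X` has at most `C X exp(-c (log X)^(1/3))` elements.
-/

set_option autoImplicit false

namespace Pool.Agent.Y683.AA

open Finset

/-- the combinatorial part -/
theorem lcm_lower {q K g B : ℕ} (hq : 1 ≤ q) (hg : 1 ≤ g) (h1 : q.divisors.card < 2 ^ K)
    (h2 : ∀ b : ℕ, b ^ 2 ∣ q → b ≤ B)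
    (h3 : ∀ p p' : ℕ, p.Prime → p'.Prime → p ≠ p' → p ∣ q → p' ∣ q →
      Nat.gcd (p - 1) (p' - 1) ≤ g) :
    ∃ S : Finset ℕ, (∀ p ∈ S, p.Prime ∧ p ∣ q ∧ ¬ p ^ 2 ∣ q) ∧
      q ≤ B ^ 3 * 2 ^ K * g ^ (K * K) * S.lcm (fun p => p - 1) := by
  classical
  obtain ⟨a, b, hab, hsq⟩ := Nat.sq_mul_squarefree q
  have ha0 : a ≠ 0 := fun h => by simp [h] at hab; omega
  have hb0 : b ≠ 0 := fun h => by simp [h] at hab; omega
  have hbB : b ≤ B := h2 b ⟨a, hab.symm⟩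
  have haq : a ∣ q := ⟨b ^ 2, by rw [← hab]; ring⟩
  set S := a.primeFactors.filter (fun p => ¬ p ∣ b) with hS
  set T := a.primeFactors.filter (fun p => p ∣ b) with hT
  have hSp : ∀ p ∈ S, p.Prime ∧ p ∣ q ∧ ¬ p ^ 2 ∣ q := by
    intro p hp
    rw [hS, mem_filter, Nat.mem_primeFactors] at hp
    obtain ⟨⟨hp1, hp2, -⟩, hp3⟩ := hp
    refine ⟨hp1, hp2.trans haq, fun h4 => ?_⟩
    rw [← hab] at h4
    have hcop : Nat.Coprime (p ^ 2) (b ^ 2) :=
      Nat.Coprime.pow 2 2 ((Nat.Prime.coprime_iff_not_dvd hp1).2 hp3)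
    have h5 : p ^ 2 ∣ a := hcop.dvd_of_dvd_mul_left h4
    rw [pow_two] at h5
    have h6 := hsq p h5
    rw [Nat.isUnit_iff] at h6
    exact hp1.one_lt.ne' h6
  have hT1 : ∏ p ∈ T, p ≤ b := by
    refine Nat.le_of_dvd (Nat.pos_of_ne_zero hb0) ?_
    refine Finset.prod_primes_dvd b ?_ ?_
    · intro p hp
      rw [hT, mem_filter, Nat.mem_primeFactors] at hp
      exact hp.1.1.prime
    · intro p hp
      rw [hT, mem_filter] at hp
      exact hp.2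
  have hprod : a = (∏ p ∈ S, p) * ∏ p ∈ T, p := by
    have h4 := Nat.prod_primeFactors_of_squarefree hsq
    rw [← prod_filter_mul_prod_filter_not a.primeFactors (fun p => ¬ p ∣ b)] at h4
    rw [← hS] at h4
    have h5 : a.primeFactors.filter (fun p => ¬ ¬ p ∣ b) = T := by
      rw [hT]
      refine filter_congr fun x _ => by simp
    rw [h5] at h4
    exact h4.symm
  have hcard : S.card ≤ K := by
    have h4 : 2 ^ S.card ≤ q.divisors.card := by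
      rw [Nat.card_divisors (by omega)]
      have h5 : S ⊆ q.primeFactors := by
        intro p hp
        obtain ⟨k1, k2, -⟩ := hSp p hp
        exact Nat.mem_primeFactors.2 ⟨k1, k2, by omega⟩
      calc 2 ^ S.card ≤ 2 ^ q.primeFactors.card :=
            Nat.pow_le_pow_right (by norm_num) (card_le_card h5)
        _ = ∏ p ∈ q.primeFactors, 2 := by rw [prod_const]
        _ ≤ _ := by
            refine prod_le_prod (fun _ _ => by norm_num) fun p hp => ?_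
            have h6 : 1 ≤ q.factorization p := by
              rw [Nat.mem_primeFactors] at hp
              exact (hp.1.dvd_iff_one_le_factorization hp.2.2).1 hp.2.1
            omega
    have h5 : 2 ^ S.card < 2 ^ K := lt_of_le_of_lt h4 h1
    exact ((Nat.pow_lt_pow_iff_right (by norm_num)).1 h5).le
  have hS1 : ∏ p ∈ S, p ≤ 2 ^ S.card * ∏ p ∈ S, (p - 1) := by
    calc ∏ p ∈ S, p ≤ ∏ p ∈ S, (2 * (p - 1)) := by
          refine prod_le_prod (fun _ _ => Nat.zero_le _) fun p hp => ?_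
          have := (hSp p hp).1.two_le
          omega
      _ = _ := by rw [prod_mul_distrib, prod_const]
  have hS2 : ∏ p ∈ S, (p - 1) ≤ S.lcm (fun p => p - 1) * g ^ (S.card * S.card) := by
    refine prod_le_lcm S (fun p => p - 1) hg (fun p hp => ?_) (fun p hp p' hp' hne => ?_)
    · have := (hSp p hp).1.two_le
      omega
    · exact h3 p p' (hSp p hp).1 (hSp p' hp').1 hne (hSp p hp).2.1 (hSp p' hp').2.1
  refine ⟨S, hSp, ?_⟩
  calc q = b ^ 2 * ((∏ p ∈ S, p) * ∏ p ∈ T, p) := by rw [← hprod, hab]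
    _ ≤ b ^ 2 * ((2 ^ S.card * (S.lcm (fun p => p - 1) * g ^ (S.card * S.card))) * b) := by
        refine Nat.mul_le_mul_left _ (Nat.mul_le_mul ?_ hT1)
        exact hS1.trans (Nat.mul_le_mul_left _ hS2)
    _ = b ^ 3 * 2 ^ S.card * g ^ (S.card * S.card) * S.lcm (fun p => p - 1) := by ring
    _ ≤ B ^ 3 * 2 ^ K * g ^ (K * K) * S.lcm (fun p => p - 1) := by
        refine Nat.mul_le_mul_right _ ?_
        refine Nat.mul_le_mul (Nat.mul_le_mul ?_ ?_) ?_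
        · exact Nat.pow_le_pow_left hbB 3
        · exact Nat.pow_le_pow_right (by norm_num) hcard
        · exact Nat.pow_le_pow_right hg (Nat.mul_le_mul hcard hcard)

/-- the lcm of the `p - 1` divides the Carmichael function -/
theorem lcm_dvd_carmichael {q : ℕ} {S : Finset ℕ} (hS : ∀ p ∈ S, p.Prime ∧ p ∣ q) :
    S.lcm (fun p => p - 1) ∣ ArithmeticFunction.carmichael q := by
  refine Finset.lcm_dvd fun p hp => ?_
  obtain ⟨h1, h2⟩ := hS p hp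
  have h3 := ArithmeticFunction.carmichael_dvd h2
  have : Fact p.Prime := ⟨h1⟩
  have h4 : ArithmeticFunction.carmichael p = p - 1 := by
    rw [ArithmeticFunction.carmichael_eq_exponent h1.ne_zero,
      IsCyclic.exponent_eq_card, Nat.card_eq_fintype_card, ZMod.card_units p]
  rw [← h4]
  exact h3

/-! ### The choice of the parameters -/

lemma poly_le {a δ u : ℝ} (hδ : 0 < δ) (hu : 0 ≤ u) (ha : 0 ≤ a) (hδ1 : δ ≤ 1) (ha1 : 1 ≤ a) :
    a * u ≤ δ * u ^ 3 + a * (a / δ) := by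
  rcases le_or_gt u (a / δ) with h | h
  · have h1 : 0 ≤ δ * u ^ 3 := by positivity
    have h2 : a * u ≤ a * (a / δ) := mul_le_mul_of_nonneg_left h ha
    linarith
  · have h1 : a < u * δ := (div_lt_iff₀ hδ).1 h
    have h3 : 0 ≤ a * (a / δ) := by positivity
    have h4 : 1 ≤ u := by nlinarith
    have h5 : a * u ≤ δ * u ^ 3 := by
      have : a * u ≤ (u * δ) * u := mul_le_mul_of_nonneg_right h1.le hu
      have h6 : u ^ 2 ≤ u ^ 3 := pow_le_pow_right₀ h4 (by norm_num)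
      nlinarith
    linarith

lemma poly_le2 {a δ u : ℝ} (hδ : 0 < δ) (hu : 0 ≤ u) (ha : 0 ≤ a) :
    a * u ^ 2 ≤ δ * u ^ 3 + a * (a / δ) ^ 2 := by
  rcases le_or_gt u (a / δ) with h | h
  · have h1 : 0 ≤ δ * u ^ 3 := by positivity
    have h2 : a * u ^ 2 ≤ a * (a / δ) ^ 2 :=
      mul_le_mul_of_nonneg_left (pow_le_pow_left₀ hu h 2) ha
    linarith
  · have h1 : a < u * δ := (div_lt_iff₀ hδ).1 h
    have h3 : 0 ≤ a * (a / δ) ^ 2 := by positivity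
    have h5 : a * u ^ 2 ≤ δ * u ^ 3 := by
      have : a * u ^ 2 ≤ (u * δ) * u ^ 2 := mul_le_mul_of_nonneg_right h1.le (by positivity)
      nlinarith
    linarith

/-- the size of the parameters -/
theorem param {δ : ℝ} (hδ : 0 < δ) (hδ1 : δ ≤ 1) : ∃ C : ℝ, 0 < C ∧ ∀ u : ℝ, 0 ≤ u →
    ((⌈Real.exp (δ * u ^ 3)⌉₊ : ℕ) : ℝ) ^ 3 * 2 ^ ⌈u⌉₊ *
      ((⌈Real.exp (δ * u)⌉₊ : ℕ) : ℝ) ^ (⌈u⌉₊ * ⌈u⌉₊) ≤ C * Real.exp (9 * δ * u ^ 3) := by
  refine ⟨8 * Real.exp (1 + 1 / δ) * Real.exp (1 + 3 * (3 / δ) ^ 2 + 3 * (3 / δ)), by positivity,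
    fun u hu => ?_⟩
  have hceil : ∀ x : ℝ, 0 ≤ x → ((⌈Real.exp x⌉₊ : ℕ) : ℝ) ≤ 2 * Real.exp x := by
    intro x hx
    have h1 := (Nat.ceil_lt_add_one (Real.exp_pos x).le).le
    have h2 : 1 ≤ Real.exp x := Real.one_le_exp hx
    linarith
  have hK : ((⌈u⌉₊ : ℕ) : ℝ) ≤ u + 1 := (Nat.ceil_lt_add_one hu).le
  have h1 : ((⌈Real.exp (δ * u ^ 3)⌉₊ : ℕ) : ℝ) ^ 3 ≤ 8 * Real.exp (3 * δ * u ^ 3) := by
    have h2 := hceil (δ * u ^ 3) (by positivity)
    calc ((⌈Real.exp (δ * u ^ 3)⌉₊ : ℕ) : ℝ) ^ 3 ≤ (2 * Real.exp (δ * u ^ 3)) ^ 3 :=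
          pow_le_pow_left₀ (Nat.cast_nonneg _) h2 3
      _ = 8 * Real.exp (3 * δ * u ^ 3) := by
          rw [mul_pow, ← Real.exp_nat_mul]
          push_cast
          ring_nf
  have hlog2 : Real.log 2 ≤ 1 := by
    have := Real.log_two_lt_d9
    linarith
  have hlog20 : 0 ≤ Real.log 2 := Real.log_nonneg (by norm_num)
  have h2 : (2 : ℝ) ^ ⌈u⌉₊ ≤ Real.exp (1 + 1 / δ) * Real.exp (δ * u ^ 3) := by
    have e : (2 : ℝ) ^ ⌈u⌉₊ = Real.exp (⌈u⌉₊ * Real.log 2) := by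
      rw [mul_comm, ← Real.rpow_def_of_pos (by norm_num), Real.rpow_natCast]
    rw [e, ← Real.exp_add]
    refine Real.exp_le_exp.2 ?_
    have h3 := poly_le (a := 1) hδ hu zero_le_one hδ1 le_rfl
    have h4 : ((⌈u⌉₊ : ℕ) : ℝ) * Real.log 2 ≤ (u + 1) * 1 :=
      mul_le_mul hK hlog2 hlog20 (by linarith)
    linarith
  have h3 : ((⌈Real.exp (δ * u)⌉₊ : ℕ) : ℝ) ^ (⌈u⌉₊ * ⌈u⌉₊) ≤
      Real.exp (1 + 3 * (3 / δ) ^ 2 + 3 * (3 / δ)) * Real.exp (5 * δ * u ^ 3) := by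
    have h4 := hceil (δ * u) (by positivity)
    have h5 : 2 * Real.exp (δ * u) ≤ Real.exp (1 + δ * u) := by
      rw [Real.exp_add]
      refine mul_le_mul_of_nonneg_right ?_ (Real.exp_pos _).le
      have := Real.add_one_le_exp (1 : ℝ)
      linarith
    calc ((⌈Real.exp (δ * u)⌉₊ : ℕ) : ℝ) ^ (⌈u⌉₊ * ⌈u⌉₊) ≤
        Real.exp (1 + δ * u) ^ (⌈u⌉₊ * ⌈u⌉₊) :=
          pow_le_pow_left₀ (Nat.cast_nonneg _) (h4.trans h5) _
      _ = Real.exp (((⌈u⌉₊ * ⌈u⌉₊ : ℕ) : ℝ) * (1 + δ * u)) := by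
          rw [Real.exp_nat_mul]
      _ ≤ Real.exp ((1 + 3 * (3 / δ) ^ 2 + 3 * (3 / δ)) + 5 * δ * u ^ 3) := by
          refine Real.exp_le_exp.2 ?_
          have h6 : ((⌈u⌉₊ * ⌈u⌉₊ : ℕ) : ℝ) ≤ (u + 1) * (u + 1) := by
            push_cast
            exact mul_le_mul hK hK (Nat.cast_nonneg _) (by linarith)
          have h7 : ((⌈u⌉₊ * ⌈u⌉₊ : ℕ) : ℝ) * (1 + δ * u) ≤ ((u + 1) * (u + 1)) * (1 + δ * u) :=
            mul_le_mul_of_nonneg_right h6 (by positivity)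
          have h8 := poly_le (a := 3) hδ hu (by norm_num) hδ1 (by norm_num)
          have h9 := poly_le2 (a := 3) hδ hu (by norm_num)
          have h10 : ((u + 1) * (u + 1)) * (1 + δ * u) ≤ δ * u ^ 3 + 3 * u ^ 2 + 3 * u + 1 := by
            nlinarith [mul_nonneg hu hu, mul_nonneg (sub_nonneg.2 hδ1) hu,
              mul_nonneg (sub_nonneg.2 hδ1) (mul_nonneg hu hu)]
          have h11 : 0 ≤ δ * u ^ 3 := by positivity
          linarith
      _ = _ := by rw [Real.exp_add]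
  calc ((⌈Real.exp (δ * u ^ 3)⌉₊ : ℕ) : ℝ) ^ 3 * 2 ^ ⌈u⌉₊ *
      ((⌈Real.exp (δ * u)⌉₊ : ℕ) : ℝ) ^ (⌈u⌉₊ * ⌈u⌉₊) ≤
      (8 * Real.exp (3 * δ * u ^ 3)) * (Real.exp (1 + 1 / δ) * Real.exp (δ * u ^ 3)) *
        (Real.exp (1 + 3 * (3 / δ) ^ 2 + 3 * (3 / δ)) * Real.exp (5 * δ * u ^ 3)) := by
        gcongr
    _ = 8 * Real.exp (1 + 1 / δ) * Real.exp (1 + 3 * (3 / δ) ^ 2 + 3 * (3 / δ)) *
        (Real.exp (3 * δ * u ^ 3) * Real.exp (δ * u ^ 3) * Real.exp (5 * δ * u ^ 3)) := by ring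
    _ = _ := by
        rw [← Real.exp_add, ← Real.exp_add]
        congr 2
        ring

/-- the size of the exceptional set -/
theorem param2 {δ : ℝ} (hδ : 0 < δ) (hδ1 : δ ≤ 1 / 2) : ∃ C : ℝ, 0 < C ∧ ∀ u : ℝ, 0 ≤ u →
    (1 + u ^ 3) / 2 ^ ⌈u⌉₊ + (1 + u ^ 3) ^ 2 / (⌈Real.exp (δ * u)⌉₊ : ℕ) +
      1 / (⌈Real.exp (δ * u ^ 3)⌉₊ : ℕ) ≤ C * Real.exp (-(δ / 2) * u) := by
  refine ⟨2 * (2 + 2 * (720 * (2 / δ) ^ 6)) + Real.exp δ, by positivity, fun u hu => ?_⟩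
  have hexp : ∀ x : ℝ, (1 : ℝ) / (⌈Real.exp x⌉₊ : ℕ) ≤ Real.exp (-x) := by
    intro x
    rw [Real.exp_neg, ← one_div]
    exact one_div_le_one_div_of_le (Real.exp_pos x) (Nat.le_ceil _)
  have hE1 : (1 + u ^ 3) ^ 2 ≤ (2 + 2 * (720 * (2 / δ) ^ 6)) * Real.exp (δ / 2 * u) := by
    have h1 := Real.pow_div_factorial_le_exp (δ / 2 * u) (by positivity) 6
    have h2 : u ^ 6 ≤ 720 * (2 / δ) ^ 6 * Real.exp (δ / 2 * u) := by
      have h3 : (Nat.factorial 6 : ℝ) = 720 := by norm_num [Nat.factorial]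
      rw [h3, div_le_iff₀ (by norm_num)] at h1
      have h4 : u ^ 6 = (2 / δ) ^ 6 * (δ / 2 * u) ^ 6 := by
        rw [← mul_pow]
        congr 1
        field_simp
      rw [h4]
      calc (2 / δ) ^ 6 * (δ / 2 * u) ^ 6 ≤ (2 / δ) ^ 6 * (Real.exp (δ / 2 * u) * 720) :=
            mul_le_mul_of_nonneg_left h1 (by positivity)
        _ = _ := by ring
    have h5 : (1 + u ^ 3) ^ 2 ≤ 2 + 2 * u ^ 6 := by nlinarith [sq_nonneg (u ^ 3 - 1)]
    have h6 : 1 ≤ Real.exp (δ / 2 * u) := Real.one_le_exp (by positivity)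
    nlinarith
  have hA : (1 + u ^ 3) ^ 2 / (⌈Real.exp (δ * u)⌉₊ : ℕ) ≤
      (2 + 2 * (720 * (2 / δ) ^ 6)) * Real.exp (-(δ / 2) * u) := by
    rw [div_eq_mul_one_div]
    calc (1 + u ^ 3) ^ 2 * (1 / ((⌈Real.exp (δ * u)⌉₊ : ℕ) : ℝ)) ≤
        ((2 + 2 * (720 * (2 / δ) ^ 6)) * Real.exp (δ / 2 * u)) * Real.exp (-(δ * u)) :=
          mul_le_mul hE1 (hexp _) (by positivity) (by positivity)
      _ = _ := by
          rw [mul_assoc, ← Real.exp_add]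
          congr 2
          ring
  have hB : (1 + u ^ 3) / 2 ^ ⌈u⌉₊ ≤
      (2 + 2 * (720 * (2 / δ) ^ 6)) * Real.exp (-(δ / 2) * u) := by
    have h1 : (1 : ℝ) / 2 ^ ⌈u⌉₊ ≤ Real.exp (-(δ * u)) := by
      rw [Real.exp_neg, ← one_div]
      refine one_div_le_one_div_of_le (Real.exp_pos _) ?_
      have e : (2 : ℝ) ^ ⌈u⌉₊ = Real.exp (⌈u⌉₊ * Real.log 2) := by
        rw [mul_comm, ← Real.rpow_def_of_pos (by norm_num), Real.rpow_natCast]
      rw [e]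
      refine Real.exp_le_exp.2 ?_
      have h2 := Nat.le_ceil u
      have h3 := Real.log_two_gt_d9
      nlinarith
    have h2 : 1 + u ^ 3 ≤ (1 + u ^ 3) ^ 2 := by
      have : 0 ≤ u ^ 3 := by positivity
      nlinarith
    rw [div_eq_mul_one_div]
    calc (1 + u ^ 3) * (1 / 2 ^ ⌈u⌉₊) ≤
        ((2 + 2 * (720 * (2 / δ) ^ 6)) * Real.exp (δ / 2 * u)) * Real.exp (-(δ * u)) :=
          mul_le_mul (h2.trans hE1) h1 (by positivity) (by positivity)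
      _ = _ := by
          rw [mul_assoc, ← Real.exp_add]
          congr 2
          ring
  have hC : (1 : ℝ) / (⌈Real.exp (δ * u ^ 3)⌉₊ : ℕ) ≤ Real.exp δ * Real.exp (-(δ / 2) * u) := by
    refine (hexp _).trans ?_
    rw [← Real.exp_add]
    refine Real.exp_le_exp.2 ?_
    have h1 : u ≤ 1 + u ^ 3 := by
      rcases le_or_gt u 1 with h | h
      · have : 0 ≤ u ^ 3 := by positivity
        linarith
      · nlinarith [sq_nonneg u, mul_pos (sub_pos.2 h) (sub_pos.2 h)]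
    nlinarith [mul_le_mul_of_nonneg_left h1 hδ.le]
  linarith

end Pool.Agent.Y683.AA
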