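import Pool.Agent.Y683.AA.Car

/-!
The exceptional set of the lower bound for the Carmichael function.
-/

set_option autoImplicit false

namespace Pool.Agent.Y683.AA

open Finset

/-- `q` is good for `Y`: some finite set of primes dividing `q` exactly has `q ≤ Y lcm (p - 1)` -/
def Nice (Y : ℝ) (q : ℕ) : Prop :=
  ∃ S : Finset ℕ, (∀ p ∈ S, p.Prime ∧ p ∣ q ∧ ¬ p ^ 2 ∣ q) ∧
    (q : ℝ) ≤ Y * ((S.lcm (fun p => p - 1) : ℕ) : ℝ)

/-- the cube root of the logarithm -/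
noncomputable def cr (X : ℕ) : ℝ := (Real.log X) ^ ((1 : ℝ) / 3)

lemma cr_nonneg (X : ℕ) : 0 ≤ cr X := Real.rpow_nonneg (Real.log_natCast_nonneg X) _

lemma cr_pow (X : ℕ) : cr X ^ 3 = Real.log X := by
  unfold cr
  rw [← Real.rpow_natCast, ← Real.rpow_mul (Real.log_natCast_nonneg X)]
  norm_num

open Classical in
theorem exc {δ : ℝ} (hδ : 0 < δ) (hδ1 : δ ≤ 1 / 2) : ∃ C : ℝ, 0 < C ∧ ∀ X : ℕ, 1 ≤ X →
    (((Icc 1 X).filter (fun q : ℕ => ¬ Nice (C * (X : ℝ) ^ (9 * δ)) q)).card : ℝ) ≤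
      C * X * Real.exp (-(δ / 2) * cr X) := by
  obtain ⟨C1, hC1, h1⟩ := param hδ (by linarith)
  obtain ⟨C2, hC2, h2⟩ := param2 hδ hδ1
  refine ⟨max C1 C2, lt_max_of_lt_left hC1, fun X hX => ?_⟩
  have hX0 : (0 : ℝ) < X := by exact_mod_cast hX
  set u := cr X with hu
  have hu0 : 0 ≤ u := cr_nonneg X
  have hu3 : u ^ 3 = Real.log X := cr_pow X
  set K := ⌈u⌉₊ with hK
  set g := ⌈Real.exp (δ * u)⌉₊ with hg
  set B := ⌈Real.exp (δ * u ^ 3)⌉₊ with hB
  have hg1 : 1 ≤ g := Nat.one_le_iff_ne_zero.2 (Nat.ceil_pos.2 (Real.exp_pos _)).ne'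
  have hB1 : 1 ≤ B := Nat.one_le_iff_ne_zero.2 (Nat.ceil_pos.2 (Real.exp_pos _)).ne'
  have hsub : (Icc 1 X).filter (fun q : ℕ => ¬ Nice (max C1 C2 * (X : ℝ) ^ (9 * δ)) q) ⊆
      (Icc 1 X).filter (fun q => 2 ^ K ≤ q.divisors.card) ∪
      ((Icc 1 X).filter (fun q => ∃ p p' : ℕ, p.Prime ∧ p'.Prime ∧ p ≠ p' ∧ p ∣ q ∧ p' ∣ q ∧
        g < Nat.gcd (p - 1) (p' - 1)) ∪
      (Icc 1 X).filter (fun q => ∃ b, B < b ∧ b ^ 2 ∣ q)) := by
    intro q hq
    rw [mem_filter] at hq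
    obtain ⟨hq1, hq2⟩ := hq
    by_contra hcon
    apply hq2
    simp only [mem_union, mem_filter, hq1, true_and, not_or, not_exists, not_and, not_lt,
      not_le] at hcon
    obtain ⟨k1, k2, k3⟩ := hcon
    obtain ⟨S, hS1, hS2⟩ := lcm_lower (q := q) (K := K) (g := g) (B := B) (mem_Icc.1 hq1).1 hg1 k1
      (fun b hb => by
        by_contra h
        push Not at h
        exact k3 b h hb)
      (fun p p' a1 a2 a3 a4 a5 => k2 p p' a1 a2 a3 a4 a5)
    refine ⟨S, hS1, ?_⟩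
    have h3 : (q : ℝ) ≤ ((B ^ 3 * 2 ^ K * g ^ (K * K) * S.lcm (fun p => p - 1) : ℕ) : ℝ) := by
      exact_mod_cast hS2
    refine h3.trans ?_
    push_cast
    refine mul_le_mul_of_nonneg_right ?_ (Nat.cast_nonneg _)
    refine (h1 u hu0).trans ?_
    have e : Real.exp (9 * δ * u ^ 3) = (X : ℝ) ^ (9 * δ) := by
      rw [hu3, Real.rpow_def_of_pos hX0]
      congr 1
      ring
    rw [e]
    exact mul_le_mul_of_nonneg_right (le_max_left _ _) (by positivity)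
  have hcard := (card_le_card hsub).trans ((card_union_le _ _).trans
    (Nat.add_le_add_left (card_union_le _ _) _))
  have hcard' : (((Icc 1 X).filter (fun q : ℕ => ¬ Nice (max C1 C2 * (X : ℝ) ^ (9 * δ)) q)).card : ℝ) ≤
      X * (1 + Real.log X) / 2 ^ K + (X * (1 + Real.log X) ^ 2 / g + X / B) := by
    have hc2 := (Nat.cast_le (α := ℝ)).2 hcard
    push_cast at hc2
    exact hc2.trans (add_le_add (card_tau X K) (add_le_add (card_gcd X g hg1) (card_sq X B hB1)))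
  refine hcard'.trans ?_
  have h3 := h2 u hu0
  rw [hu3] at h3
  calc (X : ℝ) * (1 + Real.log X) / 2 ^ K + (X * (1 + Real.log X) ^ 2 / g + X / B) =
      X * ((1 + Real.log X) / 2 ^ K + (1 + Real.log X) ^ 2 / g + 1 / B) := by ring
    _ ≤ X * (C2 * Real.exp (-(δ / 2) * u)) := by
        refine mul_le_mul_of_nonneg_left ?_ hX0.le
        rw [hB, hu3]
        exact h3
    _ ≤ X * (max C1 C2 * Real.exp (-(δ / 2) * u)) := by
        refine mul_le_mul_of_nonneg_left ?_ hX0.le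
        exact mul_le_mul_of_nonneg_right (le_max_right _ _) (Real.exp_pos _).le
    _ = _ := by ring

/-- powers `X^(-1/2)` are smaller than `exp (-c (log X)^(1/3))` -/
lemma sqrt_le {X : ℕ} (hX : 1 ≤ X) {c : ℝ} (hc : c ≤ 1 / 2) :
    (X : ℝ) ^ ((1 : ℝ) / 2) ≤ 2 * (X * Real.exp (-c * cr X)) := by
  have hX0 : (0 : ℝ) < X := by exact_mod_cast hX
  have hu0 := cr_nonneg X
  have e1 : (X : ℝ) ^ ((1 : ℝ) / 2) = X * Real.exp (-(1 / 2) * cr X ^ 3) := by
    rw [cr_pow, mul_comm (-(1 / 2) : ℝ), ← Real.rpow_def_of_pos hX0]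
    nth_rewrite 2 [← Real.rpow_one (X : ℝ)]
    rw [← Real.rpow_add hX0]
    norm_num
  have e2 : Real.exp (-(1 / 2) * cr X ^ 3) ≤ 2 * Real.exp (-c * cr X) := by
    have h2 : Real.exp (1 / 2 : ℝ) ≤ 2 := by
      have h3 := Real.exp_one_lt_d9
      have h4 : Real.exp (1 / 2 : ℝ) ^ 2 = Real.exp 1 := by
        rw [← Real.exp_nat_mul]; norm_num
      nlinarith [Real.exp_pos (1 / 2 : ℝ)]
    have h3 : Real.exp (-(1 / 2) * cr X ^ 3) ≤ Real.exp (1 / 2 + -c * cr X) := by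
      refine Real.exp_le_exp.2 ?_
      have h1 : cr X ≤ 1 + cr X ^ 3 := by
        rcases le_or_gt (cr X) 1 with h | h
        · have : 0 ≤ cr X ^ 3 := by positivity
          linarith
        · nlinarith [sq_nonneg (cr X), mul_pos (sub_pos.2 h) (sub_pos.2 h)]
      nlinarith
    rw [Real.exp_add] at h3
    refine h3.trans ?_
    exact mul_le_mul_of_nonneg_right h2 (Real.exp_pos _).le
  rw [e1]
  calc (X : ℝ) * Real.exp (-(1 / 2) * cr X ^ 3) ≤ X * (2 * Real.exp (-c * cr X)) :=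
        mul_le_mul_of_nonneg_left e2 hX0.le
    _ = _ := by ring

open Classical in
/-- almost all integers are good for a small power of themselves -/
theorem exc_self {ε : ℝ} (hε : 0 < ε) : ∃ C c : ℝ, 0 < C ∧ 0 < c ∧ ∀ X : ℕ, 1 ≤ X →
    (((Icc 1 X).filter (fun q : ℕ => ¬ Nice ((q : ℝ) ^ ε) q)).card : ℝ) ≤
      C * X * Real.exp (-c * cr X) := by
  set δ : ℝ := min (ε / 36) (1 / 2) with hδ
  have hδ0 : 0 < δ := lt_min (by positivity) (by norm_num)
  have hδ1 : δ ≤ 1 / 2 := min_le_right _ _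
  have hδ2 : δ ≤ ε / 36 := min_le_left _ _
  obtain ⟨C, hC, h⟩ := exc hδ0 hδ1
  set M : ℕ := ⌈(max C 1) ^ (2 / ε)⌉₊ with hM
  refine ⟨C + 2 + 2 * M, δ / 2, by positivity, by positivity, fun X hX => ?_⟩
  have hX0 : (0 : ℝ) < X := by exact_mod_cast hX
  have hX1 : (1 : ℝ) ≤ X := by exact_mod_cast hX
  have hsub : (Icc 1 X).filter (fun q : ℕ => ¬ Nice ((q : ℝ) ^ ε) q) ⊆
      (Icc 1 X).filter (fun q : ℕ => ¬ Nice (C * (X : ℝ) ^ (9 * δ)) q) ∪
      (Icc 1 ⌊(X : ℝ) ^ ((1 : ℝ) / 2)⌋₊ ∪ Icc 1 M) := by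
    intro q hq
    rw [mem_filter] at hq
    obtain ⟨hq1, hq2⟩ := hq
    rw [mem_Icc] at hq1
    by_contra hcon
    apply hq2
    simp only [mem_union, mem_filter, mem_Icc, hq1, true_and, not_or, not_le,
      not_not] at hcon
    obtain ⟨k1, k2, k3⟩ := hcon
    obtain ⟨S, hS1, hS2⟩ := k1
    refine ⟨S, hS1, hS2.trans ?_⟩
    refine mul_le_mul_of_nonneg_right ?_ (Nat.cast_nonneg _)
    have hq0 : (0 : ℝ) < q := by exact_mod_cast hq1.1
    have hqX : (X : ℝ) ≤ (q : ℝ) ^ (2 : ℝ) := by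
      have h1 : (X : ℝ) ^ ((1 : ℝ) / 2) < q := (Nat.floor_lt (by positivity)).1 k2
      calc (X : ℝ) = ((X : ℝ) ^ ((1 : ℝ) / 2)) ^ (2 : ℝ) := by
            rw [← Real.rpow_mul hX0.le]; norm_num
        _ ≤ (q : ℝ) ^ (2 : ℝ) := Real.rpow_le_rpow (by positivity) h1.le (by norm_num)
    have hqM : C ≤ (q : ℝ) ^ (ε / 2) := by
      have h1 : (max C 1) ^ (2 / ε) ≤ (q : ℝ) := by
        refine (Nat.le_ceil _).trans ?_
        rw [← hM]
        exact_mod_cast k3.le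
      calc C ≤ max C 1 := le_max_left _ _
        _ = ((max C 1) ^ (2 / ε)) ^ (ε / 2) := by
            rw [← Real.rpow_mul (by positivity)]
            rw [show 2 / ε * (ε / 2) = 1 by field_simp, Real.rpow_one]
        _ ≤ _ := Real.rpow_le_rpow (by positivity) h1 (by positivity)
    have hq1' : (1 : ℝ) ≤ q := by exact_mod_cast hq1.1
    calc C * (X : ℝ) ^ (9 * δ) ≤ (q : ℝ) ^ (ε / 2) * ((q : ℝ) ^ (2 : ℝ)) ^ (9 * δ) := by
          gcongr
      _ = (q : ℝ) ^ (ε / 2 + 2 * (9 * δ)) := by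
          rw [← Real.rpow_mul hq0.le, ← Real.rpow_add hq0]
      _ ≤ (q : ℝ) ^ ε := Real.rpow_le_rpow_of_exponent_le hq1' (by linarith)
  have hcard := (card_le_card hsub).trans ((card_union_le _ _).trans
    (Nat.add_le_add_left (card_union_le _ _) _))
  have h1 : (((Icc 1 X).filter (fun q : ℕ => ¬ Nice ((q : ℝ) ^ ε) q)).card : ℝ) ≤
      C * X * Real.exp (-(δ / 2) * cr X) + ((X : ℝ) ^ ((1 : ℝ) / 2) + M) := by
    have hc2 := (Nat.cast_le (α := ℝ)).2 hcard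
    push_cast at hc2
    refine hc2.trans ?_
    refine add_le_add (h X hX) (add_le_add ?_ ?_)
    · rw [Nat.card_Icc]
      simp only [Nat.add_sub_cancel]
      exact Nat.floor_le (by positivity)
    · rw [Nat.card_Icc]
      simp
  have h2 := sqrt_le hX (c := δ / 2) (by linarith)
  have h3 : (1 : ℝ) ≤ (X : ℝ) ^ ((1 : ℝ) / 2) := Real.one_le_rpow hX1 (by norm_num)
  refine h1.trans ?_
  have h4 : (M : ℝ) ≤ M * (2 * (X * Real.exp (-(δ / 2) * cr X))) := by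
    have : (M : ℝ) * 1 ≤ M * (2 * (X * Real.exp (-(δ / 2) * cr X))) :=
      mul_le_mul_of_nonneg_left (h3.trans h2) (Nat.cast_nonneg _)
    linarith
  nlinarith

open Classical in
/-- **The Carmichael function is almost always at least `q^(1-ε)`** -/
theorem carmichael_exc {ε : ℝ} (hε : 0 < ε) : ∃ C c : ℝ, 0 < C ∧ 0 < c ∧ ∀ X : ℕ, 1 ≤ X →
    (((Icc 1 X).filter (fun q : ℕ =>
      ((ArithmeticFunction.carmichael q : ℕ) : ℝ) < (q : ℝ) ^ (1 - ε))).card : ℝ) ≤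
      C * X * Real.exp (-c * cr X) := by
  obtain ⟨C, c, hC, hc, h⟩ := exc_self hε
  refine ⟨C, c, hC, hc, fun X hX => le_trans ?_ (h X hX)⟩
  have hsub : (Icc 1 X).filter (fun q : ℕ =>
      ((ArithmeticFunction.carmichael q : ℕ) : ℝ) < (q : ℝ) ^ (1 - ε)) ⊆
      (Icc 1 X).filter (fun q : ℕ => ¬ Nice ((q : ℝ) ^ ε) q) := by
    intro q hq
    rw [mem_filter] at hq ⊢
    refine ⟨hq.1, fun hn => ?_⟩
    obtain ⟨S, hS1, hS2⟩ := hn
    have hq1 := (mem_Icc.1 hq.1).1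
    have hq0 : (0 : ℝ) < q := by exact_mod_cast hq1
    have h1 := lcm_dvd_carmichael (q := q) (S := S) fun p hp => ⟨(hS1 p hp).1, (hS1 p hp).2.1⟩
    have h0 : 0 < ArithmeticFunction.carmichael q := by
      rw [ArithmeticFunction.carmichael_eq_exponent (by omega)]
      have : NeZero q := ⟨by omega⟩
      exact Nat.pos_of_ne_zero Monoid.exponent_ne_zero_of_finite
    have h2 := Nat.le_of_dvd h0 h1
    have h3 : (((S.lcm (fun p => p - 1) : ℕ)) : ℝ) ≤ (ArithmeticFunction.carmichael q : ℕ) := by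
      exact_mod_cast h2
    have h4 : (q : ℝ) ≤ (q : ℝ) ^ ε * (ArithmeticFunction.carmichael q : ℕ) :=
      hS2.trans (mul_le_mul_of_nonneg_left h3 (by positivity))
    have h5 : (q : ℝ) ^ (1 - ε) ≤ (ArithmeticFunction.carmichael q : ℕ) := by
      rw [Real.rpow_sub hq0, Real.rpow_one, div_le_iff₀ (by positivity)]
      linarith
    exact absurd hq.2 (not_lt.2 h5)
  exact_mod_cast card_le_card hsub

end Pool.Agent.Y683.AA
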