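import Mathlib

/-!
Elements of small order in a finite abelian group; products and least common multiples.
-/

set_option autoImplicit false

namespace Pool.Agent.Y683.AA

open Finset

/-- in a finite abelian group of exponent `e`, at most `|G| d / e` elements satisfy `x^d = 1` -/
theorem card_pow_mul_le {G : Type*} [CommGroup G] [Fintype G] [DecidableEq G] {d : ℕ}
    (hd : d ∣ Monoid.exponent G) :
    (univ.filter fun x : G => x ^ d = 1).card * (Monoid.exponent G / d) ≤ Fintype.card G := by
  classical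
  have he : Monoid.exponent G ≠ 0 := Monoid.exponent_ne_zero_of_finite
  have hd0 : d ≠ 0 := fun h => he (by simpa [h] using hd)
  set φ : G →* G := powMonoidHom d with hφ
  obtain ⟨g, hg⟩ := Monoid.exists_orderOf_eq_exponent (G := G) Monoid.ExponentExists.of_finite
  have h1 : Nat.card φ.ker * φ.ker.index = Nat.card G := Subgroup.card_mul_index _
  have h2 : φ.ker.index = Nat.card φ.range := Subgroup.index_ker φ
  have h3 : Nat.card φ.ker = (univ.filter fun x : G => x ^ d = 1).card := by
    rw [Nat.card_eq_fintype_card, Fintype.card_subtype]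
    congr 1
    ext x
    simp [hφ, MonoidHom.mem_ker]
  have h4 : Monoid.exponent G / d ≤ Nat.card φ.range := by
    have h5 : orderOf (g ^ d) = Monoid.exponent G / d := by
      rw [orderOf_pow_of_dvd hd0 (by rw [hg]; exact hd), hg]
    rw [← h5]
    have h6 : g ^ d ∈ φ.range := ⟨g, rfl⟩
    have h7 : orderOf (⟨g ^ d, h6⟩ : φ.range) = orderOf (g ^ d) := by
      rw [← Subgroup.orderOf_coe]
    rw [← h7]
    exact orderOf_le_card
  rw [← Nat.card_eq_fintype_card, ← h1, h2, h3]
  exact Nat.mul_le_mul_left _ h4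

/-- in a finite abelian group of exponent `e`, at most `D d(e) |G| / e` elements have order at most
`D` -/
theorem card_orderOf_le {G : Type*} [CommGroup G] [Fintype G] {D : ℝ} (hD : 0 ≤ D)
    (S : Finset G) (hS : ∀ x ∈ S, (orderOf x : ℝ) ≤ D) :
    (S.card : ℝ) * Monoid.exponent G ≤
      D * ((Monoid.exponent G).divisors.card : ℝ) * Fintype.card G := by
  classical
  set e := Monoid.exponent G with hedef
  have he : e ≠ 0 := Monoid.exponent_ne_zero_of_finite
  have hsub : S ⊆ (e.divisors.filter fun d : ℕ => (d : ℝ) ≤ D).biUnion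
      (fun d => univ.filter fun x : G => x ^ d = 1) := by
    intro x hx
    rw [mem_biUnion]
    refine ⟨orderOf x, ?_, ?_⟩
    · rw [mem_filter]
      exact ⟨Nat.mem_divisors.2 ⟨Monoid.order_dvd_exponent x, he⟩, hS x hx⟩
    · rw [mem_filter]
      exact ⟨mem_univ _, pow_orderOf_eq_one x⟩
  have h1 : ∀ d ∈ e.divisors.filter (fun d : ℕ => (d : ℝ) ≤ D),
      ((univ.filter fun x : G => x ^ d = 1).card : ℝ) * e ≤ D * Fintype.card G := by
    intro d hd
    rw [mem_filter, Nat.mem_divisors] at hd
    obtain ⟨⟨hd1, -⟩, hd2⟩ := hd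
    have h2 := card_pow_mul_le (G := G) hd1
    have h3 : ((univ.filter fun x : G => x ^ d = 1).card : ℝ) * ((e / d : ℕ) : ℝ) ≤
        Fintype.card G := by exact_mod_cast h2
    have h4 : (e : ℝ) = ((e / d : ℕ) : ℝ) * d := by
      rw [← Nat.cast_mul, Nat.div_mul_cancel hd1]
    rw [h4, ← mul_assoc]
    calc ((univ.filter fun x : G => x ^ d = 1).card : ℝ) * ((e / d : ℕ) : ℝ) * d ≤
        Fintype.card G * d := mul_le_mul_of_nonneg_right h3 (Nat.cast_nonneg _)
      _ ≤ Fintype.card G * D := mul_le_mul_of_nonneg_left hd2 (Nat.cast_nonneg _)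
      _ = _ := mul_comm _ _
  calc (S.card : ℝ) * e ≤ (∑ d ∈ e.divisors.filter (fun d : ℕ => (d : ℝ) ≤ D),
          ((univ.filter fun x : G => x ^ d = 1).card : ℝ)) * e := by
          refine mul_le_mul_of_nonneg_right ?_ (Nat.cast_nonneg _)
          have := (card_le_card hsub).trans card_biUnion_le
          exact_mod_cast this
      _ = ∑ d ∈ e.divisors.filter (fun d : ℕ => (d : ℝ) ≤ D),
          ((univ.filter fun x : G => x ^ d = 1).card : ℝ) * e := by rw [sum_mul]
      _ ≤ ∑ d ∈ e.divisors.filter (fun d : ℕ => (d : ℝ) ≤ D), D * Fintype.card G :=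
          sum_le_sum h1
      _ = ((e.divisors.filter (fun d : ℕ => (d : ℝ) ≤ D)).card : ℝ) * (D * Fintype.card G) := by
          rw [sum_const, nsmul_eq_mul]
      _ ≤ (e.divisors.card : ℝ) * (D * Fintype.card G) := by
          refine mul_le_mul_of_nonneg_right ?_ (by positivity)
          exact_mod_cast card_filter_le _ _
      _ = _ := by ring

/-- the gcd of `x` with an lcm divides the product of the gcds -/
theorem gcd_lcm_dvd {ι : Type*} [DecidableEq ι] (S : Finset ι) (f : ι → ℕ) (x : ℕ) :
    Nat.gcd x (S.lcm f) ∣ ∏ i ∈ S, Nat.gcd x (f i) := by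
  induction S using Finset.induction_on with
  | empty => simp
  | insert a S ha ih =>
    rw [Finset.lcm_insert, prod_insert ha]
    have h1 : GCDMonoid.lcm (f a) (S.lcm f) ∣ f a * S.lcm f :=
      Nat.lcm_dvd_mul _ _
    exact ((Nat.gcd_dvd_gcd_of_dvd_right x h1).trans (Nat.gcd_mul_right_dvd_mul_gcd x _ _)).trans
      (Nat.mul_dvd_mul_left _ ih)

/-- a product is at most the lcm times a power of a bound for the gcds -/
theorem prod_le_lcm {ι : Type*} [DecidableEq ι] (S : Finset ι) (f : ι → ℕ) {g : ℕ} (hg : 1 ≤ g)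
    (hf : ∀ i ∈ S, 0 < f i) (h : ∀ i ∈ S, ∀ j ∈ S, i ≠ j → Nat.gcd (f i) (f j) ≤ g) :
    ∏ i ∈ S, f i ≤ S.lcm f * g ^ (S.card * S.card) := by
  induction S using Finset.induction_on with
  | empty => simp
  | insert a S ha ih =>
    have ih1 := ih (fun i hi => hf i (mem_insert_of_mem hi))
      (fun i hi j hj => h i (mem_insert_of_mem hi) j (mem_insert_of_mem hj))
    rw [Finset.lcm_insert, prod_insert ha, card_insert_of_notMem ha]
    have h1 : Nat.gcd (f a) (S.lcm f) ≤ g ^ S.card := by
      have h2 : 0 < ∏ i ∈ S, Nat.gcd (f a) (f i) :=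
        prod_pos fun i hi => Nat.gcd_pos_of_pos_left _ (hf a (mem_insert_self a S))
      refine (Nat.le_of_dvd h2 (gcd_lcm_dvd S f (f a))).trans ?_
      refine (prod_le_pow_card S _ g fun i hi => ?_)
      exact h a (mem_insert_self a S) i (mem_insert_of_mem hi) (fun hh => ha (hh ▸ hi))
    have h3 : Nat.gcd (f a) (S.lcm f) * GCDMonoid.lcm (f a) (S.lcm f) = f a * S.lcm f :=
      Nat.gcd_mul_lcm _ _
    calc f a * ∏ i ∈ S, f i ≤ f a * (S.lcm f * g ^ (S.card * S.card)) :=
          Nat.mul_le_mul_left _ ih1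
      _ = (f a * S.lcm f) * g ^ (S.card * S.card) := by ring
      _ = Nat.gcd (f a) (S.lcm f) * GCDMonoid.lcm (f a) (S.lcm f) * g ^ (S.card * S.card) := by
          rw [h3]
      _ ≤ g ^ S.card * GCDMonoid.lcm (f a) (S.lcm f) * g ^ (S.card * S.card) := by
          gcongr
      _ = GCDMonoid.lcm (f a) (S.lcm f) * g ^ (S.card + S.card * S.card) := by
          rw [pow_add]; ring
      _ ≤ GCDMonoid.lcm (f a) (S.lcm f) * g ^ ((S.card + 1) * (S.card + 1)) := by
          refine Nat.mul_le_mul_left _ (Nat.pow_le_pow_right hg ?_)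
          nlinarith

end Pool.Agent.Y683.AA
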