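import Pool.Agent.Y683.AA.Exc

/-!
The combinatorial part with a bound for the number of exact prime divisors as a hypothesis.
-/

set_option autoImplicit false

namespace Pool.Agent.Y683.AA

open Finset

/-- the combinatorial part -/
theorem lcm_lower' {q K g B : ℕ} (hq : 1 ≤ q) (hg : 1 ≤ g)
    (h1 : ∀ S : Finset ℕ, (∀ p ∈ S, p.Prime ∧ p ∣ q ∧ ¬ p ^ 2 ∣ q) → S.card ≤ K)
    (h2 : ∀ b : ℕ, b ^ 2 ∣ q → b ≤ B)
    (h3 : ∀ p p' : ℕ, p.Prime → p'.Prime → p ≠ p' → p ∣ q → p' ∣ q →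
      Nat.gcd (p - 1) (p' - 1) ≤ g) :
    ∃ S : Finset ℕ, (∀ p ∈ S, p.Prime ∧ p ∣ q ∧ ¬ p ^ 2 ∣ q) ∧
      q ≤ B ^ 3 * 2 ^ K * g ^ (K * K) * S.lcm (fun p => p - 1) := by
  classical
  obtain ⟨a, b, hab, hsq⟩ := Nat.sq_mul_squarefree q
  have ha0 : a ≠ 0 := fun h => by simp [h] at hab; omega
  have hb0 : b ≠ 0 := fun h => by simp [h] at hab; omega
  have hbB : b ≤ B := h2 b ⟨a, hab.symm⟩
  have haq : a ∣ q := ⟨b ^ 2, by rw [← hab]; ring⟩
  set S := a.primeFactors.filter (fun p => ¬ p ∣ b) with hS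
  set T := a.primeFactors.filter (fun p => p ∣ b) with hT
  have hSp : ∀ p ∈ S, p.Prime ∧ p ∣ q ∧ ¬ p ^ 2 ∣ q := by
    intro p hp
    rw [hS, mem_filter, Nat.mem_primeFactors] at hp
    obtain ⟨⟨hp1, hp2, -⟩, hp3⟩ := hp
    refine ⟨hp1, hp2.trans haq, fun h4 => ?_⟩
    rw [← hab] at h4
    have hcop : Nat.Coprime (p ^ 2) (b ^ 2) :=
      Nat.Coprime.pow 2 2 ((Nat.Prime.coprime_iff_not_dvd hp1).2 hp3)
    have h5 : p ^ 2 ∣ a := hcop.dvd_of_dvd_mul_left h4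
    rw [pow_two] at h5
    have h6 := hsq p h5
    rw [Nat.isUnit_iff] at h6
    exact hp1.one_lt.ne' h6
  have hT1 : ∏ p ∈ T, p ≤ b := by
    refine Nat.le_of_dvd (Nat.pos_of_ne_zero hb0) ?_
    refine Finset.prod_primes_dvd b ?_ ?_
    · intro p hp
      rw [hT, mem_filter, Nat.mem_primeFactors] at hp
      exact hp.1.1.prime
    · intro p hp
      rw [hT, mem_filter] at hp
      exact hp.2
  have hprod : a = (∏ p ∈ S, p) * ∏ p ∈ T, p := by
    have h4 := Nat.prod_primeFactors_of_squarefree hsq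
    rw [← prod_filter_mul_prod_filter_not a.primeFactors (fun p => ¬ p ∣ b)] at h4
    rw [← hS] at h4
    have h5 : a.primeFactors.filter (fun p => ¬ ¬ p ∣ b) = T := by
      rw [hT]
      refine filter_congr fun x _ => by simp
    rw [h5] at h4
    exact h4.symm
  have hcard : S.card ≤ K := h1 S hSp
  have hS1 : ∏ p ∈ S, p ≤ 2 ^ S.card * ∏ p ∈ S, (p - 1) := by
    calc ∏ p ∈ S, p ≤ ∏ p ∈ S, (2 * (p - 1)) := by
          refine prod_le_prod (fun _ _ => Nat.zero_le _) fun p hp => ?_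
          have := (hSp p hp).1.two_le
          omega
      _ = _ := by rw [prod_mul_distrib, prod_const]
  have hS2 : ∏ p ∈ S, (p - 1) ≤ S.lcm (fun p => p - 1) * g ^ (S.card * S.card) := by
    refine prod_le_lcm S (fun p => p - 1) hg (fun p hp => ?_) (fun p hp p' hp' hne => ?_)
    · have := (hSp p hp).1.two_le
      omega
    · exact h3 p p' (hSp p hp).1 (hSp p' hp').1 hne (hSp p hp).2.1 (hSp p' hp').2.1
  refine ⟨S, hSp, ?_⟩
  calc q = b ^ 2 * ((∏ p ∈ S, p) * ∏ p ∈ T, p) := by rw [← hprod, hab]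
    _ ≤ b ^ 2 * ((2 ^ S.card * (S.lcm (fun p => p - 1) * g ^ (S.card * S.card))) * b) := by
        refine Nat.mul_le_mul_left _ (Nat.mul_le_mul ?_ hT1)
        exact hS1.trans (Nat.mul_le_mul_left _ hS2)
    _ = b ^ 3 * 2 ^ S.card * g ^ (S.card * S.card) * S.lcm (fun p => p - 1) := by ring
    _ ≤ B ^ 3 * 2 ^ K * g ^ (K * K) * S.lcm (fun p => p - 1) := by
        refine Nat.mul_le_mul_right _ ?_
        refine Nat.mul_le_mul (Nat.mul_le_mul ?_ ?_) ?_
        · exact Nat.pow_le_pow_left hbB 3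
        · exact Nat.pow_le_pow_right (by norm_num) hcard
        · exact Nat.pow_le_pow_right hg (Nat.mul_le_mul hcard hcard)

end Pool.Agent.Y683.AA
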