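import Pool.Agent.Y683.AA.HExp
import Pool.Agent.Y683.AA.HCar

/-!
Counting ideals with many divisors, whose norm has a large square divisor, or two prime divisors `p`,
`p'` such that `p - 1` and `p' - 1` have a large common divisor.
-/

set_option autoImplicit false

open Finset

namespace Pool.Agent.Y683.AA

open Pool.Agent.W192.HK

variable {R : Subring ℂ} {ω : ℂ}

/-- the number of ideals of norm at most `X` -/
structure IdCount (R : Subring ℂ) (C : ℝ) : Prop where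
  pos : 0 < C
  fin : ∀ X : ℕ, {I : Ideal R | I ≠ ⊥ ∧ nn I ≤ X}.Finite
  card : ∀ X : ℕ, (Set.ncard {I : Ideal R | I ≠ ⊥ ∧ nn I ≤ X} : ℝ) ≤ C * X

theorem exists_idCount (hb : H_BASIC) (hcnt : H_CNT) (hR : QR R ω) : ∃ C : ℝ, IdCount R C := by
  obtain ⟨c1, -, C, hC, c3, -⟩ := hcnt R ω hR
  have hfin : ∀ X : ℕ, {I : Ideal R | I ≠ ⊥ ∧ nn I ≤ X}.Finite := fun X =>
    (c1 X).subset fun I hI => by
      change nm I ≤ X
      rw [nm_eq]
      exact_mod_cast hI.2
  refine ⟨C, hC, hfin, fun X => ?_⟩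
  rcases Nat.eq_zero_or_pos X with h | h
  · subst h
    have h1 : {I : Ideal R | I ≠ ⊥ ∧ nn I ≤ 0} = ∅ := by
      rw [Set.eq_empty_iff_forall_notMem]
      rintro I ⟨h2, h3⟩
      have := nn_pos hb hR h2
      omega
    rw [h1]
    simp
  · refine le_trans ?_ (c3 X (by exact_mod_cast h))
    refine (Nat.cast_le (α := ℝ)).2 (Set.ncard_le_ncard (fun I hI => ?_) (c1 X))
    change nm I ≤ X
    rw [nm_eq]
    exact_mod_cast hI.2

/-- the ideals of norm at most `X` -/
noncomputable def Id {C : ℝ} (hC : IdCount R C) (X : ℕ) : Finset (Ideal R) := (hC.fin X).toFinset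

lemma mem_Id {C : ℝ} (hC : IdCount R C) {X : ℕ} {I : Ideal R} :
    I ∈ Id hC X ↔ I ≠ ⊥ ∧ nn I ≤ X := by
  unfold Id
  simp

lemma card_Id {C : ℝ} (hC : IdCount R C) (X : ℕ) : ((Id hC X).card : ℝ) ≤ C * X := by
  have h := hC.card X
  rwa [Set.ncard_eq_toFinset_card _ (hC.fin X)] at h

open Classical in
/-- multiples of an ideal -/
lemma card_mul (hb : H_BASIC) (hR : QR R ω) {C : ℝ} (hC : IdCount R C) (X : ℕ) {J : Ideal R}
    (hJ : J ≠ ⊥) : (((Id hC X).filter (fun I => J ∣ I)).card : ℝ) ≤ C * X / nn J := by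
  have hJ1 := nn_pos hb hR hJ
  have := hR.ded
  have h1 : (Id hC X).filter (fun I => J ∣ I) ⊆ (Id hC (X / nn J)).image (fun I => J * I) := by
    intro I hI
    rw [mem_filter, mem_Id] at hI
    obtain ⟨⟨h2, h3⟩, I', rfl⟩ := hI
    rw [mem_image]
    refine ⟨I', ?_, rfl⟩
    rw [mem_Id]
    refine ⟨fun h => h2 (by rw [h, Ideal.mul_bot]), ?_⟩
    rw [nn_mul hb hR] at h3
    rw [Nat.le_div_iff_mul_le (by omega)]
    linarith [mul_comm (nn J) (nn I')]
  have h2 : (((Id hC X).filter (fun I => J ∣ I)).card : ℝ) ≤ ((Id hC (X / nn J)).card : ℝ) := by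
    exact_mod_cast (card_le_card h1).trans card_image_le
  refine h2.trans ((card_Id hC _).trans ?_)
  rw [mul_div_assoc]
  exact mul_le_mul_of_nonneg_left Nat.cast_div_le hC.pos.le

/-- the sum of the inverse norms -/
lemma sum_inv_norm (hb : H_BASIC) (hR : QR R ω) {C : ℝ} (hC : IdCount R C) (X : ℕ) :
    ∑ I ∈ Id hC X, (1 : ℝ) / nn I ≤ C * (2 + Real.log X) := by
  classical
  have htel : ∀ n : ℕ, 1 ≤ n → n ≤ X → (1 : ℝ) / n =
      1 / (X + 1) + ∑ k ∈ Icc n X, (1 : ℝ) / (k * (k + 1)) := by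
    intro n hn hnX
    induction X, hnX using Nat.le_induction with
    | base =>
      rw [Icc_self, sum_singleton]
      have : (0 : ℝ) < n := by exact_mod_cast hn
      field_simp
    | succ m hm ih =>
      rw [sum_Icc_succ_top (by omega), ih]
      have h1 : (0 : ℝ) < m + 1 := by positivity
      have h2 : (0 : ℝ) < (m : ℝ) + 1 + 1 := by positivity
      push_cast
      field_simp
      ring
  have h1 : ∑ I ∈ Id hC X, (1 : ℝ) / nn I = ∑ I ∈ Id hC X, ((1 : ℝ) / (X + 1) +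
      ∑ k ∈ Icc 1 X, if nn I ≤ k then (1 : ℝ) / (k * (k + 1)) else 0) := by
    refine sum_congr rfl fun I hI => ?_
    rw [mem_Id] at hI
    rw [htel _ (nn_pos hb hR hI.1) hI.2, ← sum_filter]
    congr 2
    ext k
    have := nn_pos hb hR hI.1
    simp only [mem_Icc, mem_filter]
    omega
  rw [h1, sum_add_distrib, sum_comm, sum_const, nsmul_eq_mul]
  have h2 : ((Id hC X).card : ℝ) * (1 / (X + 1)) ≤ C := by
    rw [mul_one_div, div_le_iff₀ (by positivity)]
    refine (card_Id hC X).trans ?_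
    exact mul_le_mul_of_nonneg_left (by linarith) hC.pos.le
  have h3 : ∑ k ∈ Icc 1 X, ∑ I ∈ Id hC X, (if nn I ≤ k then (1 : ℝ) / (k * (k + 1)) else 0) ≤
      C * (1 + Real.log X) := by
    calc ∑ k ∈ Icc 1 X, ∑ I ∈ Id hC X, (if nn I ≤ k then (1 : ℝ) / (k * (k + 1)) else 0) ≤
        ∑ k ∈ Icc 1 X, C * (1 / k) := by
          refine sum_le_sum fun k hk => ?_
          rw [mem_Icc] at hk
          have hk0 : (0 : ℝ) < k := by exact_mod_cast hk.1
          rw [← sum_filter, sum_const, nsmul_eq_mul]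
          have h4 : (((Id hC X).filter (fun I => nn I ≤ k)).card : ℝ) ≤ C * k := by
            refine le_trans ?_ (card_Id hC k)
            refine (Nat.cast_le (α := ℝ)).2 (card_le_card fun I hI => ?_)
            rw [mem_filter, mem_Id] at hI
            rw [mem_Id]
            exact ⟨hI.1.1, hI.2⟩
          calc (((Id hC X).filter (fun I => nn I ≤ k)).card : ℝ) * (1 / (k * (k + 1))) ≤
              (C * k) * (1 / (k * (k + 1))) :=
                mul_le_mul_of_nonneg_right h4 (by positivity)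
            _ = C * (1 / (k + 1)) := by field_simp
            _ ≤ C * (1 / k) := by
                refine mul_le_mul_of_nonneg_left ?_ hC.pos.le
                exact one_div_le_one_div_of_le hk0 (by linarith)
      _ = C * ∑ k ∈ Icc 1 X, (1 : ℝ) / k := by rw [mul_sum]
      _ ≤ _ := mul_le_mul_of_nonneg_left (sum_inv_le X) hC.pos.le
  nlinarith

open Classical in
/-- the number of divisors of an ideal among the ideals of norm at most `X` -/
noncomputable def dv {C : ℝ} (hC : IdCount R C) (X : ℕ) (I : Ideal R) : ℕ :=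
  ((Id hC X).filter (fun J => J ∣ I)).card

lemma sum_dv (hb : H_BASIC) (hR : QR R ω) {C : ℝ} (hC : IdCount R C) (X : ℕ) :
    ∑ I ∈ Id hC X, (dv hC X I : ℝ) ≤ C ^ 2 * X * (2 + Real.log X) := by
  classical
  have h1 : ∑ I ∈ Id hC X, (dv hC X I : ℝ) =
      ∑ J ∈ Id hC X, (((Id hC X).filter (fun I => J ∣ I)).card : ℝ) := by
    have h2 : ∀ I ∈ Id hC X, (dv hC X I : ℝ) =
        ∑ J ∈ Id hC X, if J ∣ I then (1 : ℝ) else 0 := by
      intro I _
      rw [← sum_filter, sum_const, nsmul_eq_mul, mul_one]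
      unfold dv
      congr 2
    rw [sum_congr rfl h2, sum_comm]
    refine sum_congr rfl fun J _ => ?_
    rw [← sum_filter, sum_const, nsmul_eq_mul, mul_one]
  rw [h1]
  calc ∑ J ∈ Id hC X, (((Id hC X).filter (fun I => J ∣ I)).card : ℝ) ≤
      ∑ J ∈ Id hC X, C * X * (1 / nn J) := by
        refine sum_le_sum fun J hJ => ?_
        rw [mul_one_div]
        exact card_mul hb hR hC X (mem_Id hC |>.1 hJ).1
    _ = C * X * ∑ J ∈ Id hC X, (1 : ℝ) / nn J := by rw [mul_sum]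
    _ ≤ C * X * (C * (2 + Real.log X)) :=
        mul_le_mul_of_nonneg_left (sum_inv_norm hb hR hC X)
          (mul_nonneg hC.pos.le (Nat.cast_nonneg _))
    _ = _ := by ring

open Classical in
/-- ideals with many divisors -/
lemma card_dv (hb : H_BASIC) (hR : QR R ω) {C : ℝ} (hC : IdCount R C) (X K : ℕ) :
    (((Id hC X).filter (fun I => 2 ^ K ≤ dv hC X I)).card : ℝ) ≤
      C ^ 2 * X * (2 + Real.log X) / 2 ^ K := by
  rw [le_div_iff₀ (by positivity)]
  calc (((Id hC X).filter (fun I => 2 ^ K ≤ dv hC X I)).card : ℝ) * 2 ^ K =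
      ∑ I ∈ (Id hC X).filter (fun I => 2 ^ K ≤ dv hC X I), (2 : ℝ) ^ K := by
        rw [sum_const, nsmul_eq_mul]
    _ ≤ ∑ I ∈ (Id hC X).filter (fun I => 2 ^ K ≤ dv hC X I), (dv hC X I : ℝ) := by
        refine sum_le_sum fun I hI => ?_
        have := (mem_filter.1 hI).2
        exact_mod_cast this
    _ ≤ ∑ I ∈ Id hC X, (dv hC X I : ℝ) :=
        sum_le_sum_of_subset_of_nonneg (filter_subset _ _) fun _ _ _ => Nat.cast_nonneg _
    _ ≤ _ := sum_dv hb hR hC X

/-- few exact prime divisors -/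
lemma card_exact (hb : H_BASIC) (hR : QR R ω) {C : ℝ} (hC : IdCount R C) {X K : ℕ} {I : Ideal R}
    (hI : I ∈ Id hC X) (h : dv hC X I < 2 ^ K) (S : Finset ℕ)
    (hS : ∀ p ∈ S, p.Prime ∧ p ∣ nn I ∧ ¬ p ^ 2 ∣ nn I) : S.card ≤ K := by
  classical
  have := hR.ded
  rw [mem_Id] at hI
  have hex : ∀ p ∈ S, ∃ P : Ideal R, Prime P ∧ P ∣ I ∧ p ∣ nn P := fun p hp =>
    exists_prime hb hR (hS p hp).1 hI.1 (hS p hp).2.1
  choose! P hP1 hP2 hP3 using hex
  have hinj : ∀ p ∈ S, ∀ p' ∈ S, P p ∣ P p' → p = p' := by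
    intro p hp p' hp' hd
    have h1 : P p = P p' :=
      associated_iff_eq.1 ((hP1 p hp).associated_of_dvd (hP1 p' hp') hd)
    obtain ⟨j, -, hj⟩ := prime_card hb hR (hP1 p hp) (hS p hp).1 (hP3 p hp)
    have h2 := hP3 p' hp'
    rw [← h1, hj] at h2
    exact ((Nat.prime_dvd_prime_iff_eq (hS p' hp').1 (hS p hp).1).1
      ((hS p' hp').1.dvd_of_dvd_pow h2)).symm
  have hcop : ∀ p ∈ S, ∀ p' ∈ S, p ≠ p' → IsCoprime (P p) (P p') := by
    intro p hp p' hp' hne
    have m1 : (P p).IsMaximal := (Ideal.isPrime_of_prime (hP1 p hp)).isMaximal (hP1 p hp).ne_zero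
    have m2 : (P p').IsMaximal :=
      (Ideal.isPrime_of_prime (hP1 p' hp')).isMaximal (hP1 p' hp').ne_zero
    rw [Ideal.isCoprime_iff_sup_eq]
    refine m1.coprime_of_ne m2 fun h => hne (hinj p hp p' hp' (by rw [h]))
  have hdvd : ∀ A ⊆ S, ∏ p ∈ A, P p ∣ I := by
    intro A hA
    refine Finset.prod_dvd_of_coprime ?_ fun p hp => hP2 p (hA hp)
    intro p hp p' hp' hne
    exact hcop p (hA hp) p' (hA hp') hne
  have h2 : 2 ^ S.card ≤ dv hC X I := by
    unfold dv
    rw [← card_powerset]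
    refine card_le_card_of_injOn (fun A => ∏ p ∈ A, P p) ?_ ?_
    · intro A hA
      rw [mem_coe, mem_powerset] at hA
      rw [mem_coe, mem_filter, mem_Id]
      have h3 := hdvd A hA
      refine ⟨⟨?_, ?_⟩, h3⟩
      · rintro h4
        change ∏ p ∈ A, P p = ⊥ at h4
        rw [h4] at h3
        exact hI.1 (eq_bot_iff.2 (Ideal.le_of_dvd h3))
      · obtain ⟨J, hJ⟩ := h3
        refine le_trans ?_ hI.2
        change nn (∏ p ∈ A, P p) ≤ nn I
        rw [hJ, nn_mul hb hR]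
        refine Nat.le_mul_of_pos_right _ (nn_pos hb hR ?_)
        rintro rfl
        rw [Ideal.mul_bot] at hJ
        exact hI.1 hJ
    · have hsub : ∀ A ⊆ S, ∀ B ⊆ S, ∏ p ∈ A, P p = ∏ p ∈ B, P p → A ⊆ B := by
        intro A hA B hB hAB p hp
        have h4 : P p ∣ ∏ p' ∈ B, P p' := by
          rw [← hAB]
          exact Finset.dvd_prod_of_mem P hp
        obtain ⟨p', hp', h5⟩ := (hP1 p (hA hp)).exists_mem_finset_dvd h4
        rw [hinj p (hA hp) p' (hB hp') h5]
        exact hp'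
      intro A hA B hB hAB
      rw [mem_coe, mem_powerset] at hA hB
      exact Subset.antisymm (hsub A hA B hB hAB) (hsub B hB A hA hAB.symm)
  have h3 : 2 ^ S.card < 2 ^ K := lt_of_le_of_lt h2 h
  exact ((Nat.pow_lt_pow_iff_right (by norm_num)).1 h3).le

/-- the integer `n` as an element of `R` -/
lemma nn_nat (hb : H_BASIC) (hR : QR R ω) (n : ℕ) : nn (sp (n : R)) = n ^ 2 := by
  obtain ⟨b1, b2, b3, b4, b5, -⟩ := hb R ω hR
  have h := b5 (n : R)
  rw [nm_eq] at h
  have h2 : Complex.normSq (((n : R) : ℂ)) = (n : ℝ) ^ 2 := by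
    have : (((n : R) : ℂ)) = (n : ℂ) := by push_cast; rfl
    rw [this, Complex.normSq_natCast, pow_two]
  rw [h2] at h
  exact_mod_cast h

lemma dvd_nat (I : Ideal R) (hfin : Finite (R ⧸ I)) (hR : QR R ω) : I ∣ sp ((nn I : ℕ) : R) := by
  have := hR.ded
  rw [Ideal.dvd_iff_le, Ideal.span_singleton_le_iff_mem, ← Ideal.Quotient.eq_zero_iff_mem]
  rw [map_natCast]
  unfold nn
  have h := card_nsmul_eq_zero' (G := R ⧸ I) (x := 1)
  rw [nsmul_eq_mul, mul_one] at h
  exact h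

/-- at most two prime ideals above a prime number -/
lemma card_above (hb : H_BASIC) (hR : QR R ω) {p : ℕ} (hp : p.Prime) (T : Finset (Ideal R))
    (hT : ∀ P ∈ T, Prime P ∧ p ∣ nn P) : T.card ≤ 2 := by
  classical
  have := hR.ded
  obtain ⟨b1, -⟩ := hb R ω hR
  have hdiv : ∀ P ∈ T, P ∣ sp (p : R) := by
    intro P hP
    obtain ⟨h1, h2⟩ := hT P hP
    obtain ⟨j, -, hj⟩ := prime_card hb hR h1 hp h2
    have h3 := dvd_nat P (b1 P h1.ne_zero) hR
    rw [hj, Nat.cast_pow, sp, ← Ideal.span_singleton_pow] at h3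
    exact h1.dvd_of_dvd_pow h3
  have hcop : ∀ P ∈ T, ∀ Q ∈ T, P ≠ Q → IsCoprime P Q := by
    intro P hP Q hQ hne
    have m1 : P.IsMaximal := (Ideal.isPrime_of_prime (hT P hP).1).isMaximal (hT P hP).1.ne_zero
    have m2 : Q.IsMaximal := (Ideal.isPrime_of_prime (hT Q hQ).1).isMaximal (hT Q hQ).1.ne_zero
    rw [Ideal.isCoprime_iff_sup_eq]
    exact m1.coprime_of_ne m2 hne
  have h1 : ∏ P ∈ T, P ∣ sp (p : R) :=
    Finset.prod_dvd_of_coprime (fun P hP Q hQ hne => hcop P hP Q hQ hne) hdiv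
  have h2 : nn (∏ P ∈ T, P) ≤ p ^ 2 := by
    rw [← nn_nat hb hR p]
    obtain ⟨J, hJ⟩ := h1
    rw [hJ, nn_mul hb hR]
    refine Nat.le_mul_of_pos_right _ (nn_pos hb hR ?_)
    rintro rfl
    rw [Ideal.mul_bot] at hJ
    have h3 := nn_nat hb hR p
    rw [hJ, nn_bot hb hR] at h3
    exact (pow_pos hp.pos 2).ne h3
  have h3 : p ^ T.card ≤ nn (∏ P ∈ T, P) := by
    have h4 : ∀ U : Finset (Ideal R), U ⊆ T → p ^ U.card ≤ nn (∏ P ∈ U, P) := by
      intro U
      induction U using Finset.induction_on with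
      | empty => intro _; rw [card_empty, pow_zero, prod_empty, Ideal.one_eq_top, nn_top]
      | insert P U hPU ih =>
        intro hU
        rw [card_insert_of_notMem hPU, prod_insert hPU, nn_mul hb hR, pow_succ, mul_comm]
        refine Nat.mul_le_mul ?_ (ih fun x hx => hU (mem_insert_of_mem hx))
        have h5 := hT P (hU (mem_insert_self P U))
        exact Nat.le_of_dvd (nn_pos hb hR h5.1.ne_zero) h5.2
    exact h4 T Subset.rfl
  exact (Nat.pow_le_pow_iff_right hp.one_lt).1 (h3.trans h2)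

open Classical in
/-- ideals whose norm is divisible by two given primes -/
lemma card_two (hb : H_BASIC) (hR : QR R ω) {C : ℝ} (hC : IdCount R C) (X : ℕ) {p p' : ℕ}
    (hp : p.Prime) (hp' : p'.Prime) (hne : p ≠ p') :
    (((Id hC X).filter (fun I => p ∣ nn I ∧ p' ∣ nn I)).card : ℝ) ≤ 4 * (C * X / (p * p')) := by
  have := hR.ded
  set A : ℕ → Finset (Ideal R) := fun r => (Id hC X).filter (fun P => Prime P ∧ r ∣ nn P) with hA
  have hAc : ∀ r : ℕ, r.Prime → (A r).card ≤ 2 := fun r hr =>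
    card_above hb hR hr _ fun P hP => (mem_filter.1 hP).2
  have hsub : (Id hC X).filter (fun I => p ∣ nn I ∧ p' ∣ nn I) ⊆
      ((A p) ×ˢ (A p')).biUnion (fun t => (Id hC X).filter (fun I => t.1 * t.2 ∣ I)) := by
    intro I hI
    rw [mem_filter, mem_Id] at hI
    obtain ⟨⟨h1, h2⟩, h3, h4⟩ := hI
    obtain ⟨P, hP1, hP2, hP3⟩ := exists_prime hb hR hp h1 h3
    obtain ⟨Q, hQ1, hQ2, hQ3⟩ := exists_prime hb hR hp' h1 h4
    have hle : ∀ J : Ideal R, J ∣ I → nn J ≤ X := by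
      rintro J ⟨J', hJ'⟩
      refine le_trans ?_ h2
      rw [hJ', nn_mul hb hR]
      refine Nat.le_mul_of_pos_right _ (nn_pos hb hR ?_)
      rintro rfl
      rw [Ideal.mul_bot] at hJ'
      exact h1 hJ'
    have hPQ : P ≠ Q := by
      rintro rfl
      obtain ⟨j, -, hj⟩ := prime_card hb hR hP1 hp hP3
      rw [hj] at hQ3
      exact hne ((Nat.prime_dvd_prime_iff_eq hp' hp).1 (hp'.dvd_of_dvd_pow hQ3)).symm
    have hcop : IsCoprime P Q := by
      have m1 : P.IsMaximal := (Ideal.isPrime_of_prime hP1).isMaximal hP1.ne_zero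
      have m2 : Q.IsMaximal := (Ideal.isPrime_of_prime hQ1).isMaximal hQ1.ne_zero
      rw [Ideal.isCoprime_iff_sup_eq]
      exact m1.coprime_of_ne m2 hPQ
    rw [mem_biUnion]
    refine ⟨(P, Q), ?_, ?_⟩
    · rw [mem_product]
      simp only [hA, mem_filter, mem_Id]
      exact ⟨⟨⟨hP1.ne_zero, hle P hP2⟩, hP1, hP3⟩, ⟨hQ1.ne_zero, hle Q hQ2⟩, hQ1, hQ3⟩
    · rw [mem_filter, mem_Id]
      exact ⟨⟨h1, h2⟩, hcop.mul_dvd hP2 hQ2⟩
  have hp0 : (0 : ℝ) < p := by exact_mod_cast hp.pos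
  have hp0' : (0 : ℝ) < p' := by exact_mod_cast hp'.pos
  have hCX : 0 ≤ C * X := mul_nonneg hC.pos.le (Nat.cast_nonneg _)
  calc (((Id hC X).filter (fun I => p ∣ nn I ∧ p' ∣ nn I)).card : ℝ) ≤
      ∑ t ∈ (A p) ×ˢ (A p'), (((Id hC X).filter (fun I => t.1 * t.2 ∣ I)).card : ℝ) := by
        exact_mod_cast (card_le_card hsub).trans card_biUnion_le
    _ ≤ ∑ t ∈ (A p) ×ˢ (A p'), C * X / (p * p') := by
        refine sum_le_sum fun t ht => ?_
        rw [mem_product] at ht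
        simp only [hA, mem_filter, mem_Id] at ht
        obtain ⟨⟨-, h1, h2⟩, -, h3, h4⟩ := ht
        refine (card_mul hb hR hC X (mul_ne_zero h1.ne_zero h3.ne_zero)).trans ?_
        refine div_le_div_of_nonneg_left hCX (by positivity) ?_
        rw [nn_mul hb hR, Nat.cast_mul]
        have e1 : (p : ℝ) ≤ nn t.1 := by
          exact_mod_cast Nat.le_of_dvd (nn_pos hb hR h1.ne_zero) h2
        have e2 : (p' : ℝ) ≤ nn t.2 := by
          exact_mod_cast Nat.le_of_dvd (nn_pos hb hR h3.ne_zero) h4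
        exact mul_le_mul e1 e2 hp0'.le (Nat.cast_nonneg _)
    _ = (((A p) ×ˢ (A p')).card : ℝ) * (C * X / (p * p')) := by rw [sum_const, nsmul_eq_mul]
    _ ≤ 4 * (C * X / (p * p')) := by
        refine mul_le_mul_of_nonneg_right ?_ (by positivity)
        rw [card_product]
        have : (A p).card * (A p').card ≤ 2 * 2 := Nat.mul_le_mul (hAc p hp) (hAc p' hp')
        exact_mod_cast this

open Classical in
/-- ideals whose norm is divisible by primes `p`, `p'` with `gcd(p - 1, p' - 1)` large -/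
lemma card_gcdI (hb : H_BASIC) (hR : QR R ω) {C : ℝ} (hC : IdCount R C) (X g : ℕ) (hg : 1 ≤ g) :
    (((Id hC X).filter (fun I => ∃ p p' : ℕ, p.Prime ∧ p'.Prime ∧ p ≠ p' ∧ p ∣ nn I ∧
      p' ∣ nn I ∧ g < Nat.gcd (p - 1) (p' - 1))).card : ℝ) ≤
      4 * C * X * (1 + Real.log X) ^ 2 / g := by
  set B : ℕ × (ℕ × ℕ) → Finset (Ideal R) := fun t =>
    if (t.1 * t.2.1 + 1).Prime ∧ (t.1 * t.2.2 + 1).Prime ∧ t.1 * t.2.1 + 1 ≠ t.1 * t.2.2 + 1 then
      (Id hC X).filter (fun I => (t.1 * t.2.1 + 1) ∣ nn I ∧ (t.1 * t.2.2 + 1) ∣ nn I) else ∅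
    with hB
  have hsub : (Id hC X).filter (fun I => ∃ p p' : ℕ, p.Prime ∧ p'.Prime ∧ p ≠ p' ∧ p ∣ nn I ∧
      p' ∣ nn I ∧ g < Nat.gcd (p - 1) (p' - 1)) ⊆
      ((Icc (g + 1) X) ×ˢ ((Icc 1 X) ×ˢ (Icc 1 X))).biUnion B := by
    intro I hI
    rw [mem_filter, mem_Id] at hI
    obtain ⟨⟨h1, h2⟩, p, p', hp, hp', hne, hpq, hpq', hgt⟩ := hI
    have hI1 := nn_pos hb hR h1
    set d := Nat.gcd (p - 1) (p' - 1) with hd
    obtain ⟨u, hu⟩ : d ∣ p - 1 := Nat.gcd_dvd_left _ _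
    obtain ⟨v, hv⟩ : d ∣ p' - 1 := Nat.gcd_dvd_right _ _
    have hp2 := hp.two_le
    have hp2' := hp'.two_le
    have hd0 : 0 < d := by omega
    have hu0 : 0 < u := by
      rcases Nat.eq_zero_or_pos u with h | h
      · rw [h, mul_zero] at hu; omega
      · exact h
    have hv0 : 0 < v := by
      rcases Nat.eq_zero_or_pos v with h | h
      · rw [h, mul_zero] at hv; omega
      · exact h
    have hpX : p ≤ X := (Nat.le_of_dvd (by omega) hpq).trans h2
    have hpX' : p' ≤ X := (Nat.le_of_dvd (by omega) hpq').trans h2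
    have hdu : d ≤ d * u := Nat.le_mul_of_pos_right d hu0
    have huu : u ≤ d * u := Nat.le_mul_of_pos_left u hd0
    have hvv : v ≤ d * v := Nat.le_mul_of_pos_left v hd0
    have e1 : d * u + 1 = p := by omega
    have e2 : d * v + 1 = p' := by omega
    rw [mem_biUnion]
    refine ⟨(d, (u, v)), ?_, ?_⟩
    · simp only [mem_product, mem_Icc]
      refine ⟨⟨by omega, by omega⟩, ⟨by omega, by omega⟩, ⟨by omega, by omega⟩⟩
    · rw [hB]
      simp only [e1, e2]
      rw [if_pos ⟨hp, hp', hne⟩, mem_filter, mem_Id]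
      exact ⟨⟨h1, h2⟩, hpq, hpq'⟩
  have hL : 0 ≤ 1 + Real.log X := by
    have : 0 ≤ Real.log X := Real.log_natCast_nonneg X
    linarith
  have hCX : 0 ≤ C * X := mul_nonneg hC.pos.le (Nat.cast_nonneg _)
  calc (((Id hC X).filter (fun I => ∃ p p' : ℕ, p.Prime ∧ p'.Prime ∧ p ≠ p' ∧ p ∣ nn I ∧
      p' ∣ nn I ∧ g < Nat.gcd (p - 1) (p' - 1))).card : ℝ) ≤
      ∑ t ∈ (Icc (g + 1) X) ×ˢ ((Icc 1 X) ×ˢ (Icc 1 X)), ((B t).card : ℝ) := by
        exact_mod_cast (card_le_card hsub).trans card_biUnion_le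
    _ ≤ ∑ t ∈ (Icc (g + 1) X) ×ˢ ((Icc 1 X) ×ˢ (Icc 1 X)),
        (4 * (C * X)) * ((1 / (t.1 : ℝ) ^ 2) * ((1 / (t.2.1 : ℝ)) * (1 / (t.2.2 : ℝ)))) := by
        refine sum_le_sum fun t ht => ?_
        simp only [mem_product, mem_Icc] at ht
        obtain ⟨⟨h1, h2⟩, ⟨h3, h4⟩, h5, h6⟩ := ht
        have k1 : (0 : ℝ) < t.1 := by
          have : 0 < t.1 := by omega
          exact_mod_cast this
        have k2 : (0 : ℝ) < t.2.1 := by
          have : 0 < t.2.1 := by omega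
          exact_mod_cast this
        have k3 : (0 : ℝ) < t.2.2 := by
          have : 0 < t.2.2 := by omega
          exact_mod_cast this
        rw [hB]
        simp only
        split_ifs with hc
        · refine (card_two hb hR hC X hc.1 hc.2.1 hc.2.2).trans ?_
          rw [div_mul_div_comm, div_mul_div_comm, mul_one, mul_one, mul_one_div,
            mul_div_assoc 4 (C * (X : ℝ))]
          refine mul_le_mul_of_nonneg_left ?_ (by norm_num)
          refine div_le_div_of_nonneg_left hCX (by positivity) ?_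
          push_cast
          nlinarith [mul_pos k1 k2, mul_pos k1 k3]
        · rw [card_empty, Nat.cast_zero]
          positivity
    _ = (4 * (C * X)) * ((∑ d ∈ Icc (g + 1) X, 1 / (d : ℝ) ^ 2) *
          ((∑ u ∈ Icc 1 X, 1 / (u : ℝ)) * (∑ v ∈ Icc 1 X, 1 / (v : ℝ)))) := by
        rw [← mul_sum, sum_mul_sum, ← sum_product', sum_mul_sum, ← sum_product']
    _ ≤ (4 * (C * X)) * ((1 / g) * ((1 + Real.log X) * (1 + Real.log X))) := by
        refine mul_le_mul_of_nonneg_left ?_ (by positivity)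
        have h1 := sum_inv_sq_le X g hg
        have h2 := sum_inv_le X
        have h3 : 0 ≤ ∑ u ∈ Icc 1 X, 1 / (u : ℝ) := sum_nonneg fun _ _ => by positivity
        have h4 : 0 ≤ ∑ d ∈ Icc (g + 1) X, 1 / (d : ℝ) ^ 2 := sum_nonneg fun _ _ => by positivity
        gcongr
    _ = 4 * C * X * (1 + Real.log X) ^ 2 / g := by ring

open Classical in
/-- ideals whose norm has a large square divisor -/
lemma card_sqI (hb : H_BASIC) (hdivr : H_DIVR) (hR : QR R ω) {C : ℝ} (hC : IdCount R C) {η : ℝ}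
    (hη : 0 < η) : ∃ C1 : ℝ, 0 < C1 ∧ ∀ X B : ℕ, 1 ≤ X → 1 ≤ B →
    (((Id hC X).filter (fun I => ∃ b, B < b ∧ b ^ 2 ∣ nn I)).card : ℝ) ≤
      C1 * (X : ℝ) ^ (2 * η) * X / B := by
  obtain ⟨C1, hC1, h1⟩ := hdivr R ω hR η hη
  obtain ⟨b1, -⟩ := hb R ω hR
  refine ⟨C1, hC1, fun X B hX hB => ?_⟩
  have hX0 : (0 : ℝ) < X := by exact_mod_cast hX
  have hfib : ∀ n ∈ (Icc 1 X).filter (fun q => ∃ b, B < b ∧ b ^ 2 ∣ q),
      (((Id hC X).filter (fun I => nn I = n)).card : ℝ) ≤ C1 * (X : ℝ) ^ (2 * η) := by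
    intro n hn
    rw [mem_filter, mem_Icc] at hn
    obtain ⟨⟨hn1, hn2⟩, -⟩ := hn
    have hne : sp ((n : ℕ) : R) ≠ ⊥ := by
      intro h
      have h2 := nn_nat hb hR n
      rw [h, nn_bot hb hR] at h2
      have : 0 < n ^ 2 := pow_pos (by omega) 2
      omega
    obtain ⟨h2, h3⟩ := h1 _ hne
    have h4 : (((Id hC X).filter (fun I => nn I = n) : Finset (Ideal R)) : Set (Ideal R)) ⊆
        {J : Ideal R | J ∣ sp ((n : ℕ) : R)} := by
      intro I hI
      rw [mem_coe, mem_filter, mem_Id] at hI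
      have h5 := dvd_nat I (b1 I hI.1.1) hR
      rw [hI.2] at h5
      exact h5
    have h5 := Set.ncard_le_ncard h4 h2
    rw [Set.ncard_coe_finset] at h5
    have h6 : (((Id hC X).filter (fun I => nn I = n)).card : ℝ) ≤
        C1 * (nm (sp ((n : ℕ) : R))) ^ η := le_trans (by exact_mod_cast h5) h3
    refine h6.trans ?_
    refine mul_le_mul_of_nonneg_left ?_ hC1.le
    rw [nm_eq, nn_nat hb hR, Nat.cast_pow, ← Real.rpow_natCast, ← Real.rpow_mul (Nat.cast_nonneg _)]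
    have : (n : ℝ) ≤ X := by exact_mod_cast hn2
    push_cast
    exact Real.rpow_le_rpow (Nat.cast_nonneg _) this (by positivity)
  have hsub : (Id hC X).filter (fun I => ∃ b, B < b ∧ b ^ 2 ∣ nn I) ⊆
      ((Icc 1 X).filter (fun q => ∃ b, B < b ∧ b ^ 2 ∣ q)).biUnion
        (fun n => (Id hC X).filter (fun I => nn I = n)) := by
    intro I hI
    rw [mem_filter, mem_Id] at hI
    rw [mem_biUnion]
    refine ⟨nn I, ?_, ?_⟩
    · rw [mem_filter, mem_Icc]
      exact ⟨⟨nn_pos hb hR hI.1.1, hI.1.2⟩, hI.2⟩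
    · rw [mem_filter, mem_Id]
      exact ⟨hI.1, rfl⟩
  calc (((Id hC X).filter (fun I => ∃ b, B < b ∧ b ^ 2 ∣ nn I)).card : ℝ) ≤
      ∑ n ∈ (Icc 1 X).filter (fun q => ∃ b, B < b ∧ b ^ 2 ∣ q),
        (((Id hC X).filter (fun I => nn I = n)).card : ℝ) := by
        exact_mod_cast (card_le_card hsub).trans card_biUnion_le
    _ ≤ ∑ n ∈ (Icc 1 X).filter (fun q => ∃ b, B < b ∧ b ^ 2 ∣ q), C1 * (X : ℝ) ^ (2 * η) :=
        sum_le_sum hfib
    _ = (((Icc 1 X).filter (fun q => ∃ b, B < b ∧ b ^ 2 ∣ q)).card : ℝ) *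
        (C1 * (X : ℝ) ^ (2 * η)) := by rw [sum_const, nsmul_eq_mul]
    _ ≤ (X / B) * (C1 * (X : ℝ) ^ (2 * η)) :=
        mul_le_mul_of_nonneg_right (card_sq X B hB) (by positivity)
    _ = _ := by ring

end Pool.Agent.Y683.AA
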