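import Pool.Agent.Y683.AA.HExp
import Pool.Agent.Y767.HC.Ext

/-!
Existence of Hecke characters with given finite part.
-/

set_option autoImplicit false

open Complex

namespace Pool.Agent.Y683.AA

open Pool.Agent.W192.HK
open Pool.Agent.Y690 (cop_iff cop_congr cop_mono sp_mul sp_pow hc_pow ne_zero_of_cop lift_cop sp_ne)

variable {R : Subring ℂ} {ω : ℂ}

/-- the nonzero elements prime to `f` -/
def Tm (f : Ideal R) : Submonoid R where
  carrier := {α | α ≠ 0 ∧ IsCoprime (sp α) f}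
  one_mem' := ⟨one_ne_zero, by
    rw [Ideal.isCoprime_iff_sup_eq, sp, Ideal.span_singleton_one]; exact top_sup_eq _⟩
  mul_mem' {a b} ha hb := ⟨mul_ne_zero ha.1 hb.1, by
    rw [sp_mul]; exact IsCoprime.mul_left ha.2 hb.2⟩

/-- the nonzero ideals prime to `f` -/
def Mm (hR : QR R ω) (f : Ideal R) : Submonoid (Ideal R) where
  carrier := {I | I ≠ ⊥ ∧ IsCoprime I f}
  one_mem' := ⟨by rw [Ideal.one_eq_top]; exact top_ne_bot, by
    rw [Ideal.isCoprime_iff_sup_eq, Ideal.one_eq_top]; exact top_sup_eq _⟩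
  mul_mem' {a b} ha hb := ⟨by
    have := hR.ded
    exact mul_ne_zero ha.1 hb.1, IsCoprime.mul_left ha.2 hb.2⟩

lemma mm_cancel (hR : QR R ω) (f : Ideal R) : IsCancelMul (Mm hR f) := by
  have := hR.ded
  have h1 : IsLeftCancelMul (Mm hR f) := ⟨fun a b c h => Subtype.ext
    (mul_left_cancel₀ a.2.1 (congrArg Subtype.val h : (a : Ideal R) * b = a * c))⟩
  have h2 : IsRightCancelMul (Mm hR f) := ⟨fun a b c h => Subtype.ext
    (mul_right_cancel₀ a.2.1 (congrArg Subtype.val h : (b : Ideal R) * a = c * a))⟩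
  exact { h1, h2 with }

/-- the class of an element prime to `f` -/
noncomputable def uc (f : Ideal R) : Tm f →* (R ⧸ f)ˣ where
  toFun a := (isUnit_iff_cop.2 a.2.2).unit
  map_one' := by ext; simp
  map_mul' a b := by ext; simp

lemma uc_val (f : Ideal R) (a : Tm f) :
    ((uc f a : (R ⧸ f)ˣ) : R ⧸ f) = Ideal.Quotient.mk f (a : R) := rfl

/-- the embedding in the complex numbers -/
noncomputable def ec (f : Ideal R) : Tm f →* ℂˣ where
  toFun a := Units.mk0 ((a : R) : ℂ) (fun h => a.2.1 (Subtype.ext h))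
  map_one' := by ext; simp
  map_mul' a b := by ext; simp

/-- the principal ideals -/
noncomputable def pc' (hR : QR R ω) (f : Ideal R) : Tm f →* Mm hR f where
  toFun a := ⟨sp (a : R), sp_ne a.2.1, a.2.2⟩
  map_one' := by
    apply Subtype.ext
    change sp (1 : R) = 1
    rw [sp, Ideal.span_singleton_one, Ideal.one_eq_top]
  map_mul' a b := by
    apply Subtype.ext
    exact sp_mul (a : R) (b : R)

/-- a Hecke character (not necessarily primitive) with given finite part -/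
theorem exists_imp (hR : QR R ω) (n : ℕ) (f : Ideal R) (F : (R ⧸ f)ˣ →* ℂˣ)
    (hu : ∀ u : Rˣ, ∀ v : (R ⧸ f)ˣ, (v : R ⧸ f) = Ideal.Quotient.mk f (u : R) →
      ((F v : ℂˣ) : ℂ) * (((u : R) : ℂ)) ^ n = 1) :
    ∃ θ : Ideal R → ℂ, (∀ I J, θ (I * J) = θ I * θ J) ∧
      (∀ I, θ I = 0 ↔ (I = ⊥ ∨ ¬ IsCoprime I f)) ∧
      ∀ (α : R) (v : (R ⧸ f)ˣ), α ≠ 0 → Ideal.Quotient.mk f α = v →
        θ (sp α) = ((F v : ℂˣ) : ℂ) * (α : ℂ) ^ n := by
  classical
  have := hR.ded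
  have hcan := mm_cancel hR f
  obtain ⟨G, hG⟩ := Pool.Agent.Y767.ext_mon (pc' hR f) ((F.comp (uc f)) * (ec f) ^ n) (by
    intro a b hab
    have h1 : sp (a : R) = sp (b : R) := congrArg Subtype.val hab
    obtain ⟨u, hu1⟩ := Ideal.span_singleton_eq_span_singleton.1 h1
    -- `b = a u`
    have hcu : IsCoprime (sp (u : R)) f := by
      have : sp (u : R) = ⊤ := Ideal.span_singleton_eq_top.2 u.isUnit
      rw [this, Ideal.isCoprime_iff_sup_eq]
      exact top_sup_eq _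
    have hu0 : (u : R) ≠ 0 := u.ne_zero
    have e1 : b = a * (⟨u, hu0, hcu⟩ : Tm f) := Subtype.ext hu1.symm
    have e2 : ((F.comp (uc f)) * (ec f) ^ n) (⟨u, hu0, hcu⟩ : Tm f) = 1 := by
      ext
      have := hu u (uc f ⟨u, hu0, hcu⟩) rfl
      exact this
    rw [e1, map_mul, e2, mul_one])
  refine ⟨fun I => if h : I ≠ ⊥ ∧ IsCoprime I f then ((G (⟨I, h⟩ : Mm hR f) : ℂˣ) : ℂ) else 0,
    ?_, ?_, ?_⟩
  · intro I J
    by_cases hI : I ≠ ⊥ ∧ IsCoprime I f
    · by_cases hJ : J ≠ ⊥ ∧ IsCoprime J f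
      · have hIJ : I * J ≠ ⊥ ∧ IsCoprime (I * J) f :=
          ⟨mul_ne_zero hI.1 hJ.1, IsCoprime.mul_left hI.2 hJ.2⟩
        simp only [dif_pos hI, dif_pos hJ, dif_pos hIJ]
        rw [← Units.val_mul, ← map_mul]
        rfl
      · have hIJ : ¬ (I * J ≠ ⊥ ∧ IsCoprime (I * J) f) := by
          rintro ⟨h1, h2⟩
          exact hJ ⟨fun h => h1 (by rw [h, Ideal.mul_bot]), IsCoprime.of_mul_left_right h2⟩
        simp only [dif_neg hJ, dif_neg hIJ, mul_zero]
    · have hIJ : ¬ (I * J ≠ ⊥ ∧ IsCoprime (I * J) f) := by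
        rintro ⟨h1, h2⟩
        exact hI ⟨fun h => h1 (by rw [h, Ideal.bot_mul]), IsCoprime.of_mul_left_left h2⟩
      simp only [dif_neg hI, dif_neg hIJ, zero_mul]
  · intro I
    by_cases hI : I ≠ ⊥ ∧ IsCoprime I f
    · simp only [dif_pos hI]
      constructor
      · intro h
        exact absurd h (Units.ne_zero _)
      · rintro (h | h)
        · exact absurd h hI.1
        · exact absurd hI.2 h
    · simp only [dif_neg hI, true_iff]
      by_contra h
      push Not at h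
      exact hI h
  · intro α v hα hv
    have hc : IsCoprime (sp α) f := by
      rw [← isUnit_iff_cop, hv]
      exact v.isUnit
    have hI : sp α ≠ ⊥ ∧ IsCoprime (sp α) f := ⟨sp_ne hα, hc⟩
    simp only [dif_pos hI]
    have h1 := hG ⟨α, hα, hc⟩
    have h2 : pc' hR f ⟨α, hα, hc⟩ = ⟨sp α, hI⟩ := rfl
    rw [h2] at h1
    rw [h1]
    have h3 : uc f ⟨α, hα, hc⟩ = v := by
      ext
      rw [uc_val]
      exact hv
    change ((F (uc f ⟨α, hα, hc⟩) : ℂˣ) : ℂ) * ((ec f ⟨α, hα, hc⟩ : ℂˣ) : ℂ) ^ n = _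
    rw [h3]
    rfl

/-- `F` does not come from a strictly larger ideal -/
def PrimF (f : Ideal R) (F : (R ⧸ f)ˣ →* ℂˣ) : Prop :=
  ∀ q' : Ideal R, f < q' → ∃ (α : R) (v : (R ⧸ f)ˣ), α ≠ 0 ∧ α - 1 ∈ q' ∧
    Ideal.Quotient.mk f α = v ∧ F v ≠ 1

/-- a primitive Hecke character with given finite part -/
theorem exists_hecke (hR : QR R ω) (n : ℕ) {f : Ideal R} (hf : f ≠ ⊥) (F : (R ⧸ f)ˣ →* ℂˣ)
    (hu : ∀ u : Rˣ, ∀ v : (R ⧸ f)ˣ, (v : R ⧸ f) = Ideal.Quotient.mk f (u : R) →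
      ((F v : ℂˣ) : ℂ) * (((u : R) : ℂ)) ^ n = 1) (hp : PrimF f F) :
    ∃ θ : Ideal R → ℂ, HC n f θ ∧ IsFin n f θ F := by
  obtain ⟨θ, h1, h2, h3⟩ := exists_imp hR n f F hu
  refine ⟨θ, ⟨hf, h1, h2, fun α hα h4 => ?_, fun q' hq' => ?_⟩, fun u α h4 hα => ?_⟩
  · have h5 : Ideal.Quotient.mk f α = ((1 : (R ⧸ f)ˣ) : R ⧸ f) := by
      rw [Units.val_one, ← map_one (Ideal.Quotient.mk f), Ideal.Quotient.mk_eq_mk_iff_sub_mem]
      exact h4
    rw [h3 α 1 hα h5, map_one, Units.val_one, one_mul]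
  · obtain ⟨α, v, k1, k2, k3, k4⟩ := hp q' hq'
    refine ⟨α, k1, k2, ?_, fun h => k4 ?_⟩
    · rw [← isUnit_iff_cop, k3]
      exact v.isUnit
    · rw [h3 α v k1 k3] at h
      have hα' : (α : ℂ) ≠ 0 := fun h => k1 (by exact_mod_cast h)
      ext
      rw [Units.val_one]
      exact (mul_eq_right₀ (pow_ne_zero n hα')).1 h
  · have hα' : (α : ℂ) ≠ 0 := fun h => hα (by exact_mod_cast h)
    rw [h3 α u hα h4, mul_div_assoc, div_self (pow_ne_zero n hα'), mul_one]

/-- the conductor of a character of `(R / q)ˣ` -/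
theorem exists_cond (hb : H_BASIC) (hR : QR R ω) {q : Ideal R} (hq : q ≠ ⊥)
    (F0 : (R ⧸ q)ˣ →* ℂˣ) : ∃ (f : Ideal R) (F : (R ⧸ f)ˣ →* ℂˣ), q ≤ f ∧ PrimF f F ∧
      ∀ (α : R) (v : (R ⧸ q)ˣ) (w : (R ⧸ f)ˣ), Ideal.Quotient.mk q α = v →
        Ideal.Quotient.mk f α = w → F w = F0 v := by
  classical
  have := hR.ded
  obtain ⟨b1, -⟩ := hb R ω hR
  set S : Set (Ideal R) := {f | q ≤ f ∧ ∀ (α : R) (v : (R ⧸ q)ˣ), Ideal.Quotient.mk q α = v →
    α - 1 ∈ f → F0 v = 1} with hS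
  have hqS : q ∈ S := by
    refine ⟨le_rfl, fun α v h1 h2 => ?_⟩
    have : v = 1 := by
      ext
      rw [← h1, Units.val_one, ← map_one (Ideal.Quotient.mk q),
        Ideal.Quotient.mk_eq_mk_iff_sub_mem]
      exact h2
    rw [this, map_one]
  have hnoeth : WellFoundedGT (Ideal R) := by
    have : IsNoetherianRing R := inferInstance
    infer_instance
  obtain ⟨f, hf1, hf2⟩ := WellFounded.has_min (wellFounded_gt (α := Ideal R)) S ⟨q, hqS⟩
  have hqf : q ≤ f := hf1.1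
  -- the surjection
  set π : (R ⧸ q)ˣ →* (R ⧸ f)ˣ := Units.map (Ideal.Quotient.factor hqf).toMonoidHom with hπ
  have hsurj : Function.Surjective π := by
    intro u
    obtain ⟨α, hα⟩ := Ideal.Quotient.mk_surjective (u : R ⧸ f)
    by_cases hft : f = ⊤
    · refine ⟨1, ?_⟩
      have : Subsingleton (R ⧸ f) := by
        rw [hft]
        exact Ideal.Quotient.subsingleton_iff.2 rfl
      ext
      exact Subsingleton.elim _ _
    · have hαc : IsCoprime (sp α) f := by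
        rw [← isUnit_iff_cop, hα]
        exact u.isUnit
      obtain ⟨β, hβ0, hβc, hβ⟩ := lift_cop hb hR hq (ne_zero_of_cop hft hαc) hαc
      obtain ⟨v, hv⟩ := isUnit_iff_cop.2 hβc
      refine ⟨v, ?_⟩
      ext
      change Ideal.Quotient.factor hqf (v : R ⧸ q) = (u : R ⧸ f)
      rw [hv, Ideal.Quotient.factor_mk, ← hα, Ideal.Quotient.mk_eq_mk_iff_sub_mem]
      exact hβ
  have hker : π.ker ≤ F0.ker := by
    intro v hv
    rw [MonoidHom.mem_ker] at hv ⊢
    obtain ⟨α, hα⟩ := Ideal.Quotient.mk_surjective (v : R ⧸ q)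
    refine hf1.2 α v hα ?_
    rw [← Ideal.Quotient.mk_eq_mk_iff_sub_mem, map_one]
    have h1 : Ideal.Quotient.factor hqf (v : R ⧸ q) = 1 := by
      have := congrArg (fun x : (R ⧸ f)ˣ => (x : R ⧸ f)) hv
      exact this
    rw [← hα, Ideal.Quotient.factor_mk] at h1
    exact h1
  set F : (R ⧸ f)ˣ →* ℂˣ := MonoidHom.liftOfSurjective π hsurj ⟨F0, hker⟩ with hF
  have hFπ : ∀ v, F (π v) = F0 v := by
    intro v
    have := MonoidHom.liftOfRightInverse_comp_apply π _ (Function.rightInverse_surjInv hsurj)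
      ⟨F0, hker⟩ v
    exact this
  have hcomp : ∀ (α : R) (v : (R ⧸ q)ˣ) (w : (R ⧸ f)ˣ), Ideal.Quotient.mk q α = v →
        Ideal.Quotient.mk f α = w → F w = F0 v := by
    intro α v w h1 h2
    have : w = π v := by
      ext
      change (w : R ⧸ f) = Ideal.Quotient.factor hqf (v : R ⧸ q)
      rw [← h1, Ideal.Quotient.factor_mk, h2]
    rw [this, hFπ]
  refine ⟨f, F, hqf, fun q' hq' => ?_, hcomp⟩
  by_contra hcon
  push Not at hcon
  refine hf2 q' ⟨hqf.trans hq'.le, fun α v h1 h2 => ?_⟩ hq'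
  by_cases h0 : α = 0
  · -- then `q = ⊤`
    have hqt : q = ⊤ := by
      by_contra h
      have hc : IsCoprime (sp α) q := by
        rw [← isUnit_iff_cop, h1]
        exact v.isUnit
      exact ne_zero_of_cop h hc h0
    have : v = 1 := by
      have : Subsingleton (R ⧸ q) := by
        rw [hqt]
        exact Ideal.Quotient.subsingleton_iff.2 rfl
      ext
      exact Subsingleton.elim _ _
    rw [this, map_one]
  · have hc : IsCoprime (sp α) q := by
      rw [← isUnit_iff_cop, h1]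
      exact v.isUnit
    have hcf : IsCoprime (sp α) f := by
      rw [Ideal.isCoprime_iff_exists] at hc ⊢
      obtain ⟨i, hi, j, hj, e⟩ := hc
      exact ⟨i, hi, j, hqf hj, e⟩
    obtain ⟨w, hw⟩ := isUnit_iff_cop.2 hcf
    rw [← hcomp α v w h1 hw.symm]
    exact hcon α w h0 h2 hw.symm

end Pool.Agent.Y683.AA
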