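import Pool.Agent.Y683.AA.HSum
import Pool.Agent.Y683.AA.HExt

/-!
Lower bound for the number of Hecke characters whose conductor divides `q`.
-/

set_option autoImplicit false

open Finset

namespace Pool.Agent.Y683.AA

open Pool.Agent.W192.HK
open Pool.Agent.Y690 (cop_iff cop_congr cop_mono sp_mul sp_pow hc_pow ne_zero_of_cop lift_cop sp_ne)

variable {R : Subring ℂ} {ω : ℂ}

/-- the number of extensions of a character -/
theorem card_ext {G U : Type} [CommGroup G] [Finite G] [CommGroup U] (ι : U →* G)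
    (hι : Function.Injective ι) (κ : U →* ℂˣ) :
    Finite (G →* ℂˣ) ∧ Nat.card G ≤ Nat.card {F : G →* ℂˣ // F.comp ι = κ} * Nat.card U := by
  classical
  have hU : Finite U := Finite.of_injective ι hι
  have : NeZero (Monoid.exponent G) := ⟨Monoid.exponent_ne_zero_of_finite⟩
  have : NeZero (Monoid.exponent U) := ⟨Monoid.exponent_ne_zero_of_finite⟩
  have e1 : Nat.card (G →* ℂˣ) = Nat.card G :=
    CommGroup.card_monoidHom_of_hasEnoughRootsOfUnity G ℂ
  have e1' : Nat.card (U →* ℂˣ) = Nat.card U :=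
    CommGroup.card_monoidHom_of_hasEnoughRootsOfUnity U ℂ
  have hfG : Finite (G →* ℂˣ) := Nat.finite_of_card_ne_zero (by rw [e1]; exact Nat.card_pos.ne')
  have hfU : Finite (U →* ℂˣ) := Nat.finite_of_card_ne_zero (by rw [e1']; exact Nat.card_pos.ne')
  refine ⟨hfG, ?_⟩
  let ρ : (G →* ℂˣ) →* (U →* ℂˣ) :=
    { toFun := fun F => F.comp ι
      map_one' := by ext; rfl
      map_mul' := fun F F' => by ext; rfl }
  have h1 : Nat.card ρ.ker * ρ.ker.index = Nat.card (G →* ℂˣ) := Subgroup.card_mul_index _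
  have h2 : ρ.ker.index = Nat.card ρ.range := Subgroup.index_ker ρ
  have h3 : Nat.card ρ.range ≤ Nat.card (U →* ℂˣ) :=
    Nat.card_le_card_of_injective (fun x : ρ.range => (x : U →* ℂˣ)) Subtype.val_injective
  obtain ⟨F0, hF0⟩ := Pool.Agent.Y767.ext_group ι κ (fun b hb => by
    rw [hι (hb.trans ι.map_one.symm)]
    exact map_one κ)
  have h4 : Nat.card ρ.ker ≤ Nat.card {F : G →* ℂˣ // F.comp ι = κ} := by
    have hk : ∀ F : ρ.ker, (F0 * (F : G →* ℂˣ)).comp ι = κ := by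
      intro F
      have hF : (F : G →* ℂˣ).comp ι = 1 := F.2
      refine MonoidHom.ext fun u => ?_
      have h5 : (F : G →* ℂˣ) (ι u) = 1 := DFunLike.congr_fun hF u
      change F0 (ι u) * (F : G →* ℂˣ) (ι u) = κ u
      rw [h5, mul_one, hF0]
    refine Nat.card_le_card_of_injective (fun F : ρ.ker => (⟨_, hk F⟩ :
      {F : G →* ℂˣ // F.comp ι = κ})) ?_
    intro F F' h
    have h5 : F0 * (F : G →* ℂˣ) = F0 * (F' : G →* ℂˣ) := congrArg Subtype.val h
    exact Subtype.ext (mul_left_cancel h5)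
  calc Nat.card G = Nat.card ρ.ker * Nat.card ρ.range := by rw [← e1, ← h1, h2]
    _ ≤ _ := Nat.mul_le_mul h4 (h3.trans e1'.le)

lemma nn_sp (hb : H_BASIC) (hR : QR R ω) (α : R) :
    (nn (sp α) : ℝ) = Complex.normSq (α : ℂ) := by
  obtain ⟨b1, b2, b3, b4, b5, -⟩ := hb R ω hR
  exact b5 α

lemma unit_norm (hb : H_BASIC) (hR : QR R ω) (u : Rˣ) : ‖((u : R) : ℂ)‖ = 1 := by
  have h1 : sp (u : R) = ⊤ := Ideal.span_singleton_eq_top.2 u.isUnit
  have h2 := nn_sp hb hR (u : R)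
  rw [h1, nn_top, Complex.normSq_eq_norm_sq] at h2
  have h3 : 0 ≤ ‖((u : R) : ℂ)‖ := norm_nonneg _
  push_cast at h2
  nlinarith

lemma nn_le_of_le (hb : H_BASIC) (hR : QR R ω) {q f : Ideal R} (hq : q ≠ ⊥) (h : q ≤ f) :
    nn f ≤ nn q := by
  have := hR.ded
  obtain ⟨J, hJ⟩ := Ideal.dvd_iff_le.2 h
  have hJ0 : J ≠ ⊥ := by
    rintro rfl
    exact hq (by rw [hJ, Ideal.mul_bot])
  rw [hJ, nn_mul hb hR]
  exact Nat.le_mul_of_pos_right _ (nn_pos hb hR hJ0)

/-- the units modulo `q` -/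
noncomputable def um (q : Ideal R) : Rˣ →* (R ⧸ q)ˣ := Units.map (Ideal.Quotient.mk q).toMonoidHom

lemma um_val (q : Ideal R) (u : Rˣ) :
    ((um q u : (R ⧸ q)ˣ) : R ⧸ q) = Ideal.Quotient.mk q (u : R) := rfl

lemma units_inj (hb : H_BASIC) (hR : QR R ω) {q : Ideal R} (h4 : 4 < nn q) :
    Function.Injective (um q) := by
  intro u v huv
  by_contra hne
  have h1 : (u : R) - v ∈ q := by
    rw [← Ideal.Quotient.mk_eq_mk_iff_sub_mem]
    exact congrArg Units.val huv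
  have h2 : (u : R) - v ≠ 0 := fun h => hne (Units.ext (sub_eq_zero.1 h))
  have h3 : nn q ≤ nn (sp ((u : R) - (v : R))) :=
    nn_le_of_le hb hR (sp_ne h2) ((Ideal.span_singleton_le_iff_mem _).2 h1)
  have h5 : (nn (sp ((u : R) - (v : R))) : ℝ) ≤ 4 := by
    rw [nn_sp hb hR, Complex.normSq_eq_norm_sq]
    have h6 : ‖(((u : R) - (v : R) : R) : ℂ)‖ ≤ 2 := by
      change ‖((u : R) : ℂ) - ((v : R) : ℂ)‖ ≤ 2
      refine (norm_sub_le _ _).trans ?_
      rw [unit_norm hb hR, unit_norm hb hR]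
      norm_num
    nlinarith [norm_nonneg (((u : R) - (v : R) : R) : ℂ)]
  have h6 : nn (sp ((u : R) - (v : R))) ≤ 4 := by exact_mod_cast h5
  omega

/-- the characters whose conductor divides `q` -/
def Dv (m : ℕ) (q : Ideal R) : Set (Ideal R → ℂ) :=
  {θ | ∃ f : Ideal R, HC (2 * m - 1) f θ ∧ q ≤ f}

theorem dv_subset (hb : H_BASIC) (hR : QR R ω) (m : ℕ) {q : Ideal R} (hq : q ≠ ⊥) {X : ℕ}
    (hX : nn q ≤ X) : Dv m q ⊆ Hk R m X := by
  rintro θ ⟨f, h1, h2⟩
  exact ⟨f, h1, (nn_le_of_le hb hR hq h2).trans hX⟩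

theorem count_dvd (hb : H_BASIC) (hcls : H_CLS) (hfp : H_FP) (hR : QR R ω) {C0 : ℝ}
    (hC : IdCount R C0) (m : ℕ) {q : Ideal R} (hq : q ≠ ⊥) (h4 : 4 < nn q) :
    Nat.card (R ⧸ q)ˣ ≤ Set.ncard (Dv m q) * Nat.card Rˣ := by
  classical
  obtain ⟨b1, -⟩ := hb R ω hR
  have hfinq : Finite (R ⧸ q) := b1 q hq
  have hG : Finite (R ⧸ q)ˣ := inferInstance
  set n : ℕ := 2 * m - 1 with hn
  have hfin : (Dv m q).Finite :=
    (hk_finite hb hcls hfp hR hC m (nn q)).subset (dv_subset hb hR m hq le_rfl)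
  set κ : Rˣ →* ℂˣ := ((Units.map R.subtype.toMonoidHom) ^ n)⁻¹ with hκ
  obtain ⟨hfG, hcard⟩ := card_ext (G := (R ⧸ q)ˣ) (U := Rˣ) (um q) (units_inj hb hR h4) κ
  refine hcard.trans (Nat.mul_le_mul_right _ ?_)
  -- the Hecke character of an extension
  have hex : ∀ F : {F : (R ⧸ q)ˣ →* ℂˣ // F.comp (um q) = κ}, ∃ θ ∈ Dv m q,
      ∀ (α : R) (v : (R ⧸ q)ˣ), α ≠ 0 → Ideal.Quotient.mk q α = v →
        ((F.1 v : ℂˣ) : ℂ) = θ (sp α) / (α : ℂ) ^ n := by
    rintro ⟨F0, hF0⟩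
    obtain ⟨f, F, hqf, hp, hFF⟩ := exists_cond hb hR hq F0
    have hf : f ≠ ⊥ := by
      rintro rfl
      exact hq (le_bot_iff.1 hqf)
    obtain ⟨θ, h1, h2⟩ := exists_hecke hR n hf F (by
      intro u v hv
      rw [hFF (u : R) (um q u) v rfl hv.symm]
      have h3 : F0 (um q u) = κ u := DFunLike.congr_fun hF0 u
      have h5 : κ u * (Units.map R.subtype.toMonoidHom u) ^ n = 1 := by
        rw [hκ, MonoidHom.inv_apply, MonoidHom.pow_apply, inv_mul_cancel]
      rw [h3]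
      have h6 := congrArg Units.val h5
      rw [Units.val_mul, Units.val_pow_eq_pow_val, Units.val_one] at h6
      exact h6) hp
    refine ⟨θ, ⟨f, h1, hqf⟩, fun α v hα hv => ?_⟩
    have hcf : IsUnit (Ideal.Quotient.mk f α) := by
      have h3 : IsCoprime (sp α) q := by
        rw [← isUnit_iff_cop, hv]
        exact v.isUnit
      rw [isUnit_iff_cop]
      rw [Ideal.isCoprime_iff_exists] at h3 ⊢
      obtain ⟨i, hi, j, hj, e⟩ := h3
      exact ⟨i, hi, j, hqf hj, e⟩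
    obtain ⟨w, hw⟩ := hcf
    rw [← hFF α v w hv hw.symm]
    exact h2 w α hw.symm hα
  choose θ hθ1 hθ2 using hex
  have hinj : Function.Injective (fun F : {F : (R ⧸ q)ˣ →* ℂˣ // F.comp (um q) = κ} =>
      (⟨θ F, hθ1 F⟩ : Dv m q)) := by
    intro F F' h
    have h1 : θ F = θ F' := congrArg Subtype.val h
    refine Subtype.ext (MonoidHom.ext fun v => Units.ext ?_)
    obtain ⟨α, hα⟩ := Ideal.Quotient.mk_surjective (v : R ⧸ q)
    have h0 : α ≠ 0 := by
      rintro rfl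
      have hc : IsCoprime (sp (0 : R)) q := by
        rw [← isUnit_iff_cop, hα]
        exact v.isUnit
      refine ne_zero_of_cop (fun hqt => ?_) hc rfl
      rw [hqt, nn_top] at h4
      omega
    rw [hθ2 F α v h0 hα, hθ2 F' α v h0 hα, h1]
  have : Finite (Dv m q) := hfin
  have h5 := Nat.card_le_card_of_injective _ hinj
  exact h5

end Pool.Agent.Y683.AA
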