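import Pool.Agent.Y683.AA.HCnt

/-!
The exceptional set of ideals.
-/

set_option autoImplicit false

open Finset

namespace Pool.Agent.Y683.AA

open Pool.Agent.W192.HK

variable {R : Subring ℂ} {ω : ℂ}

open Classical in
theorem excI (hb : H_BASIC) (hdivr : H_DIVR) (hR : QR R ω) {C0 : ℝ} (hC : IdCount R C0) {δ : ℝ}
    (hδ : 0 < δ) (hδ1 : δ ≤ 1 / 2) : ∃ C : ℝ, 0 < C ∧ ∀ X : ℕ, 1 ≤ X →
    (((Id hC X).filter (fun I : Ideal R => ¬ Nice (C * (X : ℝ) ^ (9 * δ)) (nn I))).card : ℝ) ≤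
      C * X * Real.exp (-(δ / 4) * cr X) := by
  obtain ⟨C1, hC1, h1⟩ := param hδ (by linarith)
  obtain ⟨C2, hC2, h2⟩ := param2 hδ hδ1
  obtain ⟨C3, hC3, h3⟩ := card_sqI hb hdivr hR hC (η := δ / 4) (by positivity)
  have hC0 := hC.pos
  refine ⟨C1 + 2 * C0 ^ 2 * C2 + 4 * C0 * C2 + 2 * C3, by positivity, fun X hX => ?_⟩
  set CC := C1 + 2 * C0 ^ 2 * C2 + 4 * C0 * C2 + 2 * C3 with hCC
  have hX0 : (0 : ℝ) < X := by exact_mod_cast hX
  set u := cr X with hu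
  have hu0 : 0 ≤ u := cr_nonneg X
  have hu3 : u ^ 3 = Real.log X := cr_pow X
  have hlog : 0 ≤ Real.log X := Real.log_natCast_nonneg X
  set K := ⌈u⌉₊ with hK
  set g := ⌈Real.exp (δ * u)⌉₊ with hg
  set B := ⌈Real.exp (δ * u ^ 3)⌉₊ with hB
  have hg1 : 1 ≤ g := Nat.one_le_iff_ne_zero.2 (Nat.ceil_pos.2 (Real.exp_pos _)).ne'
  have hB1 : 1 ≤ B := Nat.one_le_iff_ne_zero.2 (Nat.ceil_pos.2 (Real.exp_pos _)).ne'
  have hsub : (Id hC X).filter (fun I : Ideal R => ¬ Nice (CC * (X : ℝ) ^ (9 * δ)) (nn I)) ⊆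
      (Id hC X).filter (fun I => 2 ^ K ≤ dv hC X I) ∪
      ((Id hC X).filter (fun I => ∃ p p' : ℕ, p.Prime ∧ p'.Prime ∧ p ≠ p' ∧ p ∣ nn I ∧
        p' ∣ nn I ∧ g < Nat.gcd (p - 1) (p' - 1)) ∪
      (Id hC X).filter (fun I => ∃ b, B < b ∧ b ^ 2 ∣ nn I)) := by
    intro I hI
    rw [mem_filter] at hI
    obtain ⟨hI1, hI2⟩ := hI
    by_contra hcon
    apply hI2
    simp only [mem_union, mem_filter, hI1, true_and, not_or, not_exists, not_and, not_lt,
      not_le] at hcon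
    obtain ⟨k1, k2, k3⟩ := hcon
    obtain ⟨S, hS1, hS2⟩ := lcm_lower' (q := nn I) (K := K) (g := g) (B := B)
      (nn_pos hb hR ((mem_Id hC).1 hI1).1) hg1 (fun S hS => card_exact hb hR hC hI1 k1 S hS)
      (fun b hb => by
        by_contra h
        push Not at h
        exact k3 b h hb)
      (fun p p' a1 a2 a3 a4 a5 => k2 p p' a1 a2 a3 a4 a5)
    refine ⟨S, hS1, ?_⟩
    have h4 : (nn I : ℝ) ≤ ((B ^ 3 * 2 ^ K * g ^ (K * K) * S.lcm (fun p => p - 1) : ℕ) : ℝ) := by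
      exact_mod_cast hS2
    refine h4.trans ?_
    push_cast
    refine mul_le_mul_of_nonneg_right ?_ (Nat.cast_nonneg _)
    refine (h1 u hu0).trans ?_
    have e : Real.exp (9 * δ * u ^ 3) = (X : ℝ) ^ (9 * δ) := by
      rw [hu3, Real.rpow_def_of_pos hX0]
      congr 1
      ring
    rw [e]
    refine mul_le_mul_of_nonneg_right ?_ (by positivity)
    rw [hCC]
    have : 0 ≤ 2 * C0 ^ 2 * C2 + 4 * C0 * C2 + 2 * C3 := by positivity
    linarith
  have hcard := (card_le_card hsub).trans ((card_union_le _ _).trans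
    (Nat.add_le_add_left (card_union_le _ _) _))
  have hcard' : (((Id hC X).filter
      (fun I : Ideal R => ¬ Nice (CC * (X : ℝ) ^ (9 * δ)) (nn I))).card : ℝ) ≤
      C0 ^ 2 * X * (2 + Real.log X) / 2 ^ K + (4 * C0 * X * (1 + Real.log X) ^ 2 / g +
        C3 * (X : ℝ) ^ (2 * (δ / 4)) * X / B) := by
    have hc2 := (Nat.cast_le (α := ℝ)).2 hcard
    push_cast at hc2
    exact hc2.trans (add_le_add (card_dv hb hR hC X K) (add_le_add (card_gcdI hb hR hC X g hg1)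
      (h3 X B hX hB1)))
  refine hcard'.trans ?_
  have h4 := h2 u hu0
  rw [hu3] at h4
  have hpos1 : 0 ≤ (1 + Real.log X) / 2 ^ K := by positivity
  have hpos2 : 0 ≤ (1 + Real.log X) ^ 2 / (g : ℝ) := by positivity
  have hpos3 : 0 ≤ 1 / (B : ℝ) := by positivity
  have hE : Real.exp (-(δ / 2) * u) ≤ Real.exp (-(δ / 4) * u) :=
    Real.exp_le_exp.2 (by nlinarith)
  have hA1 : (1 + Real.log X) / 2 ^ K ≤ C2 * Real.exp (-(δ / 4) * u) := by
    have : (1 : ℝ) / ⌈Real.exp (δ * u ^ 3)⌉₊ = 1 / B := rfl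
    have h5 : (1 + Real.log X) / 2 ^ K + (1 + Real.log X) ^ 2 / (g : ℝ) + 1 / (B : ℝ) ≤
        C2 * Real.exp (-(δ / 2) * u) := by
      rw [hB, hu3]
      exact h4
    have h6 : C2 * Real.exp (-(δ / 2) * u) ≤ C2 * Real.exp (-(δ / 4) * u) :=
      mul_le_mul_of_nonneg_left hE hC2.le
    linarith
  have hA2 : (1 + Real.log X) ^ 2 / (g : ℝ) ≤ C2 * Real.exp (-(δ / 4) * u) := by
    have h5 : (1 + Real.log X) / 2 ^ K + (1 + Real.log X) ^ 2 / (g : ℝ) + 1 / (B : ℝ) ≤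
        C2 * Real.exp (-(δ / 2) * u) := by
      rw [hB, hu3]
      exact h4
    have h6 : C2 * Real.exp (-(δ / 2) * u) ≤ C2 * Real.exp (-(δ / 4) * u) :=
      mul_le_mul_of_nonneg_left hE hC2.le
    linarith
  have hA3 : (X : ℝ) ^ (2 * (δ / 4)) / B ≤ 2 * Real.exp (-(δ / 4) * u) := by
    have h5 : (1 : ℝ) / B ≤ (X : ℝ) ^ (-δ) := by
      have h6 : (X : ℝ) ^ δ ≤ B := by
        rw [hB, hu3]
        refine le_trans (le_of_eq ?_) (Nat.le_ceil _)
        rw [Real.rpow_def_of_pos hX0, mul_comm]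
      rw [Real.rpow_neg hX0.le, ← one_div]
      exact one_div_le_one_div_of_le (by positivity) h6
    have h7 : (X : ℝ) ^ (2 * (δ / 4)) / B ≤ (X : ℝ) ^ (-(δ / 2)) := by
      rw [div_eq_mul_one_div]
      calc (X : ℝ) ^ (2 * (δ / 4)) * (1 / B) ≤ (X : ℝ) ^ (2 * (δ / 4)) * (X : ℝ) ^ (-δ) :=
            mul_le_mul_of_nonneg_left h5 (by positivity)
        _ = (X : ℝ) ^ (2 * (δ / 4) + -δ) := (Real.rpow_add hX0 _ _).symm
        _ = _ := by congr 1; ring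
    refine h7.trans ?_
    have h8 : (X : ℝ) ^ (-(δ / 2)) = Real.exp (-(δ / 2) * u ^ 3) := by
      rw [hu3, Real.rpow_def_of_pos hX0, mul_comm]
    rw [h8]
    have h9 : u ≤ 1 + u ^ 3 := by
      rcases le_or_gt u 1 with h | h
      · have : 0 ≤ u ^ 3 := by positivity
        linarith
      · nlinarith [sq_nonneg u, mul_pos (sub_pos.2 h) (sub_pos.2 h)]
    have h10 : Real.exp (-(δ / 2) * u ^ 3) ≤ Real.exp (1 / 2 + -(δ / 4) * u) := by
      refine Real.exp_le_exp.2 ?_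
      have : 0 ≤ u ^ 3 := by positivity
      nlinarith [mul_nonneg hδ.le this, mul_le_mul_of_nonneg_left h9 hδ.le]
    refine h10.trans ?_
    rw [Real.exp_add]
    refine mul_le_mul_of_nonneg_right ?_ (Real.exp_pos _).le
    have h11 := Real.exp_one_lt_d9
    have h12 : Real.exp (1 / 2 : ℝ) ^ 2 = Real.exp 1 := by
      rw [← Real.exp_nat_mul]; norm_num
    nlinarith [Real.exp_pos (1 / 2 : ℝ)]
  have hE0 := Real.exp_pos (-(δ / 4) * u)
  calc C0 ^ 2 * (X : ℝ) * (2 + Real.log X) / 2 ^ K + (4 * C0 * X * (1 + Real.log X) ^ 2 / g +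
        C3 * (X : ℝ) ^ (2 * (δ / 4)) * X / B) ≤
      2 * C0 ^ 2 * X * ((1 + Real.log X) / 2 ^ K) + (4 * C0 * X * ((1 + Real.log X) ^ 2 / g) +
        C3 * X * ((X : ℝ) ^ (2 * (δ / 4)) / B)) := by
        refine add_le_add ?_ (le_of_eq (by ring))
        have e1 : C0 ^ 2 * (X : ℝ) * (2 + Real.log X) / 2 ^ K ≤
            C0 ^ 2 * (X : ℝ) * (2 * (1 + Real.log X)) / 2 ^ K := by
          gcongr
          linarith
        refine e1.trans (le_of_eq (by ring))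
    _ ≤ 2 * C0 ^ 2 * X * (C2 * Real.exp (-(δ / 4) * u)) +
        (4 * C0 * X * (C2 * Real.exp (-(δ / 4) * u)) + C3 * X * (2 * Real.exp (-(δ / 4) * u))) := by
        gcongr
    _ = (2 * C0 ^ 2 * C2 + 4 * C0 * C2 + 2 * C3) * X * Real.exp (-(δ / 4) * u) := by ring
    _ ≤ _ := by
        refine mul_le_mul_of_nonneg_right (mul_le_mul_of_nonneg_right ?_ hX0.le) hE0.le
        rw [hCC]
        linarith

end Pool.Agent.Y683.AA
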