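import Pool.Agent.Y683.AA.HFp

/-!
The exponent of `(R / q)ˣ` is divisible by `p - 1` for all primes `p` dividing `N(q)` exactly.
-/

set_option autoImplicit false

open Complex

namespace Pool.Agent.Y683.AA

open Pool.Agent.W192.HK
open Pool.Agent.Y690 (cop_iff cop_congr cop_mono sp_mul sp_pow hc_pow ne_zero_of_cop lift_cop sp_ne)

variable {R : Subring ℂ} {ω : ℂ}

/-- the norm as a natural number -/
noncomputable def nn (I : Ideal R) : ℕ := Nat.card (R ⧸ I)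

lemma nm_eq (I : Ideal R) : nm I = (nn I : ℝ) := rfl

lemma nn_mul (hb : H_BASIC) (hR : QR R ω) (I J : Ideal R) : nn (I * J) = nn I * nn J := by
  obtain ⟨b1, b2, b3, b4, -⟩ := hb R ω hR
  have h := b4 I J
  rw [nm_eq, nm_eq, nm_eq] at h
  exact_mod_cast h

lemma nn_pos (hb : H_BASIC) (hR : QR R ω) {I : Ideal R} (hI : I ≠ ⊥) : 1 ≤ nn I := by
  obtain ⟨b1, b2, b3, -⟩ := hb R ω hR
  have h := b3 I hI
  rw [nm_eq] at h
  exact_mod_cast h

lemma nn_bot (hb : H_BASIC) (hR : QR R ω) : nn (⊥ : Ideal R) = 0 := by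
  obtain ⟨b1, b2, -⟩ := hb R ω hR
  rw [nm_eq] at b2
  exact_mod_cast b2

lemma nn_top : nn (⊤ : Ideal R) = 1 := by
  unfold nn
  have : Subsingleton (R ⧸ (⊤ : Ideal R)) := Ideal.Quotient.subsingleton_iff.2 rfl
  exact Nat.card_eq_one_iff_unique.2 ⟨this, ⟨0⟩⟩

/-- a prime number dividing the norm divides the norm of a prime ideal divisor -/
theorem exists_prime (hb : H_BASIC) (hR : QR R ω) {p : ℕ} (hp : p.Prime) {q : Ideal R}
    (hq : q ≠ ⊥) (hpq : p ∣ nn q) : ∃ P : Ideal R, Prime P ∧ P ∣ q ∧ p ∣ nn P := by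
  have := hR.ded
  induction q using UniqueFactorizationMonoid.induction_on_prime with
  | h₁ => exact absurd rfl hq
  | h₂ u hu =>
    rw [Ideal.isUnit_iff] at hu
    subst hu
    rw [nn_top] at hpq
    exact absurd (Nat.dvd_one.1 hpq) hp.one_lt.ne'
  | h₃ a P ha hP ih =>
    rw [nn_mul hb hR] at hpq
    rcases hp.dvd_mul.1 hpq with h | h
    · exact ⟨P, hP, Dvd.intro _ rfl, h⟩
    · obtain ⟨Q, hQ1, hQ2, hQ3⟩ := ih ha h
      exact ⟨Q, hQ1, hQ2.mul_left _, hQ3⟩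

/-- the residue field of a prime ideal -/
theorem prime_card (hb : H_BASIC) (hR : QR R ω) {P : Ideal R} (hP : Prime P) {p : ℕ}
    (hp : p.Prime) (h : p ∣ nn P) : ∃ j : ℕ, 1 ≤ j ∧ nn P = p ^ j := by
  have := hR.ded
  obtain ⟨b1, -⟩ := hb R ω hR
  have hne : P ≠ ⊥ := hP.ne_zero
  have hpr : P.IsPrime := Ideal.isPrime_of_prime hP
  have hmax : P.IsMaximal := hpr.isMaximal hne
  let _ : Field (R ⧸ P) := Ideal.Quotient.field P
  have hfin : Finite (R ⧸ P) := b1 P hne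
  let _ : Fintype (R ⧸ P) := Fintype.ofFinite _
  obtain ⟨r, hr⟩ := CharP.exists (R ⧸ P)
  obtain ⟨j, hj1, hj2⟩ := FiniteField.card (R ⧸ P) r
  have h2 : nn P = r ^ (j : ℕ) := by
    unfold nn
    rw [Nat.card_eq_fintype_card, hj2]
  rw [h2] at h
  have h3 : p = r := (Nat.prime_dvd_prime_iff_eq hp hj1).1 (hp.dvd_of_dvd_pow h)
  exact ⟨j, j.pos, by rw [h2, h3]⟩

/-- `p - 1` divides the exponent -/
theorem sub_one_dvd (hb : H_BASIC) (hR : QR R ω) {q : Ideal R} (hq : q ≠ ⊥) {p : ℕ}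
    (hp : p.Prime) (h1 : p ∣ nn q) (h2 : ¬ p ^ 2 ∣ nn q) :
    p - 1 ∣ Monoid.exponent (R ⧸ q)ˣ := by
  have := hR.ded
  obtain ⟨b1, -⟩ := hb R ω hR
  obtain ⟨P, hP, hPq, hpP⟩ := exists_prime hb hR hp hq h1
  obtain ⟨j, hj1, hj⟩ := prime_card hb hR hP hp hpP
  have hj2 : j = 1 := by
    by_contra hne
    apply h2
    have h3 : p ^ 2 ∣ nn P := by
      rw [hj]
      exact pow_dvd_pow _ (by omega)
    obtain ⟨J, hJ⟩ := hPq
    rw [hJ, nn_mul hb hR]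
    exact h3.mul_right _
  rw [hj2, pow_one] at hj
  have hne : P ≠ ⊥ := hP.ne_zero
  have hPt : P ≠ ⊤ := fun h => hP.not_isUnit (by rw [Ideal.isUnit_iff]; exact h)
  have hpr : P.IsPrime := Ideal.isPrime_of_prime hP
  have hmax : P.IsMaximal := hpr.isMaximal hne
  let _ : Field (R ⧸ P) := Ideal.Quotient.field P
  have hfin : Finite (R ⧸ P) := b1 P hne
  let _ : Fintype (R ⧸ P) := Fintype.ofFinite _
  have hcard : Nat.card (R ⧸ P)ˣ = p - 1 := by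
    rw [Nat.card_units, ← hj]
    rfl
  have hexp : Monoid.exponent (R ⧸ P)ˣ = p - 1 := by
    rw [IsCyclic.exponent_eq_card, hcard]
  rw [← hexp]
  have hle : q ≤ P := Ideal.le_of_dvd hPq
  refine MonoidHom.exponent_dvd (f := Units.map (Ideal.Quotient.factor hle).toMonoidHom) ?_
  intro u
  obtain ⟨α, hα⟩ := Ideal.Quotient.mk_surjective (u : R ⧸ P)
  have hαc : IsCoprime (sp α) P := by
    rw [← isUnit_iff_cop, hα]
    exact u.isUnit
  obtain ⟨β, hβ0, hβc, hβ⟩ := lift_cop hb hR hq (ne_zero_of_cop hPt hαc) hαc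
  obtain ⟨v, hv⟩ := isUnit_iff_cop.2 hβc
  refine ⟨v, ?_⟩
  ext
  change Ideal.Quotient.factor hle (v : R ⧸ q) = (u : R ⧸ P)
  rw [hv, Ideal.Quotient.factor_mk, ← hα, Ideal.Quotient.mk_eq_mk_iff_sub_mem]
  exact hβ

/-- the lcm -/
theorem lcm_dvd_exp (hb : H_BASIC) (hR : QR R ω) {q : Ideal R} (hq : q ≠ ⊥) {S : Finset ℕ}
    (hS : ∀ p ∈ S, p.Prime ∧ p ∣ nn q ∧ ¬ p ^ 2 ∣ nn q) :
    S.lcm (fun p => p - 1) ∣ Monoid.exponent (R ⧸ q)ˣ :=
  Finset.lcm_dvd fun p hp => sub_one_dvd hb hR hq (hS p hp).1 (hS p hp).2.1 (hS p hp).2.2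

/-- the number of elements of small order of the dual group -/
theorem card_dual_small (hb : H_BASIC) (hR : QR R ω) {q : Ideal R} (hq : q ≠ ⊥) {D : ℝ}
    (hD : 0 ≤ D) : ∃ T : Finset ((R ⧸ q)ˣ →* ℂˣ),
      (∀ F : (R ⧸ q)ˣ →* ℂˣ, F ∈ T ↔ (orderOf F : ℝ) ≤ D) ∧ T.card ≤ nn q ∧
      (T.card : ℝ) * (Monoid.exponent (R ⧸ q)ˣ : ℕ) ≤
        D * (((Monoid.exponent (R ⧸ q)ˣ).divisors.card : ℕ) : ℝ) * nn q := by
  classical
  obtain ⟨b1, -⟩ := hb R ω hR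
  have hfin : Finite (R ⧸ q) := b1 q hq
  have hG : Finite (R ⧸ q)ˣ := inferInstance
  have : NeZero (Monoid.exponent (R ⧸ q)ˣ) := ⟨Monoid.exponent_ne_zero_of_finite⟩
  have e1 : Nat.card ((R ⧸ q)ˣ →* ℂˣ) = Nat.card (R ⧸ q)ˣ :=
    CommGroup.card_monoidHom_of_hasEnoughRootsOfUnity (R ⧸ q)ˣ ℂ
  have hfinD : Finite ((R ⧸ q)ˣ →* ℂˣ) := by
    refine Nat.finite_of_card_ne_zero ?_
    rw [e1]
    exact Nat.card_pos.ne'
  let _ : Fintype ((R ⧸ q)ˣ →* ℂˣ) := Fintype.ofFinite _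
  have e2 : Monoid.exponent ((R ⧸ q)ˣ →* ℂˣ) = Monoid.exponent (R ⧸ q)ˣ :=
    Monoid.exponent_eq_of_mulEquiv
      (CommGroup.monoidHom_mulEquiv_of_hasEnoughRootsOfUnity (R ⧸ q)ˣ ℂ).some
  have e3 : Nat.card (R ⧸ q)ˣ ≤ nn q := by
    unfold nn
    exact Nat.card_le_card_of_injective (fun u : (R ⧸ q)ˣ => (u : R ⧸ q)) Units.val_injective
  refine ⟨Finset.univ.filter fun F => (orderOf F : ℝ) ≤ D, fun F => by simp, ?_, ?_⟩
  · refine (Finset.card_filter_le _ _).trans ?_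
    rw [Finset.card_univ, ← Nat.card_eq_fintype_card, e1]
    exact e3
  · have h := card_orderOf_le hD (Finset.univ.filter fun F : (R ⧸ q)ˣ →* ℂˣ =>
      (orderOf F : ℝ) ≤ D) (fun F hF => (Finset.mem_filter.1 hF).2)
    rw [e2, ← Nat.card_eq_fintype_card, e1] at h
    refine h.trans ?_
    refine mul_le_mul_of_nonneg_left ?_ (by positivity)
    exact_mod_cast e3

end Pool.Agent.Y683.AA
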