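import Pool.Agent.Y690.Chars2
import Pool.Agent.Y683.AA.Grp

/-!
The finite part of a Hecke character as an element of the dual of `(R / q)ˣ`; the number of Hecke
characters of conductor `q` with a given finite part.
-/

set_option autoImplicit false

open Complex

namespace Pool.Agent.Y683.AA

open Pool.Agent.W192.HK
open Pool.Agent.Y690 (cop_iff cop_congr cop_mono sp_mul sp_pow hc_pow ne_zero_of_cop lift_cop sp_ne)

variable {R : Subring ℂ} {ω : ℂ}

lemma isUnit_iff_cop {q : Ideal R} {α : R} :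
    IsUnit (Ideal.Quotient.mk q α) ↔ IsCoprime (sp α) q := by
  rw [cop_iff]
  constructor
  · rintro ⟨u, hu⟩
    obtain ⟨x, hx⟩ := Ideal.Quotient.mk_surjective (((u⁻¹ : (R ⧸ q)ˣ) : R ⧸ q))
    refine ⟨x, ?_⟩
    rw [← Ideal.Quotient.mk_eq_mk_iff_sub_mem, map_mul, map_one, hx, ← hu, Units.mul_inv]
  · rintro ⟨x, hx⟩
    rw [← Ideal.Quotient.mk_eq_mk_iff_sub_mem, map_mul, map_one] at hx
    exact IsUnit.of_mul_eq_one _ hx

/-- the finite part of `θ` is `F` -/
def IsFin (n : ℕ) (q : Ideal R) (θ : Ideal R → ℂ) (F : (R ⧸ q)ˣ →* ℂˣ) : Prop :=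
  ∀ (u : (R ⧸ q)ˣ) (α : R), Ideal.Quotient.mk q α = u → α ≠ 0 →
    ((F u : ℂˣ) : ℂ) = θ (sp α) / (α : ℂ) ^ n

theorem exists_fin (hfp : H_FP) (hR : QR R ω) {n : ℕ} {q : Ideal R} {θ : Ideal R → ℂ}
    (hθ : HC n q θ) : ∃ F : (R ⧸ q)ˣ →* ℂˣ, IsFin n q θ F := by
  by_cases hq : q = ⊤
  · refine ⟨1, fun u α _ hα => ?_⟩
    have h1 : θ (sp α) = (α : ℂ) ^ n := hθ.princ α hα (by rw [hq]; exact Submodule.mem_top)
    have h2 : (α : ℂ) ≠ 0 := fun h => hα (by exact_mod_cast h)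
    rw [h1, div_self (pow_ne_zero n h2)]
    simp
  · obtain ⟨f1, f2, f3, f4, f5⟩ := hfp R ω hR n q θ hθ hq
    have hlift : ∀ u : (R ⧸ q)ˣ, ∃ α : R, Ideal.Quotient.mk q α = u := fun u =>
      Ideal.Quotient.mk_surjective _
    choose l hl using hlift
    have hcop : ∀ u, IsCoprime (sp (l u)) q := fun u => by
      rw [← isUnit_iff_cop, hl u]
      exact u.isUnit
    have hne : ∀ u, fp n θ (l u) ≠ 0 := fun u h => (f3 _).1 h (hcop u)
    have hone : fp n θ 1 = 1 := by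
      have h1 := hθ.princ 1 one_ne_zero (by rw [sub_self]; exact q.zero_mem)
      unfold fp
      rw [h1, Subring.coe_one, one_pow, div_one]
    refine ⟨⟨⟨fun u => Units.mk0 (fp n θ (l u)) (hne u), ?_⟩, ?_⟩, ?_⟩
    · ext
      change fp n θ (l 1) = 1
      rw [← hone]
      refine f5 _ _ ?_
      rw [← Ideal.Quotient.mk_eq_mk_iff_sub_mem, hl 1, map_one]
      rfl
    · intro u v
      ext
      change fp n θ (l (u * v)) = fp n θ (l u) * fp n θ (l v)
      rw [← f2]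
      refine f5 _ _ ?_
      rw [← Ideal.Quotient.mk_eq_mk_iff_sub_mem, hl, map_mul, hl, hl]
      rfl
    · intro u α h1 _
      change fp n θ (l u) = fp n θ α
      refine f5 _ _ ?_
      rw [← Ideal.Quotient.mk_eq_mk_iff_sub_mem, hl, h1]

lemma isFin_unique (hb : H_BASIC) (hR : QR R ω) {n : ℕ} {q : Ideal R} (hq : q ≠ ⊥)
    {θ : Ideal R → ℂ} {F G : (R ⧸ q)ˣ →* ℂˣ} (hF : IsFin n q θ F) (hG : IsFin n q θ G) : F = G := by
  ext u
  obtain ⟨α, hα⟩ := Ideal.Quotient.mk_surjective (u : R ⧸ q)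
  by_cases h0 : α = 0
  · -- then `q` is the unit ideal
    have h1 : IsCoprime (sp α) q := by
      rw [← isUnit_iff_cop, hα]
      exact u.isUnit
    have hqt : q = ⊤ := by
      by_contra h
      exact ne_zero_of_cop h h1 h0
    have h2 : Ideal.Quotient.mk q (1 : R) = u := by
      have : Subsingleton (R ⧸ q) := by
        rw [hqt]
        exact Ideal.Quotient.subsingleton_iff.2 rfl
      exact Subsingleton.elim _ _
    rw [hF u 1 h2 one_ne_zero, hG u 1 h2 one_ne_zero]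
  · rw [hF u α hα h0, hG u α hα h0]

/-- Hecke characters with the same finite part and the same values at representatives of the ideal
classes are equal -/
lemma det (hb : H_BASIC) (hR : QR R ω) {n : ℕ} {q : Ideal R} (hq : q ≠ ⊥)
    {s : Finset (Ideal R)} (hs : Cs s) (hcp : ∀ b ∈ s, IsCoprime b q)
    {θ ψ : Ideal R → ℂ} (hθ : HC n q θ) (hψ : HC n q ψ) {F : (R ⧸ q)ˣ →* ℂˣ}
    (h1 : IsFin n q θ F) (h2 : IsFin n q ψ F) (h3 : ∀ b ∈ s, θ b = ψ b) : θ = ψ := by
  funext I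
  by_cases hI : I = ⊥ ∨ ¬ IsCoprime I q
  · rw [(hθ.zero I).2 hI, (hψ.zero I).2 hI]
  · push Not at hI
    obtain ⟨b, ⟨hbs, α, hα⟩, -⟩ := hs.uni I hI.1
    have hb0 := hs.ne b hbs
    have := hR.ded
    have hα0 : α ≠ 0 := by
      rintro rfl
      rw [sp, Ideal.span_singleton_zero, Ideal.mul_eq_bot] at hα
      rcases hα with h | h
      · exact hI.1 h
      · exact hb0 h
    have hbq : IsCoprime b q := hcp b hbs
    have hαq : IsCoprime (sp α) q := by
      rw [← hα]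
      exact IsCoprime.mul_left hI.2 hbq
    obtain ⟨u, hu⟩ := isUnit_iff_cop.2 hαq
    have e1 := h1 u α hu.symm hα0
    have e2 := h2 u α hu.symm hα0
    have hα0' : (α : ℂ) ≠ 0 := fun h => hα0 (by exact_mod_cast h)
    have e3 : θ (sp α) = ψ (sp α) := by
      rw [e1] at e2
      exact (div_left_inj' (pow_ne_zero n hα0')).1 e2
    rw [← hα, hθ.mul, hψ.mul, h3 b hbs] at e3
    refine mul_right_cancel₀ (fun h => ?_) e3
    rcases (hψ.zero b).1 h with h | h
    · exact hb0 h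
    · exact h hbq

/-- the Hecke characters of conductor `q` with finite part in a finite set -/
theorem card_fin (hb : H_BASIC) (hR : QR R ω) {n : ℕ} {q : Ideal R} (hq : q ≠ ⊥)
    {s : Finset (Ideal R)} (hs : Cs s) (hcp : ∀ b ∈ s, IsCoprime b q) {h : ℕ} (hh1 : 1 ≤ h)
    (hh : ∀ I : Ideal R, ∃ α : R, I ^ h = sp α) (T : Finset ((R ⧸ q)ˣ →* ℂˣ)) :
    {θ | HC n q θ ∧ ∃ F ∈ T, IsFin n q θ F}.Finite ∧
      Set.ncard {θ | HC n q θ ∧ ∃ F ∈ T, IsFin n q θ F} ≤ T.card * h ^ s.card := by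
  classical
  choose g hg using hh
  have hg0 : ∀ b ∈ s, g b ≠ 0 := by
    intro b hbs h0
    have := hR.ded
    have h1 := hg b
    rw [h0, sp, Ideal.span_singleton_zero] at h1
    exact hs.ne b hbs (eq_bot_iff.2 (by
      have := pow_eq_zero_iff (M₀ := Ideal R) (n := h) (by omega) |>.1 h1
      rw [this]
      exact le_rfl))
  -- the possible values at the class representatives
  set V : ((R ⧸ q)ˣ →* ℂˣ) → Ideal R → Finset ℂ := fun F b =>
    if hu : IsUnit (Ideal.Quotient.mk q (g b)) then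
      (Polynomial.nthRoots h (((F hu.unit : ℂˣ) : ℂ) * (g b : ℂ) ^ n)).toFinset else ∅ with hV
  have hVc : ∀ F b, (V F b).card ≤ h := by
    intro F b
    rw [hV]
    simp only
    split_ifs with hu
    · exact (Multiset.toFinset_card_le _).trans (Polynomial.card_nthRoots h _)
    · simp
  set P : Finset (Σ _ : ((R ⧸ q)ˣ →* ℂˣ), (∀ b ∈ s, ℂ)) :=
    T.sigma fun F => s.pi fun b => V F b with hP
  have hPc : P.card ≤ T.card * h ^ s.card := by
    rw [hP, Finset.card_sigma]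
    calc ∑ F ∈ T, (s.pi fun b => V F b).card ≤ ∑ F ∈ T, h ^ s.card := by
          refine Finset.sum_le_sum fun F _ => ?_
          rw [Finset.card_pi]
          exact Finset.prod_le_pow_card _ _ _ fun b _ => hVc F b
      _ = _ := by rw [Finset.sum_const, smul_eq_mul]
  set S : Set (Ideal R → ℂ) := {θ | HC n q θ ∧ ∃ F ∈ T, IsFin n q θ F} with hS
  have hch : ∀ θ ∈ S, ∃ F ∈ T, IsFin n q θ F := fun θ hθ => hθ.2
  choose! Φ hΦ1 hΦ2 using hch
  set m : (Ideal R → ℂ) → Σ _ : ((R ⧸ q)ˣ →* ℂˣ), (∀ b ∈ s, ℂ) :=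
    fun θ => ⟨Φ θ, fun b _ => θ b⟩ with hm
  have hmaps : Set.MapsTo m S (P : Set _) := by
    intro θ hθ
    rw [Finset.mem_coe, hP, Finset.mem_sigma]
    refine ⟨hΦ1 θ hθ, ?_⟩
    rw [Finset.mem_pi]
    intro b hbs
    change θ b ∈ V (Φ θ) b
    have hcop : IsCoprime (sp (g b)) q := by
      rw [← hg b]
      exact IsCoprime.pow_left (hcp b hbs)
    have hu := isUnit_iff_cop.2 hcop
    rw [hV]
    simp only [hu, dite_true, Multiset.mem_toFinset]
    rw [Polynomial.mem_nthRoots (by omega)]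
    have e1 := hΦ2 θ hθ hu.unit (g b) rfl (hg0 b hbs)
    have hg0' : (g b : ℂ) ≠ 0 := fun h => hg0 b hbs (by exact_mod_cast h)
    rw [e1, div_mul_cancel₀ _ (pow_ne_zero n hg0'), ← hg b, hc_pow hθ.1]
  have hinj : Set.InjOn m S := by
    intro θ hθ ψ hψ he
    rw [hm] at he
    simp only [Sigma.mk.injEq] at he
    obtain ⟨k1, k2⟩ := he
    have k3 := eq_of_heq k2
    refine det hb hR hq hs hcp hθ.1 hψ.1 (hΦ2 θ hθ) (k1 ▸ hΦ2 ψ hψ) fun b hbs => ?_
    exact congrFun (congrFun k3 b) hbs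
  have hfin : S.Finite := Set.Finite.of_injOn hmaps hinj (Finset.finite_toSet P)
  refine ⟨hfin, ?_⟩
  refine le_trans ?_ hPc
  rw [← Set.ncard_coe_finset]
  exact Set.ncard_le_ncard_of_injOn m hmaps hinj (Finset.finite_toSet P)

end Pool.Agent.Y683.AA
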