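import Pool.Agent.Y683.AA.HPhi
import Pool.Agent.Helper477.Density

/-!
Lower bound for the number of Hecke characters of conductor of norm at most `X`.
-/

set_option autoImplicit false

open Finset

namespace Pool.Agent.Y683.AA

open Pool.Agent.W192.HK
open Pool.Agent.Y690 (cop_iff cop_congr cop_mono sp_mul sp_pow hc_pow ne_zero_of_cop lift_cop sp_ne)

variable {R : Subring ℂ} {ω : ℂ}

lemma hc_le (hfp : H_FP) (hR : QR R ω) {n : ℕ} {f g : Ideal R} {θ : Ideal R → ℂ}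
    (h1 : HC n f θ) (h2 : HC n g θ) : g ≤ f := by
  by_contra hgf
  have hlt : f < f ⊔ g := left_lt_sup.2 hgf
  have hft : f ≠ ⊤ := by
    rintro rfl
    exact hgf le_top
  obtain ⟨α, hα0, hα1, hαc, hαθ⟩ := h1.prim _ hlt
  obtain ⟨x, hx, y, hy, hxy⟩ := Submodule.mem_sup.1 hα1
  apply hαθ
  by_cases h0 : 1 + y = 0
  · exfalso
    have hgt : g = ⊤ := by
      rw [Ideal.eq_top_iff_one]
      have : (1 : R) = -y := by linear_combination h0
      rw [this]
      exact g.neg_mem hy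
    have h3 : θ f ≠ 0 := by
      intro h
      rcases (h2.zero f).1 h with h | h
      · exact h1.ne h
      · apply h
        rw [hgt, Ideal.isCoprime_iff_sup_eq]
        exact sup_top_eq _
    apply h3
    refine (h1.zero f).2 (Or.inr fun h => hft ?_)
    rw [Ideal.isCoprime_iff_sup_eq, sup_idem] at h
    exact h
  · have h3 := h2.princ (1 + y) h0 (by simpa using hy)
    obtain ⟨f1, f2, f3, f4, f5⟩ := hfp R ω hR n f θ h1 hft
    have h4 : fp n θ α = fp n θ (1 + y) := by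
      refine f5 _ _ ?_
      have : α - (1 + y) = x := by linear_combination -hxy
      rw [this]
      exact hx
    have hα' : (α : ℂ) ≠ 0 := fun h => hα0 (by exact_mod_cast h)
    have hy' : ((1 + y : R) : ℂ) ≠ 0 := fun h => h0 (by exact_mod_cast h)
    unfold fp at h4
    rw [h3, div_self (pow_ne_zero n hy'), div_eq_one_iff_eq (pow_ne_zero n hα')] at h4
    exact h4

lemma hc_unique (hfp : H_FP) (hR : QR R ω) {n : ℕ} {f g : Ideal R} {θ : Ideal R → ℂ}
    (h1 : HC n f θ) (h2 : HC n g θ) : f = g :=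
  le_antisymm (hc_le hfp hR h2 h1) (hc_le hfp hR h1 h2)

/-- the number of characters of conductor `f` -/
noncomputable def hq (m : ℕ) (f : Ideal R) : ℕ := Set.ncard {θ | HC (2 * m - 1) f θ}

theorem sum_hq_le (hb : H_BASIC) (hcls : H_CLS) (hfp : H_FP) (hR : QR R ω) {C0 : ℝ}
    (hC : IdCount R C0) (m X : ℕ) : ∑ f ∈ Id hC X, hq m f ≤ Set.ncard (Hk R m X) := by
  classical
  obtain ⟨H, -, hH⟩ := card_all hb hcls hfp hR
  set t : Ideal R → Finset (Ideal R → ℂ) := fun q =>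
    if h : {θ | HC (2 * m - 1) q θ}.Finite then h.toFinset else ∅ with ht
  have hmem : ∀ q ∈ Id hC X, ∀ θ, θ ∈ t q ↔ HC (2 * m - 1) q θ := by
    intro q h θ
    have hfin := (hH (2 * m - 1) q ((mem_Id hC).1 h).1).2.1
    rw [ht]
    simp only [hfin, dite_true, Set.Finite.mem_toFinset]
    rfl
  have hcard : ∀ q ∈ Id hC X, (t q).card = hq m q := by
    intro q h
    have hfin := (hH (2 * m - 1) q ((mem_Id hC).1 h).1).2.1
    unfold hq
    rw [Set.ncard_eq_toFinset_card _ hfin, ht]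
    simp only [hfin, dite_true]
  rw [← sum_congr rfl hcard, ← card_biUnion]
  · rw [← Set.ncard_coe_finset]
    refine Set.ncard_le_ncard (fun θ hθ => ?_) (hk_finite hb hcls hfp hR hC m X)
    rw [mem_coe, mem_biUnion] at hθ
    obtain ⟨q, h1, h2⟩ := hθ
    exact ⟨q, (hmem q h1 θ).1 h2, ((mem_Id hC).1 h1).2⟩
  · intro q h1 q' h2 hne
    change Disjoint (t q) (t q')
    rw [Finset.disjoint_left]
    intro θ h3 h4
    exact hne (hc_unique hfp hR ((hmem q h1 θ).1 h3) ((hmem q' h2 θ).1 h4))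

open Classical in
theorem ncard_dv_le (hb : H_BASIC) (hcls : H_CLS) (hfp : H_FP) (hR : QR R ω) {C0 : ℝ}
    (hC : IdCount R C0) (m X : ℕ) {q : Ideal R} (hq1 : q ∈ Id hC X) :
    Set.ncard (Dv m q) ≤ ∑ f ∈ (Id hC X).filter (fun f => f ∣ q), hq m f := by
  obtain ⟨H, -, hH⟩ := card_all hb hcls hfp hR
  have hfin : ∀ f ∈ Id hC X, {θ | HC (2 * m - 1) f θ}.Finite := fun f h =>
    (hH (2 * m - 1) f ((mem_Id hC).1 h).1).2.1
  set t : Ideal R → Finset (Ideal R → ℂ) := fun q =>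
    if h : {θ | HC (2 * m - 1) q θ}.Finite then h.toFinset else ∅ with ht
  have hcard : ∀ q ∈ Id hC X, (t q).card = hq m q := by
    intro q h
    unfold hq
    rw [Set.ncard_eq_toFinset_card _ (hfin q h), ht]
    simp only [hfin q h, dite_true]
  calc Set.ncard (Dv m q) ≤
      Set.ncard ((((Id hC X).filter (fun f => f ∣ q)).biUnion t : Finset (Ideal R → ℂ)) :
        Set (Ideal R → ℂ)) := by
        refine Set.ncard_le_ncard (fun θ hθ => ?_) (Finset.finite_toSet _)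
        obtain ⟨f, h1, h2⟩ := hθ
        have := hR.ded
        have h3 : f ∈ Id hC X := by
          rw [mem_Id]
          exact ⟨h1.ne, (nn_le_of_le hb hR ((mem_Id hC).1 hq1).1 h2).trans ((mem_Id hC).1 hq1).2⟩
        rw [mem_coe, mem_biUnion]
        refine ⟨f, mem_filter.2 ⟨h3, Ideal.dvd_iff_le.2 h2⟩, ?_⟩
        rw [ht]
        simp only [hfin f h3, dite_true, Set.Finite.mem_toFinset]
        exact h1
    _ = (((Id hC X).filter (fun f => f ∣ q)).biUnion t).card := Set.ncard_coe_finset _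
    _ ≤ ∑ f ∈ (Id hC X).filter (fun f => f ∣ q), (t f).card := card_biUnion_le
    _ = _ := sum_congr rfl fun f hf => hcard f (mem_filter.1 hf).1

/-- coprime pairs -/
def BB (Y : ℕ) : Finset (ℕ × ℕ) :=
  ((Icc 1 Y) ×ˢ (Icc 1 Y)).filter fun x => x.1 ≤ x.2 ∧ Nat.Coprime x.1 x.2 ∧ Y < 4 * x.2

lemma mem_BB {Y : ℕ} {x : ℕ × ℕ} : x ∈ BB Y ↔ (1 ≤ x.1 ∧ x.1 ≤ x.2 ∧ x.2 ≤ Y) ∧
    Nat.Coprime x.1 x.2 ∧ Y < 4 * x.2 := by
  unfold BB
  rw [mem_filter, mem_product, mem_Icc, mem_Icc]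
  omega

lemma card_BB (Y : ℕ) : Y ^ 2 ≤ 48 * (BB Y).card := by
  have h1 := Pool.Agent.Helper477.totient_sum Y
  set A : Finset (ℕ × ℕ) := ((Icc 1 Y) ×ˢ (Icc 1 Y)).filter fun x => x.1 ≤ x.2 ∧ Nat.Coprime x.1 x.2
    with hA
  have h2 : ∑ q ∈ Icc 1 Y, q.totient ≤ A.card := by
    have h3 : ∀ q ∈ Icc 1 Y, q.totient ≤ (A.filter fun x => x.2 = q).card := by
      intro q hq
      rw [mem_Icc] at hq
      rw [Nat.totient_eq_card_coprime]
      by_cases hq1 : q = 1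
      · subst hq1
        have h5 : ((range 1).filter fun m => Nat.Coprime 1 m).card ≤ 1 := by
          refine (card_filter_le _ _).trans ?_
          simp
        refine h5.trans ?_
        rw [Nat.one_le_iff_ne_zero, Ne, card_eq_zero]
        intro h6
        have h7 : ((1, 1) : ℕ × ℕ) ∈ A.filter fun x => x.2 = 1 := by
          rw [hA]
          simp
          omega
        rw [h6] at h7
        exact absurd h7 (notMem_empty _)
      · refine card_le_card_of_injOn (fun a => (a, q)) ?_ ?_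
        · intro a ha
          rw [mem_coe, mem_filter, mem_range] at ha
          have ha0 : a ≠ 0 := by
            rintro rfl
            have := ha.2
            rw [Nat.coprime_zero_right] at this
            exact hq1 this
          have ha1 : 1 ≤ a := Nat.pos_of_ne_zero ha0
          have ha2 : a ≤ Y := ha.1.le.trans hq.2
          rw [mem_coe, mem_filter, hA, mem_filter, mem_product, mem_Icc, mem_Icc]
          exact ⟨⟨⟨⟨ha1, ha2⟩, hq⟩, ha.1.le, ha.2.symm⟩, rfl⟩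
        · intro a _ b _ h
          exact congrArg Prod.fst h
    calc ∑ q ∈ Icc 1 Y, q.totient ≤ ∑ q ∈ Icc 1 Y, (A.filter fun x => x.2 = q).card :=
          sum_le_sum h3
      _ = A.card := by
          rw [card_eq_sum_card_fiberwise (f := fun x : ℕ × ℕ => x.2) (t := Icc 1 Y)]
          intro x hx
          rw [hA] at hx
          rw [mem_coe, mem_filter, mem_product] at hx
          exact hx.1.2
  have h4 : A.card ≤ (BB Y).card + (Y / 4) ^ 2 := by
    have h5 : A ⊆ BB Y ∪ (Icc 1 (Y / 4)) ×ˢ (Icc 1 (Y / 4)) := by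
      intro x hx
      rw [hA, mem_filter, mem_product, mem_Icc, mem_Icc] at hx
      rw [mem_union, mem_BB, mem_product, mem_Icc, mem_Icc]
      by_cases h : Y < 4 * x.2
      · left
        exact ⟨⟨hx.1.1.1, hx.2.1, hx.1.2.2⟩, hx.2.2, h⟩
      · right
        omega
    refine (card_le_card h5).trans ((card_union_le _ _).trans ?_)
    rw [card_product, Nat.card_Icc]
    simp [sq]
  have h6 : 16 * (Y / 4) ^ 2 ≤ Y ^ 2 := by
    have : 4 * (Y / 4) ≤ Y := Nat.mul_div_le Y 4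
    calc 16 * (Y / 4) ^ 2 = (4 * (Y / 4)) ^ 2 := by ring
      _ ≤ Y ^ 2 := Nat.pow_le_pow_left this 2
  omega

lemma be_inj (hR : QR R ω) {a b a' b' : ℤ} (h : be hR a b = be hR a' b') : a = a' ∧ b = b' := by
  have h1 : (a : ℂ) + b * ω = a' + b' * ω := congrArg (fun z : R => (z : ℂ)) h
  have him := congrArg Complex.im h1
  have hre := congrArg Complex.re h1
  simp at him hre
  have hb : b = b' := by
    rcases him with h | h
    · exact_mod_cast h
    · exact absurd h hR.im.ne'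
  subst hb
  refine ⟨?_, rfl⟩
  have : (a : ℝ) = a' := by linarith
  exact_mod_cast this

/-- the ideal of a pair -/
noncomputable def bi (hR : QR R ω) (x : ℕ × ℕ) : Ideal R := sp (be hR x.1 x.2)

lemma be_ne (hR : QR R ω) {x : ℕ × ℕ} (hx : 1 ≤ x.1) : be hR x.1 x.2 ≠ 0 := by
  intro h
  have h0 : be hR 0 0 = 0 := by
    apply Subtype.ext
    rw [be_val]
    simp
  have := (be_inj hR (h.trans h0.symm)).1
  omega

open Classical in
lemma fibre_le (hR : QR R ω) (hU : Finite Rˣ) (B : Finset (ℕ × ℕ)) (I : Ideal R) :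
    (B.filter fun x => bi hR x = I).card ≤ Nat.card Rˣ := by
  rcases (B.filter fun x => bi hR x = I).eq_empty_or_nonempty with h | ⟨x0, hx0⟩
  · rw [h]
    simp
  · rw [mem_filter] at hx0
    have hex : ∀ x : ℕ × ℕ, bi hR x = I → ∃ u : Rˣ, be hR x0.1 x0.2 * u = be hR x.1 x.2 := by
      intro x hx
      have h1 : sp (be hR x0.1 x0.2) = sp (be hR x.1 x.2) := hx0.2.trans hx.symm
      exact Ideal.span_singleton_eq_span_singleton.1 h1
    let g : ℕ × ℕ → Rˣ := fun x => if h : bi hR x = I then (hex x h).choose else 1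
    have hg : ∀ x, bi hR x = I → be hR x0.1 x0.2 * g x = be hR x.1 x.2 := by
      intro x hx
      have : g x = (hex x hx).choose := dif_pos hx
      rw [this]
      exact (hex x hx).choose_spec
    let _ : Fintype Rˣ := Fintype.ofFinite _
    rw [Nat.card_eq_fintype_card, ← card_univ]
    refine card_le_card_of_injOn g (fun x _ => by simp) ?_
    intro x hx x' hx' hgg
    rw [mem_coe, mem_filter] at hx hx'
    have h1 := hg x hx.2
    have h2 := hg x' hx'.2
    rw [hgg, h2] at h1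
    have h3 := be_inj hR h1
    refine Prod.ext ?_ ?_
    · exact_mod_cast h3.1.symm
    · exact_mod_cast h3.2.symm

open Classical in
/-- double counting -/
theorem double_count (hb : H_BASIC) (hcls : H_CLS) (hfp : H_FP) (hR : QR R ω) {C0 : ℝ}
    (hC : IdCount R C0) (hU : Finite Rˣ) : ∃ H : ℝ, 0 < H ∧ ∀ (m X : ℕ) (B : Finset (ℕ × ℕ)),
      (∀ x ∈ B, 1 ≤ x.1 ∧ 4 < nn (bi hR x) ∧ nn (bi hR x) ≤ X) → ∀ T : ℝ, 0 < T →
      ∑ x ∈ B, (Nat.card (R ⧸ bi hR x)ˣ : ℝ) ≤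
        (Nat.card Rˣ : ℝ) ^ 2 * C0 * X * (H * C0 * T + (Set.ncard (Hk R m X) : ℝ) / T) := by
  obtain ⟨H, hH1, hH⟩ := card_all hb hcls hfp hR
  refine ⟨H, by exact_mod_cast hH1, fun m X B hB T hT => ?_⟩
  have hC0 := hC.pos
  have := hR.ded
  set w : ℝ := (Nat.card Rˣ : ℝ) with hw
  have hw0 : 0 ≤ w := Nat.cast_nonneg _
  have hmemB : ∀ x ∈ B, bi hR x ∈ Id hC X := fun x hx => by
    rw [mem_Id]
    exact ⟨sp_ne (be_ne hR (hB x hx).1), (hB x hx).2.2⟩
  -- first step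
  have h1 : ∑ x ∈ B, Nat.card (R ⧸ bi hR x)ˣ ≤
      (∑ f ∈ Id hC X, hq m f * (B.filter fun x => f ∣ bi hR x).card) * Nat.card Rˣ := by
    calc ∑ x ∈ B, Nat.card (R ⧸ bi hR x)ˣ ≤ ∑ x ∈ B, Set.ncard (Dv m (bi hR x)) * Nat.card Rˣ :=
          sum_le_sum fun x hx => count_dvd hb hcls hfp hR hC m
            (sp_ne (be_ne hR (hB x hx).1)) (hB x hx).2.1
      _ = (∑ x ∈ B, Set.ncard (Dv m (bi hR x))) * Nat.card Rˣ := by rw [sum_mul]
      _ ≤ (∑ x ∈ B, ∑ f ∈ (Id hC X).filter (fun f => f ∣ bi hR x), hq m f) * Nat.card Rˣ :=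
          Nat.mul_le_mul_right _ (sum_le_sum fun x hx =>
            ncard_dv_le hb hcls hfp hR hC m X (hmemB x hx))
      _ = (∑ x ∈ B, ∑ f ∈ Id hC X, if f ∣ bi hR x then hq m f else 0) * Nat.card Rˣ := by
          congr 1
          exact sum_congr rfl fun x _ => by rw [sum_filter]
      _ = (∑ f ∈ Id hC X, ∑ x ∈ B, if f ∣ bi hR x then hq m f else 0) * Nat.card Rˣ := by
          rw [sum_comm]
      _ = _ := by
          congr 1
          refine sum_congr rfl fun f _ => ?_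
          rw [← sum_filter, sum_const, smul_eq_mul, mul_comm]
  -- the number of pairs
  have h2 : ∀ f ∈ Id hC X, ((B.filter fun x => f ∣ bi hR x).card : ℝ) ≤ w * (C0 * X / nn f) := by
    intro f hf
    have h3 : (B.filter fun x => f ∣ bi hR x).card ≤
        Nat.card Rˣ * ((Id hC X).filter (fun I => f ∣ I)).card := by
      refine card_le_mul_card_image_of_maps_to (f := bi hR) (fun x hx => ?_) _ (fun I _ => ?_)
      · rw [mem_filter] at hx ⊢
        exact ⟨hmemB x hx.1, hx.2⟩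
      · exact fibre_le hR hU _ I
    calc ((B.filter fun x => f ∣ bi hR x).card : ℝ) ≤
        w * ((((Id hC X).filter (fun I => f ∣ I)).card : ℕ) : ℝ) := by
          rw [hw]
          exact_mod_cast h3
      _ ≤ _ := mul_le_mul_of_nonneg_left (card_mul hb hR hC X ((mem_Id hC).1 hf).1) hw0
  have hX0 : (0 : ℝ) ≤ X := Nat.cast_nonneg _
  have h3 : ((∑ x ∈ B, Nat.card (R ⧸ bi hR x)ˣ : ℕ) : ℝ) ≤
      (∑ f ∈ Id hC X, (hq m f : ℝ) * (w * (C0 * X / nn f))) * w := by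
    refine ((Nat.cast_le (α := ℝ)).2 h1).trans ?_
    push_cast
    refine mul_le_mul_of_nonneg_right (sum_le_sum fun f hf => ?_) hw0
    exact mul_le_mul_of_nonneg_left (h2 f hf) (Nat.cast_nonneg _)
  have h4 : ∑ f ∈ Id hC X, (hq m f : ℝ) * (w * (C0 * X / nn f)) ≤
      w * C0 * X * (H * C0 * T + (Set.ncard (Hk R m X) : ℝ) / T) := by
    rw [← sum_filter_add_sum_filter_not (Id hC X) (fun f : Ideal R => (nn f : ℝ) ≤ T)]
    have h5 : ∑ f ∈ (Id hC X).filter (fun f : Ideal R => (nn f : ℝ) ≤ T),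
        (hq m f : ℝ) * (w * (C0 * X / nn f)) ≤ (C0 * T) * (H * (w * (C0 * X))) := by
      calc ∑ f ∈ (Id hC X).filter (fun f : Ideal R => (nn f : ℝ) ≤ T),
          (hq m f : ℝ) * (w * (C0 * X / nn f)) ≤
          ∑ f ∈ (Id hC X).filter (fun f : Ideal R => (nn f : ℝ) ≤ T), H * (w * (C0 * X)) := by
            refine sum_le_sum fun f hf => ?_
            rw [mem_filter] at hf
            have hf0 := ((mem_Id hC).1 hf.1).1
            have h6 : (hq m f : ℝ) ≤ nn f * H := by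
              unfold hq
              exact_mod_cast (hH (2 * m - 1) f hf0).2.2
            have h7 : (0 : ℝ) < nn f := by exact_mod_cast nn_pos hb hR hf0
            calc (hq m f : ℝ) * (w * (C0 * X / nn f)) ≤ (nn f * H) * (w * (C0 * X / nn f)) :=
                  mul_le_mul_of_nonneg_right h6 (by positivity)
              _ = _ := by field_simp
        _ = (((Id hC X).filter (fun f : Ideal R => (nn f : ℝ) ≤ T)).card : ℝ) *
            (H * (w * (C0 * X))) := by rw [sum_const, nsmul_eq_mul]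
        _ ≤ _ := by
            refine mul_le_mul_of_nonneg_right ?_ (by positivity)
            have h6 : (Id hC X).filter (fun f : Ideal R => (nn f : ℝ) ≤ T) ⊆ Id hC ⌊T⌋₊ := by
              intro f hf
              rw [mem_filter] at hf
              rw [mem_Id]
              exact ⟨((mem_Id hC).1 hf.1).1, Nat.le_floor hf.2⟩
            have h7 : (((Id hC X).filter (fun f : Ideal R => (nn f : ℝ) ≤ T)).card : ℝ) ≤
                (Id hC ⌊T⌋₊).card := by exact_mod_cast card_le_card h6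
            refine h7.trans ((card_Id hC _).trans ?_)
            exact mul_le_mul_of_nonneg_left (Nat.floor_le hT.le) hC0.le
    have h6 : ∑ f ∈ (Id hC X).filter (fun f : Ideal R => ¬ (nn f : ℝ) ≤ T),
        (hq m f : ℝ) * (w * (C0 * X / nn f)) ≤
        (Set.ncard (Hk R m X) : ℝ) * (w * (C0 * X / T)) := by
      calc ∑ f ∈ (Id hC X).filter (fun f : Ideal R => ¬ (nn f : ℝ) ≤ T),
          (hq m f : ℝ) * (w * (C0 * X / nn f)) ≤
          ∑ f ∈ (Id hC X).filter (fun f : Ideal R => ¬ (nn f : ℝ) ≤ T),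
            (hq m f : ℝ) * (w * (C0 * X / T)) := by
            refine sum_le_sum fun f hf => ?_
            rw [mem_filter, not_le] at hf
            refine mul_le_mul_of_nonneg_left (mul_le_mul_of_nonneg_left ?_ hw0)
              (Nat.cast_nonneg _)
            exact div_le_div_of_nonneg_left (by positivity) hT hf.2.le
        _ ≤ ∑ f ∈ Id hC X, (hq m f : ℝ) * (w * (C0 * X / T)) :=
            sum_le_sum_of_subset_of_nonneg (filter_subset _ _) (fun f _ _ => by positivity)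
        _ = ((∑ f ∈ Id hC X, hq m f : ℕ) : ℝ) * (w * (C0 * X / T)) := by
            rw [← sum_mul]
            push_cast
            rfl
        _ ≤ _ := by
            refine mul_le_mul_of_nonneg_right ?_ (by positivity)
            exact_mod_cast sum_hq_le hb hcls hfp hR hC m X
    calc _ ≤ (C0 * T) * (H * (w * (C0 * X))) +
        (Set.ncard (Hk R m X) : ℝ) * (w * (C0 * X / T)) := add_le_add h5 h6
      _ = _ := by ring
  have h5 : ∑ x ∈ B, (Nat.card (R ⧸ bi hR x)ˣ : ℝ) =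
      ((∑ x ∈ B, Nat.card (R ⧸ bi hR x)ˣ : ℕ) : ℝ) := by push_cast; rfl
  rw [h5]
  refine h3.trans ((mul_le_mul_of_nonneg_right h4 hw0).trans (le_of_eq ?_))
  ring

/-- the group of units is finite -/
theorem units_finite (hb : H_BASIC) (hR : QR R ω) : Finite Rˣ := by
  obtain ⟨b1, -⟩ := hb R ω hR
  have h3 : ((3 : ℕ) : R) ≠ 0 := by
    intro h
    have : ((3 : ℕ) : ℂ) = 0 := by exact_mod_cast congrArg (fun z : R => (z : ℂ)) h
    norm_num at this
  have h9 : nn (sp ((3 : ℕ) : R)) = 3 ^ 2 := nn_nat hb hR 3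
  have hfin : Finite (R ⧸ sp ((3 : ℕ) : R)) := b1 _ (sp_ne h3)
  exact Finite.of_injective _ (units_inj hb hR (q := sp ((3 : ℕ) : R)) (by rw [h9]; norm_num))

/-- the norms of the elements of a box -/
theorem norm_box (hb : H_BASIC) (hR : QR R ω) {Y : ℕ} (hYbig : 8 / ω.im < Y) {X : ℝ}
    (hY2 : (Y : ℝ) ^ 2 * (1 + ‖ω‖) ^ 2 ≤ X) {x : ℕ × ℕ} (hx : x ∈ BB Y) :
    ω.im ^ 2 * (Y : ℝ) ^ 2 / 16 ≤ nn (bi hR x) ∧
      (nn (bi hR x) : ℝ) ≤ X ∧ (4 : ℝ) < nn (bi hR x) := by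
  have him := hR.im
  obtain ⟨⟨h1, h2, h3⟩, h4, h5⟩ := mem_BB.1 hx
  have h6 : (nn (bi hR x) : ℝ) = (((x.1 : ℕ) : ℤ) + ((x.2 : ℕ) : ℤ) * ω.re) ^ 2 +
    (((x.2 : ℕ) : ℤ) * ω.im) ^ 2 := nn_be hb hR _ _
  rw [Int.cast_natCast, Int.cast_natCast] at h6
  have h5' : (Y : ℝ) < 4 * x.2 := by exact_mod_cast h5
  have h3' : (x.2 : ℝ) ≤ Y := by exact_mod_cast h3
  have h2' : (x.1 : ℝ) ≤ Y := by exact_mod_cast h2.trans h3
  have hY0 : (0 : ℝ) ≤ Y := Nat.cast_nonneg _
  have h7 : ω.im * Y / 4 ≤ x.2 * ω.im := by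
    have := mul_le_mul_of_nonneg_left h5'.le him.le
    linarith
  have h8 : (ω.im * Y / 4) ^ 2 ≤ (x.2 * ω.im) ^ 2 :=
    pow_le_pow_left₀ (by positivity) h7 2
  have h9 : ω.im ^ 2 * (Y : ℝ) ^ 2 / 16 ≤ nn (bi hR x) := by
    rw [h6]
    have e : ω.im ^ 2 * (Y : ℝ) ^ 2 / 16 = (ω.im * Y / 4) ^ 2 := by ring
    rw [e]
    have := sq_nonneg ((x.1 : ℝ) + x.2 * ω.re)
    linarith
  refine ⟨h9, ?_, ?_⟩
  · have h10 : (nn (bi hR x) : ℝ) = ‖((be hR x.1 x.2 : R) : ℂ)‖ ^ 2 := by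
      rw [← Complex.normSq_eq_norm_sq]
      exact nn_sp hb hR _
    rw [h10]
    refine le_trans ?_ hY2
    rw [← mul_pow]
    refine pow_le_pow_left₀ (norm_nonneg _) ?_ 2
    rw [be_val]
    refine (norm_add_le _ _).trans ?_
    rw [norm_mul]
    simp only [Int.cast_natCast, Complex.norm_natCast]
    have h11 := mul_le_mul_of_nonneg_right h3' (norm_nonneg ω)
    linarith
  · refine lt_of_lt_of_le ?_ h9
    have h10 : 8 < Y * ω.im := by
      rwa [div_lt_iff₀ him] at hYbig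
    have h11 : (8 : ℝ) ^ 2 < (Y * ω.im) ^ 2 := pow_lt_pow_left₀ h10 (by norm_num) (by norm_num)
    have e : ω.im ^ 2 * (Y : ℝ) ^ 2 / 16 = (Y * ω.im) ^ 2 / 16 := by ring
    rw [e]
    linarith

/-- the sum of the numbers of units -/
theorem sum_box (hb : H_BASIC) (hR : QR R ω) {Y : ℕ} (hYbig : 8 / ω.im < Y) {X : ℝ}
    (hX1 : 1 ≤ X) (hY2 : (Y : ℝ) ^ 2 * (1 + ‖ω‖) ^ 2 ≤ X) :
    (Y : ℝ) ^ 2 / 48 * (ω.im ^ 2 * (Y : ℝ) ^ 2 / 16 / (1 + 2 * Real.log X)) ≤
      ∑ x ∈ BB Y, (Nat.card (R ⧸ bi hR x)ˣ : ℝ) := by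
  have hlog : 0 ≤ Real.log X := Real.log_nonneg hX1
  have hL0 : 0 < 1 + 2 * Real.log X := by linarith
  have h1 : ∀ x ∈ BB Y, ω.im ^ 2 * (Y : ℝ) ^ 2 / 16 / (1 + 2 * Real.log X) ≤
      (Nat.card (R ⧸ bi hR x)ˣ : ℝ) := by
    intro x hx
    obtain ⟨h2, h3, h4⟩ := norm_box hb hR hYbig hY2 hx
    have hx' := mem_BB.1 hx
    have hn1 : 1 ≤ nn (bi hR x) := by
      have : (1 : ℝ) ≤ nn (bi hR x) := by linarith
      exact_mod_cast this
    have h5 := phi_low _ hn1
    have h6 : (Nat.totient (nn (bi hR x)) : ℝ) ≤ (Nat.card (R ⧸ bi hR x)ˣ : ℝ) := by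
      exact_mod_cast phi_le hb hR (a := (x.1 : ℤ)) (b := (x.2 : ℤ))
        (Nat.isCoprime_iff_coprime.2 hx'.2.1) (be_ne hR hx'.1.1)
    have h7 : 1 + 2 * Real.log (nn (bi hR x)) ≤ 1 + 2 * Real.log X := by
      have := Real.log_le_log (by linarith) h3
      linarith
    rw [div_le_iff₀ hL0]
    calc ω.im ^ 2 * (Y : ℝ) ^ 2 / 16 ≤ nn (bi hR x) := h2
      _ ≤ _ := h5
      _ ≤ (Nat.card (R ⧸ bi hR x)ˣ : ℝ) * (1 + 2 * Real.log X) := by
          refine mul_le_mul h6 h7 ?_ (Nat.cast_nonneg _)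
          have := Real.log_nonneg (by linarith : (1 : ℝ) ≤ nn (bi hR x))
          linarith
  have h2 : ((BB Y).card : ℝ) * (ω.im ^ 2 * (Y : ℝ) ^ 2 / 16 / (1 + 2 * Real.log X)) ≤
      ∑ x ∈ BB Y, (Nat.card (R ⧸ bi hR x)ˣ : ℝ) := by
    rw [← nsmul_eq_mul]
    exact card_nsmul_le_sum _ _ _ h1
  refine le_trans ?_ h2
  have h3 : (Y : ℝ) ^ 2 / 48 ≤ ((BB Y).card : ℝ) := by
    have h4 : ((Y ^ 2 : ℕ) : ℝ) ≤ ((48 * (BB Y).card : ℕ) : ℝ) := by exact_mod_cast card_BB Y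
    push_cast at h4
    linarith
  exact mul_le_mul_of_nonneg_right h3 (by positivity)

/-- the lower bound for the number of characters -/
theorem hk_lower (hb : H_BASIC) (hcls : H_CLS) (hfp : H_FP) (hR : QR R ω) {C0 : ℝ}
    (hC : IdCount R C0) : ∃ c X0 : ℝ, 0 < c ∧ 0 < X0 ∧ ∀ m X : ℕ, X0 ≤ X →
      c * (X : ℝ) ^ 2 ≤ (Set.ncard (Hk R m X) : ℝ) * (1 + 2 * Real.log X) ^ 2 := by
  classical
  have hC0 := hC.pos
  have hU := units_finite hb hR
  obtain ⟨H, hH, hmain⟩ := double_count hb hcls hfp hR hC hU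
  have hw : (0 : ℝ) < (Nat.card Rˣ : ℝ) := by exact_mod_cast Nat.card_pos
  set w : ℝ := (Nat.card Rˣ : ℝ) with hwdef
  have him := hR.im
  set r : ℝ := 1 + ‖ω‖ with hr
  have hr1 : 1 ≤ r := by rw [hr]; linarith [norm_nonneg ω]
  have hr0 : 0 < r := by linarith
  have hA : 0 < 8 / ω.im := by positivity
  set A : ℝ := 8 / ω.im with hAdef
  set c2 : ℝ := ω.im ^ 2 / (48 * 16 * 16 * r ^ 4) with hc2
  have hc20 : 0 < c2 := by positivity
  refine ⟨c2 ^ 2 / (4 * w ^ 4 * C0 ^ 3 * H), (2 * r * (A + 2)) ^ 2, by positivity,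
    by positivity, fun m X hX => ?_⟩
  have h2r : 2 ≤ 2 * r * (A + 2) := by
    have h1 : 1 * 1 ≤ r * (A + 2) := mul_le_mul hr1 (by linarith) zero_le_one hr0.le
    linarith
  have hX1 : (1 : ℝ) ≤ X := by
    refine le_trans ?_ hX
    calc (1 : ℝ) ≤ 2 ^ 2 := by norm_num
      _ ≤ _ := pow_le_pow_left₀ (by norm_num) h2r 2
  have hX0 : (0 : ℝ) < X := by linarith
  have hlog : 0 ≤ Real.log X := Real.log_nonneg hX1
  have hsq : 2 * r * (A + 2) ≤ Real.sqrt X := Real.le_sqrt_of_sq_le hX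
  set Y : ℕ := ⌊Real.sqrt X / r⌋₊ with hY
  have hYle : (Y : ℝ) ≤ Real.sqrt X / r := Nat.floor_le (by positivity)
  have h2r0 : 0 < 2 * r := by linarith
  have hA2 : A + 2 ≤ Real.sqrt X / (2 * r) := by
    rw [le_div_iff₀ h2r0]
    linarith
  have hYge : Real.sqrt X / (2 * r) ≤ Y := by
    have h1 : Real.sqrt X / r < Y + 1 := Nat.lt_floor_add_one _
    have h3 : Real.sqrt X / r = 2 * (Real.sqrt X / (2 * r)) := by field_simp
    linarith
  have hYbig : 8 / ω.im < Y := by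
    have : A < Y := by linarith
    exact this
  have hY2 : (Y : ℝ) ^ 2 * (1 + ‖ω‖) ^ 2 ≤ X := by
    have h1 : (Y : ℝ) * r ≤ Real.sqrt X := by
      rwa [le_div_iff₀ hr0] at hYle
    calc (Y : ℝ) ^ 2 * (1 + ‖ω‖) ^ 2 = (Y * r) ^ 2 := by rw [hr]; ring
      _ ≤ (Real.sqrt X) ^ 2 := pow_le_pow_left₀ (by positivity) h1 2
      _ = X := Real.sq_sqrt hX0.le
  have hY3 : (X : ℝ) / (4 * r ^ 2) ≤ (Y : ℝ) ^ 2 := by
    calc (X : ℝ) / (4 * r ^ 2) = (Real.sqrt X / (2 * r)) ^ 2 := by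
          rw [div_pow, Real.sq_sqrt hX0.le]; ring
      _ ≤ _ := pow_le_pow_left₀ (by positivity) hYge 2
  have hbox := sum_box hb hR hYbig hX1 hY2
  have hnb : ∀ x ∈ BB Y, 1 ≤ x.1 ∧ 4 < nn (bi hR x) ∧ nn (bi hR x) ≤ X := by
    intro x hx
    obtain ⟨h1, h2, h3⟩ := norm_box hb hR hYbig hY2 hx
    exact ⟨(mem_BB.1 hx).1.1, by exact_mod_cast h3, by exact_mod_cast h2⟩
  clear_value Y
  set L : ℝ := 1 + 2 * Real.log X with hL
  have hL0 : 0 < L := by linarith
  clear_value L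
  have hT : 0 < c2 * X / (2 * w ^ 2 * C0 ^ 2 * H * L) := by positivity
  have hkey := hmain m X (BB Y) hnb _ hT
  have hlower : c2 * (X : ℝ) ^ 2 / L ≤ ∑ x ∈ BB Y, (Nat.card (R ⧸ bi hR x)ˣ : ℝ) := by
    refine le_trans ?_ hbox
    calc c2 * (X : ℝ) ^ 2 / L =
        (X / (4 * r ^ 2)) / 48 * (ω.im ^ 2 * (X / (4 * r ^ 2)) / 16 / L) := by
          rw [hc2]
          field_simp
          ring
      _ ≤ (Y : ℝ) ^ 2 / 48 * (ω.im ^ 2 * (Y : ℝ) ^ 2 / 16 / L) := by gcongr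
  have h := hlower.trans hkey
  clear hlower hkey hbox hnb hmain
  set Nk : ℝ := (Set.ncard (Hk R m X) : ℝ) with hNk
  clear_value Nk c2 r w
  have h1 : w ^ 2 * C0 * X * (H * C0 * (c2 * X / (2 * w ^ 2 * C0 ^ 2 * H * L))) =
      c2 * (X : ℝ) ^ 2 / L / 2 := by
    field_simp
  have h2 : w ^ 2 * C0 * X * (Nk / (c2 * X / (2 * w ^ 2 * C0 ^ 2 * H * L))) =
      Nk * L * (2 * w ^ 4 * C0 ^ 3 * H) / c2 := by
    field_simp
  rw [mul_add, h1, h2] at h
  have h3 : c2 * (X : ℝ) ^ 2 / L / 2 ≤ Nk * L * (2 * w ^ 4 * C0 ^ 3 * H) / c2 := by linarith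
  rw [div_mul_eq_mul_div, div_le_iff₀ (by positivity)]
  have h4 : c2 * (X : ℝ) ^ 2 / L / 2 * (2 * c2 * L) ≤
      Nk * L * (2 * w ^ 4 * C0 ^ 3 * H) / c2 * (2 * c2 * L) :=
    mul_le_mul_of_nonneg_right h3 (by positivity)
  calc c2 ^ 2 * (X : ℝ) ^ 2 = c2 * (X : ℝ) ^ 2 / L / 2 * (2 * c2 * L) := by field_simp
    _ ≤ _ := h4
    _ = Nk * L ^ 2 * (4 * w ^ 4 * C0 ^ 3 * H) := by field_simp; ring

end Pool.Agent.Y683.AA
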