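import Pool.Agent.Y683.AA.HLow
import Pool.Agent.Y690.Pair

/-!
The average order of vanishing over all Hecke characters of conductor of norm at most `X`.
-/

set_option autoImplicit false

open Complex

namespace Pool.Agent.Y683.AA

open Pool.Agent.W192.HK Pool.Agent.TH936.CM

variable {R : Subring ℂ} {ω : ℂ}

/-- `F` is the `L`-function of `θ` -/
structure LF (m : ℕ) (θ : Ideal R → ℂ) (F : ℂ → ℂ) : Prop where
  diff : Differentiable ℂ F
  sum : ∀ s : ℂ, (m : ℝ) + 1 / 2 < s.re →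
    HasSum (fun I : Ideal R => θ I * (nm I : ℂ) ^ (-s)) (F s)
  ord : analyticOrderAt F (m : ℂ) ≠ ⊤

theorem exists_L (hb : H_BASIC) (hcls : H_CLS) (hcnt : H_CNT) (hfpr : H_FPR) (hfp : H_FP)
    (hdec : H_DEC) (hgauss : H_GAUSS) (htheta : H_THETA) (hafe : H_AFE)
    (hfinb : Pool.Agent.Y683.FINB) (hR : QR R ω) :
    ∃ L : ℕ → (Ideal R → ℂ) → ℂ → ℂ,
      (∀ (m : ℕ) (q : Ideal R) (θ : Ideal R → ℂ), 1 ≤ m → HC (2 * m - 1) q θ →
        LF m θ (L m θ)) ∧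
      ∃ K : ℝ, GHk R K (fun m θ => analyticOrderNatAt (L m θ) (m : ℂ)) := by
  classical
  obtain ⟨K, hK, hord⟩ := Pool.Agent.Y690.ordU_le hb hfp hcnt hgauss htheta hcls hR
  have hex : ∀ (m : ℕ) (θ : Ideal R → ℂ), ∃ F : ℂ → ℂ, ∀ q : Ideal R, 1 ≤ m →
      HC (2 * m - 1) q θ → LF m θ F ∧
        (analyticOrderNatAt F (m : ℂ) : ℝ) ≤ K * (1 + Real.log (nm q) + Real.log m) := by
    intro m θ
    by_cases h : ∃ q : Ideal R, 1 ≤ m ∧ HC (2 * m - 1) q θ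
    · obtain ⟨q, hm, hH⟩ := h
      obtain ⟨h, hh1, hpr, hsys⟩ := hcls R ω hR
      obtain ⟨s, hh, μ, T, -, hS⟩ := hsys q hH.ne
      obtain ⟨F, hF1, hF2, -⟩ := hafe R ω hR m hm q _ hH s hh μ T hS
      refine ⟨F, fun q' _ hH' => ?_⟩
      obtain ⟨e, rfl⟩ : ∃ e, m = e + 1 := ⟨m - 1, by omega⟩
      have hm1 : 2 * (e + 1) - 1 = 2 * e + 1 := by omega
      obtain ⟨ho1, ho2⟩ := hord e q' θ (by rw [← hm1]; exact hH') F hF1 hF2
      exact ⟨⟨hF1, hF2, ho1⟩, ho2⟩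
    · exact ⟨0, fun q hm hH => absurd ⟨q, hm, hH⟩ h⟩
  choose L hL using hex
  refine ⟨L, fun m q θ hm hθ => (hL m θ q hm hθ).1, K, hK,
    fun m q θ hm hθ => (hL m θ q hm hθ).2, fun ε hε => ?_⟩
  obtain ⟨N0, hN0⟩ := Pool.Agent.Y683.nonvan hb hcls hcnt hfpr hfp hdec hafe hfinb hR ε hε
  refine ⟨N0, fun m q θ hm hθ hN d hd h2 h3 => ?_⟩
  obtain ⟨F', hF'1, hF'2, hF'3⟩ := hN0 m hm q θ hθ hN d hd h2 h3
  obtain ⟨⟨hF1, hF2, -⟩, -⟩ := hL m θ q hm hθ
  have hFF : L m θ = F' := by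
    refine entire_eq hF1 hF'1 (m + 4) fun z hz => ?_
    have hzz : (m : ℝ) + 1 / 2 < z.re := by linarith
    exact (hF2 z hzz).unique (hF'2 z hzz)
  change analyticOrderNatAt (L m θ) (m : ℂ) = 0
  rw [hFF, analyticOrderNatAt]
  have h4 : analyticOrderAt F' (m : ℂ) = 0 := by
    rw [(hF'1.analyticAt _).analyticOrderAt_eq_zero]
    exact hF'3
  rw [h4]
  rfl

lemma exp_absorb' {c : ℝ} (hc : 0 < c) : ∃ C : ℝ, 0 < C ∧ ∀ X : ℕ, 1 ≤ X →
    (1 + 2 * Real.log X) ^ 2 * (1 + Real.log X) * Real.exp (-c * cr X) ≤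
      C * Real.exp (-(c / 2) * cr X) := by
  obtain ⟨C, hC, h⟩ := exp_absorb hc
  refine ⟨4 * C, by positivity, fun X hX => ?_⟩
  have h1 := h (cr X) (cr_nonneg X)
  rw [cr_pow] at h1
  have hlog : 0 ≤ Real.log X := Real.log_natCast_nonneg X
  have h2 : (1 + 2 * Real.log X) ^ 2 ≤ 4 * (1 + Real.log X) ^ 2 := by nlinarith
  calc (1 + 2 * Real.log X) ^ 2 * (1 + Real.log X) * Real.exp (-c * cr X) ≤
      (4 * (1 + Real.log X) ^ 2) * (1 + Real.log X) * Real.exp (-c * cr X) := by gcongr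
    _ = 4 * ((1 + Real.log X) ^ 3 * Real.exp (-c * cr X)) := by ring
    _ ≤ 4 * (C * Real.exp (-(c / 2) * cr X)) := mul_le_mul_of_nonneg_left h1 (by norm_num)
    _ = _ := by ring

/-- **The average over all Hecke characters** -/
theorem hecke_avg (hb : H_BASIC) (hcls : H_CLS) (hfp : H_FP) (hdivr : H_DIVR) (hR : QR R ω)
    {C0 : ℝ} (hC : IdCount R C0) {K : ℝ} {o : ℕ → (Ideal R → ℂ) → ℕ} (ho : GHk R K o) {ε : ℝ}
    (hε : 0 < ε) :
    ∃ C c : ℝ, 0 < C ∧ 0 < c ∧ ∀ X m : ℕ, 1 ≤ X → 1 ≤ m → (m : ℝ) ≤ (X : ℝ) ^ (1 - ε) →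
      ((∑ᶠ θ ∈ Hk R m X, o m θ : ℕ) : ℝ) ≤
        C * Real.exp (-c * cr X) * (Set.ncard (Hk R m X) : ℝ) := by
  classical
  obtain ⟨C1, c1, hC1, hc1, h1⟩ := hecke_sum hb hcls hfp hdivr hR hC ho hε
  obtain ⟨c2, X0, hc2, hX0, h2⟩ := hk_lower hb hcls hfp hR hC
  obtain ⟨C3, hC3, h3⟩ := exp_absorb' hc1
  refine ⟨C1 / c2 * C3 + C1 * X0 ^ 2 * C3, c1 / 2, by positivity, by positivity,
    fun X m hX hm hmX => ?_⟩
  have hX1 : (1 : ℝ) ≤ X := by exact_mod_cast hX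
  have hX0' : (0 : ℝ) < X := by linarith
  have hlog : 0 ≤ Real.log X := Real.log_nonneg hX1
  have hS := h1 X m hX hm hmX
  have hE := h3 X hX
  set E : ℝ := Real.exp (-(c1 / 2) * cr X) with hEdef
  have hE0 : 0 < E := Real.exp_pos _
  rcases le_or_gt X0 X with hXX | hXX
  · have h4 := h2 m X hXX
    have h5 : C1 * (X : ℝ) ^ 2 * (1 + Real.log X) * Real.exp (-c1 * cr X) ≤
        C1 / c2 * C3 * E * (Set.ncard (Hk R m X) : ℝ) := by
      calc C1 * (X : ℝ) ^ 2 * (1 + Real.log X) * Real.exp (-c1 * cr X) =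
          C1 / c2 * (c2 * (X : ℝ) ^ 2) * ((1 + Real.log X) * Real.exp (-c1 * cr X)) := by
            field_simp
        _ ≤ C1 / c2 * ((Set.ncard (Hk R m X) : ℝ) * (1 + 2 * Real.log X) ^ 2) *
            ((1 + Real.log X) * Real.exp (-c1 * cr X)) := by
            refine mul_le_mul_of_nonneg_right (mul_le_mul_of_nonneg_left h4 (by positivity)) ?_
            have := (Real.exp_pos (-c1 * cr X)).le
            positivity
        _ = C1 / c2 * (Set.ncard (Hk R m X) : ℝ) *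
            ((1 + 2 * Real.log X) ^ 2 * (1 + Real.log X) * Real.exp (-c1 * cr X)) := by ring
        _ ≤ C1 / c2 * (Set.ncard (Hk R m X) : ℝ) * (C3 * E) :=
            mul_le_mul_of_nonneg_left hE (by positivity)
        _ = _ := by ring
    refine hS.trans (h5.trans ?_)
    have : C1 / c2 * C3 ≤ C1 / c2 * C3 + C1 * X0 ^ 2 * C3 := by
      have : 0 ≤ C1 * X0 ^ 2 * C3 := by positivity
      linarith
    gcongr
  · rcases Nat.eq_zero_or_pos (Set.ncard (Hk R m X)) with h0 | h0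
    · have hfin := hk_finite hb hcls hfp hR hC m X
      have hemp : Hk R m X = ∅ := (Set.ncard_eq_zero hfin).1 h0
      rw [hemp]
      simp
    · have h0' : (1 : ℝ) ≤ (Set.ncard (Hk R m X) : ℝ) := by exact_mod_cast h0
      refine hS.trans ?_
      have hone : (1 : ℝ) ≤ (1 + 2 * Real.log X) ^ 2 := one_le_pow₀ (by linarith)
      have hEE := (Real.exp_pos (-c1 * cr X)).le
      calc C1 * (X : ℝ) ^ 2 * (1 + Real.log X) * Real.exp (-c1 * cr X) =
          C1 * (X : ℝ) ^ 2 * (1 * (1 + Real.log X) * Real.exp (-c1 * cr X)) := by ring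
        _ ≤ C1 * X0 ^ 2 *
            ((1 + 2 * Real.log X) ^ 2 * (1 + Real.log X) * Real.exp (-c1 * cr X)) := by
            gcongr
        _ ≤ C1 * X0 ^ 2 * (C3 * E) := mul_le_mul_of_nonneg_left hE (by positivity)
        _ = C1 * X0 ^ 2 * C3 * E * 1 := by ring
        _ ≤ (C1 / c2 * C3 + C1 * X0 ^ 2 * C3) * E * (Set.ncard (Hk R m X) : ℝ) := by
            have : C1 * X0 ^ 2 * C3 ≤ C1 / c2 * C3 + C1 * X0 ^ 2 * C3 := by
              have : 0 ≤ C1 / c2 * C3 := by positivity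
              linarith
            gcongr

end Pool.Agent.Y683.AA
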