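import Pool.Agent.Y683.AA.HDual

/-!
Lower bound for the number of units modulo `(a + b ω)`, `a` and `b` coprime.
-/

set_option autoImplicit false

open Finset

namespace Pool.Agent.Y683.AA

open Pool.Agent.W192.HK
open Pool.Agent.Y690 (cop_iff cop_congr cop_mono sp_mul sp_pow hc_pow ne_zero_of_cop lift_cop sp_ne)

variable {R : Subring ℂ} {ω : ℂ}

lemma prod_one_sub_ge (S : Finset ℕ) : (∀ x ∈ S, 2 ≤ x) →
    1 / ((S.card : ℝ) + 1) ≤ ∏ x ∈ S, (1 - 1 / (x : ℝ)) := by
  induction S using Finset.induction_on_max with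
  | empty => intro _; simp
  | insert a s has ih =>
    intro h
    have h1 := ih (fun x hx => h x (mem_insert_of_mem hx))
    have ha : a ∉ s := fun hmem => lt_irrefl a (has a hmem)
    rw [prod_insert ha, card_insert_of_notMem ha]
    have h2 : s ⊆ Ico 2 a := fun x hx => by
      rw [mem_Ico]
      exact ⟨h x (mem_insert_of_mem hx), has x hx⟩
    have h3 := card_le_card h2
    rw [Nat.card_Ico] at h3
    have h4 : 2 ≤ a := h a (mem_insert_self _ _)
    have h5 : s.card + 2 ≤ a := by omega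
    have h6 : ((s.card : ℝ) + 2) ≤ a := by exact_mod_cast h5
    have h7 : ((s.card : ℝ) + 1) / ((s.card : ℝ) + 2) ≤ 1 - 1 / (a : ℝ) := by
      have h8 : (1 : ℝ) / a ≤ 1 / ((s.card : ℝ) + 2) := one_div_le_one_div_of_le (by positivity) h6
      have h9 : ((s.card : ℝ) + 1) / ((s.card : ℝ) + 2) = 1 - 1 / ((s.card : ℝ) + 2) := by
        field_simp
        ring
      rw [h9]
      linarith
    push_cast
    calc 1 / ((s.card : ℝ) + 1 + 1) =
        ((s.card : ℝ) + 1) / ((s.card : ℝ) + 2) * (1 / ((s.card : ℝ) + 1)) := by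
          field_simp
          ring
      _ ≤ _ := mul_le_mul h7 h1 (by positivity) (le_trans (by positivity) h7)

/-- lower bound for the totient -/
lemma phi_low (n : ℕ) (hn : 1 ≤ n) : (n : ℝ) ≤ Nat.totient n * (1 + 2 * Real.log n) := by
  have hn0 : (0 : ℝ) < n := by exact_mod_cast hn
  have h1 := prod_one_sub_ge n.primeFactors (fun x hx => (Nat.prime_of_mem_primeFactors hx).two_le)
  have h2 : (Nat.totient n : ℝ) = n * ∏ p ∈ n.primeFactors, (1 - 1 / (p : ℝ)) := by
    have h := Nat.totient_eq_mul_prod_factors n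
    have h' : ((Nat.totient n : ℚ) : ℝ) = ((n * ∏ p ∈ n.primeFactors, (1 - (p : ℚ)⁻¹) : ℚ) : ℝ) := by
      rw [h]
    push_cast at h'
    rw [h']
    congr 1
    refine prod_congr rfl fun p _ => ?_
    rw [one_div]
  have h3 : (n.primeFactors.card : ℝ) ≤ 2 * Real.log n := by
    have h4 : 2 ^ n.primeFactors.card ≤ n := by
      calc 2 ^ n.primeFactors.card = ∏ p ∈ n.primeFactors, 2 := by rw [prod_const]
        _ ≤ ∏ p ∈ n.primeFactors, p :=
            prod_le_prod' fun p hp => (Nat.prime_of_mem_primeFactors hp).two_le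
        _ ≤ n := Nat.le_of_dvd hn (Nat.prod_primeFactors_dvd n)
    have h5 : (n.primeFactors.card : ℝ) * Real.log 2 ≤ Real.log n := by
      rw [← Real.log_pow]
      exact Real.log_le_log (by positivity) (by exact_mod_cast h4)
    have h6 := Real.log_two_gt_d9
    have h7 : (0 : ℝ) ≤ n.primeFactors.card := Nat.cast_nonneg _
    nlinarith
  have h4 : (1 : ℝ) ≤ (∏ p ∈ n.primeFactors, (1 - 1 / (p : ℝ))) *
      ((n.primeFactors.card : ℝ) + 1) := by
    rw [div_le_iff₀ (by positivity)] at h1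
    exact h1
  have h5 : 0 ≤ ∏ p ∈ n.primeFactors, (1 - 1 / (p : ℝ)) := le_trans (by positivity) h1
  rw [h2]
  calc (n : ℝ) = n * 1 := (mul_one _).symm
    _ ≤ n * ((∏ p ∈ n.primeFactors, (1 - 1 / (p : ℝ))) * ((n.primeFactors.card : ℝ) + 1)) :=
        mul_le_mul_of_nonneg_left h4 hn0.le
    _ ≤ n * ((∏ p ∈ n.primeFactors, (1 - 1 / (p : ℝ))) * (1 + 2 * Real.log n)) := by
        refine mul_le_mul_of_nonneg_left (mul_le_mul_of_nonneg_left ?_ h5) hn0.le
        linarith
    _ = _ := by ring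

/-- the element `a + b ω` -/
noncomputable def be (hR : QR R ω) (a b : ℤ) : R := ⟨a + b * ω, (hR.mem _).2 ⟨a, b, rfl⟩⟩

lemma be_val (hR : QR R ω) (a b : ℤ) : ((be hR a b : R) : ℂ) = a + b * ω := rfl

lemma nn_be (hb : H_BASIC) (hR : QR R ω) (a b : ℤ) :
    (nn (sp (be hR a b)) : ℝ) = (a + b * ω.re) ^ 2 + (b * ω.im) ^ 2 := by
  rw [nn_sp hb hR, be_val, Complex.normSq_apply]
  simp
  ring

/-- an integer in `(a + b ω)` is divisible by the norm -/
theorem dvd_of_mem (hb : H_BASIC) (hR : QR R ω) {a b : ℤ} (hab : IsCoprime a b) {n : ℤ}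
    (hn : ((n : ℤ) : R) ∈ sp (be hR a b)) : ((nn (sp (be hR a b)) : ℕ) : ℤ) ∣ n := by
  -- `ω² = x + y ω`
  have him : ω.im ≠ 0 := hR.im.ne'
  have hω : ω ∈ R := (hR.mem _).2 ⟨0, 1, by simp⟩
  obtain ⟨x, y, hxy⟩ := (hR.mem _).1 (R.mul_mem hω hω)
  have hre : 2 * ω.re = y := by
    have := congrArg Complex.im hxy
    simp at this
    have h2 : (2 * ω.re - y) * ω.im = 0 := by linarith
    rcases mul_eq_zero.1 h2 with h | h
    · linarith
    · exact absurd h him
  obtain ⟨γ, hγ⟩ := Ideal.mem_span_singleton'.1 hn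
  obtain ⟨c, d, hcd⟩ := (hR.mem _).1 γ.2
  set N := nn (sp (be hR a b)) with hN
  have hNr : (N : ℝ) = (a + b * ω.re) ^ 2 + (b * ω.im) ^ 2 := nn_be hb hR a b
  -- `n = γ β`
  have h1 : ((n : ℤ) : ℂ) = (c + d * ω) * (a + b * ω) := by
    have := congrArg (fun z : R => (z : ℂ)) hγ
    change ((γ : R) : ℂ) * ((be hR a b : R) : ℂ) = (((n : ℤ) : R) : ℂ) at this
    rw [hcd, be_val] at this
    rw [this]
    simp
  -- multiply by the conjugate
  have hre1 := congrArg Complex.re h1
  have him1 := congrArg Complex.im h1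
  simp at hre1 him1
  have e1 : (n : ℝ) * (a + b * ω.re) = N * (c + d * ω.re) := by
    rw [hNr, hre1]
    linear_combination (b * ω.im) * him1
  have e2 : -(n : ℝ) * b = N * d := by
    have : (-(n : ℝ) * b) * ω.im = (N * d) * ω.im := by
      rw [hNr, hre1]
      linear_combination (a + b * ω.re) * him1
    exact mul_right_cancel₀ him this
  have e2' : -n * b = N * d := by exact_mod_cast e2
  have e1' : n * (a + b * y) = N * c := by
    have : (n : ℝ) * (a + b * y) = N * c := by
      have e3 : (y : ℝ) = ω.re + ω.re := by linarith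
      rw [e3]
      linear_combination e1 - ω.re * e2
    exact_mod_cast this
  obtain ⟨u, v, huv⟩ := hab
  have hnb : (N : ℤ) ∣ n * b := ⟨-d, by linarith⟩
  have hna : (N : ℤ) ∣ n * a := by
    have h2 : n * a = n * (a + b * y) - n * b * y := by ring
    rw [h2, e1']
    exact dvd_sub (Dvd.intro _ rfl) (hnb.mul_right _)
  have h3 : n = u * (n * a) + v * (n * b) := by
    linear_combination (-n) * huv
  rw [h3]
  exact dvd_add (hna.mul_left _) (hnb.mul_left _)

/-- the number of units modulo `(a + b ω)` -/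
theorem phi_le (hb : H_BASIC) (hR : QR R ω) {a b : ℤ} (hab : IsCoprime a b)
    (h0 : be hR a b ≠ 0) :
    Nat.totient (nn (sp (be hR a b))) ≤ Nat.card (R ⧸ sp (be hR a b))ˣ := by
  obtain ⟨b1, -⟩ := hb R ω hR
  have := hR.ded
  have hne := sp_ne h0
  have hfin : Finite (R ⧸ sp (be hR a b)) := b1 _ hne
  have hN := nn_pos hb hR hne
  set N := nn (sp (be hR a b)) with hNdef
  have hchar : CharP (R ⧸ sp (be hR a b)) N := by
    refine ⟨fun n => ?_⟩
    have h1 : ((n : ℕ) : R ⧸ sp (be hR a b)) = Ideal.Quotient.mk (sp (be hR a b)) ((n : ℕ) : R) := by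
      simp
    rw [h1, Ideal.Quotient.eq_zero_iff_mem]
    constructor
    · intro h
      have h2 : (((n : ℕ) : ℤ) : R) ∈ sp (be hR a b) := by
        rw [Int.cast_natCast]
        exact h
      have := dvd_of_mem hb hR hab h2
      exact_mod_cast this
    · rintro ⟨k, rfl⟩
      have h2 := dvd_nat (sp (be hR a b)) hfin hR
      rw [Ideal.dvd_iff_le, sp, Ideal.span_singleton_le_iff_mem] at h2
      push_cast
      exact Ideal.mul_mem_right _ _ h2
  have : NeZero N := ⟨by omega⟩
  have h1 : Nat.card (ZMod N)ˣ = Nat.totient N := by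
    rw [Nat.card_eq_fintype_card, ZMod.card_units_eq_totient]
  rw [← h1]
  have hinj := ZMod.castHom_injective (n := N) (R ⧸ sp (be hR a b))
  exact Nat.card_le_card_of_injective
    (Units.map (ZMod.castHom (dvd_refl N) (R ⧸ sp (be hR a b))).toMonoidHom)
    (Units.map_injective hinj)

end Pool.Agent.Y683.AA
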