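import Pool.Agent.Y683.AA.HMain

/-!
The total order of vanishing over all Hecke characters modulo `q`, for almost all `q`.
-/

set_option autoImplicit false

open Finset

namespace Pool.Agent.Y683.AA

open Pool.Agent.W192.HK
open Pool.Agent.Y690 (cop_iff cop_congr cop_mono sp_mul sp_pow hc_pow ne_zero_of_cop lift_cop sp_ne)

variable {R : Subring ℂ} {ω : ℂ}

lemma pi_surj (hb : H_BASIC) (hR : QR R ω) {q f : Ideal R} (hq : q ≠ ⊥) (hqf : q ≤ f) :
    Function.Surjective (Units.map (Ideal.Quotient.factor hqf).toMonoidHom :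
      (R ⧸ q)ˣ →* (R ⧸ f)ˣ) := by
  intro u
  obtain ⟨α, hα⟩ := Ideal.Quotient.mk_surjective (u : R ⧸ f)
  by_cases hft : f = ⊤
  · refine ⟨1, ?_⟩
    have : Subsingleton (R ⧸ f) := by
      rw [hft]
      exact Ideal.Quotient.subsingleton_iff.2 rfl
    ext
    exact Subsingleton.elim _ _
  · have hαc : IsCoprime (sp α) f := by
      rw [← isUnit_iff_cop, hα]
      exact u.isUnit
    obtain ⟨β, hβ0, hβc, hβ⟩ := lift_cop hb hR hq (ne_zero_of_cop hft hαc) hαc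
    obtain ⟨v, hv⟩ := isUnit_iff_cop.2 hβc
    refine ⟨v, ?_⟩
    ext
    change Ideal.Quotient.factor hqf (v : R ⧸ q) = (u : R ⧸ f)
    rw [hv, Ideal.Quotient.factor_mk, ← hα, Ideal.Quotient.mk_eq_mk_iff_sub_mem]
    exact hβ

/-- characters of small order modulo a divisor -/
lemma card_pull (hb : H_BASIC) (hR : QR R ω) {q f : Ideal R} (hq : q ≠ ⊥) (hqf : q ≤ f) {D : ℝ}
    {Tq : Finset ((R ⧸ q)ˣ →* ℂˣ)} (hTq : ∀ F, F ∈ Tq ↔ (orderOf F : ℝ) ≤ D)
    {Tf : Finset ((R ⧸ f)ˣ →* ℂˣ)} (hTf : ∀ F, F ∈ Tf ↔ (orderOf F : ℝ) ≤ D) :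
    Tf.card ≤ Tq.card := by
  classical
  set π : (R ⧸ q)ˣ →* (R ⧸ f)ˣ := Units.map (Ideal.Quotient.factor hqf).toMonoidHom with hπ
  have hsurj : Function.Surjective π := pi_surj hb hR hq hqf
  let Φ : ((R ⧸ f)ˣ →* ℂˣ) →* ((R ⧸ q)ˣ →* ℂˣ) :=
    { toFun := fun F => F.comp π
      map_one' := by ext; rfl
      map_mul' := fun F F' => by ext; rfl }
  have hΦ : Function.Injective Φ := by
    intro F F' h
    refine MonoidHom.ext fun u => ?_
    obtain ⟨v, rfl⟩ := hsurj u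
    exact DFunLike.congr_fun h v
  refine card_le_card_of_injOn Φ (fun F hF => ?_) hΦ.injOn
  rw [mem_coe] at hF ⊢
  rw [hTq, orderOf_injective Φ hΦ F]
  exact (hTf F).1 hF

lemma ord_le_nn {q : Ideal R} (hfin : Finite (R ⧸ q)) (F : (R ⧸ q)ˣ →* ℂˣ) :
    orderOf F ≤ nn q := by
  have hG : Finite (R ⧸ q)ˣ := inferInstance
  have h1 : orderOf F ∣ Monoid.exponent (R ⧸ q)ˣ := by
    refine orderOf_dvd_of_pow_eq_one ?_
    ext u
    rw [MonoidHom.pow_apply, ← map_pow, Monoid.pow_exponent_eq_one, map_one]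
    rfl
  have h2 : orderOf F ≤ Monoid.exponent (R ⧸ q)ˣ :=
    Nat.le_of_dvd (Nat.pos_of_ne_zero Monoid.exponent_ne_zero_of_finite) h1
  have h4 : Monoid.exponent (R ⧸ q)ˣ ≤ Nat.card (R ⧸ q)ˣ :=
    Nat.le_of_dvd Nat.card_pos Group.exponent_dvd_nat_card
  refine h2.trans (h4.trans ?_)
  unfold nn
  exact Nat.card_le_card_of_injective (fun u : (R ⧸ q)ˣ => (u : R ⧸ q)) Units.val_injective

/-- a character with a zero at the centre has a finite part of small order -/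
theorem small_of_ne (hb : H_BASIC) (hfp : H_FP) (hR : QR R ω) {o : ℕ → (Ideal R → ℂ) → ℕ}
    {ε N0 : ℝ} (hN0 : ∀ (m : ℕ) (q : Ideal R) (θ : Ideal R → ℂ), 1 ≤ m →
    HC (2 * m - 1) q θ → N0 ≤ nm q → ∀ d : ℕ,
      (∀ e : ℕ, 0 < e → (∀ α : R, IsCoprime (sp α) q → fp (2 * m - 1) θ α ^ e = 1) → d ≤ e) →
      (nm q) ^ (2 / 3 + ε) ≤ d → m * (nm q) ^ (1 + ε) ≤ (d : ℝ) ^ 2 → o m θ = 0)
    {m : ℕ} {q : Ideal R} {θ : Ideal R → ℂ} (hm : 1 ≤ m) (hθ : HC (2 * m - 1) q θ)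
    (hne : o m θ ≠ 0) {D : ℝ} (hD0 : 0 ≤ D) (hD1 : N0 ≤ D) (hD2 : (nm q) ^ (2 / 3 + ε) ≤ D)
    (hD3 : m * (nm q) ^ (1 + ε) ≤ D ^ 2) :
    ∃ F, IsFin (2 * m - 1) q θ F ∧ (orderOf F : ℝ) ≤ D := by
  obtain ⟨b1, -⟩ := hb R ω hR
  have hfinq : Finite (R ⧸ q) := b1 q hθ.ne
  obtain ⟨F, hF⟩ := exists_fin hfp hR hθ
  refine ⟨F, hF, ?_⟩
  by_contra hlt
  push Not at hlt
  apply hne
  have hFle : orderOf F ≤ nn q := ord_le_nn hfinq F
  have hN0q : N0 ≤ nm q := by
    have h1 : (orderOf F : ℝ) ≤ nm q := by rw [nm_eq]; exact_mod_cast hFle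
    linarith
  refine hN0 m q θ hm hθ hN0q (orderOf F) ?_ (hD2.trans hlt.le)
    (hD3.trans (pow_le_pow_left₀ hD0 hlt.le 2))
  intro e he h1
  refine orderOf_le_of_pow_eq_one he ?_
  ext u
  rw [MonoidHom.pow_apply, MonoidHom.one_apply, Units.val_pow_eq_pow_val, Units.val_one]
  obtain ⟨α, hα⟩ := Ideal.Quotient.mk_surjective (u : R ⧸ q)
  have hcop : IsCoprime (sp α) q := by
    rw [← isUnit_iff_cop, hα]
    exact u.isUnit
  by_cases h0 : α = 0
  · have hqt : q = ⊤ := by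
      by_contra h
      exact Pool.Agent.Y690.ne_zero_of_cop h hcop h0
    have h2 : Ideal.Quotient.mk q (1 : R) = u := by
      have : Subsingleton (R ⧸ q) := by
        rw [hqt]
        exact Ideal.Quotient.subsingleton_iff.2 rfl
      exact Subsingleton.elim _ _
    have hc1 : IsCoprime (sp (1 : R)) q := by
      rw [← isUnit_iff_cop, h2]
      exact u.isUnit
    rw [hF u 1 h2 one_ne_zero]
    exact h1 1 hc1
  · rw [hF u α hα h0]
    exact h1 α hcop

lemma ncard_le_fs {α : Type*} {s : Set α} (hs : s.Finite) (g : α → ℕ) (P : α → Prop)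
    (h : ∀ x ∈ s, P x → g x ≠ 0) : {x ∈ s | P x}.ncard ≤ ∑ᶠ x ∈ s, g x := by
  classical
  have h1 : {x ∈ s | P x} = ((hs.toFinset.filter P : Finset α) : Set α) := by
    ext x
    simp
  rw [h1, Set.ncard_coe_finset, finsum_mem_eq_finite_toFinset_sum _ hs, Finset.card_eq_sum_ones]
  calc ∑ x ∈ hs.toFinset.filter P, 1 ≤ ∑ x ∈ hs.toFinset.filter P, g x := by
        refine Finset.sum_le_sum fun x hx => ?_
        rw [Finset.mem_filter, Set.Finite.mem_toFinset] at hx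
        exact Nat.one_le_iff_ne_zero.2 (h x hx.1 hx.2)
    _ ≤ _ := Finset.sum_le_sum_of_subset (Finset.filter_subset _ _)

lemma log_le_pow {x : ℝ} (hx : 1 ≤ x) {δ : ℝ} (hδ : 0 < δ) :
    1 + Real.log x ≤ (1 + 1 / δ) * x ^ δ := by
  have h1 : Real.log x ≤ x ^ δ / δ := Real.log_le_rpow_div (by linarith) hδ
  have h2 : 1 ≤ x ^ δ := Real.one_le_rpow hx hδ.le
  calc 1 + Real.log x ≤ x ^ δ + x ^ δ / δ := add_le_add h2 h1
    _ = _ := by ring

/-- the bound of the theorem -/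
noncomputable def bnd (ε : ℝ) (m : ℕ) (n : ℝ) : ℝ :=
  (m * n) ^ ε * (n ^ (2 / 3 : ℝ) + (m * n) ^ (1 / 2 : ℝ))

/-- the total order over the characters modulo `q` -/
theorem total_dvd (hb : H_BASIC) (hcls : H_CLS) (hfp : H_FP) (hdivr : H_DIVR) (hR : QR R ω)
    {C0 : ℝ} (hC : IdCount R C0) {K : ℝ} {o : ℕ → (Ideal R → ℂ) → ℕ} (ho : GHk R K o) {ε : ℝ}
    (hε : 0 < ε) :
    ∃ C : ℝ, 0 < C ∧ ∀ (m : ℕ) (q : Ideal R), 1 ≤ m → q ≠ ⊥ → ∀ Y : ℝ, 0 ≤ Y → Nice Y (nn q) →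
      ((∑ᶠ θ ∈ Dv m q, o m θ : ℕ) : ℝ) ≤ C * Y * bnd ε m (nm q) := by
  classical
  have hK := ho.pos
  obtain ⟨H, hH1, hH⟩ := card_all hb hcls hfp hR
  obtain ⟨N0, hN0⟩ := ho.nv (ε / 4) (by positivity)
  obtain ⟨C1, hC1, ht, -⟩ := Pool.Agent.W216.CY.t_div (ε / 4) (by positivity)
  obtain ⟨C2, hC2, hdv⟩ := hdivr R ω hR (ε / 4) (by positivity)
  have hH0 : (0 : ℝ) < H := by exact_mod_cast hH1
  refine ⟨C2 * H * ((|N0| + 1) * C1) * (K * (1 + 1 / (ε / 4))), by positivity,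
    fun m q hm hq Y hY hnice => ?_⟩
  have hq1 := nn_pos hb hR hq
  have hn1 : 1 ≤ nm q := by rw [nm_eq]; exact_mod_cast hq1
  have hn0 : 0 < nm q := by linarith
  have hm1 : (1 : ℝ) ≤ m := by exact_mod_cast hm
  have hm0 : (0 : ℝ) < m := by linarith
  have hmn1 : 1 ≤ m * nm q := by nlinarith
  have hmn0 : 0 < m * nm q := by linarith
  have hnmn : nm q ≤ m * nm q := by nlinarith
  obtain ⟨b1, -⟩ := hb R ω hR
  have hfinq : Finite (R ⧸ q) := b1 q hq
  have hG : Finite (R ⧸ q)ˣ := inferInstance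
  -- the bound for the orders
  set B : ℝ := bnd (ε / 4) m (nm q) with hB
  have hB1 : 1 ≤ B := by
    rw [hB, bnd]
    have h1 : (1 : ℝ) ≤ (m * nm q) ^ (ε / 4) := Real.one_le_rpow hmn1 (by positivity)
    have h2 : (1 : ℝ) ≤ (nm q) ^ (2 / 3 : ℝ) := Real.one_le_rpow hn1 (by norm_num)
    have h3 : (0 : ℝ) ≤ (m * nm q) ^ (1 / 2 : ℝ) := by positivity
    nlinarith
  set D : ℝ := (|N0| + 1) * B with hD
  have hD0 : 0 ≤ D := by positivity
  have hDB : B ≤ D := by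
    rw [hD]
    nlinarith [abs_nonneg N0]
  have hD1 : N0 ≤ D := by
    rw [hD]
    have h1 := le_abs_self N0
    have h2 := abs_nonneg N0
    nlinarith
  obtain ⟨T, hT1, hT2, hT3⟩ := card_dual_small hb hR hq hD0
  -- divisors
  set Q : Finset (Ideal R) := (Id hC (nn q)).filter (fun f => f ∣ q) with hQ
  have hded := hR.ded
  have hQc : (Q.card : ℝ) ≤ C2 * (nm q) ^ (ε / 4) := by
    obtain ⟨h1, h2⟩ := hdv q hq
    refine le_trans ?_ h2
    rw [← Set.ncard_coe_finset]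
    refine (Nat.cast_le (α := ℝ)).2 (Set.ncard_le_ncard (fun f hf => ?_) h1)
    rw [mem_coe, hQ, mem_filter] at hf
    exact hf.2
  -- the small characters of conductor `f`
  have hS : ∀ f : Ideal R, ∃ S : Finset (Ideal R → ℂ), f ∣ q →
      (∀ θ, HC (2 * m - 1) f θ → o m θ ≠ 0 → θ ∈ S) ∧ S.card ≤ T.card * H := by
    intro f
    by_cases hf : f ∣ q
    · have hf0 : f ≠ ⊥ := by
        rintro rfl
        exact hq (by obtain ⟨J, hJ⟩ := hf; rw [hJ, Ideal.bot_mul])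
      obtain ⟨Tf, hTf1, -⟩ := card_dual_small hb hR hf0 hD0
      obtain ⟨hsm, -⟩ := hH (2 * m - 1) f hf0
      obtain ⟨k1, k2⟩ := hsm D hD0 Tf hTf1
      refine ⟨k1.toFinset, fun _ => ⟨fun θ hθ hne => ?_, ?_⟩⟩
      · rw [Set.Finite.mem_toFinset]
        have hff : nm f ≤ nm q := by
          rw [nm_eq, nm_eq]
          exact_mod_cast nn_le_of_le hb hR hq (Ideal.dvd_iff_le.1 hf)
        have hf1 : 1 ≤ nm f := by rw [nm_eq]; exact_mod_cast nn_pos hb hR hf0
        obtain ⟨F, hF1, hF2⟩ := small_of_ne hb hfp hR hN0 hm hθ hne hD0 hD1 (by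
          refine le_trans ?_ hDB
          calc (nm f) ^ (2 / 3 + ε / 4) ≤ (nm q) ^ (2 / 3 + ε / 4) :=
                Real.rpow_le_rpow (by linarith) hff (by positivity)
            _ = (nm q) ^ (ε / 4) * (nm q) ^ (2 / 3 : ℝ) := by
                rw [← Real.rpow_add hn0]; congr 1; ring
            _ ≤ (m * nm q) ^ (ε / 4) * ((nm q) ^ (2 / 3 : ℝ) + (m * nm q) ^ (1 / 2 : ℝ)) := by
                refine mul_le_mul (Real.rpow_le_rpow hn0.le hnmn (by positivity)) ?_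
                  (by positivity) (by positivity)
                have : (0 : ℝ) ≤ (m * nm q) ^ (1 / 2 : ℝ) := by positivity
                linarith) (by
          calc (m : ℝ) * (nm f) ^ (1 + ε / 4) ≤ m * (nm q) ^ (1 + ε / 4) :=
                mul_le_mul_of_nonneg_left
                  (Real.rpow_le_rpow (by linarith) hff (by positivity)) hm0.le
            _ = (nm q) ^ (ε / 4) * (m * nm q) := by
                rw [Real.rpow_add hn0, Real.rpow_one]; ring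
            _ ≤ (m * nm q) ^ (ε / 2) * (m * nm q) := by
                refine mul_le_mul_of_nonneg_right ?_ hmn0.le
                refine (Real.rpow_le_rpow hn0.le hnmn (by positivity)).trans ?_
                exact Real.rpow_le_rpow_of_exponent_le hmn1 (by linarith)
            _ = ((m * nm q) ^ (ε / 4) * (m * nm q) ^ (1 / 2 : ℝ)) ^ 2 := by
                rw [mul_pow, ← Real.rpow_natCast, ← Real.rpow_mul hmn0.le, ← Real.rpow_natCast,
                  ← Real.rpow_mul hmn0.le]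
                have e1 : ε / 4 * ((2 : ℕ) : ℝ) = ε / 2 := by push_cast; ring
                have e2 : (1 / 2 : ℝ) * ((2 : ℕ) : ℝ) = 1 := by push_cast; norm_num
                rw [e1, e2, Real.rpow_one]
            _ ≤ B ^ 2 := by
                refine pow_le_pow_left₀ (by positivity) ?_ 2
                rw [hB, bnd]
                refine mul_le_mul_of_nonneg_left ?_ (by positivity)
                have : (0 : ℝ) ≤ (nm q) ^ (2 / 3 : ℝ) := by positivity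
                linarith
            _ ≤ D ^ 2 := pow_le_pow_left₀ (by linarith) hDB 2)
        exact ⟨hθ, F, (hTf1 F).2 hF2, hF1⟩
      · rw [← Set.ncard_eq_toFinset_card _ k1]
        exact k2.trans (Nat.mul_le_mul_right _
          (card_pull hb hR hq (Ideal.dvd_iff_le.1 hf) hT1 hTf1))
    · exact ⟨∅, fun h => absurd h hf⟩
  choose S hS using hS
  have hfin : (Dv m q).Finite :=
    (hk_finite hb hcls hfp hR hC m (nn q)).subset (dv_subset hb hR m hq le_rfl)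
  have hterm : ∀ θ ∈ Dv m q, (o m θ : ℝ) ≤ K * (1 + Real.log (m * nm q)) := by
    rintro θ ⟨f, hθ, hqf⟩
    refine (ho.bd m f θ hm hθ).trans (mul_le_mul_of_nonneg_left ?_ hK.le)
    have hf1 : 1 ≤ nm f := by rw [nm_eq]; exact_mod_cast nn_pos hb hR hθ.ne
    have hff : nm f ≤ nm q := by
      rw [nm_eq, nm_eq]
      exact_mod_cast nn_le_of_le hb hR hq hqf
    have h1 : Real.log (nm f) ≤ Real.log (nm q) := Real.log_le_log (by linarith) hff
    rw [Real.log_mul hm0.ne' hn0.ne']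
    linarith
  -- the sum
  have hsum : ((∑ᶠ θ ∈ Dv m q, o m θ : ℕ) : ℝ) ≤
      ((Q.biUnion S).card : ℝ) * (K * (1 + Real.log (m * nm q))) := by
    rw [finsum_mem_eq_finite_toFinset_sum _ hfin, ← sum_filter_ne_zero]
    push_cast
    have hlog : 0 ≤ Real.log (m * nm q) := Real.log_nonneg hmn1
    calc ∑ θ ∈ hfin.toFinset.filter (fun θ => o m θ ≠ 0), (o m θ : ℝ) ≤
        ∑ θ ∈ hfin.toFinset.filter (fun θ => o m θ ≠ 0), K * (1 + Real.log (m * nm q)) := by
          refine sum_le_sum fun θ hθ => ?_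
          rw [mem_filter, Set.Finite.mem_toFinset] at hθ
          exact hterm θ hθ.1
      _ = ((hfin.toFinset.filter (fun θ => o m θ ≠ 0)).card : ℝ) *
          (K * (1 + Real.log (m * nm q))) := by rw [sum_const, nsmul_eq_mul]
      _ ≤ _ := by
          refine mul_le_mul_of_nonneg_right ?_ (by positivity)
          refine (Nat.cast_le (α := ℝ)).2 (card_le_card fun θ hθ => ?_)
          rw [mem_filter, Set.Finite.mem_toFinset] at hθ
          obtain ⟨⟨f, h1, h2⟩, h3⟩ := hθ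
          rw [mem_biUnion]
          have hfq : f ∣ q := Ideal.dvd_iff_le.2 h2
          refine ⟨f, ?_, (hS f hfq).1 θ h1 h3⟩
          rw [hQ, mem_filter, mem_Id]
          exact ⟨⟨h1.ne, nn_le_of_le hb hR hq h2⟩, hfq⟩
  have hcard : ((Q.biUnion S).card : ℝ) ≤ C2 * (nm q) ^ (ε / 4) * (T.card * H) := by
    calc ((Q.biUnion S).card : ℝ) ≤ ((∑ f ∈ Q, (S f).card : ℕ) : ℝ) := by
          exact_mod_cast card_biUnion_le
      _ ≤ ((∑ f ∈ Q, T.card * H : ℕ) : ℝ) := by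
          refine (Nat.cast_le (α := ℝ)).2 (sum_le_sum fun f hf => ?_)
          rw [hQ, mem_filter] at hf
          exact (hS f hf.2).2
      _ = Q.card * (T.card * H) := by
          rw [sum_const, smul_eq_mul]
          push_cast
          ring
      _ ≤ _ := mul_le_mul_of_nonneg_right hQc (by positivity)
  -- the size of `T`
  obtain ⟨S', hS1, hS2⟩ := hnice
  have hlam1 := lcm_dvd_exp hb hR hq hS1
  have hlam0 : 0 < Monoid.exponent (R ⧸ q)ˣ :=
    Nat.pos_of_ne_zero Monoid.exponent_ne_zero_of_finite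
  have hlam0' : (0 : ℝ) < (Monoid.exponent (R ⧸ q)ˣ : ℕ) := by exact_mod_cast hlam0
  have hlam2 : ((S'.lcm (fun p => p - 1) : ℕ) : ℝ) ≤ (Monoid.exponent (R ⧸ q)ˣ : ℕ) := by
    exact_mod_cast Nat.le_of_dvd hlam0 hlam1
  have hlamX : ((Monoid.exponent (R ⧸ q)ˣ : ℕ) : ℝ) ≤ nm q := by
    have h4 : Monoid.exponent (R ⧸ q)ˣ ≤ Nat.card (R ⧸ q)ˣ :=
      Nat.le_of_dvd Nat.card_pos Group.exponent_dvd_nat_card
    rw [nm_eq]
    refine (Nat.cast_le (α := ℝ)).2 (h4.trans ?_)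
    unfold nn
    exact Nat.card_le_card_of_injective (fun u : (R ⧸ q)ˣ => (u : R ⧸ q)) Units.val_injective
  have hτ : (((Monoid.exponent (R ⧸ q)ˣ).divisors.card : ℕ) : ℝ) ≤ C1 * (nm q) ^ (ε / 4) := by
    refine (ht _ hlam0).trans ?_
    gcongr
  have hTc : (T.card : ℝ) ≤ D * (C1 * (nm q) ^ (ε / 4)) * Y := by
    have h1 : (T.card : ℝ) * (Monoid.exponent (R ⧸ q)ˣ : ℕ) ≤
        (D * (C1 * (nm q) ^ (ε / 4)) * Y) * (Monoid.exponent (R ⧸ q)ˣ : ℕ) := by
      calc (T.card : ℝ) * (Monoid.exponent (R ⧸ q)ˣ : ℕ) ≤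
          D * (((Monoid.exponent (R ⧸ q)ˣ).divisors.card : ℕ) : ℝ) * nn q := hT3
        _ ≤ D * (C1 * (nm q) ^ (ε / 4)) * (Y * (Monoid.exponent (R ⧸ q)ˣ : ℕ)) := by
            refine mul_le_mul (mul_le_mul_of_nonneg_left hτ hD0)
              (hS2.trans (mul_le_mul_of_nonneg_left hlam2 hY)) (Nat.cast_nonneg _)
              (by positivity)
        _ = _ := by ring
    exact le_of_mul_le_mul_right h1 hlam0'
  have hlog1 := log_le_pow hmn1 (δ := ε / 4) (by positivity)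
  have hlog0 : 0 ≤ Real.log (m * nm q) := Real.log_nonneg hmn1
  have hnpow : (nm q) ^ (ε / 4) ≤ (m * nm q) ^ (ε / 4) :=
    Real.rpow_le_rpow hn0.le hnmn (by positivity)
  have hmnp : (0 : ℝ) ≤ (m * nm q) ^ (ε / 4) := by positivity
  set P : ℝ := (m * nm q) ^ (ε / 4) with hP
  have e1 : bnd ε m (nm q) = P ^ 3 * B := by
    rw [hB, bnd, bnd, ← hP, ← mul_assoc]
    congr 1
    rw [hP, ← Real.rpow_natCast, ← Real.rpow_mul hmn0.le, ← Real.rpow_add hmn0]
    congr 1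
    push_cast
    ring
  rw [e1]
  calc ((∑ᶠ θ ∈ Dv m q, o m θ : ℕ) : ℝ) ≤
      ((Q.biUnion S).card : ℝ) * (K * (1 + Real.log (m * nm q))) := hsum
    _ ≤ (C2 * (nm q) ^ (ε / 4) * (T.card * H)) * (K * ((1 + 1 / (ε / 4)) * P)) := by
        refine mul_le_mul hcard (mul_le_mul_of_nonneg_left hlog1 hK.le) (by positivity)
          (by positivity)
    _ ≤ (C2 * P * ((D * (C1 * P) * Y) * H)) * (K * ((1 + 1 / (ε / 4)) * P)) := by
        refine mul_le_mul_of_nonneg_right ?_ (by positivity)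
        refine mul_le_mul (mul_le_mul_of_nonneg_left hnpow hC2.le)
          (mul_le_mul_of_nonneg_right (hTc.trans ?_) hH0.le) (by positivity) (by positivity)
        refine mul_le_mul_of_nonneg_right (mul_le_mul_of_nonneg_left ?_ hD0) hY
        exact mul_le_mul_of_nonneg_left hnpow hC1.le
    _ = _ := by rw [hD]; ring

open Classical in
/-- **Almost all moduli** -/
theorem pw_main (hb : H_BASIC) (hcls : H_CLS) (hfp : H_FP) (hdivr : H_DIVR) (hR : QR R ω)
    {C0 : ℝ} (hC : IdCount R C0) {K : ℝ} {o : ℕ → (Ideal R → ℂ) → ℕ} (ho : GHk R K o) {ε : ℝ}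
    (hε : 0 < ε) :
    ∃ C c : ℝ, 0 < C ∧ 0 < c ∧ ∀ X : ℕ, 1 ≤ X →
      {q : Ideal R | q ≠ ⊥ ∧ nn q ≤ X ∧ ∃ m : ℕ, 1 ≤ m ∧
        C * bnd ε m (nm q) < ((∑ᶠ θ ∈ Dv m q, o m θ : ℕ) : ℝ)}.Finite ∧
      (Set.ncard {q : Ideal R | q ≠ ⊥ ∧ nn q ≤ X ∧ ∃ m : ℕ, 1 ≤ m ∧
        C * bnd ε m (nm q) < ((∑ᶠ θ ∈ Dv m q, o m θ : ℕ) : ℝ)} : ℝ) ≤
        C * X * Real.exp (-c * cr X) := by
  have hC0 := hC.pos
  set ε' : ℝ := min ε 1 with hε'
  have hε0 : 0 < ε' := lt_min hε one_pos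
  have hε1 : ε' ≤ 1 := min_le_right _ _
  set δ : ℝ := ε' / 36 with hδ
  have hδ0 : 0 < δ := by positivity
  obtain ⟨C1, hC1, h1⟩ := total_dvd hb hcls hfp hdivr hR hC ho (ε := ε / 2) (by positivity)
  obtain ⟨C2, hC2, h2⟩ := excI hb hdivr hR hC hδ0 (by rw [hδ]; linarith)
  refine ⟨C1 * C2 + C2 + 2 * C0, δ / 4, by positivity, by positivity, fun X hX => ?_⟩
  set CC : ℝ := C1 * C2 + C2 + 2 * C0 with hCC
  have hX1 : (1 : ℝ) ≤ X := by exact_mod_cast hX
  have hX0 : (0 : ℝ) < X := by linarith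
  set Z : ℕ := Nat.sqrt X with hZ
  have hZX : (Z : ℝ) ≤ (X : ℝ) ^ ((1 : ℝ) / 2) := by
    rw [← Real.sqrt_eq_rpow]
    exact Real.nat_sqrt_le_real_sqrt
  have hsub : {q : Ideal R | q ≠ ⊥ ∧ nn q ≤ X ∧ ∃ m : ℕ, 1 ≤ m ∧
        CC * bnd ε m (nm q) < ((∑ᶠ θ ∈ Dv m q, o m θ : ℕ) : ℝ)} ⊆
      (((Id hC X).filter (fun I : Ideal R => ¬ Nice (C2 * (X : ℝ) ^ (9 * δ)) (nn I)) ∪ Id hC Z :
        Finset (Ideal R)) : Set (Ideal R)) := by
    rintro q ⟨hq, hqX, m, hm, hlt⟩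
    rw [mem_coe, mem_union, mem_filter, mem_Id, mem_Id]
    by_contra hcon
    push Not at hcon
    obtain ⟨k1, k2⟩ := hcon
    have k1 := k1 ⟨hq, hqX⟩
    have k2 := k2 hq
    have h3 := h1 m q hm hq _ (by positivity) k1
    have hn1 : 1 ≤ nm q := by rw [nm_eq]; exact_mod_cast nn_pos hb hR hq
    have hn0 : 0 < nm q := by linarith
    have hm1 : (1 : ℝ) ≤ m := by exact_mod_cast hm
    have hmn1 : 1 ≤ m * nm q := by nlinarith
    have hmn0 : 0 < m * nm q := by linarith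
    have hnmn : nm q ≤ m * nm q := by nlinarith
    have hXn : (X : ℝ) ≤ (nm q) ^ 2 := by
      rw [nm_eq]
      have h4 : X < (Z + 1) * (Z + 1) := Nat.lt_succ_sqrt X
      have h5 : (Z + 1) * (Z + 1) ≤ nn q ^ 2 := by
        rw [sq]
        exact Nat.mul_le_mul k2 k2
      exact_mod_cast h4.le.trans h5
    have h4 : (X : ℝ) ^ (9 * δ) ≤ (m * nm q) ^ (ε / 2) := by
      calc (X : ℝ) ^ (9 * δ) ≤ ((nm q) ^ 2) ^ (9 * δ) :=
            Real.rpow_le_rpow hX0.le hXn (by positivity)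
        _ = (nm q) ^ (ε' / 2) := by
            rw [← Real.rpow_natCast, ← Real.rpow_mul hn0.le]
            congr 1
            rw [hδ]
            push_cast
            ring
        _ ≤ (m * nm q) ^ (ε' / 2) := Real.rpow_le_rpow hn0.le hnmn (by positivity)
        _ ≤ (m * nm q) ^ (ε / 2) := by
            refine Real.rpow_le_rpow_of_exponent_le hmn1 ?_
            have : ε' ≤ ε := min_le_left _ _
            linarith
    have e1 : bnd ε m (nm q) = (m * nm q) ^ (ε / 2) * bnd (ε / 2) m (nm q) := by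
      unfold bnd
      rw [← mul_assoc, ← Real.rpow_add hmn0]
      congr 2
      ring
    have hb0 : 0 ≤ bnd (ε / 2) m (nm q) := by unfold bnd; positivity
    have h5 : C1 * (C2 * (X : ℝ) ^ (9 * δ)) * bnd (ε / 2) m (nm q) ≤ CC * bnd ε m (nm q) := by
      rw [e1]
      calc C1 * (C2 * (X : ℝ) ^ (9 * δ)) * bnd (ε / 2) m (nm q) ≤
          C1 * (C2 * (m * nm q) ^ (ε / 2)) * bnd (ε / 2) m (nm q) := by gcongr
        _ = (C1 * C2) * ((m * nm q) ^ (ε / 2) * bnd (ε / 2) m (nm q)) := by ring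
        _ ≤ _ := by
            refine mul_le_mul_of_nonneg_right ?_ (by positivity)
            rw [hCC]
            linarith
    linarith
  refine ⟨(Finset.finite_toSet _).subset hsub, ?_⟩
  have h3 := Set.ncard_le_ncard hsub (Finset.finite_toSet _)
  rw [Set.ncard_coe_finset] at h3
  have h4 := h3.trans (card_union_le _ _)
  have h5 := sqrt_le hX (c := δ / 4) (by rw [hδ]; linarith)
  have e6 : (-(δ / 4) * cr X) = -(δ / 4) * cr X := rfl
  calc _ ≤ (((Id hC X).filter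
        (fun I : Ideal R => ¬ Nice (C2 * (X : ℝ) ^ (9 * δ)) (nn I))).card : ℝ) +
        ((Id hC Z).card : ℝ) := by exact_mod_cast h4
    _ ≤ C2 * X * Real.exp (-(δ / 4) * cr X) + C0 * (2 * (X * Real.exp (-(δ / 4) * cr X))) := by
        refine add_le_add (h2 X hX) ((card_Id hC _).trans ?_)
        exact mul_le_mul_of_nonneg_left (hZX.trans h5) hC0.le
    _ = (C2 + 2 * C0) * X * Real.exp (-(δ / 4) * cr X) := by ring
    _ ≤ _ := by
        refine mul_le_mul_of_nonneg_right (mul_le_mul_of_nonneg_right ?_ hX0.le)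
          (Real.exp_pos _).le
        rw [hCC]
        have : 0 ≤ C1 * C2 := by positivity
        linarith

end Pool.Agent.Y683.AA
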