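import Pool.Agent.Y683.AA.HTot

/-!
The sum over all Hecke characters of conductor of norm at most `X`.
-/

set_option autoImplicit false

open Finset

namespace Pool.Agent.Y683.AA

open Pool.Agent.W192.HK

variable {R : Subring ℂ} {ω : ℂ}

lemma sum_biUnion_le' {α β : Type*} [DecidableEq α] [DecidableEq β] (s : Finset α)
    (t : α → Finset β) (f : β → ℕ) : ∑ x ∈ s.biUnion t, f x ≤ ∑ a ∈ s, ∑ x ∈ t a, f x := by
  induction s using Finset.induction_on with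
  | empty => simp
  | insert a s ha ih =>
    rw [biUnion_insert, sum_insert ha]
    have h := sum_union_inter (s₁ := t a) (s₂ := s.biUnion t) (f := f)
    omega

theorem hk_finite (hb : H_BASIC) (hcls : H_CLS) (hfp : H_FP) (hR : QR R ω) {C0 : ℝ}
    (hC : IdCount R C0) (m X : ℕ) : (Hk R m X).Finite := by
  classical
  obtain ⟨H, hH1, hH⟩ := card_all hb hcls hfp hR
  have h1 : Hk R m X ⊆ ⋃ q ∈ Id hC X, {θ | HC (2 * m - 1) q θ} := by
    rintro θ ⟨q, hθ, hq⟩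
    rw [Set.mem_iUnion₂]
    exact ⟨q, (mem_Id hC).2 ⟨hθ.ne, hq⟩, hθ⟩
  refine Set.Finite.subset (Set.Finite.biUnion (Finset.finite_toSet _) fun q hq => ?_) h1
  exact (hH (2 * m - 1) q ((mem_Id hC).1 hq).1).2.1

theorem hecke_sum (hb : H_BASIC) (hcls : H_CLS) (hfp : H_FP) (hdivr : H_DIVR) (hR : QR R ω)
    {C0 : ℝ} (hC : IdCount R C0) {K : ℝ} {o : ℕ → (Ideal R → ℂ) → ℕ} (ho : GHk R K o) {ε : ℝ}
    (hε : 0 < ε) :
    ∃ C c : ℝ, 0 < C ∧ 0 < c ∧ ∀ X m : ℕ, 1 ≤ X → 1 ≤ m → (m : ℝ) ≤ (X : ℝ) ^ (1 - ε) →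
      ((∑ᶠ θ ∈ Hk R m X, o m θ : ℕ) : ℝ) ≤
        C * (X : ℝ) ^ 2 * (1 + Real.log X) * Real.exp (-c * cr X) := by
  classical
  have hC0 := hC.pos
  set ε' : ℝ := min ε (1 / 3) with hε'
  have hε0 : 0 < ε' := lt_min hε (by norm_num)
  have hε1 : ε' ≤ 1 / 3 := min_le_right _ _
  set δ : ℝ := ε' / 80 with hδ
  have hδ0 : 0 < δ := by positivity
  obtain ⟨C1, hC1, h1⟩ := sum_one hb hcls hfp hR ho hε0 hε1 hδ0
  obtain ⟨C2, hC2, h2⟩ := excI hb hdivr hR hC hδ0 (by rw [hδ]; linarith)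
  refine ⟨2 * (C0 * C1 * C2) + C1 * C2, δ / 4, by positivity, by positivity,
    fun X m hX hm hmX => ?_⟩
  have hX1 : (1 : ℝ) ≤ X := by exact_mod_cast hX
  have hX0 : (0 : ℝ) < X := by linarith
  have hlog : 0 ≤ Real.log X := Real.log_nonneg hX1
  have hmX' : (m : ℝ) ≤ (X : ℝ) ^ (1 - ε') :=
    hmX.trans (Real.rpow_le_rpow_of_exponent_le hX1 (by
      have : ε' ≤ ε := min_le_left _ _
      linarith))
  have hfin := hk_finite hb hcls hfp hR hC m X
  have hq := fun q (h : q ∈ Id hC X) => h1 m X q hm hmX' ((mem_Id hC).1 h).1 ((mem_Id hC).1 h).2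
  obtain ⟨H, -, hH⟩ := card_all hb hcls hfp hR
  -- the finsets
  set t : Ideal R → Finset (Ideal R → ℂ) := fun q =>
    if h : {θ | HC (2 * m - 1) q θ}.Finite then h.toFinset else ∅ with ht
  have hts : ∀ q ∈ Id hC X, ∑ θ ∈ t q, o m θ = ∑ᶠ θ ∈ {θ | HC (2 * m - 1) q θ}, o m θ := by
    intro q h
    rw [finsum_mem_eq_finite_toFinset_sum _ (hq q h).1, ht]
    simp only [(hq q h).1, dite_true]
  have hle : (∑ᶠ θ ∈ Hk R m X, o m θ : ℕ) ≤
      ∑ q ∈ Id hC X, ∑ᶠ θ ∈ {θ | HC (2 * m - 1) q θ}, o m θ := by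
    rw [finsum_mem_eq_finite_toFinset_sum _ hfin]
    calc ∑ θ ∈ hfin.toFinset, o m θ ≤ ∑ θ ∈ (Id hC X).biUnion t, o m θ := by
          refine sum_le_sum_of_subset fun θ hθ => ?_
          rw [Set.Finite.mem_toFinset] at hθ
          obtain ⟨q, h3, h4⟩ := hθ
          have h5 : q ∈ Id hC X := (mem_Id hC).2 ⟨h3.ne, h4⟩
          rw [mem_biUnion]
          refine ⟨q, h5, ?_⟩
          rw [ht]
          simp only [(hq q h5).1, dite_true, Set.Finite.mem_toFinset]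
          exact h3
      _ ≤ ∑ q ∈ Id hC X, ∑ θ ∈ t q, o m θ := sum_biUnion_le' _ _ _
      _ = _ := sum_congr rfl hts
  refine le_trans ((Nat.cast_le (α := ℝ)).2 hle) ?_
  rw [Nat.cast_sum]
  set Y : ℝ := C2 * (X : ℝ) ^ (9 * δ) with hY
  rw [← sum_filter_add_sum_filter_not (Id hC X) (fun I : Ideal R => ¬ Nice Y (nn I))]
  have hbad : ∑ q ∈ (Id hC X).filter (fun I : Ideal R => ¬ Nice Y (nn I)),
      ((∑ᶠ θ ∈ {θ | HC (2 * m - 1) q θ}, o m θ : ℕ) : ℝ) ≤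
      (C2 * X * Real.exp (-(δ / 4) * cr X)) * (C1 * X * (1 + Real.log X)) := by
    calc ∑ q ∈ (Id hC X).filter (fun I : Ideal R => ¬ Nice Y (nn I)),
        ((∑ᶠ θ ∈ {θ | HC (2 * m - 1) q θ}, o m θ : ℕ) : ℝ) ≤
        ∑ q ∈ (Id hC X).filter (fun I : Ideal R => ¬ Nice Y (nn I)),
          C1 * X * (1 + Real.log X) := by
          refine sum_le_sum fun q h => ?_
          exact (hq q (mem_filter.1 h).1).2.1
      _ = (((Id hC X).filter (fun I : Ideal R => ¬ Nice Y (nn I))).card : ℝ) *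
          (C1 * X * (1 + Real.log X)) := by rw [sum_const, nsmul_eq_mul]
      _ ≤ _ := mul_le_mul_of_nonneg_right (h2 X hX) (by positivity)
  have hgood : ∑ q ∈ (Id hC X).filter (fun I : Ideal R => ¬ ¬ Nice Y (nn I)),
      ((∑ᶠ θ ∈ {θ | HC (2 * m - 1) q θ}, o m θ : ℕ) : ℝ) ≤
      (C0 * X) * (C1 * Y * (X : ℝ) ^ (1 - ε' / 4 + δ) * (1 + Real.log X)) := by
    calc ∑ q ∈ (Id hC X).filter (fun I : Ideal R => ¬ ¬ Nice Y (nn I)),
        ((∑ᶠ θ ∈ {θ | HC (2 * m - 1) q θ}, o m θ : ℕ) : ℝ) ≤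
        ∑ q ∈ (Id hC X).filter (fun I : Ideal R => ¬ ¬ Nice Y (nn I)),
          C1 * Y * (X : ℝ) ^ (1 - ε' / 4 + δ) * (1 + Real.log X) := by
          refine sum_le_sum fun q h => ?_
          rw [mem_filter] at h
          exact (hq q h.1).2.2 Y (by positivity) (not_not.1 h.2)
      _ = (((Id hC X).filter (fun I : Ideal R => ¬ ¬ Nice Y (nn I))).card : ℝ) *
          (C1 * Y * (X : ℝ) ^ (1 - ε' / 4 + δ) * (1 + Real.log X)) := by
          rw [sum_const, nsmul_eq_mul]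
      _ ≤ _ := by
          refine mul_le_mul_of_nonneg_right ?_ (by positivity)
          refine le_trans ?_ (card_Id hC X)
          exact_mod_cast card_filter_le _ _
  have hpow : (C0 * X) * (C1 * Y * (X : ℝ) ^ (1 - ε' / 4 + δ) * (1 + Real.log X)) ≤
      2 * (C0 * C1 * C2) * (X : ℝ) ^ 2 * (1 + Real.log X) * Real.exp (-(δ / 4) * cr X) := by
    have e1 : (X : ℝ) ^ (9 * δ) * (X : ℝ) ^ (1 - ε' / 4 + δ) = X * (X : ℝ) ^ (-(ε' / 8)) := by
      rw [← Real.rpow_add hX0]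
      nth_rewrite 2 [← Real.rpow_one (X : ℝ)]
      rw [← Real.rpow_add hX0]
      congr 1
      rw [hδ]
      ring
    have e2 : (X : ℝ) ^ (-(ε' / 8)) ≤ 2 * Real.exp (-(δ / 4) * cr X) := by
      have hu0 := cr_nonneg X
      have e3 : (X : ℝ) ^ (-(ε' / 8)) = Real.exp (-(ε' / 8) * cr X ^ 3) := by
        rw [cr_pow, Real.rpow_def_of_pos hX0, mul_comm]
      have h9 : cr X ≤ 1 + cr X ^ 3 := by
        rcases le_or_gt (cr X) 1 with h | h
        · have : 0 ≤ cr X ^ 3 := by positivity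
          linarith
        · nlinarith [sq_nonneg (cr X), mul_pos (sub_pos.2 h) (sub_pos.2 h)]
      have h10 : Real.exp (-(ε' / 8) * cr X ^ 3) ≤ Real.exp (1 / 2 + -(δ / 4) * cr X) := by
        refine Real.exp_le_exp.2 ?_
        have h11 : (ε' / 8) * cr X ≤ (ε' / 8) * (1 + cr X ^ 3) :=
          mul_le_mul_of_nonneg_left h9 (by positivity)
        have h12 : (δ / 4) * cr X ≤ (ε' / 8) * cr X :=
          mul_le_mul_of_nonneg_right (by rw [hδ]; linarith) hu0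
        nlinarith
      rw [e3]
      refine h10.trans ?_
      rw [Real.exp_add]
      refine mul_le_mul_of_nonneg_right ?_ (Real.exp_pos _).le
      have h11 := Real.exp_one_lt_d9
      have h12 : Real.exp (1 / 2 : ℝ) ^ 2 = Real.exp 1 := by
        rw [← Real.exp_nat_mul]; norm_num
      nlinarith [Real.exp_pos (1 / 2 : ℝ)]
    calc (C0 * X) * (C1 * Y * (X : ℝ) ^ (1 - ε' / 4 + δ) * (1 + Real.log X)) =
        (C0 * C1 * C2) * X * (1 + Real.log X) *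
          ((X : ℝ) ^ (9 * δ) * (X : ℝ) ^ (1 - ε' / 4 + δ)) := by rw [hY]; ring
      _ = (C0 * C1 * C2) * (X : ℝ) ^ 2 * (1 + Real.log X) * (X : ℝ) ^ (-(ε' / 8)) := by
          rw [e1]; ring
      _ ≤ (C0 * C1 * C2) * (X : ℝ) ^ 2 * (1 + Real.log X) *
          (2 * Real.exp (-(δ / 4) * cr X)) := mul_le_mul_of_nonneg_left e2 (by positivity)
      _ = _ := by ring
  calc _ ≤ (C2 * X * Real.exp (-(δ / 4) * cr X)) * (C1 * X * (1 + Real.log X)) +
      2 * (C0 * C1 * C2) * (X : ℝ) ^ 2 * (1 + Real.log X) * Real.exp (-(δ / 4) * cr X) :=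
        add_le_add hbad (hgood.trans hpow)
    _ = _ := by ring

end Pool.Agent.Y683.AA
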