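import Pool.Agent.Y683.AA.HExc
import Pool.Agent.Y683.AA.Avg

/-!
The sum over all Hecke characters of conductor of norm at most `X` of a function that vanishes at the
characters whose finite part has large order.
-/

set_option autoImplicit false

open Finset

namespace Pool.Agent.Y683.AA

open Pool.Agent.W192.HK

variable {R : Subring ℂ} {ω : ℂ}

/-- the hypotheses on the orders of vanishing -/
structure GHk (R : Subring ℂ) (K : ℝ) (o : ℕ → (Ideal R → ℂ) → ℕ) : Prop where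
  pos : 0 < K
  bd : ∀ (m : ℕ) (q : Ideal R) (θ : Ideal R → ℂ), 1 ≤ m → HC (2 * m - 1) q θ →
    (o m θ : ℝ) ≤ K * (1 + Real.log (nm q) + Real.log m)
  nv : ∀ ε : ℝ, 0 < ε → ∃ N0 : ℝ, ∀ (m : ℕ) (q : Ideal R) (θ : Ideal R → ℂ), 1 ≤ m →
    HC (2 * m - 1) q θ → N0 ≤ nm q → ∀ d : ℕ,
      (∀ e : ℕ, 0 < e → (∀ α : R, IsCoprime (sp α) q → fp (2 * m - 1) θ α ^ e = 1) → d ≤ e) →
      (nm q) ^ (2 / 3 + ε) ≤ d → m * (nm q) ^ (1 + ε) ≤ (d : ℝ) ^ 2 → o m θ = 0

/-- the primitive Hecke characters of type `(2 m - 1, 0)` and conductor of norm at most `X` -/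
def Hk (R : Subring ℂ) (m X : ℕ) : Set (Ideal R → ℂ) :=
  {θ | ∃ q : Ideal R, HC (2 * m - 1) q θ ∧ nn q ≤ X}

/-- characters of conductor `q` -/
theorem card_all (hb : H_BASIC) (hcls : H_CLS) (hfp : H_FP) (hR : QR R ω) :
    ∃ H : ℕ, 1 ≤ H ∧ ∀ (n : ℕ) (q : Ideal R), q ≠ ⊥ →
      (∀ D : ℝ, 0 ≤ D → ∀ T : Finset ((R ⧸ q)ˣ →* ℂˣ),
        (∀ F : (R ⧸ q)ˣ →* ℂˣ, F ∈ T ↔ (orderOf F : ℝ) ≤ D) →
        {θ | HC n q θ ∧ ∃ F ∈ T, IsFin n q θ F}.Finite ∧
        Set.ncard {θ | HC n q θ ∧ ∃ F ∈ T, IsFin n q θ F} ≤ T.card * H) ∧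
      {θ | HC n q θ}.Finite ∧ Set.ncard {θ | HC n q θ} ≤ nn q * H := by
  obtain ⟨h, hh1, hpr, hsys⟩ := hcls R ω hR
  refine ⟨h ^ h, Nat.one_le_pow _ _ hh1, fun n q hq => ?_⟩
  obtain ⟨s, hh, μ, T0, hs, hS⟩ := hsys q hq
  have key : ∀ T : Finset ((R ⧸ q)ˣ →* ℂˣ),
      {θ | HC n q θ ∧ ∃ F ∈ T, IsFin n q θ F}.Finite ∧
        Set.ncard {θ | HC n q θ ∧ ∃ F ∈ T, IsFin n q θ F} ≤ T.card * h ^ h := by
    intro T
    have h1 := card_fin hb hR (n := n) hq hS.cs hS.cp hh1 hpr T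
    rw [hs] at h1
    exact h1
  refine ⟨fun D _ T _ => key T, ?_⟩
  obtain ⟨b1, -⟩ := hb R ω hR
  have hfin : Finite (R ⧸ q) := b1 q hq
  obtain ⟨T, hT1, hT2, -⟩ := card_dual_small hb hR hq (D := (nn q : ℝ)) (Nat.cast_nonneg _)
  have hall : {θ | HC n q θ} ⊆ {θ | HC n q θ ∧ ∃ F ∈ T, IsFin n q θ F} := by
    intro θ hθ
    obtain ⟨F, hF⟩ := exists_fin hfp hR hθ
    refine ⟨hθ, F, (hT1 F).2 ?_, hF⟩
    have hG : Finite (R ⧸ q)ˣ := inferInstance
    have h1 : orderOf F ∣ Monoid.exponent (R ⧸ q)ˣ := by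
      refine orderOf_dvd_of_pow_eq_one ?_
      ext u
      rw [MonoidHom.pow_apply, ← map_pow, Monoid.pow_exponent_eq_one, map_one]
      rfl
    have h2 : orderOf F ≤ Monoid.exponent (R ⧸ q)ˣ :=
      Nat.le_of_dvd (Nat.pos_of_ne_zero Monoid.exponent_ne_zero_of_finite) h1
    have h3 : Monoid.exponent (R ⧸ q)ˣ ≤ nn q := by
      have h4 : Monoid.exponent (R ⧸ q)ˣ ≤ Nat.card (R ⧸ q)ˣ :=
        Nat.le_of_dvd Nat.card_pos Group.exponent_dvd_nat_card
      refine h4.trans ?_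
      unfold nn
      exact Nat.card_le_card_of_injective (fun u : (R ⧸ q)ˣ => (u : R ⧸ q)) Units.val_injective
    exact_mod_cast h2.trans h3
  obtain ⟨k1, k2⟩ := key T
  refine ⟨k1.subset hall, (Set.ncard_le_ncard hall k1).trans (k2.trans ?_)⟩
  exact Nat.mul_le_mul_right _ hT2

/-- the sum over the characters of conductor `q` -/
theorem sum_one (hb : H_BASIC) (hcls : H_CLS) (hfp : H_FP) (hR : QR R ω) {K : ℝ}
    {o : ℕ → (Ideal R → ℂ) → ℕ} (ho : GHk R K o) {ε : ℝ} (hε : 0 < ε) (hε1 : ε ≤ 1 / 3)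
    {δ : ℝ} (hδ : 0 < δ) :
    ∃ C : ℝ, 0 < C ∧ ∀ (m X : ℕ) (q : Ideal R), 1 ≤ m → (m : ℝ) ≤ (X : ℝ) ^ (1 - ε) → q ≠ ⊥ →
      nn q ≤ X → {θ | HC (2 * m - 1) q θ}.Finite ∧
      (((∑ᶠ θ ∈ {θ | HC (2 * m - 1) q θ}, o m θ : ℕ) : ℝ) ≤ C * X * (1 + Real.log X)) ∧
      ∀ Y : ℝ, 0 ≤ Y → Nice Y (nn q) →
        ((∑ᶠ θ ∈ {θ | HC (2 * m - 1) q θ}, o m θ : ℕ) : ℝ) ≤
          C * Y * (X : ℝ) ^ (1 - ε / 4 + δ) * (1 + Real.log X) := by
  classical
  have hK := ho.pos
  obtain ⟨H, hH1, hH⟩ := card_all hb hcls hfp hR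
  obtain ⟨N0, hN0⟩ := ho.nv (ε / 2) (by positivity)
  obtain ⟨C1, hC1, ht, -⟩ := Pool.Agent.W216.CY.t_div δ hδ
  have hH0 : (1 : ℝ) ≤ H := by exact_mod_cast hH1
  refine ⟨2 * K * H * (1 + (|N0| + 2) * C1), by positivity, fun m X q hm hmX hq hqX => ?_⟩
  obtain ⟨hsm, hfin, hall⟩ := hH (2 * m - 1) q hq
  have hq1 := nn_pos hb hR hq
  have hX1 : (1 : ℝ) ≤ X := by exact_mod_cast hq1.trans hqX
  have hX0 : (0 : ℝ) < X := by linarith
  have hlog : 0 ≤ Real.log X := Real.log_nonneg hX1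
  have hm1 : (1 : ℝ) ≤ m := by exact_mod_cast hm
  have hmX' : (m : ℝ) ≤ X := hmX.trans (by
    nth_rewrite 2 [← Real.rpow_one (X : ℝ)]
    exact Real.rpow_le_rpow_of_exponent_le hX1 (by linarith))
  have hnq : nm q ≤ X := by rw [nm_eq]; exact_mod_cast hqX
  have hnq1 : 1 ≤ nm q := by rw [nm_eq]; exact_mod_cast hq1
  have hterm : ∀ θ : Ideal R → ℂ, HC (2 * m - 1) q θ →
      (o m θ : ℝ) ≤ 2 * K * (1 + Real.log X) := by
    intro θ hθ
    refine (ho.bd m q θ hm hθ).trans ?_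
    have h1 : Real.log (nm q) ≤ Real.log X := Real.log_le_log (by linarith) hnq
    have h2 : Real.log m ≤ Real.log X := Real.log_le_log (by linarith) hmX'
    nlinarith
  have hbound : ∀ (B : ℝ) (S : Set (Ideal R → ℂ)), S.Finite → (S.ncard : ℝ) ≤ B →
      (∀ θ, HC (2 * m - 1) q θ → o m θ ≠ 0 → θ ∈ S) →
      ((∑ᶠ θ ∈ {θ | HC (2 * m - 1) q θ}, o m θ : ℕ) : ℝ) ≤ B * (2 * K * (1 + Real.log X)) := by
    intro B S hSf hSB hS
    rw [finsum_mem_eq_finite_toFinset_sum _ hfin, ← sum_filter_ne_zero]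
    push_cast
    calc ∑ θ ∈ hfin.toFinset.filter (fun θ => o m θ ≠ 0), (o m θ : ℝ) ≤
        ∑ θ ∈ hfin.toFinset.filter (fun θ => o m θ ≠ 0), 2 * K * (1 + Real.log X) := by
          refine sum_le_sum fun θ hθ => ?_
          rw [mem_filter, Set.Finite.mem_toFinset] at hθ
          exact hterm θ hθ.1
      _ = ((hfin.toFinset.filter (fun θ => o m θ ≠ 0)).card : ℝ) *
          (2 * K * (1 + Real.log X)) := by rw [sum_const, nsmul_eq_mul]
      _ ≤ _ := by
          refine mul_le_mul_of_nonneg_right ?_ (by positivity)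
          refine le_trans ?_ hSB
          rw [← Set.ncard_coe_finset]
          refine (Nat.cast_le (α := ℝ)).2 (Set.ncard_le_ncard (fun θ hθ => ?_) hSf)
          rw [mem_coe, mem_filter, Set.Finite.mem_toFinset] at hθ
          exact hS θ hθ.1 hθ.2
  refine ⟨hfin, ?_, fun Y hY hnice => ?_⟩
  · refine (hbound (X * H) _ hfin ?_ (fun θ hθ _ => hθ)).trans ?_
    · refine le_trans (by exact_mod_cast hall : (Set.ncard {θ | HC (2 * m - 1) q θ} : ℝ) ≤
        ((nn q * H : ℕ) : ℝ)) ?_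
      push_cast
      have : (nn q : ℝ) ≤ X := by exact_mod_cast hqX
      gcongr
    · have h1 : (X : ℝ) * H * (2 * K * (1 + Real.log X)) = 2 * K * H * 1 * X * (1 + Real.log X) := by
        ring
      rw [h1]
      have h2 : (1 : ℝ) ≤ 1 + (|N0| + 2) * C1 := by
        have : 0 ≤ (|N0| + 2) * C1 := by positivity
        linarith
      gcongr
  · -- the bound for the orders
    set D : ℝ := (|N0| + 2) * (X : ℝ) ^ (1 - ε / 4) with hD
    have hD0 : 0 ≤ D := by positivity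
    obtain ⟨T, hT1, hT2, hT3⟩ := card_dual_small hb hR hq hD0
    obtain ⟨k1, k2⟩ := hsm D hD0 T hT1
    have hXe : (1 : ℝ) ≤ (X : ℝ) ^ (1 - ε / 4) := Real.one_le_rpow hX1 (by linarith)
    obtain ⟨b1, -⟩ := hb R ω hR
    have hfinq : Finite (R ⧸ q) := b1 q hq
    have hG : Finite (R ⧸ q)ˣ := inferInstance
    have hsmall : ∀ θ, HC (2 * m - 1) q θ → o m θ ≠ 0 →
        θ ∈ {θ | HC (2 * m - 1) q θ ∧ ∃ F ∈ T, IsFin (2 * m - 1) q θ F} := by
      intro θ hθ hne
      obtain ⟨F, hF⟩ := exists_fin hfp hR hθ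
      refine ⟨hθ, F, (hT1 F).2 ?_, hF⟩
      by_contra hlt
      push Not at hlt
      apply hne
      have hFle : orderOf F ≤ nn q := by
        have h1 : orderOf F ∣ Monoid.exponent (R ⧸ q)ˣ := by
          refine orderOf_dvd_of_pow_eq_one ?_
          ext u
          rw [MonoidHom.pow_apply, ← map_pow, Monoid.pow_exponent_eq_one, map_one]
          rfl
        have h2 : orderOf F ≤ Monoid.exponent (R ⧸ q)ˣ :=
          Nat.le_of_dvd (Nat.pos_of_ne_zero Monoid.exponent_ne_zero_of_finite) h1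
        have h4 : Monoid.exponent (R ⧸ q)ˣ ≤ Nat.card (R ⧸ q)ˣ :=
          Nat.le_of_dvd Nat.card_pos Group.exponent_dvd_nat_card
        refine h2.trans (h4.trans ?_)
        unfold nn
        exact Nat.card_le_card_of_injective (fun u : (R ⧸ q)ˣ => (u : R ⧸ q)) Units.val_injective
      have hN0q : N0 ≤ nm q := by
        have h1 : (orderOf F : ℝ) ≤ nm q := by rw [nm_eq]; exact_mod_cast hFle
        have h2 : |N0| ≤ D := by
          rw [hD]
          have : |N0| * 1 ≤ (|N0| + 2) * (X : ℝ) ^ (1 - ε / 4) :=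
            mul_le_mul (by linarith [abs_nonneg N0]) hXe zero_le_one (by positivity)
          linarith
        linarith [le_abs_self N0]
      refine hN0 m q θ hm hθ hN0q (orderOf F) ?_ ?_ ?_
      · intro e he h1
        refine orderOf_le_of_pow_eq_one he ?_
        ext u
        rw [MonoidHom.pow_apply, MonoidHom.one_apply, Units.val_pow_eq_pow_val, Units.val_one]
        obtain ⟨α, hα⟩ := Ideal.Quotient.mk_surjective (u : R ⧸ q)
        have hcop : IsCoprime (sp α) q := by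
          rw [← isUnit_iff_cop, hα]
          exact u.isUnit
        by_cases h0 : α = 0
        · have hqt : q = ⊤ := by
            by_contra h
            exact Pool.Agent.Y690.ne_zero_of_cop h hcop h0
          have h2 : Ideal.Quotient.mk q (1 : R) = u := by
            have : Subsingleton (R ⧸ q) := by
              rw [hqt]
              exact Ideal.Quotient.subsingleton_iff.2 rfl
            exact Subsingleton.elim _ _
          have hc1 : IsCoprime (sp (1 : R)) q := by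
            rw [← isUnit_iff_cop, h2]
            exact u.isUnit
          rw [hF u 1 h2 one_ne_zero]
          exact h1 1 hc1
        · rw [hF u α hα h0]
          exact h1 α hcop
      · refine le_trans ?_ hlt.le
        rw [hD]
        calc (nm q) ^ (2 / 3 + ε / 2) ≤ (X : ℝ) ^ (2 / 3 + ε / 2) :=
              Real.rpow_le_rpow (by linarith) hnq (by positivity)
          _ ≤ (X : ℝ) ^ (1 - ε / 4) := Real.rpow_le_rpow_of_exponent_le hX1 (by linarith)
          _ = 1 * (X : ℝ) ^ (1 - ε / 4) := (one_mul _).symm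
          _ ≤ _ := by
              refine mul_le_mul_of_nonneg_right ?_ (by positivity)
              linarith [abs_nonneg N0]
      · calc (m : ℝ) * (nm q) ^ (1 + ε / 2) ≤ (X : ℝ) ^ (1 - ε) * (X : ℝ) ^ (1 + ε / 2) := by
              refine mul_le_mul hmX ?_ (by positivity) (by positivity)
              exact Real.rpow_le_rpow (by linarith) hnq (by positivity)
          _ = ((X : ℝ) ^ (1 - ε / 4)) ^ 2 := by
              rw [← Real.rpow_add hX0, ← Real.rpow_natCast, ← Real.rpow_mul hX0.le]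
              congr 1
              push_cast
              ring
          _ ≤ D ^ 2 := by
              refine pow_le_pow_left₀ (by positivity) ?_ 2
              rw [hD]
              have : 1 * (X : ℝ) ^ (1 - ε / 4) ≤ (|N0| + 2) * (X : ℝ) ^ (1 - ε / 4) :=
                mul_le_mul_of_nonneg_right (by linarith [abs_nonneg N0]) (by positivity)
              linarith
          _ ≤ (orderOf F : ℝ) ^ 2 := pow_le_pow_left₀ hD0 hlt.le 2
    -- the size of `T`
    obtain ⟨S, hS1, hS2⟩ := hnice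
    have hlam1 := lcm_dvd_exp hb hR hq hS1
    have hlam0 : 0 < Monoid.exponent (R ⧸ q)ˣ :=
      Nat.pos_of_ne_zero Monoid.exponent_ne_zero_of_finite
    have hlam0' : (0 : ℝ) < (Monoid.exponent (R ⧸ q)ˣ : ℕ) := by exact_mod_cast hlam0
    have hlam2 : ((S.lcm (fun p => p - 1) : ℕ) : ℝ) ≤ (Monoid.exponent (R ⧸ q)ˣ : ℕ) := by
      exact_mod_cast Nat.le_of_dvd hlam0 hlam1
    have hlamX : (Monoid.exponent (R ⧸ q)ˣ : ℕ) ≤ X := by
      have h4 : Monoid.exponent (R ⧸ q)ˣ ≤ Nat.card (R ⧸ q)ˣ :=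
        Nat.le_of_dvd Nat.card_pos Group.exponent_dvd_nat_card
      refine h4.trans (le_trans ?_ hqX)
      unfold nn
      exact Nat.card_le_card_of_injective (fun u : (R ⧸ q)ˣ => (u : R ⧸ q)) Units.val_injective
    have hτ : (((Monoid.exponent (R ⧸ q)ˣ).divisors.card : ℕ) : ℝ) ≤ C1 * (X : ℝ) ^ δ := by
      refine (ht _ hlam0).trans ?_
      have : ((Monoid.exponent (R ⧸ q)ˣ : ℕ) : ℝ) ≤ X := by exact_mod_cast hlamX
      gcongr
    have hTc : (T.card : ℝ) ≤ D * (C1 * (X : ℝ) ^ δ) * Y := by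
      have h1 : (T.card : ℝ) * (Monoid.exponent (R ⧸ q)ˣ : ℕ) ≤
          (D * (C1 * (X : ℝ) ^ δ) * Y) * (Monoid.exponent (R ⧸ q)ˣ : ℕ) := by
        calc (T.card : ℝ) * (Monoid.exponent (R ⧸ q)ˣ : ℕ) ≤
            D * (((Monoid.exponent (R ⧸ q)ˣ).divisors.card : ℕ) : ℝ) * nn q := hT3
          _ ≤ D * (C1 * (X : ℝ) ^ δ) * (Y * (Monoid.exponent (R ⧸ q)ˣ : ℕ)) := by
              refine mul_le_mul (mul_le_mul_of_nonneg_left hτ hD0)
                (hS2.trans (mul_le_mul_of_nonneg_left hlam2 hY)) (Nat.cast_nonneg _)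
                (by positivity)
          _ = _ := by ring
      exact le_of_mul_le_mul_right h1 hlam0'
    have hSn : (Set.ncard {θ | HC (2 * m - 1) q θ ∧ ∃ F ∈ T, IsFin (2 * m - 1) q θ F} : ℝ) ≤
        D * (C1 * (X : ℝ) ^ δ) * Y * H := by
      refine le_trans (by exact_mod_cast k2 : _ ≤ ((T.card * H : ℕ) : ℝ)) ?_
      push_cast
      exact mul_le_mul_of_nonneg_right hTc (by positivity)
    refine (hbound _ _ k1 hSn hsmall).trans ?_
    have e1 : (X : ℝ) ^ (1 - ε / 4 + δ) = (X : ℝ) ^ (1 - ε / 4) * (X : ℝ) ^ δ :=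
      Real.rpow_add hX0 _ _
    have e2 : D * (C1 * (X : ℝ) ^ δ) * Y * H * (2 * K * (1 + Real.log X)) =
        2 * K * H * ((|N0| + 2) * C1) * Y * (X : ℝ) ^ (1 - ε / 4 + δ) * (1 + Real.log X) := by
      rw [e1, hD]
      ring
    rw [e2]
    have h2 : (|N0| + 2) * C1 ≤ 1 + (|N0| + 2) * C1 := by linarith
    gcongr

end Pool.Agent.Y683.AA
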