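import Pool.Agent.Y683.AA.Avg
import Pool.Agent.Y683.NF.Main

/-!
The average order of vanishing of the Dirichlet twists of a newform of even weight.
-/

set_option autoImplicit false

namespace Pool.Agent.Y683.AA

open Complex Filter Topology
open UpperHalfPlane hiding I
open scoped MatrixGroups
open CongruenceSubgroup
open Pool.Agent.Y683.NF
open Pool.Agent.TH940 (tot GH)
open Pool.Agent.W192.CY

/-- the data of the twisted functions -/
theorem data {m : ℕ} (hm : 1 ≤ m) {N : ℕ} [NeZero N] {η : DirichletCharacter ℂ N}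
    {f : CuspForm (Gamma1 N : Subgroup (GL (Fin 2) ℝ)) (2 * m : ℤ)} {w : ℂ}
    (hf : NNewf m N η f w) :
    ∃ (K : ℝ) (L : (q : ℕ) → DirichletCharacter ℂ q → ℂ → ℂ),
      (∀ (q : ℕ) (χ : DirichletCharacter ℂ q), 1 ≤ q → Nat.Coprime q N → χ.IsPrimitive →
        Differentiable ℂ (L q χ) ∧ analyticOrderAt (L q χ) m ≠ ⊤ ∧
        ∀ s : ℂ, (m : ℝ) + 1 / 2 < s.re →
          HasProd (fun p : Nat.Primes => (1 - χ ((p : ℕ) : ZMod q) * cf f p *
            ((p : ℕ) : ℂ) ^ (-s) + χ ((p : ℕ) : ZMod q) ^ 2 * η ((p : ℕ) : ZMod N) *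
              ((p : ℕ) : ℂ) ^ (2 * (m : ℂ) - 1 - 2 * s))⁻¹) (L q χ s)) ∧
      (∀ ε : ℝ, 0 < ε → ∃ q₀ : ℕ, ∀ q : ℕ, q₀ ≤ q → Nat.Coprime q N →
        ∀ χ : DirichletCharacter ℂ q, χ.IsPrimitive → (q : ℝ) ^ (3 / 4 + ε) ≤ orderOf χ →
          L q χ m ≠ 0) ∧
      GH N K (fun q χ => analyticOrderNatAt (L q χ) m) ∧
      (∀ q : ℕ, 1 ≤ q → Nat.Coprime q N → analyticOrderAt (fun s : ℂ =>
        ∏ᶠ χ : DirichletCharacter ℂ q, L χ.conductor χ.primitiveCharacter s) m =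
          ((tot (fun q χ => analyticOrderNatAt (L q χ) m) q : ℕ) : ℕ∞)) := by
  classical
  obtain ⟨K, L, hK, hL, hnv⟩ := pack hm hf
  have han : ∀ (q : ℕ) (χ : DirichletCharacter ℂ q), 1 ≤ q → Nat.Coprime q N → χ.IsPrimitive →
      ∀ s : ℂ, AnalyticAt ℂ (L q χ) s := fun q χ h1 h2 h3 s => (hL q χ h1 h2 h3).1.analyticAt s
  have htop : ∀ (q : ℕ) (χ : DirichletCharacter ℂ q), 1 ≤ q → Nat.Coprime q N → χ.IsPrimitive →
      ∀ s : ℂ, analyticOrderAt (L q χ) s ≠ ⊤ := by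
    intro q χ h1 h2 h3 s
    exact order_ne_top (hL q χ h1 h2 h3).1 (hL q χ h1 h2 h3).2.2.1 s
  have hGH : GH N K (fun q χ => analyticOrderNatAt (L q χ) m) := by
    refine ⟨hK, fun q χ h1 h2 h3 => (hL q χ h1 h2 h3).2.2.2, fun δ hδ => ?_⟩
    obtain ⟨q0, hq0⟩ := hnv δ hδ
    refine ⟨q0, fun q h1 h2 h3 χ h4 h5 => ?_⟩
    have h6 := hq0 q h1 (by omega) h3 χ h4 h5
    unfold analyticOrderNatAt
    rw [(han q χ (by omega) h3 h4 _).analyticOrderAt_eq_zero.2 h6]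
    rfl
  have hord : ∀ q : ℕ, 1 ≤ q → Nat.Coprime q N → analyticOrderAt (fun s : ℂ =>
      ∏ᶠ χ : DirichletCharacter ℂ q, L χ.conductor χ.primitiveCharacter s) m =
      ((tot (fun q χ => analyticOrderNatAt (L q χ) m) q : ℕ) : ℕ∞) := by
    intro q hq hqM
    have : NeZero q := ⟨by omega⟩
    have hc : ∀ χ : DirichletCharacter ℂ q, 1 ≤ χ.conductor ∧ Nat.Coprime χ.conductor N ∧
        χ.primitiveCharacter.IsPrimitive := fun χ =>
      ⟨Nat.one_le_iff_ne_zero.2 χ.conductor_ne_zero,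
        Nat.Coprime.coprime_dvd_left χ.conductor_dvd_level hqM, χ.primitiveCharacter_isPrimitive⟩
    have e1 : (fun s : ℂ => ∏ᶠ χ : DirichletCharacter ℂ q,
        L χ.conductor χ.primitiveCharacter s) =
        fun s : ℂ => ∏ χ : DirichletCharacter ℂ q,
          L χ.conductor χ.primitiveCharacter s := by
      funext s
      exact finprod_eq_prod_of_fintype _
    rw [e1, order_prod Finset.univ
      (fun χ : DirichletCharacter ℂ q => L χ.conductor χ.primitiveCharacter) (m : ℂ)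
      (fun χ _ => han _ _ (hc χ).1 (hc χ).2.1 (hc χ).2.2 _)
      (fun χ _ => htop _ _ (hc χ).1 (hc χ).2.1 (hc χ).2.2 _)]
    unfold tot
    rw [finsum_eq_sum_of_fintype]
  refine ⟨K, L, fun q χ h1 h2 h3 => ⟨(hL q χ h1 h2 h3).1, htop q χ h1 h2 h3 _,
    (hL q χ h1 h2 h3).2.1⟩, ?_, hGH, hord⟩
  intro ε hε
  obtain ⟨q0, hq0⟩ := hnv ε hε
  refine ⟨max ⌈q0⌉₊ 1, fun q hq hqN χ hχ hord => ?_⟩
  exact hq0 q ((Nat.le_ceil q0).trans (by exact_mod_cast le_trans (le_max_left _ _) hq))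
    (le_trans (le_max_right _ _) hq) hqN χ hχ hord

/-- the bound for prime powers -/
theorem prime_powers {N : ℕ} {K : ℝ} {G : (q : ℕ) → DirichletCharacter ℂ q → ℕ} (hGH : GH N K G)
    {ε : ℝ} (hε : 0 < ε) : ∃ C : ℝ, 0 < C ∧ ∀ p : ℕ, p.Prime → ¬ p ∣ N → ∀ k : ℕ,
        (tot G (p ^ k) : ℝ) ≤ C * ((p : ℝ) ^ k) ^ (3 / 4 + ε) ∧
        (tot G (p ^ k) : ℝ) ≤ C * (p : ℝ) ^ (3 + ε) := by
  obtain ⟨C1, hC1, h1⟩ := Pool.Agent.TH940.tot_bound hGH hε
  obtain ⟨C2, hC2, h2⟩ := Pool.Agent.TH940.tot_bound2 hGH hε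
  obtain ⟨C3, hC3, h3⟩ : ∃ C3 : ℝ, 0 < C3 ∧ (¬ 2 ∣ N → ∀ k : ℕ, (tot G (2 ^ k) : ℝ) ≤ C3) := by
    by_cases h2N : 2 ∣ N
    · exact ⟨1, one_pos, fun h => absurd h2N h⟩
    · obtain ⟨C3, hC3, h3⟩ := tot_two hGH h2N
      exact ⟨C3, hC3, fun _ => h3⟩
  refine ⟨max C1 C2 + C3, by positivity, fun p hp hpN k => ?_⟩
  have hp1 : (1 : ℝ) ≤ p := by exact_mod_cast hp.one_lt.le
  have hp0 : (0 : ℝ) < p := by linarith
  have hm1 : 0 < max C1 C2 := lt_max_of_lt_left hC1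
  have i1 : 1 ≤ ((p : ℝ) ^ k) ^ (3 / 4 + ε) :=
    Real.one_le_rpow (one_le_pow₀ hp1) (by positivity)
  have i2 : 1 ≤ (p : ℝ) ^ (3 + ε) := Real.one_le_rpow hp1 (by positivity)
  by_cases hp2 : p = 2
  · subst hp2
    have h4 := h3 hpN k
    constructor
    · calc (tot G (2 ^ k) : ℝ) ≤ C3 * 1 := by rw [mul_one]; exact h4
        _ ≤ (max C1 C2 + C3) * (((2 : ℕ) : ℝ) ^ k) ^ (3 / 4 + ε) :=
          mul_le_mul (by linarith) i1 zero_le_one (by positivity)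
    · calc (tot G (2 ^ k) : ℝ) ≤ C3 * 1 := by rw [mul_one]; exact h4
        _ ≤ (max C1 C2 + C3) * ((2 : ℕ) : ℝ) ^ (3 + ε) :=
          mul_le_mul (by linarith) i2 zero_le_one (by positivity)
  · refine ⟨(h1 p hp hp2 hpN k).trans ?_, (h2 p hp hp2 hpN k).trans ?_⟩
    · refine mul_le_mul_of_nonneg_right ?_ (by positivity)
      have := le_max_left C1 C2
      linarith
    · refine mul_le_mul_of_nonneg_right ?_ (by positivity)
      have := le_max_right C1 C2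
      linarith

open Classical in
/-- **Main theorem** -/
theorem nf_main {m : ℕ} (hm : 1 ≤ m) {N : ℕ} [NeZero N] {η : DirichletCharacter ℂ N}
    {f : CuspForm (Gamma1 N : Subgroup (GL (Fin 2) ℝ)) (2 * m : ℤ)} {w : ℂ}
    (hf : NNewf m N η f w) :
    ∃ L : (q : ℕ) → DirichletCharacter ℂ q → ℂ → ℂ,
      (∀ (q : ℕ) (χ : DirichletCharacter ℂ q), 1 ≤ q → Nat.Coprime q N → χ.IsPrimitive →
        Differentiable ℂ (L q χ) ∧ analyticOrderAt (L q χ) m ≠ ⊤ ∧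
        ∀ s : ℂ, (m : ℝ) + 1 / 2 < s.re →
          HasProd (fun p : Nat.Primes => (1 - χ ((p : ℕ) : ZMod q) * cf f p *
            ((p : ℕ) : ℂ) ^ (-s) + χ ((p : ℕ) : ZMod q) ^ 2 * η ((p : ℕ) : ZMod N) *
              ((p : ℕ) : ℂ) ^ (2 * (m : ℂ) - 1 - 2 * s))⁻¹) (L q χ s)) ∧
      (∀ ε : ℝ, 0 < ε → ∃ q₀ : ℕ, ∀ q : ℕ, q₀ ≤ q → Nat.Coprime q N →
        ∀ χ : DirichletCharacter ℂ q, χ.IsPrimitive → (q : ℝ) ^ (3 / 4 + ε) ≤ orderOf χ →
          L q χ m ≠ 0) ∧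
      (∃ C c : ℝ, 0 < C ∧ 0 < c ∧ ∀ X : ℕ, 1 ≤ X →
        ((∑ᶠ x ∈ Prim N X, analyticOrderNatAt (L x.1 x.2) m : ℕ) : ℝ) ≤
          C * Real.exp (-c * (Real.log X) ^ ((1 : ℝ) / 3)) * (Prim N X).ncard) ∧
      (∀ q : ℕ, 1 ≤ q → Nat.Coprime q N → analyticOrderAt (fun s : ℂ =>
        ∏ᶠ χ : DirichletCharacter ℂ q, L χ.conductor χ.primitiveCharacter s) m ≠ ⊤) ∧
      ∀ ε : ℝ, 0 < ε → ∃ C c : ℝ, 0 < C ∧ 0 < c ∧
        (∀ X : ℕ, 1 ≤ X → (((Finset.Icc 1 X).filter (fun q : ℕ => Nat.Coprime q N ∧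
          C * (q : ℝ) ^ (3 / 4 + ε) < analyticOrderNatAt (fun s : ℂ =>
            ∏ᶠ χ : DirichletCharacter ℂ q, L χ.conductor χ.primitiveCharacter s) m)).card : ℝ) ≤
          C * X * Real.exp (-c * (Real.log X) ^ ((1 : ℝ) / 3))) ∧
        ∀ p : ℕ, p.Prime → ¬ p ∣ N → ∀ k : ℕ,
          (analyticOrderNatAt (fun s : ℂ => ∏ᶠ χ : DirichletCharacter ℂ (p ^ k),
            L χ.conductor χ.primitiveCharacter s) m : ℝ) ≤ C * ((p : ℝ) ^ k) ^ (3 / 4 + ε) ∧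
          (analyticOrderNatAt (fun s : ℂ => ∏ᶠ χ : DirichletCharacter ℂ (p ^ k),
            L χ.conductor χ.primitiveCharacter s) m : ℝ) ≤ C * (p : ℝ) ^ (3 + ε) := by
  obtain ⟨K, L, h1, h2, hGH, hord⟩ := data hm hf
  have hordn : ∀ q : ℕ, 1 ≤ q → Nat.Coprime q N → analyticOrderNatAt (fun s : ℂ =>
      ∏ᶠ χ : DirichletCharacter ℂ q, L χ.conductor χ.primitiveCharacter s) m =
      tot (fun q χ => analyticOrderNatAt (L q χ) m) q := by
    intro q hq hqN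
    have h := hord q hq hqN
    unfold analyticOrderNatAt at h ⊢
    rw [h]
    rfl
  refine ⟨L, h1, h2, average (Nat.one_le_iff_ne_zero.2 (NeZero.ne N)) hGH, fun q hq hqN => ?_,
    fun ε hε => ?_⟩
  · rw [hord q hq hqN]
    exact ENat.natCast_ne_top _
  · obtain ⟨C1, c, hC1, hc, h3⟩ := moduli hGH hε
    obtain ⟨C2, hC2, h4⟩ := prime_powers hGH hε
    refine ⟨max C1 C2, c, lt_max_of_lt_left hC1, hc, fun X hX => ?_, fun p hp hpN k => ?_⟩
    · have hX0 : (0 : ℝ) ≤ X := Nat.cast_nonneg _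
      have h5 := h3 X hX
      have h6 : ((Finset.Icc 1 X).filter (fun q : ℕ => Nat.Coprime q N ∧
          max C1 C2 * (q : ℝ) ^ (3 / 4 + ε) < analyticOrderNatAt (fun s : ℂ =>
            ∏ᶠ χ : DirichletCharacter ℂ q, L χ.conductor χ.primitiveCharacter s) m)) ⊆
          (Finset.Icc 1 X).filter (fun q : ℕ => Nat.Coprime q N ∧
            C1 * (q : ℝ) ^ (3 / 4 + ε) < tot (fun q χ => analyticOrderNatAt (L q χ) m) q) := by
        intro q hq
        rw [Finset.mem_filter] at hq ⊢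
        obtain ⟨k1, k2, k3⟩ := hq
        rw [hordn q (Finset.mem_Icc.1 k1).1 k2] at k3
        refine ⟨k1, k2, lt_of_le_of_lt ?_ k3⟩
        exact mul_le_mul_of_nonneg_right (le_max_left _ _) (by positivity)
      have h7 := (Nat.cast_le (α := ℝ)).2 (Finset.card_le_card h6)
      refine h7.trans (h5.trans ?_)
      refine mul_le_mul_of_nonneg_right ?_ (Real.exp_pos _).le
      exact mul_le_mul_of_nonneg_right (le_max_left _ _) hX0
    · have hq : 1 ≤ p ^ k := Nat.one_le_iff_ne_zero.2 (pow_pos hp.pos k).ne'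
      have hco : Nat.Coprime (p ^ k) N :=
        Nat.Coprime.pow_left k ((Nat.Prime.coprime_iff_not_dvd hp).2 hpN)
      rw [hordn _ hq hco]
      obtain ⟨k1, k2⟩ := h4 p hp hpN k
      refine ⟨k1.trans ?_, k2.trans ?_⟩
      · exact mul_le_mul_of_nonneg_right (le_max_right _ _) (by positivity)
      · exact mul_le_mul_of_nonneg_right (le_max_right _ _) (by positivity)

/-- the number of nonzero values is at most the sum -/
lemma ncard_le_finsum {α : Type*} {s : Set α} (hs : s.Finite) (g : α → ℕ) (P : α → Prop)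
    (h : ∀ x ∈ s, P x → g x ≠ 0) : {x ∈ s | P x}.ncard ≤ ∑ᶠ x ∈ s, g x := by
  classical
  have h1 : {x ∈ s | P x} = ((hs.toFinset.filter P : Finset α) : Set α) := by
    ext x
    simp
  rw [h1, Set.ncard_coe_finset, finsum_mem_eq_finite_toFinset_sum _ hs, Finset.card_eq_sum_ones]
  calc ∑ x ∈ hs.toFinset.filter P, 1 ≤ ∑ x ∈ hs.toFinset.filter P, g x := by
        refine Finset.sum_le_sum fun x hx => ?_
        rw [Finset.mem_filter, Set.Finite.mem_toFinset] at hx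
        exact Nat.one_le_iff_ne_zero.2 (h x hx.1 hx.2)
    _ ≤ _ := Finset.sum_le_sum_of_subset (Finset.filter_subset _ _)

lemma prim_finite (N X : ℕ) : (Prim N X).Finite := by
  rw [prim_eq]
  exact Finset.finite_toSet _

end Pool.Agent.Y683.AA
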