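import Pool.Agent.Y683.AA.Tot

/-!
The number of primitive Dirichlet characters of conductor at most `X`.
-/

set_option autoImplicit false

namespace Pool.Agent.Y683.AA

open Finset

lemma finite_char (q : ℕ) : Finite (DirichletCharacter ℂ q) := by
  rcases Nat.eq_zero_or_pos q with h | h
  · subst h
    have : Finite (ZMod 0)ˣ := inferInstanceAs (Finite ℤˣ)
    exact MulChar.finite
  · have : NeZero q := ⟨by omega⟩
    infer_instance

/-- the primitive characters modulo `q` -/
noncomputable def pc (q : ℕ) : Finset (DirichletCharacter ℂ q) :=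
  (@Set.toFinite _ {χ : DirichletCharacter ℂ q | χ.IsPrimitive}
    (@Subtype.finite _ (finite_char q) _)).toFinset

lemma mem_pc {q : ℕ} {χ : DirichletCharacter ℂ q} : χ ∈ pc q ↔ χ.IsPrimitive := by
  unfold pc
  simp

/-- the moduli -/
noncomputable def md (N X : ℕ) : Finset ℕ := (Icc 1 X).filter (fun q => Nat.Coprime q N)

/-- the primitive characters of conductor at most `X`, prime to `N` -/
def Prim (N X : ℕ) : Set (Σ q : ℕ, DirichletCharacter ℂ q) :=
  {x | 1 ≤ x.1 ∧ x.1 ≤ X ∧ Nat.Coprime x.1 N ∧ x.2.IsPrimitive}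

lemma prim_eq (N X : ℕ) : Prim N X = (((md N X).sigma fun q => pc q : Finset _) :
    Set (Σ q : ℕ, DirichletCharacter ℂ q)) := by
  ext x
  simp only [Prim, Set.mem_ofPred_eq, coe_sigma, Set.mem_sigma_iff, mem_coe, md, mem_filter,
    mem_Icc, mem_pc]
  tauto

lemma ncard_prim (N X : ℕ) : (Prim N X).ncard = ∑ q ∈ md N X, (pc q).card := by
  rw [prim_eq, Set.ncard_coe_finset, card_sigma]

lemma finsum_prim (N X : ℕ) (G : (q : ℕ) → DirichletCharacter ℂ q → ℕ) :
    ∑ᶠ x ∈ Prim N X, G x.1 x.2 = ∑ q ∈ md N X, ∑ χ ∈ pc q, G q χ := by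
  rw [prim_eq, finsum_mem_coe_finset, sum_sigma]

/-- the number of primitive characters modulo a prime -/
lemma card_pc_prime {p : ℕ} (hp : p.Prime) : p - 2 ≤ (pc p).card := by
  classical
  have : NeZero p := ⟨hp.ne_zero⟩
  have h1 : (univ : Finset (DirichletCharacter ℂ p)).erase 1 ⊆ pc p := by
    intro χ hχ
    rw [mem_erase] at hχ
    rw [mem_pc]
    have h2 := χ.conductor_dvd_level
    rcases (Nat.dvd_prime hp).1 h2 with h | h
    · exact absurd (DirichletCharacter.eq_one_iff_conductor_eq_one.2 h) hχ.1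
    · exact h
  refine le_trans ?_ (card_le_card h1)
  rw [card_erase_of_mem (mem_univ _), card_univ, card_char, Nat.totient_prime hp]
  omega

/-- a lower bound for a sum over primes -/
lemma sum_pc_ge (N X : ℕ) (T : Finset ℕ) (hT : ∀ p ∈ T, p.Prime ∧ p ≤ X ∧ Nat.Coprime p N) :
    (T.card - T.card / 2) * (T.card / 2 - 1) ≤ (Prim N X).ncard := by
  classical
  rw [ncard_prim]
  set k := T.card with hk
  set T' := T.filter (fun p => k / 2 < p) with hT'
  have h1 : k - k / 2 ≤ T'.card := by
    have h2 : T.filter (fun p => ¬ k / 2 < p) ⊆ Icc 1 (k / 2) := by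
      intro p hp
      rw [mem_filter] at hp
      rw [mem_Icc]
      exact ⟨(hT p hp.1).1.one_lt.le, not_lt.1 hp.2⟩
    have h3 := card_le_card h2
    rw [Nat.card_Icc] at h3
    have h4 : T'.card + (T.filter (fun p => ¬ k / 2 < p)).card = k :=
      card_filter_add_card_filter_not (s := T) (fun p => k / 2 < p)
    omega
  have h5 : T' ⊆ md N X := by
    intro p hp
    rw [hT', mem_filter] at hp
    obtain ⟨k1, k2, k3⟩ := hT p hp.1
    rw [md, mem_filter, mem_Icc]
    exact ⟨⟨k1.one_lt.le, k2⟩, k3⟩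
  calc (k - k / 2) * (k / 2 - 1) ≤ T'.card * (k / 2 - 1) := Nat.mul_le_mul_right _ h1
    _ = ∑ p ∈ T', (k / 2 - 1) := by rw [sum_const, smul_eq_mul]
    _ ≤ ∑ p ∈ T', (pc p).card := by
        refine sum_le_sum fun p hp => ?_
        rw [hT', mem_filter] at hp
        have h6 := card_pc_prime (hT p hp.1).1
        have := hp.2
        omega
    _ ≤ _ := sum_le_sum_of_subset h5

/-- the number of primitive characters of conductor at most `X` -/
theorem ncard_ge (N : ℕ) (hN : 1 ≤ N) : ∃ c : ℝ, 0 < c ∧ ∀ X : ℕ, 1 ≤ X →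
    c * ((X : ℝ) / (1 + Real.log X)) ^ 2 ≤ (Prim N X).ncard := by
  classical
  obtain ⟨X0, hX0⟩ : ∃ X0 : ℕ, X0 = 256 * (N + 7) ^ 2 := ⟨_, rfl⟩
  refine ⟨min (1 / 2048) (1 / (X0 : ℝ) ^ 2), ?_, fun X hX => ?_⟩
  · refine lt_min (by norm_num) ?_
    have : 0 < X0 := by rw [hX0]; positivity
    positivity
  have hXr : (1 : ℝ) ≤ X := by exact_mod_cast hX
  have hX0' : (0 : ℝ) < X := by linarith
  have hlog : 0 ≤ Real.log X := Real.log_natCast_nonneg X
  have hdiv : (X : ℝ) / (1 + Real.log X) ≤ X := div_le_self hX0'.le (by linarith)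
  have hdiv0 : 0 ≤ (X : ℝ) / (1 + Real.log X) := by positivity
  rcases lt_or_ge X X0 with hlt | hge
  · have h1 : 1 ≤ (Prim N X).ncard := by
      rw [ncard_prim]
      have h2 : 1 ∈ md N X := by
        rw [md, mem_filter, mem_Icc]
        exact ⟨⟨le_rfl, hX⟩, Nat.coprime_one_left N⟩
      have h3 : 1 ≤ (pc 1).card := by
        rw [Nat.one_le_iff_ne_zero, Finset.card_ne_zero]
        exact ⟨1, mem_pc.2 DirichletCharacter.isPrimitive_one_level_one⟩
      exact h3.trans (single_le_sum (f := fun q => (pc q).card) (fun _ _ => Nat.zero_le _) h2)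
    have h4 : (1 : ℝ) ≤ (Prim N X).ncard := by exact_mod_cast h1
    refine le_trans ?_ h4
    have h5 : (X : ℝ) ≤ X0 := by exact_mod_cast hlt.le
    have h6 : (0 : ℝ) < X0 := by linarith
    calc min (1 / 2048) (1 / (X0 : ℝ) ^ 2) * ((X : ℝ) / (1 + Real.log X)) ^ 2 ≤
        (1 / (X0 : ℝ) ^ 2) * (X0 : ℝ) ^ 2 := by
          refine mul_le_mul (min_le_right _ _) ?_ (by positivity) (by positivity)
          exact pow_le_pow_left₀ hdiv0 (hdiv.trans h5) 2
      _ = 1 := by field_simp
  · set T := (Nat.primesLE X).filter (fun p => Nat.Coprime p N) with hT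
    have hTp : ∀ p ∈ T, p.Prime ∧ p ≤ X ∧ Nat.Coprime p N := by
      intro p hp
      rw [hT, mem_filter, Nat.mem_primesLE] at hp
      exact ⟨hp.1.2, hp.1.1, hp.2⟩
    have h1 := sum_pc_ge N X T hTp
    have hpi : ((Nat.primeCounting X : ℕ) : ℝ) * Real.log X ≥ X / 4 := by
      have h2 := Chebyshev.psi_le_primeCounting_mul_log X
      have h3 := Chebyshev.psi_ge X
      have h4 : Real.log ((X : ℝ) + 1) ≤ ((X : ℝ) + 1) / 4 + 2 * Real.log 2 - 1 := by
        have h5 := Real.log_le_sub_one_of_pos (x := ((X : ℝ) + 1) / 4) (by positivity)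
        rw [Real.log_div (by positivity) (by norm_num)] at h5
        have h6 : Real.log 4 = 2 * Real.log 2 := by
          rw [show (4 : ℝ) = 2 ^ 2 by norm_num, Real.log_pow]; norm_num
        linarith
      have h7 := Real.log_two_gt_d9
      have h8 := Real.log_two_lt_d9
      have h9 : (4 : ℝ) ≤ X := by
        have : 4 ≤ X := by
          refine le_trans ?_ hge
          rw [hX0]
          have h10 : 1 ≤ (N + 7) ^ 2 := Nat.one_le_pow _ _ (by omega)
          omega
        exact_mod_cast this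
      nlinarith
    have hcard : (Nat.primeCounting X : ℝ) - N ≤ T.card := by
      have h2 : (Nat.primesLE X).card = Nat.primeCounting X := by
        exact Nat.primesLE_card_eq_primeCounting X
      have h3 : (Nat.primesLE X).filter (fun p => ¬ Nat.Coprime p N) ⊆ Icc 1 N := by
        intro p hp
        rw [mem_filter, Nat.mem_primesLE] at hp
        have h4 : p ∣ N := by
          by_contra h
          exact hp.2 ((Nat.Prime.coprime_iff_not_dvd hp.1.2).2 h)
        rw [mem_Icc]
        exact ⟨hp.1.2.one_lt.le, Nat.le_of_dvd (by omega) h4⟩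
      have h4 := card_le_card h3
      rw [Nat.card_Icc] at h4
      have h5 : T.card + ((Nat.primesLE X).filter (fun p => ¬ Nat.Coprime p N)).card =
          (Nat.primesLE X).card :=
        card_filter_add_card_filter_not (s := Nat.primesLE X) (fun p => Nat.Coprime p N)
      have h6 : Nat.primeCounting X ≤ T.card + N := by
        rw [← h2]
        omega
      have h7 : (Nat.primeCounting X : ℝ) ≤ T.card + N := by exact_mod_cast h6
      linarith
    set k := T.card with hk
    -- `√X ≥ 16 (N + 7)`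
    have hsq : (16 * ((N : ℝ) + 7)) ^ 2 ≤ X := by
      have h8 : ((256 * (N + 7) ^ 2 : ℕ) : ℝ) ≤ X := by
        rw [← hX0]
        exact_mod_cast hge
      push_cast at h8
      nlinarith
    have hN7 : (0 : ℝ) ≤ N := Nat.cast_nonneg _
    have hlog2 : Real.log X ≤ 2 * Real.sqrt X := by
      have h2 := Real.log_le_sub_one_of_pos (x := Real.sqrt X) (by positivity)
      have h3 : Real.log X = 2 * Real.log (Real.sqrt X) := by
        rw [Real.log_sqrt hX0'.le]; ring
      linarith
    have hsX : 16 * ((N : ℝ) + 7) ≤ Real.sqrt X := Real.le_sqrt_of_sq_le hsq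
    have hlogpos : 0 < Real.log X := by
      refine Real.log_pos ?_
      nlinarith
    have hk1 : (X : ℝ) / (8 * Real.log X) ≤ k - 7 := by
      have h2 : (X : ℝ) / (4 * Real.log X) ≤ Nat.primeCounting X := by
        rw [div_le_iff₀ (by positivity)]
        nlinarith
      have h3 : (N : ℝ) + 7 ≤ X / (8 * Real.log X) := by
        rw [le_div_iff₀ (by positivity)]
        have h4 : Real.sqrt X * Real.sqrt X = X := Real.mul_self_sqrt hX0'.le
        calc ((N : ℝ) + 7) * (8 * Real.log X) ≤ ((N : ℝ) + 7) * (8 * (2 * Real.sqrt X)) := by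
              gcongr
          _ = 16 * ((N : ℝ) + 7) * Real.sqrt X := by ring
          _ ≤ Real.sqrt X * Real.sqrt X := by gcongr
          _ = X := h4
      have h5 : (X : ℝ) / (4 * Real.log X) = X / (8 * Real.log X) + X / (8 * Real.log X) := by
        field_simp
        ring
      linarith
    have hk7 : (7 : ℝ) ≤ k := by
      have : 0 ≤ (X : ℝ) / (8 * Real.log X) := by positivity
      linarith
    have hk7' : 7 ≤ k := by exact_mod_cast hk7
    have h2 : ((k : ℝ) / 2) * ((k : ℝ) / 4) ≤ (((k - k / 2) * (k / 2 - 1) : ℕ) : ℝ) := by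
      have e1 : (k : ℝ) / 2 ≤ ((k - k / 2 : ℕ) : ℝ) := by
        have : k ≤ 2 * (k - k / 2) := by omega
        have : (k : ℝ) ≤ 2 * ((k - k / 2 : ℕ) : ℝ) := by exact_mod_cast this
        linarith
      have e2 : (k : ℝ) / 4 ≤ ((k / 2 - 1 : ℕ) : ℝ) := by
        have : k ≤ 4 * (k / 2 - 1) := by omega
        have : (k : ℝ) ≤ 4 * ((k / 2 - 1 : ℕ) : ℝ) := by exact_mod_cast this
        linarith
      rw [Nat.cast_mul]
      exact mul_le_mul e1 e2 (by positivity) (Nat.cast_nonneg _)
    have h3 : (((k - k / 2) * (k / 2 - 1) : ℕ) : ℝ) ≤ (Prim N X).ncard := by exact_mod_cast h1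
    have h4 : (X : ℝ) / (1 + Real.log X) ≤ 8 * k := by
      have h5 : (X : ℝ) / (8 * Real.log X) ≤ k := by linarith
      have h6 : (X : ℝ) / (1 + Real.log X) ≤ X / Real.log X :=
        div_le_div_of_nonneg_left hX0'.le hlogpos (by linarith)
      have h7 : (X : ℝ) / Real.log X = 8 * (X / (8 * Real.log X)) := by field_simp
      linarith
    calc min (1 / 2048) (1 / (X0 : ℝ) ^ 2) * ((X : ℝ) / (1 + Real.log X)) ^ 2 ≤
        (1 / 2048) * (8 * (k : ℝ)) ^ 2 := by
          refine mul_le_mul (min_le_left _ _) ?_ (by positivity) (by norm_num)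
          exact pow_le_pow_left₀ hdiv0 h4 2
      _ ≤ ((k : ℝ) / 2) * ((k : ℝ) / 4) := by nlinarith
      _ ≤ _ := h2.trans h3

end Pool.Agent.Y683.AA
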