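import Pool.Agent.Y683.AA.HPw

/-!
Twists by almost all characters of finite order: all weights simultaneously.
-/

set_option autoImplicit false

open Finset

namespace Pool.Agent.Y683.AA

open Pool.Agent.W192.HK
open Pool.Agent.Y690 (cop_iff cop_congr cop_mono sp_mul sp_pow hc_pow ne_zero_of_cop lift_cop sp_ne)

variable {R : Subring ℂ} {ω : ℂ}

lemma rpow_neg_le {X : ℕ} (hX : 1 ≤ X) {a b : ℝ} (ha : 0 ≤ a) (hab : b ≤ a) :
    (X : ℝ) ^ (-a) ≤ Real.exp a * Real.exp (-b * cr X) := by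
  have hX0 : (0 : ℝ) < X := by exact_mod_cast hX
  have hu0 := cr_nonneg X
  have e3 : (X : ℝ) ^ (-a) = Real.exp (-a * cr X ^ 3) := by
    rw [cr_pow, Real.rpow_def_of_pos hX0, mul_comm]
  have h9 : cr X ≤ 1 + cr X ^ 3 := by
    rcases le_or_gt (cr X) 1 with h | h
    · have : 0 ≤ cr X ^ 3 := by positivity
      linarith
    · nlinarith [sq_nonneg (cr X), mul_pos (sub_pos.2 h) (sub_pos.2 h)]
  rw [e3, ← Real.exp_add]
  refine Real.exp_le_exp.2 ?_
  have h11 : a * cr X ≤ a * (1 + cr X ^ 3) := mul_le_mul_of_nonneg_left h9 ha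
  have h12 : b * cr X ≤ a * cr X := mul_le_mul_of_nonneg_right hab hu0
  linarith

/-- the characters of small order -/
def Sm (R : Subring ℂ) (n X : ℕ) (D : ℝ) : Set (Ideal R → ℂ) :=
  {θ | ∃ q : Ideal R, HC n q θ ∧ nn q ≤ X ∧ ∃ F, IsFin n q θ F ∧ (orderOf F : ℝ) ≤ D}

/-- few characters have small order -/
theorem count_small (hb : H_BASIC) (hcls : H_CLS) (hfp : H_FP) (hdivr : H_DIVR) (hR : QR R ω)
    {C0 : ℝ} (hC : IdCount R C0) {ε : ℝ} (hε : 0 < ε) (hε1 : ε ≤ 1) :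
    ∃ C c : ℝ, 0 < C ∧ 0 < c ∧ ∀ X n : ℕ, 1 ≤ X → (Sm R n X ((X : ℝ) ^ (1 - ε))).Finite ∧
      (Set.ncard (Sm R n X ((X : ℝ) ^ (1 - ε))) : ℝ) ≤
        C * (X : ℝ) ^ 2 * Real.exp (-c * cr X) := by
  classical
  have hC0 := hC.pos
  obtain ⟨H, hH1, hH⟩ := card_all hb hcls hfp hR
  have hH0 : (0 : ℝ) < H := by exact_mod_cast hH1
  set δ : ℝ := ε / 40 with hδ
  have hδ0 : 0 < δ := by positivity
  obtain ⟨C1, hC1, ht, -⟩ := Pool.Agent.W216.CY.t_div δ hδ0
  obtain ⟨C2, hC2, h2⟩ := excI hb hdivr hR hC hδ0 (by rw [hδ]; linarith)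
  refine ⟨C2 * H + C0 * (H * (C1 * C2)) * Real.exp (3 * ε / 4), δ / 4, by positivity,
    by positivity, fun X n hX => ?_⟩
  have hX1 : (1 : ℝ) ≤ X := by exact_mod_cast hX
  have hX0 : (0 : ℝ) < X := by linarith
  set D : ℝ := (X : ℝ) ^ (1 - ε) with hD
  have hD0 : 0 ≤ D := by positivity
  set Y : ℝ := C2 * (X : ℝ) ^ (9 * δ) with hY
  have hY0 : 0 ≤ Y := by positivity
  have hS : ∀ q : Ideal R, ∃ S : Finset (Ideal R → ℂ), q ∈ Id hC X →
      (∀ θ, HC n q θ → (∃ F, IsFin n q θ F ∧ (orderOf F : ℝ) ≤ D) → θ ∈ S) ∧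
      (S.card : ℝ) ≤ X * H ∧ (Nice Y (nn q) → (S.card : ℝ) ≤ (D * (C1 * (X : ℝ) ^ δ) * Y) * H) := by
    intro q
    by_cases hqX : q ∈ Id hC X
    · have hq := ((mem_Id hC).1 hqX).1
      have hqX' := ((mem_Id hC).1 hqX).2
      obtain ⟨b1, -⟩ := hb R ω hR
      have hfinq : Finite (R ⧸ q) := b1 q hq
      have hG : Finite (R ⧸ q)ˣ := inferInstance
      obtain ⟨T, hT1, hT2, hT3⟩ := card_dual_small hb hR hq hD0
      obtain ⟨hsm, -⟩ := hH n q hq
      obtain ⟨k1, k2⟩ := hsm D hD0 T hT1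
      have hcard : (k1.toFinset.card : ℝ) ≤ T.card * H := by
        rw [← Set.ncard_eq_toFinset_card _ k1]
        exact_mod_cast k2
      refine ⟨k1.toFinset, fun _ => ⟨fun θ hθ hF => ?_, ?_, fun hnice => ?_⟩⟩
      · obtain ⟨F, hF1, hF2⟩ := hF
        rw [Set.Finite.mem_toFinset]
        exact ⟨hθ, F, (hT1 F).2 hF2, hF1⟩
      · refine hcard.trans (mul_le_mul_of_nonneg_right ?_ hH0.le)
        exact_mod_cast hT2.trans hqX'
      · obtain ⟨S', hS1, hS2⟩ := hnice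
        have hlam1 := lcm_dvd_exp hb hR hq hS1
        have hlam0 : 0 < Monoid.exponent (R ⧸ q)ˣ :=
          Nat.pos_of_ne_zero Monoid.exponent_ne_zero_of_finite
        have hlam0' : (0 : ℝ) < (Monoid.exponent (R ⧸ q)ˣ : ℕ) := by exact_mod_cast hlam0
        have hlam2 : ((S'.lcm (fun p => p - 1) : ℕ) : ℝ) ≤ (Monoid.exponent (R ⧸ q)ˣ : ℕ) := by
          exact_mod_cast Nat.le_of_dvd hlam0 hlam1
        have hlamX : ((Monoid.exponent (R ⧸ q)ˣ : ℕ) : ℝ) ≤ X := by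
          have h4 : Monoid.exponent (R ⧸ q)ˣ ≤ Nat.card (R ⧸ q)ˣ :=
            Nat.le_of_dvd Nat.card_pos Group.exponent_dvd_nat_card
          refine (Nat.cast_le (α := ℝ)).2 (h4.trans (le_trans ?_ hqX'))
          unfold nn
          exact Nat.card_le_card_of_injective (fun u : (R ⧸ q)ˣ => (u : R ⧸ q)) Units.val_injective
        have hτ : (((Monoid.exponent (R ⧸ q)ˣ).divisors.card : ℕ) : ℝ) ≤ C1 * (X : ℝ) ^ δ := by
          refine (ht _ hlam0).trans ?_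
          gcongr
        have hTc : (T.card : ℝ) ≤ D * (C1 * (X : ℝ) ^ δ) * Y := by
          have h1 : (T.card : ℝ) * (Monoid.exponent (R ⧸ q)ˣ : ℕ) ≤
              (D * (C1 * (X : ℝ) ^ δ) * Y) * (Monoid.exponent (R ⧸ q)ˣ : ℕ) := by
            calc (T.card : ℝ) * (Monoid.exponent (R ⧸ q)ˣ : ℕ) ≤
                D * (((Monoid.exponent (R ⧸ q)ˣ).divisors.card : ℕ) : ℝ) * nn q := hT3
              _ ≤ D * (C1 * (X : ℝ) ^ δ) * (Y * (Monoid.exponent (R ⧸ q)ˣ : ℕ)) := by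
                  refine mul_le_mul (mul_le_mul_of_nonneg_left hτ hD0)
                    (hS2.trans (mul_le_mul_of_nonneg_left hlam2 hY0)) (Nat.cast_nonneg _)
                    (by positivity)
              _ = _ := by ring
          exact le_of_mul_le_mul_right h1 hlam0'
        exact hcard.trans (mul_le_mul_of_nonneg_right hTc hH0.le)
    · exact ⟨∅, fun h => absurd h hqX⟩
  choose S hS using hS
  have hsub : Sm R n X D ⊆ (((Id hC X).biUnion S : Finset (Ideal R → ℂ)) : Set (Ideal R → ℂ)) := by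
    rintro θ ⟨q, h3, h4, h5⟩
    have hqX : q ∈ Id hC X := (mem_Id hC).2 ⟨h3.ne, h4⟩
    rw [mem_coe, mem_biUnion]
    exact ⟨q, hqX, (hS q hqX).1 θ h3 h5⟩
  refine ⟨(Finset.finite_toSet _).subset hsub, ?_⟩
  have h3 := Set.ncard_le_ncard hsub (Finset.finite_toSet _)
  rw [Set.ncard_coe_finset] at h3
  have h4 : ((Set.ncard (Sm R n X D) : ℕ) : ℝ) ≤ ∑ q ∈ Id hC X, ((S q).card : ℝ) := by
    refine ((Nat.cast_le (α := ℝ)).2 (h3.trans card_biUnion_le)).trans ?_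
    push_cast
    exact le_rfl
  refine h4.trans ?_
  rw [← sum_filter_add_sum_filter_not (Id hC X) (fun I : Ideal R => ¬ Nice Y (nn I))]
  have hbad : ∑ q ∈ (Id hC X).filter (fun I : Ideal R => ¬ Nice Y (nn I)), ((S q).card : ℝ) ≤
      (C2 * X * Real.exp (-(δ / 4) * cr X)) * (X * H) := by
    calc ∑ q ∈ (Id hC X).filter (fun I : Ideal R => ¬ Nice Y (nn I)), ((S q).card : ℝ) ≤
        ∑ q ∈ (Id hC X).filter (fun I : Ideal R => ¬ Nice Y (nn I)), (X : ℝ) * H :=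
          sum_le_sum fun q h => (hS q (mem_filter.1 h).1).2.1
      _ = (((Id hC X).filter (fun I : Ideal R => ¬ Nice Y (nn I))).card : ℝ) * (X * H) := by
          rw [sum_const, nsmul_eq_mul]
      _ ≤ _ := mul_le_mul_of_nonneg_right (h2 X hX) (by positivity)
  have hgood : ∑ q ∈ (Id hC X).filter (fun I : Ideal R => ¬ ¬ Nice Y (nn I)), ((S q).card : ℝ) ≤
      (C0 * X) * ((D * (C1 * (X : ℝ) ^ δ) * Y) * H) := by
    calc ∑ q ∈ (Id hC X).filter (fun I : Ideal R => ¬ ¬ Nice Y (nn I)), ((S q).card : ℝ) ≤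
        ∑ q ∈ (Id hC X).filter (fun I : Ideal R => ¬ ¬ Nice Y (nn I)),
          (D * (C1 * (X : ℝ) ^ δ) * Y) * H := by
          refine sum_le_sum fun q h => ?_
          rw [mem_filter] at h
          exact (hS q h.1).2.2 (not_not.1 h.2)
      _ = (((Id hC X).filter (fun I : Ideal R => ¬ ¬ Nice Y (nn I))).card : ℝ) *
          ((D * (C1 * (X : ℝ) ^ δ) * Y) * H) := by rw [sum_const, nsmul_eq_mul]
      _ ≤ _ := by
          refine mul_le_mul_of_nonneg_right ?_ (by positivity)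
          refine le_trans ?_ (card_Id hC X)
          exact_mod_cast card_filter_le _ _
  have hpow : (C0 * X) * ((D * (C1 * (X : ℝ) ^ δ) * Y) * H) ≤
      C0 * (H * (C1 * C2)) * Real.exp (3 * ε / 4) * (X : ℝ) ^ 2 * Real.exp (-(δ / 4) * cr X) := by
    have e1 : D * (X : ℝ) ^ δ * (X : ℝ) ^ (9 * δ) = X * (X : ℝ) ^ (-(3 * ε / 4)) := by
      rw [hD, ← Real.rpow_add hX0, ← Real.rpow_add hX0]
      nth_rewrite 2 [← Real.rpow_one (X : ℝ)]
      rw [← Real.rpow_add hX0]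
      congr 1
      rw [hδ]
      ring
    have e2 := rpow_neg_le hX (a := 3 * ε / 4) (b := δ / 4) (by positivity) (by rw [hδ]; linarith)
    calc (C0 * X) * ((D * (C1 * (X : ℝ) ^ δ) * Y) * H) =
        C0 * (H * (C1 * C2)) * X * (D * (X : ℝ) ^ δ * (X : ℝ) ^ (9 * δ)) := by rw [hY]; ring
      _ = C0 * (H * (C1 * C2)) * (X : ℝ) ^ 2 * (X : ℝ) ^ (-(3 * ε / 4)) := by rw [e1]; ring
      _ ≤ C0 * (H * (C1 * C2)) * (X : ℝ) ^ 2 *
          (Real.exp (3 * ε / 4) * Real.exp (-(δ / 4) * cr X)) :=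
          mul_le_mul_of_nonneg_left e2 (by positivity)
      _ = _ := by ring
  calc _ ≤ (C2 * X * Real.exp (-(δ / 4) * cr X)) * (X * H) +
      C0 * (H * (C1 * C2)) * Real.exp (3 * ε / 4) * (X : ℝ) ^ 2 * Real.exp (-(δ / 4) * cr X) :=
        add_le_add hbad (hgood.trans hpow)
    _ = _ := by ring

/-- comparison with the number of all characters -/
theorem absorb (hb : H_BASIC) (hcls : H_CLS) (hfp : H_FP) (hR : QR R ω) {C0 : ℝ}
    (hC : IdCount R C0) {C1 c1 : ℝ} (hC1 : 0 < C1) (hc1 : 0 < c1) :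
    ∃ C c : ℝ, 0 < C ∧ 0 < c ∧ ∀ X m : ℕ, 1 ≤ X → ∀ S : ℝ,
      (Set.ncard (Hk R m X) = 0 → S ≤ 0) → S ≤ C1 * (X : ℝ) ^ 2 * Real.exp (-c1 * cr X) →
      S ≤ C * Real.exp (-c * cr X) * (Set.ncard (Hk R m X) : ℝ) := by
  obtain ⟨c2, X0, hc2, hX0, h2⟩ := hk_lower hb hcls hfp hR hC
  obtain ⟨C3, hC3, h3⟩ := exp_absorb' hc1
  refine ⟨C1 / c2 * C3 + C1 * X0 ^ 2 * C3, c1 / 2, by positivity, by positivity,
    fun X m hX S hS0 hS => ?_⟩
  have hX1 : (1 : ℝ) ≤ X := by exact_mod_cast hX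
  have hX0' : (0 : ℝ) < X := by linarith
  have hlog : 0 ≤ Real.log X := Real.log_nonneg hX1
  have hE := h3 X hX
  set E : ℝ := Real.exp (-(c1 / 2) * cr X) with hEdef
  have hE0 : 0 < E := Real.exp_pos _
  have hEE := (Real.exp_pos (-c1 * cr X)).le
  rcases le_or_gt X0 X with hXX | hXX
  · have h4 := h2 m X hXX
    have h5 : C1 * (X : ℝ) ^ 2 * Real.exp (-c1 * cr X) ≤
        C1 / c2 * C3 * E * (Set.ncard (Hk R m X) : ℝ) := by
      calc C1 * (X : ℝ) ^ 2 * Real.exp (-c1 * cr X) =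
          C1 / c2 * (c2 * (X : ℝ) ^ 2) * (1 * Real.exp (-c1 * cr X)) := by
            field_simp
        _ ≤ C1 / c2 * ((Set.ncard (Hk R m X) : ℝ) * (1 + 2 * Real.log X) ^ 2) *
            ((1 + Real.log X) * Real.exp (-c1 * cr X)) := by
            refine mul_le_mul (mul_le_mul_of_nonneg_left h4 (by positivity)) ?_ (by positivity)
              (by positivity)
            exact mul_le_mul_of_nonneg_right (by linarith) hEE
        _ = C1 / c2 * (Set.ncard (Hk R m X) : ℝ) *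
            ((1 + 2 * Real.log X) ^ 2 * (1 + Real.log X) * Real.exp (-c1 * cr X)) := by ring
        _ ≤ C1 / c2 * (Set.ncard (Hk R m X) : ℝ) * (C3 * E) :=
            mul_le_mul_of_nonneg_left hE (by positivity)
        _ = _ := by ring
    refine hS.trans (h5.trans ?_)
    have : C1 / c2 * C3 ≤ C1 / c2 * C3 + C1 * X0 ^ 2 * C3 := by
      have : 0 ≤ C1 * X0 ^ 2 * C3 := by positivity
      linarith
    gcongr
  · rcases Nat.eq_zero_or_pos (Set.ncard (Hk R m X)) with h0 | h0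
    · refine (hS0 h0).trans ?_
      positivity
    · have h0' : (1 : ℝ) ≤ (Set.ncard (Hk R m X) : ℝ) := by exact_mod_cast h0
      refine hS.trans ?_
      have hone : (1 : ℝ) ≤ (1 + 2 * Real.log X) ^ 2 * (1 + Real.log X) := by
        have h5 : (1 : ℝ) ≤ (1 + 2 * Real.log X) ^ 2 := one_le_pow₀ (by linarith)
        nlinarith
      calc C1 * (X : ℝ) ^ 2 * Real.exp (-c1 * cr X) =
          C1 * (X : ℝ) ^ 2 * (1 * Real.exp (-c1 * cr X)) := by ring
        _ ≤ C1 * X0 ^ 2 *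
            ((1 + 2 * Real.log X) ^ 2 * (1 + Real.log X) * Real.exp (-c1 * cr X)) := by
            gcongr
        _ ≤ C1 * X0 ^ 2 * (C3 * E) := mul_le_mul_of_nonneg_left hE (by positivity)
        _ = C1 * X0 ^ 2 * C3 * E * 1 := by ring
        _ ≤ (C1 / c2 * C3 + C1 * X0 ^ 2 * C3) * E * (Set.ncard (Hk R m X) : ℝ) := by
            have : C1 * X0 ^ 2 * C3 ≤ C1 / c2 * C3 + C1 * X0 ^ 2 * C3 := by
              have : 0 ≤ C1 / c2 * C3 := by positivity
              linarith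
            gcongr

/-- a modulus is divisible by the conductor -/
lemma cond_dvd (hfp : H_FP) (hR : QR R ω) {n : ℕ} {q g : Ideal R} {θ : Ideal R → ℂ}
    (hθ : HC n q θ) (hg : ∀ α : R, α ≠ 0 → α - 1 ∈ g → θ (sp α) = (α : ℂ) ^ n) (hgt : g ≠ ⊤) :
    g ≤ q := by
  by_contra hgf
  have hlt : q < q ⊔ g := left_lt_sup.2 hgf
  have hft : q ≠ ⊤ := by
    rintro rfl
    exact hgf le_top
  obtain ⟨α, hα0, hα1, hαc, hαθ⟩ := hθ.prim _ hlt
  obtain ⟨x, hx, y, hy, hxy⟩ := Submodule.mem_sup.1 hα1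
  apply hαθ
  have h0 : 1 + y ≠ 0 := by
    intro h0
    apply hgt
    rw [Ideal.eq_top_iff_one]
    have : (1 : R) = -y := by linear_combination h0
    rw [this]
    exact g.neg_mem hy
  have h3 := hg (1 + y) h0 (by simpa using hy)
  obtain ⟨f1, f2, f3, f4, f5⟩ := hfp R ω hR n q θ hθ hft
  have h4 : fp n θ α = fp n θ (1 + y) := by
    refine f5 _ _ ?_
    have : α - (1 + y) = x := by linear_combination -hxy
    rw [this]
    exact hx
  have hα' : (α : ℂ) ≠ 0 := fun h => hα0 (by exact_mod_cast h)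
  have hy' : ((1 + y : R) : ℂ) ≠ 0 := fun h => h0 (by exact_mod_cast h)
  unfold fp at h4
  rw [h3, div_self (pow_ne_zero n hy'), div_eq_one_iff_eq (pow_ne_zero n hα')] at h4
  exact h4

/-- odd infinity types have a nontrivial conductor -/
lemma odd_ne_top {m : ℕ} (hm : 1 ≤ m) {f : Ideal R} {ψ : Ideal R → ℂ}
    (hψ : HC (2 * m - 1) f ψ) : f ≠ ⊤ := by
  rintro rfl
  have h1 := hψ.princ 1 one_ne_zero Submodule.mem_top
  have h2 := hψ.princ (-1) (neg_ne_zero.2 one_ne_zero) Submodule.mem_top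
  have h3 : sp (-1 : R) = sp (1 : R) := by
    unfold sp
    rw [Ideal.span_singleton_neg]
  rw [h3, h1] at h2
  have h4 : ((-1 : R) : ℂ) = -1 := by simp
  have h5 : ((1 : R) : ℂ) = 1 := rfl
  rw [h4, h5, one_pow, Odd.neg_one_pow ⟨m - 1, by omega⟩] at h2
  norm_num at h2

/-- `θ` is `ψ χ` wherever this is not zero -/
def Agr (σ : ℂ →+* ℂ) (θ ψ χ : Ideal R → ℂ) : Prop :=
  ∀ I : Ideal R, ψ I * χ I ≠ 0 → θ I = ψ I * σ (χ I)

/-- the orders of the finite parts -/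
lemma ord_transfer (hb : H_BASIC) (hfp : H_FP) (hR : QR R ω) (σ : ℂ →+* ℂ) {n : ℕ}
    {q f c : Ideal R} {θ ψ χ : Ideal R → ℂ} (hθ : HC n q θ) (hψ : HC n f ψ) (hχ : HC 0 c χ)
    (hag : Agr σ θ ψ χ) {e : ℕ} (he : ∀ α : R, IsCoprime (sp α) q → fp n θ α ^ e = 1)
    {F : (R ⧸ c)ˣ →* ℂˣ} (hF : IsFin 0 c χ F) : F ^ (e * Nat.card (R ⧸ f)ˣ) = 1 := by
  obtain ⟨b1, -⟩ := hb R ω hR
  have hfinf : Finite (R ⧸ f) := b1 f hψ.ne
  have hG : Finite (R ⧸ f)ˣ := inferInstance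
  have := hR.ded
  obtain ⟨Fψ, hFψ⟩ := exists_fin hfp hR hψ
  refine MonoidHom.ext fun v => ?_
  by_cases hct : c = ⊤
  · have hs : Subsingleton (R ⧸ c) := by
      rw [hct]
      exact Ideal.Quotient.subsingleton_iff.2 rfl
    have : v = 1 := Units.ext (Subsingleton.elim _ _)
    rw [this, map_one]
    rfl
  obtain ⟨α, hα⟩ := Ideal.Quotient.mk_surjective (v : R ⧸ c)
  have hαc : IsCoprime (sp α) c := by
    rw [← isUnit_iff_cop, hα]
    exact v.isUnit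
  have hq' : q * (f * c) ≠ ⊥ := mul_ne_zero hθ.ne (mul_ne_zero hψ.ne hχ.ne)
  obtain ⟨β, hβ0, hβc, hβ⟩ := lift_cop hb hR hq' (ne_zero_of_cop hct hαc) hαc
  have hβq : IsCoprime (sp β) q := IsCoprime.of_mul_right_left hβc
  have hβfc : IsCoprime (sp β) (f * c) := IsCoprime.of_mul_right_right hβc
  have hβf : IsCoprime (sp β) f := IsCoprime.of_mul_right_left hβfc
  have hβc' : IsCoprime (sp β) c := IsCoprime.of_mul_right_right hβfc
  have hβne : sp β ≠ ⊥ := sp_ne hβ0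
  have hψ0 : ψ (sp β) ≠ 0 := by
    rw [Ne, hψ.zero]
    push Not
    exact ⟨hβne, hβf⟩
  have hχ0 : χ (sp β) ≠ 0 := by
    rw [Ne, hχ.zero]
    push Not
    exact ⟨hβne, hβc'⟩
  have h1 := hag (sp β) (mul_ne_zero hψ0 hχ0)
  have hmk : Ideal.Quotient.mk c β = v := by
    rw [← hα, Ideal.Quotient.mk_eq_mk_iff_sub_mem]
    exact hβ
  obtain ⟨u, hu⟩ := isUnit_iff_cop.2 hβf
  have h2 := hFψ u β hu.symm hβ0
  have h3 := hF v β hmk hβ0
  rw [pow_zero, div_one] at h3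
  have h4 := he β hβq
  unfold fp at h4
  rw [h1, mul_div_right_comm, ← h2] at h4
  have h5 : ((Fψ u : ℂˣ) : ℂ) ^ Nat.card (R ⧸ f)ˣ = 1 := by
    rw [← Units.val_pow_eq_pow_val, ← map_pow, pow_card_eq_one', map_one, Units.val_one]
  have h6 : σ (χ (sp β) ^ (e * Nat.card (R ⧸ f)ˣ)) = 1 := by
    have h7 : (((Fψ u : ℂˣ) : ℂ) * σ (χ (sp β))) ^ (e * Nat.card (R ⧸ f)ˣ) = 1 := by
      rw [pow_mul, h4, one_pow]
    rw [mul_pow, mul_comm e, pow_mul, h5, one_pow, one_mul] at h7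
    rw [map_pow, mul_comm e]
    exact h7
  have h7 : χ (sp β) ^ (e * Nat.card (R ⧸ f)ˣ) = 1 := σ.injective (by rw [h6, map_one])
  ext
  rw [MonoidHom.pow_apply, MonoidHom.one_apply, Units.val_pow_eq_pow_val, h3, h7, Units.val_one]

end Pool.Agent.Y683.AA
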