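import Pool.Agent.Y683.AA.SW
import Pool.Agent.Y683.AA.HMain

/-!
Twists by almost all characters of finite order: all weights simultaneously, main theorem.
-/

set_option autoImplicit false

open Finset

namespace Pool.Agent.Y683.AA

open Pool.Agent.W192.HK
open Pool.Agent.Y690 (cop_iff cop_congr cop_mono sp_mul sp_pow hc_pow ne_zero_of_cop lift_cop sp_ne)

variable {R : Subring ℂ} {ω : ℂ}

lemma big_x {δ N0 : ℝ} (hδ : 0 < δ) (hδ1 : δ ≤ 1 / 16) : ∃ X1 : ℝ, 1 ≤ X1 ∧ ∀ x : ℝ, X1 ≤ x →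
    2 ≤ x ^ (1 / 3 - 4 * δ) ∧ 2 ≤ x ^ (1 - 2 * δ) ∧ 4 ≤ x ^ (9 * δ) ∧
      2 * N0 ≤ x ^ (1 - 2 * δ) := by
  have h1 := (tendsto_rpow_atTop (y := 1 / 3 - 4 * δ) (by linarith)).eventually_ge_atTop 2
  have h2 := (tendsto_rpow_atTop (y := 1 - 2 * δ) (by linarith)).eventually_ge_atTop 2
  have h3 := (tendsto_rpow_atTop (y := 9 * δ) (by linarith)).eventually_ge_atTop 4
  have h4 := (tendsto_rpow_atTop (y := 1 - 2 * δ) (by linarith)).eventually_ge_atTop (2 * N0)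
  obtain ⟨X1, hX1⟩ := Filter.eventually_atTop.1 (h1.and (h2.and (h3.and h4)))
  exact ⟨max X1 1, le_max_right _ _, fun x hx => hX1 x ((le_max_left _ _).trans hx)⟩

/-- the twists by a character of large order have no zero at the centre -/
theorem twist_nv (hb : H_BASIC) (hfp : H_FP) (hR : QR R ω) {K : ℝ}
    {o : ℕ → (Ideal R → ℂ) → ℕ} (ho : GHk R K o) {η : ℝ} (hη : 0 < η) (hη1 : η ≤ 1) :
    ∃ X1 : ℝ, ∀ X : ℕ, X1 ≤ X → ∀ (c : Ideal R) (χ : Ideal R → ℂ), HC 0 c χ → nn c ≤ X →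
      (∀ F, IsFin 0 c χ F → (X : ℝ) ^ (1 - η / 16) < orderOf F) →
      ∀ (σ : ℂ →+* ℂ) (m : ℕ) (f q : Ideal R) (ψ θ : Ideal R → ℂ), 1 ≤ m →
        (m : ℝ) ≤ (X : ℝ) ^ (1 - η) → HC (2 * m - 1) f ψ → nm f ≤ (X : ℝ) ^ (η / 16) →
        HC (2 * m - 1) q θ → Agr σ θ ψ χ → o m θ = 0 := by
  set δ : ℝ := η / 16 with hδ
  have hδ0 : 0 < δ := by positivity
  have hδ1 : δ ≤ 1 / 16 := by rw [hδ]; linarith
  obtain ⟨N0, hN0⟩ := ho.nv δ hδ0
  obtain ⟨X1, hX11, hX1⟩ := big_x (N0 := N0) hδ0 hδ1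
  refine ⟨X1, fun X hXX c χ hχ hcX hF σ m f q ψ θ hm hmX hψ hfX hθ hag => ?_⟩
  obtain ⟨g1, g2, g3, g4⟩ := hX1 X hXX
  have hX1' : (1 : ℝ) ≤ X := hX11.trans hXX
  have hX0 : (0 : ℝ) < X := by linarith
  have := hR.ded
  obtain ⟨b1, -⟩ := hb R ω hR
  have hfinq : Finite (R ⧸ q) := b1 q hθ.ne
  have hfinf : Finite (R ⧸ f) := b1 f hψ.ne
  have hG : Finite (R ⧸ f)ˣ := inferInstance
  have hqt : q ≠ ⊤ := odd_ne_top hm hθ
  have hft : f ≠ ⊤ := odd_ne_top hm hψ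
  obtain ⟨F, hFin⟩ := exists_fin hfp hR hχ
  have hFX := hF F hFin
  -- the conductor of the twist
  have hgt : f * c ≠ ⊤ := fun h => hft (top_le_iff.1 (h ▸ Ideal.mul_le_left))
  have hgq : f * c ≤ q := by
    refine cond_dvd hfp hR hθ (fun α hα hαg => ?_) hgt
    have hαf : α - 1 ∈ f := Ideal.mul_le_left hαg
    have hαc : α - 1 ∈ c := Ideal.mul_le_right hαg
    have h1 := hψ.princ α hα hαf
    have h2 := hχ.princ α hα hαc
    rw [pow_zero] at h2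
    have h3 : (α : ℂ) ≠ 0 := fun h => hα (by exact_mod_cast h)
    have h4 := hag (sp α) (by rw [h1, h2, mul_one]; exact pow_ne_zero _ h3)
    rw [h4, h1, h2, map_one, mul_one]
  have hnq : (nm q : ℝ) ≤ (X : ℝ) ^ (1 + δ) := by
    have h1 := nn_le_of_le hb hR (mul_ne_zero hψ.ne hχ.ne) hgq
    rw [nn_mul hb hR] at h1
    have h2 : (nm q : ℝ) ≤ nm f * nn c := by
      rw [nm_eq, nm_eq]
      exact_mod_cast h1
    have h3 : ((nn c : ℕ) : ℝ) ≤ X := by exact_mod_cast hcX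
    have h4 : (0 : ℝ) ≤ nm f := Nat.cast_nonneg _
    refine h2.trans ((mul_le_mul hfX h3 (Nat.cast_nonneg _) (by positivity)).trans ?_)
    rw [Real.rpow_add hX0, Real.rpow_one, mul_comm]
  have hnq0 : (0 : ℝ) ≤ nm q := Nat.cast_nonneg _
  -- the order
  set D : ℕ := orderOf F with hD
  set e0 : ℕ := Nat.card (R ⧸ f)ˣ with he0
  have he0' : 0 < e0 := Nat.card_pos
  have he0X : (e0 : ℝ) ≤ (X : ℝ) ^ δ := by
    refine le_trans ?_ hfX
    have h4 : e0 ≤ nn f := Nat.card_le_card_of_injective (fun u : (R ⧸ f)ˣ => (u : R ⧸ f))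
      Units.val_injective
    rw [nm_eq]
    exact_mod_cast h4
  have hd : ∀ e : ℕ, (∀ α : R, IsCoprime (sp α) q → fp (2 * m - 1) θ α ^ e = 1) → 0 < e →
      D / e0 ≤ e := by
    intro e he hepos
    have h1 := ord_transfer hb hfp hR σ hθ hψ hχ hag he hFin
    have h2 : D ∣ e * e0 := orderOf_dvd_of_pow_eq_one h1
    have h3 := Nat.le_of_dvd (Nat.mul_pos hepos he0') h2
    exact Nat.div_le_of_le_mul (by rwa [mul_comm] at h3)
  have hdX : (X : ℝ) ^ (1 - 2 * δ) ≤ 2 * ((D / e0 : ℕ) : ℝ) := by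
    have h0 : D < (D / e0 + 1) * e0 := by
      have h1 := Nat.div_add_mod D e0
      have h2 := Nat.mod_lt D he0'
      nlinarith
    have h1 : (D : ℝ) < (((D / e0 : ℕ) : ℝ) + 1) * e0 := by exact_mod_cast h0
    have h2 : (X : ℝ) ^ (1 - 2 * δ) * (X : ℝ) ^ δ = (X : ℝ) ^ (1 - δ) := by
      rw [← Real.rpow_add hX0]
      congr 1
      ring
    have h3 : (((D / e0 : ℕ) : ℝ) + 1) * e0 ≤ (((D / e0 : ℕ) : ℝ) + 1) * (X : ℝ) ^ δ := by
      gcongr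
    have h4 : (X : ℝ) ^ (1 - 2 * δ) * (X : ℝ) ^ δ < (((D / e0 : ℕ) : ℝ) + 1) * (X : ℝ) ^ δ := by
      rw [h2]
      linarith
    have h5 := lt_of_mul_lt_mul_right h4 (by positivity)
    linarith
  have hqd : ((D / e0 : ℕ) : ℝ) ≤ nm q := by
    obtain ⟨Fθ, hFθ⟩ := exists_fin hfp hR hθ
    have h1 := ord_le_nn hfinq Fθ
    have hGq : Finite (R ⧸ q)ˣ := inferInstance
    have hpos : 0 < orderOf Fθ := by
      refine orderOf_pos_iff.2 (isOfFinOrder_iff_pow_eq_one.2 ⟨Nat.card (R ⧸ q)ˣ, Nat.card_pos, ?_⟩)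
      ext u
      rw [MonoidHom.pow_apply, ← map_pow, pow_card_eq_one', map_one]
      rfl
    have h2 := hd (orderOf Fθ) (fun α hα => by
      obtain ⟨u, hu⟩ := isUnit_iff_cop.2 hα
      have h3 := hFθ u α hu.symm (ne_zero_of_cop hqt hα)
      unfold fp
      rw [← h3, ← Units.val_pow_eq_pow_val, ← MonoidHom.pow_apply, pow_orderOf_eq_one]
      rfl) hpos
    rw [nm_eq]
    exact_mod_cast h2.trans h1
  refine hN0 m q θ hm hθ (by linarith) (D / e0) (fun e he h => hd e h he) ?_ ?_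
  · calc (nm q) ^ (2 / 3 + δ) ≤ ((X : ℝ) ^ (1 + δ)) ^ (2 / 3 + δ) := by gcongr
      _ = (X : ℝ) ^ ((1 + δ) * (2 / 3 + δ)) := by rw [Real.rpow_mul hX0.le]
      _ ≤ (X : ℝ) ^ (2 / 3 + 2 * δ) := Real.rpow_le_rpow_of_exponent_le hX1' (by nlinarith)
      _ ≤ ((D / e0 : ℕ) : ℝ) := by
        have h1 : (X : ℝ) ^ (2 / 3 + 2 * δ) * 2 ≤ (X : ℝ) ^ (1 - 2 * δ) := by
          calc (X : ℝ) ^ (2 / 3 + 2 * δ) * 2 ≤ (X : ℝ) ^ (2 / 3 + 2 * δ) * (X : ℝ) ^ (1 / 3 - 4 * δ) := by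
                gcongr
            _ = (X : ℝ) ^ (1 - 2 * δ) := by
                rw [← Real.rpow_add hX0]
                congr 1
                ring
        linarith
  · have h1 : (m : ℝ) * (nm q) ^ (1 + δ) ≤ (X : ℝ) ^ (2 - 13 * δ) := by
      calc (m : ℝ) * (nm q) ^ (1 + δ) ≤ (X : ℝ) ^ (1 - η) * ((X : ℝ) ^ (1 + δ)) ^ (1 + δ) := by
            gcongr
        _ = (X : ℝ) ^ (1 - η + (1 + δ) * (1 + δ)) := by
            rw [← Real.rpow_mul hX0.le, ← Real.rpow_add hX0]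
        _ ≤ (X : ℝ) ^ (2 - 13 * δ) := by
            refine Real.rpow_le_rpow_of_exponent_le hX1' ?_
            have : η = 16 * δ := by rw [hδ]; ring
            rw [this]
            nlinarith
    have h2 : (X : ℝ) ^ (2 - 13 * δ) * 4 ≤ ((X : ℝ) ^ (1 - 2 * δ)) ^ 2 := by
      calc (X : ℝ) ^ (2 - 13 * δ) * 4 ≤ (X : ℝ) ^ (2 - 13 * δ) * (X : ℝ) ^ (9 * δ) := by gcongr
        _ = ((X : ℝ) ^ (1 - 2 * δ)) ^ 2 := by
            rw [← Real.rpow_add hX0, ← Real.rpow_natCast, ← Real.rpow_mul hX0.le]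
            congr 1
            push_cast
            ring
    have h3 : ((X : ℝ) ^ (1 - 2 * δ)) ^ 2 ≤ (2 * ((D / e0 : ℕ) : ℝ)) ^ 2 :=
      pow_le_pow_left₀ (by positivity) hdX 2
    nlinarith

/-- the characters with a bad twist -/
def Bd (R : Subring ℂ) (o : ℕ → (Ideal R → ℂ) → ℕ) (η : ℝ) (X : ℕ) : Set (Ideal R → ℂ) :=
  {χ | χ ∈ Hk R 0 X ∧ ∃ (σ : ℂ →+* ℂ) (m : ℕ) (f q : Ideal R) (ψ θ : Ideal R → ℂ), 1 ≤ m ∧
    (m : ℝ) ≤ (X : ℝ) ^ (1 - η) ∧ HC (2 * m - 1) f ψ ∧ nm f ≤ (X : ℝ) ^ (η / 16) ∧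
    HC (2 * m - 1) q θ ∧ Agr σ θ ψ χ ∧ o m θ ≠ 0}

theorem sw_main (hb : H_BASIC) (hcls : H_CLS) (hfp : H_FP) (hdivr : H_DIVR) (hR : QR R ω)
    {C0 : ℝ} (hC : IdCount R C0) {K : ℝ} {o : ℕ → (Ideal R → ℂ) → ℕ} (ho : GHk R K o) {η : ℝ}
    (hη : 0 < η) (hη1 : η ≤ 1) :
    ∃ C c : ℝ, 0 < C ∧ 0 < c ∧ ∀ X : ℕ, 1 ≤ X →
      (Set.ncard (Bd R o η X) : ℝ) ≤
        C * Real.exp (-c * cr X) * (Set.ncard (Hk R 0 X) : ℝ) := by
  obtain ⟨X1, hX1⟩ := twist_nv hb hfp hR ho hη hη1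
  obtain ⟨C1, c1, hC1, hc1, h1⟩ := count_small hb hcls hfp hdivr hR hC (ε := η / 16)
    (by positivity) (by linarith)
  obtain ⟨C2, c2, hC2, hc2, h2⟩ := absorb hb hcls hfp hR hC hC1 hc1
  obtain ⟨N, hN⟩ := exists_nat_ge X1
  refine ⟨C2 + Real.exp (c2 * cr N), c2, by positivity, hc2, fun X hX => ?_⟩
  have hfin := hk_finite hb hcls hfp hR hC 0 X
  have hsub : Bd R o η X ⊆ Hk R 0 X := fun χ h => h.1
  have hle : (Set.ncard (Bd R o η X) : ℝ) ≤ (Set.ncard (Hk R 0 X) : ℝ) := by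
    exact_mod_cast Set.ncard_le_ncard hsub hfin
  have hpos : 0 < Real.exp (-c2 * cr X) := Real.exp_pos _
  have hn0 : (0 : ℝ) ≤ (Set.ncard (Hk R 0 X) : ℝ) := Nat.cast_nonneg _
  rcases le_or_gt X1 X with hXX | hXX
  · have hsub2 : Bd R o η X ⊆ Sm R 0 X ((X : ℝ) ^ (1 - η / 16)) := by
      rintro χ ⟨⟨c, h3, h4⟩, σ, m, f, q, ψ, θ, k1, k2, k3, k4, k5, k6, k7⟩
      refine ⟨c, h3, h4, ?_⟩
      by_contra hcon
      push Not at hcon
      exact k7 (hX1 X hXX c χ h3 h4 hcon σ m f q ψ θ k1 k2 k3 k4 k5 k6)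
    obtain ⟨h3, h4⟩ := h1 X 0 hX
    have h5 : (Set.ncard (Bd R o η X) : ℝ) ≤ C1 * (X : ℝ) ^ 2 * Real.exp (-c1 * cr X) := by
      refine le_trans ?_ h4
      exact_mod_cast Set.ncard_le_ncard hsub2 h3
    refine (h2 X 0 hX _ (fun h0 => ?_) h5).trans ?_
    · rw [h0] at hle
      simpa using hle
    · have := (Real.exp_pos (c2 * cr N)).le
      gcongr
      linarith
  · refine hle.trans ?_
    have h3 : (1 : ℝ) ≤ (C2 + Real.exp (c2 * cr N)) * Real.exp (-c2 * cr X) := by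
      have h4 : cr X ≤ cr N := by
        unfold cr
        have hX0 : (0 : ℝ) < X := by exact_mod_cast hX
        have h5 : (X : ℝ) ≤ N := by linarith
        have h6 := Real.log_le_log hX0 h5
        exact Real.rpow_le_rpow (Real.log_natCast_nonneg X) h6 (by norm_num)
      have h5 : 1 ≤ Real.exp (c2 * cr N) * Real.exp (-c2 * cr X) := by
        rw [← Real.exp_add]
        refine Real.one_le_exp ?_
        have := mul_le_mul_of_nonneg_left h4 hc2.le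
        linarith
      have h6 : 0 ≤ C2 * Real.exp (-c2 * cr X) := by positivity
      linarith [add_mul C2 (Real.exp (c2 * cr N)) (Real.exp (-c2 * cr X))]
    calc (Set.ncard (Hk R 0 X) : ℝ) = 1 * (Set.ncard (Hk R 0 X) : ℝ) := (one_mul _).symm
      _ ≤ _ := mul_le_mul_of_nonneg_right h3 hn0

end Pool.Agent.Y683.AA
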