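import Pool.Agent.Y683.AA.SW2

/-!
The primitive Hecke character attached to a Hecke character modulo `g`.
-/

set_option autoImplicit false

open Complex

namespace Pool.Agent.Y683.AA

open Pool.Agent.W192.HK
open Pool.Agent.Y690 (cop_iff cop_congr cop_mono sp_mul sp_pow hc_pow ne_zero_of_cop lift_cop sp_ne)

variable {R : Subring ℂ} {ω : ℂ}

/-- a Hecke character modulo `g`, not necessarily primitive -/
structure Imp (n : ℕ) (g : Ideal R) (τ : Ideal R → ℂ) : Prop where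
  ne : g ≠ ⊥
  mul : ∀ I J : Ideal R, τ (I * J) = τ I * τ J
  zero : ∀ I : Ideal R, τ I = 0 ↔ (I = ⊥ ∨ ¬ IsCoprime I g)
  princ : ∀ α : R, α ≠ 0 → α - 1 ∈ g → τ (sp α) = (α : ℂ) ^ n

lemma exists_lift {g : Ideal R} (hg : g ≠ ⊥) (u : R ⧸ g) :
    ∃ α : R, α ≠ 0 ∧ Ideal.Quotient.mk g α = u := by
  obtain ⟨α, hα⟩ := Ideal.Quotient.mk_surjective u
  by_cases h0 : α = 0
  · obtain ⟨x, hx, hx0⟩ := Submodule.exists_mem_ne_zero_of_ne_bot hg
    refine ⟨x, hx0, ?_⟩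
    rw [← hα, h0, Ideal.Quotient.mk_eq_mk_iff_sub_mem, sub_zero]
    exact hx
  · exact ⟨α, h0, hα⟩

lemma Imp.period {n : ℕ} {g : Ideal R} {τ : Ideal R → ℂ} (h : Imp n g τ) {α β : R} (hα : α ≠ 0)
    (hβ : β ≠ 0) (hc : IsCoprime (sp α) g) (hαβ : α - β ∈ g) :
    τ (sp α) / (α : ℂ) ^ n = τ (sp β) / (β : ℂ) ^ n := by
  obtain ⟨u, hu⟩ := isUnit_iff_cop.2 hc
  obtain ⟨γ, hγ0, hγ⟩ := exists_lift h.ne ((u⁻¹ : (R ⧸ g)ˣ) : R ⧸ g)
  have h1 : α * γ - 1 ∈ g := by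
    rw [← Ideal.Quotient.mk_eq_mk_iff_sub_mem, map_mul, map_one, hγ, ← hu, Units.mul_inv]
  have h2 : β * γ - 1 ∈ g := by
    have : β * γ - 1 = (α * γ - 1) - (α - β) * γ := by ring
    rw [this]
    exact g.sub_mem h1 (g.mul_mem_right _ hαβ)
  have h3 := h.princ _ (mul_ne_zero hα hγ0) h1
  have h4 := h.princ _ (mul_ne_zero hβ hγ0) h2
  rw [sp_mul, h.mul, Subring.coe_mul, mul_pow] at h3 h4
  have hα' : (α : ℂ) ≠ 0 := fun h => hα (by exact_mod_cast h)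
  have hβ' : (β : ℂ) ≠ 0 := fun h => hβ (by exact_mod_cast h)
  have hγ' : (γ : ℂ) ≠ 0 := fun h => hγ0 (by exact_mod_cast h)
  have h5 : τ (sp γ) ≠ 0 := by
    intro h6
    rw [h6, mul_zero] at h3
    exact mul_ne_zero (pow_ne_zero n hα') (pow_ne_zero n hγ') h3.symm
  rw [div_eq_div_iff (pow_ne_zero n hα') (pow_ne_zero n hβ')]
  have h6 : τ (sp γ) * (τ (sp α) * (β : ℂ) ^ n) = τ (sp γ) * (τ (sp β) * (α : ℂ) ^ n) := by
    have e1 : τ (sp γ) * (τ (sp α) * (β : ℂ) ^ n) = (τ (sp α) * τ (sp γ)) * (β : ℂ) ^ n := by ring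
    have e2 : τ (sp γ) * (τ (sp β) * (α : ℂ) ^ n) = (τ (sp β) * τ (sp γ)) * (α : ℂ) ^ n := by ring
    rw [e1, e2, h3, h4]
    ring
  exact mul_left_cancel₀ h5 h6

lemma Imp.fin {n : ℕ} {g : Ideal R} {τ : Ideal R → ℂ} (h : Imp n g τ) :
    ∃ F : (R ⧸ g)ˣ →* ℂˣ, IsFin n g τ F := by
  have hlift := fun u : (R ⧸ g)ˣ => exists_lift h.ne (u : R ⧸ g)
  choose l hl0 hl using hlift
  have hcop : ∀ u, IsCoprime (sp (l u)) g := fun u => by
    rw [← isUnit_iff_cop, hl u]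
    exact u.isUnit
  have hl' : ∀ u, ((l u : R) : ℂ) ≠ 0 := fun u h => hl0 u (by exact_mod_cast h)
  have hne : ∀ u, τ (sp (l u)) / ((l u : R) : ℂ) ^ n ≠ 0 := fun u => by
    refine div_ne_zero ?_ (pow_ne_zero n (hl' u))
    rw [Ne, h.zero]
    push Not
    exact ⟨sp_ne (hl0 u), hcop u⟩
  refine ⟨⟨⟨fun u => Units.mk0 _ (hne u), ?_⟩, ?_⟩, ?_⟩
  · ext
    change τ (sp (l 1)) / ((l 1 : R) : ℂ) ^ n = 1
    have h1 : l 1 - 1 ∈ g := by
      rw [← Ideal.Quotient.mk_eq_mk_iff_sub_mem, hl, map_one, Units.val_one]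
    rw [h.princ _ (hl0 1) h1, div_self (pow_ne_zero n (hl' 1))]
  · intro u v
    ext
    change τ (sp (l (u * v))) / ((l (u * v) : R) : ℂ) ^ n =
      τ (sp (l u)) / ((l u : R) : ℂ) ^ n * (τ (sp (l v)) / ((l v : R) : ℂ) ^ n)
    have h1 : l (u * v) - l u * l v ∈ g := by
      rw [← Ideal.Quotient.mk_eq_mk_iff_sub_mem, hl, map_mul, hl, hl, Units.val_mul]
    rw [h.period (hl0 _) (mul_ne_zero (hl0 u) (hl0 v)) (hcop _) h1, sp_mul, h.mul,
      Subring.coe_mul, mul_pow, mul_div_mul_comm]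
  · intro u α hα hα0
    change τ (sp (l u)) / ((l u : R) : ℂ) ^ n = _
    refine h.period (hl0 u) hα0 (hcop u) ?_
    rw [← Ideal.Quotient.mk_eq_mk_iff_sub_mem, hl, hα]

/-- the values of `τ` on the ideals prime to `g` -/
noncomputable def Imp.un {n : ℕ} {g : Ideal R} {τ : Ideal R → ℂ} (hR : QR R ω) (h : Imp n g τ) :
    Mm hR g →* ℂˣ where
  toFun I := Units.mk0 (τ I) (by
    rw [Ne, h.zero]
    push Not
    exact I.2)
  map_one' := by
    ext
    have h1 := h.princ 1 one_ne_zero (by rw [sub_self]; exact g.zero_mem)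
    have h2 : (sp (1 : R)) = 1 := by rw [sp, Ideal.span_singleton_one, Ideal.one_eq_top]
    rw [h2, Subring.coe_one, one_pow] at h1
    exact h1
  map_mul' I J := by
    ext
    exact h.mul I J

lemma uc_mul_ec (hR : QR R ω) {n : ℕ} {g q : Ideal R} {τ : Ideal R → ℂ}
    (h : Imp n g τ) {F0 : (R ⧸ g)ˣ →* ℂˣ} (hF0 : IsFin n g τ F0) {F : (R ⧸ q)ˣ →* ℂˣ}
    (hcomp : ∀ (α : R) (v : (R ⧸ g)ˣ) (w : (R ⧸ q)ˣ), Ideal.Quotient.mk g α = v →
        Ideal.Quotient.mk q α = w → F w = F0 v) {δ : R} (hδ0 : δ ≠ 0) (hδ : IsCoprime (sp δ) g)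
    (hδq : IsCoprime (sp δ) q) :
    h.un hR ⟨sp δ, sp_ne hδ0, hδ⟩ = F (uc q ⟨δ, hδ0, hδq⟩) * ec q ⟨δ, hδ0, hδq⟩ ^ n := by
  obtain ⟨v, hv⟩ := isUnit_iff_cop.2 hδ
  rw [hcomp δ v _ hv.symm (uc_val q ⟨δ, hδ0, hδq⟩).symm]
  ext
  have h1 := hF0 v δ hv.symm hδ0
  have hδ' : (δ : ℂ) ≠ 0 := fun h => hδ0 (by exact_mod_cast h)
  rw [Units.val_mul, h1, Units.val_pow_eq_pow_val]
  change τ (sp δ) = τ (sp δ) / (δ : ℂ) ^ n * (δ : ℂ) ^ n
  rw [div_mul_cancel₀ _ (pow_ne_zero n hδ')]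

/-- the primitive character attached to a character modulo `g` -/
theorem exists_ind (hb : H_BASIC) (hcls : H_CLS) (hR : QR R ω) {n : ℕ} {g : Ideal R}
    {τ : Ideal R → ℂ} (h : Imp n g τ) :
    ∃ (q : Ideal R) (θ : Ideal R → ℂ), g ≤ q ∧ HC n q θ ∧ ∀ I, τ I ≠ 0 → θ I = τ I := by
  classical
  have := hR.ded
  obtain ⟨h0, hh1, hpr, -⟩ := hcls R ω hR
  obtain ⟨F0, hF0⟩ := h.fin
  obtain ⟨q, F, hgq, hprim, hcomp⟩ := exists_cond hb hR h.ne F0
  have hq0 : q ≠ ⊥ := fun h' => h.ne (le_bot_iff.1 (h' ▸ hgq))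
  have hmono : ∀ {I : Ideal R}, IsCoprime I g → IsCoprime I q := by
    intro I hI
    rw [Ideal.isCoprime_iff_exists] at hI ⊢
    obtain ⟨i, hi, j, hj, e⟩ := hI
    exact ⟨i, hi, j, hgq hj, e⟩
  have hcan := mm_cancel hR q
  set π : Mm hR g × Tm q →* Mm hR q :=
    { toFun := fun x => ⟨(x.1 : Ideal R) * sp (x.2 : R),
        mul_ne_zero x.1.2.1 (sp_ne x.2.2.1), IsCoprime.mul_left (hmono x.1.2.2) x.2.2.2⟩
      map_one' := by
        apply Subtype.ext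
        change (1 : Ideal R) * sp (1 : R) = 1
        rw [sp, Ideal.span_singleton_one, ← Ideal.one_eq_top, one_mul]
      map_mul' := fun x y => by
        apply Subtype.ext
        change ((x.1 : Ideal R) * (y.1 : Ideal R)) * sp ((x.2 : R) * (y.2 : R)) =
          ((x.1 : Ideal R) * sp (x.2 : R)) * ((y.1 : Ideal R) * sp (y.2 : R))
        rw [sp_mul]
        exact mul_mul_mul_comm _ _ _ _ } with hπ
  set φ : Mm hR g × Tm q →* ℂˣ :=
    ((h.un hR).comp (MonoidHom.fst _ _)) * (((F.comp (uc q)) * (ec q) ^ n).comp (MonoidHom.snd _ _))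
    with hφ
  obtain ⟨G, hG⟩ := Pool.Agent.Y767.ext_mon π φ (by
    rintro ⟨J1, α1⟩ ⟨J2, α2⟩ hab
    have hab' : (J1 : Ideal R) * sp (α1 : R) = (J2 : Ideal R) * sp (α2 : R) :=
      congrArg Subtype.val hab
    obtain ⟨δ, hδ⟩ := hpr (J1 : Ideal R)
    set J : Mm hR g := J1 ^ (h0 - 1) with hJ
    have hJ' : (J : Ideal R) = (J1 : Ideal R) ^ (h0 - 1) := rfl
    have h1 : (J1 : Ideal R) * J = sp δ := by
      rw [← hδ, hJ', ← pow_succ']
      congr 1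
      omega
    have hδ0 : δ ≠ 0 := by
      rintro rfl
      have h2 : (J1 : Ideal R) * J = ⊥ := by rw [h1]; exact Ideal.span_singleton_eq_bot.2 rfl
      exact mul_ne_zero J1.2.1 J.2.1 h2
    have hα2 := α2.2.1
    have h2 : sp (α2 : R) * ((J2 : Ideal R) * J) = sp ((α1 : R) * δ) := by
      rw [sp_mul, ← h1, ← mul_assoc, mul_comm (sp (α2 : R)), ← hab']
      ring
    have h3 : (α2 : R) ∣ (α1 : R) * δ := by
      have h3' : sp ((α1 : R) * δ) ≤ sp (α2 : R) := by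
        rw [← h2]
        exact Ideal.mul_le_left
      exact Ideal.span_singleton_le_span_singleton.1 h3'
    obtain ⟨ε, hε⟩ := h3
    have h4 : (J2 : Ideal R) * J = sp ε := by
      rw [hε, sp_mul] at h2
      exact mul_left_cancel₀ (sp_ne hα2) h2
    have hε0 : ε ≠ 0 := by
      rintro rfl
      rw [mul_zero] at hε
      exact mul_ne_zero α1.2.1 hδ0 hε
    have hδc : IsCoprime (sp δ) g := by
      rw [← h1]
      exact IsCoprime.mul_left J1.2.2 J.2.2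
    have hεc : IsCoprime (sp ε) g := by
      rw [← h4]
      exact IsCoprime.mul_left J2.2.2 J.2.2
    have k1 := uc_mul_ec hR h hF0 hcomp hδ0 hδc (hmono hδc)
    have k2 := uc_mul_ec hR h hF0 hcomp hε0 hεc (hmono hεc)
    have k3 : h.un hR (J1 * J) = h.un hR ⟨sp δ, sp_ne hδ0, hδc⟩ := congrArg _ (Subtype.ext h1)
    have k4 : h.un hR (J2 * J) = h.un hR ⟨sp ε, sp_ne hε0, hεc⟩ := congrArg _ (Subtype.ext h4)
    rw [map_mul] at k3 k4
    have k5 : α1 * (⟨δ, hδ0, hmono hδc⟩ : Tm q) = α2 * (⟨ε, hε0, hmono hεc⟩ : Tm q) :=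
      Subtype.ext hε
    have k6 := congrArg ((F.comp (uc q)) * (ec q) ^ n) k5
    rw [map_mul, map_mul] at k6
    have k7 : ((F.comp (uc q)) * (ec q) ^ n) (⟨δ, hδ0, hmono hδc⟩ : Tm q) =
      h.un hR J1 * h.un hR J := by rw [k3, k1]; rfl
    have k8 : ((F.comp (uc q)) * (ec q) ^ n) (⟨ε, hε0, hmono hεc⟩ : Tm q) =
      h.un hR J2 * h.un hR J := by rw [k4, k2]; rfl
    rw [k7, k8] at k6
    change h.un hR J1 * ((F.comp (uc q)) * (ec q) ^ n) α1 =
      h.un hR J2 * ((F.comp (uc q)) * (ec q) ^ n) α2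
    have k9 : (h.un hR J1 * ((F.comp (uc q)) * (ec q) ^ n) α1) * h.un hR J =
        (h.un hR J2 * ((F.comp (uc q)) * (ec q) ^ n) α2) * h.un hR J := by
      calc (h.un hR J1 * ((F.comp (uc q)) * (ec q) ^ n) α1) * h.un hR J =
          ((F.comp (uc q)) * (ec q) ^ n) α1 * (h.un hR J1 * h.un hR J) := by
            ac_rfl
        _ = ((F.comp (uc q)) * (ec q) ^ n) α2 * (h.un hR J2 * h.un hR J) := k6
        _ = _ := by ac_rfl
    exact mul_right_cancel k9)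
  set θ : Ideal R → ℂ := fun I => if h : I ≠ ⊥ ∧ IsCoprime I q then
    ((G (⟨I, h⟩ : Mm hR q) : ℂˣ) : ℂ) else 0 with hθ
  have hθ1 : ∀ (α : R) (v : (R ⧸ q)ˣ), α ≠ 0 → Ideal.Quotient.mk q α = v →
      θ (sp α) = ((F v : ℂˣ) : ℂ) * (α : ℂ) ^ n := by
    intro α v hα hv
    have hc : IsCoprime (sp α) q := by
      rw [← isUnit_iff_cop, hv]
      exact v.isUnit
    have hI : sp α ≠ ⊥ ∧ IsCoprime (sp α) q := ⟨sp_ne hα, hc⟩
    simp only [hθ, dif_pos hI]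
    have h1 := hG (1, ⟨α, hα, hc⟩)
    have h2 : π (1, ⟨α, hα, hc⟩) = ⟨sp α, hI⟩ := by
      apply Subtype.ext
      change (1 : Ideal R) * sp α = sp α
      exact one_mul _
    rw [h2] at h1
    rw [h1]
    have h3 : uc q ⟨α, hα, hc⟩ = v := by
      ext
      rw [uc_val]
      exact hv
    have h4 : φ (1, ⟨α, hα, hc⟩) = F v * ec q ⟨α, hα, hc⟩ ^ n := by
      change h.un hR 1 * (F (uc q ⟨α, hα, hc⟩) * ec q ⟨α, hα, hc⟩ ^ n) = _
      rw [map_one, one_mul, h3]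
    rw [h4]
    rfl
  have hθ0 : ∀ I, θ I = 0 ↔ (I = ⊥ ∨ ¬ IsCoprime I q) := by
    intro I
    by_cases hI : I ≠ ⊥ ∧ IsCoprime I q
    · simp only [hθ, dif_pos hI]
      constructor
      · intro h
        exact absurd h (Units.ne_zero _)
      · rintro (h | h)
        · exact absurd h hI.1
        · exact absurd hI.2 h
    · simp only [hθ, dif_neg hI, true_iff]
      by_contra h
      push Not at h
      exact hI h
  refine ⟨q, θ, hgq, ⟨hq0, fun I J => ?_, hθ0, fun α hα h4 => ?_, fun q' hq' => ?_⟩,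
    fun I hI => ?_⟩
  · by_cases hI : I ≠ ⊥ ∧ IsCoprime I q
    · by_cases hJ : J ≠ ⊥ ∧ IsCoprime J q
      · have hIJ : I * J ≠ ⊥ ∧ IsCoprime (I * J) q :=
          ⟨mul_ne_zero hI.1 hJ.1, IsCoprime.mul_left hI.2 hJ.2⟩
        simp only [hθ, dif_pos hI, dif_pos hJ, dif_pos hIJ]
        rw [← Units.val_mul, ← map_mul]
        rfl
      · have hIJ : ¬ (I * J ≠ ⊥ ∧ IsCoprime (I * J) q) := by
          rintro ⟨h1, h2⟩
          exact hJ ⟨fun h => h1 (by rw [h, Ideal.mul_bot]), IsCoprime.of_mul_left_right h2⟩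
        simp only [hθ, dif_neg hJ, dif_neg hIJ, mul_zero]
    · have hIJ : ¬ (I * J ≠ ⊥ ∧ IsCoprime (I * J) q) := by
        rintro ⟨h1, h2⟩
        exact hI ⟨fun h => h1 (by rw [h, Ideal.bot_mul]), IsCoprime.of_mul_left_left h2⟩
      simp only [hθ, dif_neg hI, dif_neg hIJ, zero_mul]
  · have h5 : Ideal.Quotient.mk q α = ((1 : (R ⧸ q)ˣ) : R ⧸ q) := by
      rw [Units.val_one, ← map_one (Ideal.Quotient.mk q), Ideal.Quotient.mk_eq_mk_iff_sub_mem]
      exact h4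
    rw [hθ1 α 1 hα h5, map_one, Units.val_one, one_mul]
  · obtain ⟨α, v, k1, k2, k3, k4⟩ := hprim q' hq'
    refine ⟨α, k1, k2, ?_, fun h => k4 ?_⟩
    · rw [← isUnit_iff_cop, k3]
      exact v.isUnit
    · rw [hθ1 α v k1 k3] at h
      have hα' : (α : ℂ) ≠ 0 := fun h => k1 (by exact_mod_cast h)
      ext
      rw [Units.val_one]
      exact (mul_eq_right₀ (pow_ne_zero n hα')).1 h
  · have hIg : I ≠ ⊥ ∧ IsCoprime I g := by
      rw [Ne, h.zero] at hI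
      push Not at hI
      exact hI
    have hIq : I ≠ ⊥ ∧ IsCoprime I q := ⟨hIg.1, hmono hIg.2⟩
    simp only [hθ, dif_pos hIq]
    have h1 := hG (⟨I, hIg⟩, 1)
    have h2 : π (⟨I, hIg⟩, 1) = ⟨I, hIq⟩ := by
      apply Subtype.ext
      change I * sp (1 : R) = I
      rw [sp, Ideal.span_singleton_one, ← Ideal.one_eq_top, mul_one]
    rw [h2] at h1
    rw [h1]
    have h4 : φ (⟨I, hIg⟩, 1) = h.un hR ⟨I, hIg⟩ := by
      change h.un hR ⟨I, hIg⟩ * ((F.comp (uc q)) * (ec q) ^ n) 1 = _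
      rw [map_one, mul_one]
    rw [h4]
    rfl

/-- existence of the twists -/
theorem exists_twist (hb : H_BASIC) (hcls : H_CLS) (hR : QR R ω) (σ : ℂ →+* ℂ) {n : ℕ}
    {f c : Ideal R} {ψ χ : Ideal R → ℂ} (hψ : HC n f ψ) (hχ : HC 0 c χ) :
    ∃ (q : Ideal R) (θ : Ideal R → ℂ), HC n q θ ∧ Agr σ θ ψ χ := by
  have := hR.ded
  have h : Imp n (f * c) (fun I => ψ I * σ (χ I)) := by
    refine ⟨mul_ne_zero hψ.ne hχ.ne, fun I J => ?_, fun I => ?_, fun α hα h1 => ?_⟩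
    · rw [hψ.mul, hχ.mul, map_mul]
      ring
    · rw [mul_eq_zero, map_eq_zero, hψ.zero, hχ.zero]
      constructor
      · rintro ((h | h) | (h | h))
        · exact Or.inl h
        · exact Or.inr fun h' => h (IsCoprime.of_mul_right_left h')
        · exact Or.inl h
        · exact Or.inr fun h' => h (IsCoprime.of_mul_right_right h')
      · rintro (h | h)
        · exact Or.inl (Or.inl h)
        · by_contra hcon
          push Not at hcon
          exact h (IsCoprime.mul_right hcon.1.2 hcon.2.2)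
    · rw [hψ.princ α hα (Ideal.mul_le_left h1), hχ.princ α hα (Ideal.mul_le_right h1), pow_zero,
        map_one, mul_one]
  obtain ⟨q, θ, -, h1, h2⟩ := exists_ind hb hcls hR h
  refine ⟨q, θ, h1, fun I hI => h2 I ?_⟩
  have h3 := mul_ne_zero_iff.1 hI
  exact mul_ne_zero h3.1 (by rw [Ne, map_eq_zero]; exact h3.2)

end Pool.Agent.Y683.AA
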