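import Pool.Agent.Y683.AA.SW3
import Pool.Agent.Y683.AA.HPw

/-!
The order of vanishing over the cyclic extension attached to a character of finite order.
-/

set_option autoImplicit false

open Finset

namespace Pool.Agent.Y683.AA

open Pool.Agent.W192.HK
open Pool.Agent.Y690 (cop_iff cop_congr cop_mono sp_mul sp_pow hc_pow ne_zero_of_cop lift_cop sp_ne)

variable {R : Subring ℂ} {ω : ℂ}

lemma HC.imp {n : ℕ} {q : Ideal R} {θ : Ideal R → ℂ} (h : HC n q θ) : Imp n q θ :=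
  ⟨h.ne, h.mul, h.zero, h.princ⟩

lemma Imp.pow {c : Ideal R} {χ : Ideal R → ℂ} (h : Imp 0 c χ) {j : ℕ} (hj : j ≠ 0) :
    Imp 0 c (fun I => χ I ^ j) := by
  refine ⟨h.ne, fun I J => ?_, fun I => ?_, fun α hα h1 => ?_⟩
  · rw [h.mul, mul_pow]
  · rw [pow_eq_zero_iff hj]
    exact h.zero I
  · rw [h.princ α hα h1, pow_zero, one_pow]

lemma IsFin.pow {c : Ideal R} {χ : Ideal R → ℂ} {F : (R ⧸ c)ˣ →* ℂˣ} (h : IsFin 0 c χ F) (j : ℕ) :
    IsFin 0 c (fun I => χ I ^ j) (F ^ j) := by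
  intro u α h1 h2
  rw [MonoidHom.pow_apply, Units.val_pow_eq_pow_val, h u α h1 h2, pow_zero, div_one, div_one]

/-- the orders of the finite parts -/
lemma ord_transfer' (hb : H_BASIC) (hfp : H_FP) (hR : QR R ω) (σ : ℂ →+* ℂ) {n : ℕ}
    {q f c : Ideal R} {θ ψ χ : Ideal R → ℂ} (hθ : HC n q θ) (hψ : HC n f ψ) (hχ : Imp 0 c χ)
    (hag : Agr σ θ ψ χ) {e : ℕ} (he : ∀ α : R, IsCoprime (sp α) q → fp n θ α ^ e = 1)
    {F : (R ⧸ c)ˣ →* ℂˣ} (hF : IsFin 0 c χ F) : F ^ (e * Nat.card (R ⧸ f)ˣ) = 1 := by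
  obtain ⟨b1, -⟩ := hb R ω hR
  have hfinf : Finite (R ⧸ f) := b1 f hψ.ne
  have hG : Finite (R ⧸ f)ˣ := inferInstance
  have := hR.ded
  obtain ⟨Fψ, hFψ⟩ := exists_fin hfp hR hψ
  refine MonoidHom.ext fun v => ?_
  by_cases hct : c = ⊤
  · have hs : Subsingleton (R ⧸ c) := by
      rw [hct]
      exact Ideal.Quotient.subsingleton_iff.2 rfl
    have : v = 1 := Units.ext (Subsingleton.elim _ _)
    rw [this, map_one]
    rfl
  obtain ⟨α, hα⟩ := Ideal.Quotient.mk_surjective (v : R ⧸ c)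
  have hαc : IsCoprime (sp α) c := by
    rw [← isUnit_iff_cop, hα]
    exact v.isUnit
  have hq' : q * (f * c) ≠ ⊥ := mul_ne_zero hθ.ne (mul_ne_zero hψ.ne hχ.ne)
  obtain ⟨β, hβ0, hβc, hβ⟩ := lift_cop hb hR hq' (ne_zero_of_cop hct hαc) hαc
  have hβq : IsCoprime (sp β) q := IsCoprime.of_mul_right_left hβc
  have hβfc : IsCoprime (sp β) (f * c) := IsCoprime.of_mul_right_right hβc
  have hβf : IsCoprime (sp β) f := IsCoprime.of_mul_right_left hβfc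
  have hβc' : IsCoprime (sp β) c := IsCoprime.of_mul_right_right hβfc
  have hβne : sp β ≠ ⊥ := sp_ne hβ0
  have hψ0 : ψ (sp β) ≠ 0 := by
    rw [Ne, hψ.zero]
    push Not
    exact ⟨hβne, hβf⟩
  have hχ0 : χ (sp β) ≠ 0 := by
    rw [Ne, hχ.zero]
    push Not
    exact ⟨hβne, hβc'⟩
  have h1 := hag (sp β) (mul_ne_zero hψ0 hχ0)
  have hmk : Ideal.Quotient.mk c β = v := by
    rw [← hα, Ideal.Quotient.mk_eq_mk_iff_sub_mem]
    exact hβ
  obtain ⟨u, hu⟩ := isUnit_iff_cop.2 hβf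
  have h2 := hFψ u β hu.symm hβ0
  have h3 := hF v β hmk hβ0
  rw [pow_zero, div_one] at h3
  have h4 := he β hβq
  unfold fp at h4
  rw [h1, mul_div_right_comm, ← h2] at h4
  have h5 : ((Fψ u : ℂˣ) : ℂ) ^ Nat.card (R ⧸ f)ˣ = 1 := by
    rw [← Units.val_pow_eq_pow_val, ← map_pow, pow_card_eq_one', map_one, Units.val_one]
  have h6 : σ (χ (sp β) ^ (e * Nat.card (R ⧸ f)ˣ)) = 1 := by
    have h7 : (((Fψ u : ℂˣ) : ℂ) * σ (χ (sp β))) ^ (e * Nat.card (R ⧸ f)ˣ) = 1 := by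
      rw [pow_mul, h4, one_pow]
    rw [mul_pow, mul_comm e, pow_mul, h5, one_pow, one_mul] at h7
    rw [map_pow, mul_comm e]
    exact h7
  have h7 : χ (sp β) ^ (e * Nat.card (R ⧸ f)ˣ) = 1 := σ.injective (by rw [h6, map_one])
  ext
  rw [MonoidHom.pow_apply, MonoidHom.one_apply, Units.val_pow_eq_pow_val, h3, h7, Units.val_one]

/-- the norm of the conductor of a twist -/
lemma cond_bound (hb : H_BASIC) (hfp : H_FP) (hR : QR R ω) {δ : ℝ} {X : ℕ} (hX : 1 ≤ X)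
    {c f q : Ideal R} {χ ψ θ : Ideal R → ℂ} (hχ : Imp 0 c χ) (hcX : nn c ≤ X) {m j : ℕ}
    (hm : 1 ≤ m) (hψ : HC (2 * m - 1) f ψ) (hfX : nm f ≤ (X : ℝ) ^ δ) (hθ : HC (2 * m - 1) q θ)
    (hag : ∀ I : Ideal R, ψ I * χ I ≠ 0 → θ I = ψ I * χ I ^ j) :
    nm q ≤ (X : ℝ) ^ (1 + δ) := by
  have hX0 : (0 : ℝ) < X := by exact_mod_cast hX
  have := hR.ded
  have hft : f ≠ ⊤ := odd_ne_top hm hψ
  have hgt : f * c ≠ ⊤ := fun h => hft (top_le_iff.1 (h ▸ Ideal.mul_le_left))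
  have hgq : f * c ≤ q := by
    refine cond_dvd hfp hR hθ (fun α hα hαg => ?_) hgt
    have h1 := hψ.princ α hα (Ideal.mul_le_left hαg)
    have h2 := hχ.princ α hα (Ideal.mul_le_right hαg)
    rw [pow_zero] at h2
    have h3 : (α : ℂ) ≠ 0 := fun h => hα (by exact_mod_cast h)
    have h4 := hag (sp α) (by rw [h1, h2, mul_one]; exact pow_ne_zero _ h3)
    rw [h4, h1, h2, one_pow, mul_one]
  have h1 := nn_le_of_le hb hR (mul_ne_zero hψ.ne hχ.ne) hgq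
  rw [nn_mul hb hR] at h1
  have h2 : (nm q : ℝ) ≤ nm f * nn c := by
    rw [nm_eq, nm_eq]
    exact_mod_cast h1
  have h3 : ((nn c : ℕ) : ℝ) ≤ X := by exact_mod_cast hcX
  refine h2.trans ((mul_le_mul hfX h3 (Nat.cast_nonneg _) (by positivity)).trans ?_)
  rw [Real.rpow_add hX0, Real.rpow_one, mul_comm]

/-- the twists by a character with finite part of large order -/
theorem nv_gen (hb : H_BASIC) (hfp : H_FP) (hR : QR R ω) {K : ℝ}
    {o : ℕ → (Ideal R → ℂ) → ℕ} (ho : GHk R K o) {δ : ℝ} (hδ0 : 0 < δ) (hδ1 : δ ≤ 1 / 16) :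
    ∃ A : ℝ, 1 ≤ A ∧ ∀ X : ℕ, 1 ≤ X → ∀ (c : Ideal R) (χ : Ideal R → ℂ), Imp 0 c χ → nn c ≤ X →
      ∀ F, IsFin 0 c χ F → ∀ (m : ℕ) (f q : Ideal R) (ψ θ : Ideal R → ℂ), 1 ≤ m →
        HC (2 * m - 1) f ψ → nm f ≤ (X : ℝ) ^ δ → HC (2 * m - 1) q θ →
        Agr (RingHom.id ℂ) θ ψ χ →
        A * ((m * X : ℝ) ^ (4 * δ) * ((X : ℝ) ^ (2 / 3 : ℝ) + (m * X : ℝ) ^ (1 / 2 : ℝ))) <
          orderOf F → o m θ = 0 := by
  obtain ⟨N0, hN0⟩ := ho.nv δ hδ0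
  refine ⟨2 * |N0| + 4, by linarith [abs_nonneg N0], fun X hX c χ hχ hcX F hFin m f q ψ θ hm hψ hfX
    hθ hag hZ => ?_⟩
  have hX1 : (1 : ℝ) ≤ X := by exact_mod_cast hX
  have hX0 : (0 : ℝ) < X := by linarith
  have hm1 : (1 : ℝ) ≤ m := by exact_mod_cast hm
  have hmX : (1 : ℝ) ≤ m * X := by nlinarith
  have := hR.ded
  obtain ⟨b1, -⟩ := hb R ω hR
  have hfinq : Finite (R ⧸ q) := b1 q hθ.ne
  have hfinf : Finite (R ⧸ f) := b1 f hψ.ne
  have hG : Finite (R ⧸ f)ˣ := inferInstance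
  have hqt : q ≠ ⊤ := odd_ne_top hm hθ
  have hnq : (nm q : ℝ) ≤ (X : ℝ) ^ (1 + δ) := by
    refine cond_bound hb hfp hR hX hχ hcX hm hψ hfX hθ (j := 1) fun I hI => ?_
    rw [hag I hI, pow_one]
    rfl
  have hnq0 : (0 : ℝ) ≤ nm q := Nat.cast_nonneg _
  -- the order
  set D : ℕ := orderOf F with hD
  set e0 : ℕ := Nat.card (R ⧸ f)ˣ with he0
  have he0' : 0 < e0 := Nat.card_pos
  have he0X : (e0 : ℝ) ≤ (X : ℝ) ^ δ := by
    refine le_trans ?_ hfX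
    have h4 : e0 ≤ nn f := Nat.card_le_card_of_injective (fun u : (R ⧸ f)ˣ => (u : R ⧸ f))
      Units.val_injective
    rw [nm_eq]
    exact_mod_cast h4
  have hd : ∀ e : ℕ, (∀ α : R, IsCoprime (sp α) q → fp (2 * m - 1) θ α ^ e = 1) → 0 < e →
      D / e0 ≤ e := by
    intro e he hepos
    have h1 := ord_transfer' hb hfp hR _ hθ hψ hχ hag he hFin
    have h2 : D ∣ e * e0 := orderOf_dvd_of_pow_eq_one h1
    have h3 := Nat.le_of_dvd (Nat.mul_pos hepos he0') h2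
    exact Nat.div_le_of_le_mul (by rwa [mul_comm] at h3)
  have hqd : ((D / e0 : ℕ) : ℝ) ≤ nm q := by
    obtain ⟨Fθ, hFθ⟩ := exists_fin hfp hR hθ
    have h1 := ord_le_nn hfinq Fθ
    have hGq : Finite (R ⧸ q)ˣ := inferInstance
    have hpos : 0 < orderOf Fθ := by
      refine orderOf_pos_iff.2 (isOfFinOrder_iff_pow_eq_one.2 ⟨Nat.card (R ⧸ q)ˣ, Nat.card_pos, ?_⟩)
      ext u
      rw [MonoidHom.pow_apply, ← map_pow, pow_card_eq_one', map_one]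
      rfl
    have h2 := hd (orderOf Fθ) (fun α hα => by
      obtain ⟨u, hu⟩ := isUnit_iff_cop.2 hα
      have h3 := hFθ u α hu.symm (ne_zero_of_cop hqt hα)
      unfold fp
      rw [← h3, ← Units.val_pow_eq_pow_val, ← MonoidHom.pow_apply, pow_orderOf_eq_one]
      rfl) hpos
    rw [nm_eq]
    exact_mod_cast h2.trans h1
  -- `d` is large
  set a : ℝ := (X : ℝ) ^ (2 / 3 : ℝ) with ha
  set b : ℝ := (m * X : ℝ) ^ (1 / 2 : ℝ) with hb'
  have ha1 : 1 ≤ a := Real.one_le_rpow hX1 (by norm_num)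
  have hb1 : 1 ≤ b := Real.one_le_rpow hmX (by norm_num)
  have hd3 : (|N0| + 1) * ((X : ℝ) ^ (3 * δ) * (a + b)) ≤ ((D / e0 : ℕ) : ℝ) := by
    have h0 : D < (D / e0 + 1) * e0 := by
      have h1 := Nat.div_add_mod D e0
      have h2 := Nat.mod_lt D he0'
      nlinarith
    have h1 : (D : ℝ) < (((D / e0 : ℕ) : ℝ) + 1) * e0 := by exact_mod_cast h0
    have h3 : (((D / e0 : ℕ) : ℝ) + 1) * e0 ≤ (((D / e0 : ℕ) : ℝ) + 1) * (X : ℝ) ^ δ := by
      gcongr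
    have h2 : (2 * |N0| + 4) * ((X : ℝ) ^ (3 * δ) * (a + b)) * (X : ℝ) ^ δ ≤
        (2 * |N0| + 4) * ((m * X : ℝ) ^ (4 * δ) * (a + b)) := by
      have h4 : (X : ℝ) ^ (3 * δ) * (X : ℝ) ^ δ = (X : ℝ) ^ (4 * δ) := by
        rw [← Real.rpow_add hX0]
        congr 1
        ring
      have h5 : (X : ℝ) ^ (4 * δ) ≤ (m * X : ℝ) ^ (4 * δ) :=
        Real.rpow_le_rpow hX0.le (by nlinarith) (by positivity)
      calc (2 * |N0| + 4) * ((X : ℝ) ^ (3 * δ) * (a + b)) * (X : ℝ) ^ δ =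
          (2 * |N0| + 4) * (((X : ℝ) ^ (3 * δ) * (X : ℝ) ^ δ) * (a + b)) := by ring
        _ = (2 * |N0| + 4) * ((X : ℝ) ^ (4 * δ) * (a + b)) := by rw [h4]
        _ ≤ _ := by
          have := abs_nonneg N0
          gcongr
    have h4 : (2 * |N0| + 4) * ((X : ℝ) ^ (3 * δ) * (a + b)) * (X : ℝ) ^ δ <
        (((D / e0 : ℕ) : ℝ) + 1) * (X : ℝ) ^ δ := by linarith
    have h5 := lt_of_mul_lt_mul_right h4 (by positivity)
    have h6 : 1 ≤ (X : ℝ) ^ (3 * δ) * (a + b) := by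
      have : 1 ≤ (X : ℝ) ^ (3 * δ) := Real.one_le_rpow hX1 (by positivity)
      nlinarith
    have h7 := abs_nonneg N0
    nlinarith
  have hX3 : 1 ≤ (X : ℝ) ^ (3 * δ) := Real.one_le_rpow hX1 (by positivity)
  have hN := abs_nonneg N0
  have hd4 : (X : ℝ) ^ (3 * δ) * (a + b) ≤ ((D / e0 : ℕ) : ℝ) := by
    refine le_trans ?_ hd3
    have : 0 ≤ (X : ℝ) ^ (3 * δ) * (a + b) := by positivity
    nlinarith
  have hN0d : N0 ≤ nm q := by
    have h1 : |N0| + 1 ≤ (|N0| + 1) * ((X : ℝ) ^ (3 * δ) * (a + b)) := by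
      have h6 : 1 ≤ (X : ℝ) ^ (3 * δ) * (a + b) := by nlinarith
      nlinarith
    linarith [le_abs_self N0]
  refine hN0 m q θ hm hθ hN0d (D / e0) (fun e he h => hd e h he) ?_ ?_
  · calc (nm q) ^ (2 / 3 + δ) ≤ ((X : ℝ) ^ (1 + δ)) ^ (2 / 3 + δ) := by gcongr
      _ = (X : ℝ) ^ ((1 + δ) * (2 / 3 + δ)) := by rw [Real.rpow_mul hX0.le]
      _ ≤ (X : ℝ) ^ (3 * δ + 2 / 3) := Real.rpow_le_rpow_of_exponent_le hX1 (by nlinarith)
      _ = (X : ℝ) ^ (3 * δ) * a := Real.rpow_add hX0 _ _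
      _ ≤ (X : ℝ) ^ (3 * δ) * (a + b) := by gcongr; linarith
      _ ≤ _ := hd4
  · have h1 : ((X : ℝ) ^ (3 * δ) * b) ^ 2 = m * (X * (X : ℝ) ^ (6 * δ)) := by
      rw [mul_pow, hb', ← Real.rpow_natCast ((m * X : ℝ) ^ (1 / 2 : ℝ)),
        ← Real.rpow_mul (by positivity), ← Real.rpow_natCast, ← Real.rpow_mul hX0.le]
      norm_num
      rw [show 3 * δ * 2 = 6 * δ by ring]
      ring
    calc (m : ℝ) * (nm q) ^ (1 + δ) ≤ m * ((X : ℝ) ^ (1 + δ)) ^ (1 + δ) := by gcongr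
      _ = m * (X : ℝ) ^ ((1 + δ) * (1 + δ)) := by rw [Real.rpow_mul hX0.le]
      _ ≤ m * (X : ℝ) ^ (1 + 6 * δ) := by
          refine mul_le_mul_of_nonneg_left ?_ (by positivity)
          exact Real.rpow_le_rpow_of_exponent_le hX1 (by nlinarith)
      _ = m * (X * (X : ℝ) ^ (6 * δ)) := by rw [Real.rpow_add hX0, Real.rpow_one]
      _ = ((X : ℝ) ^ (3 * δ) * b) ^ 2 := h1.symm
      _ ≤ ((X : ℝ) ^ (3 * δ) * (a + b)) ^ 2 := by
          refine pow_le_pow_left₀ (by positivity) ?_ 2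
          refine mul_le_mul_of_nonneg_left ?_ (by positivity)
          linarith
      _ ≤ _ := pow_le_pow_left₀ (by positivity) hd4 2

end Pool.Agent.Y683.AA
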