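import Pool.Agent.Y683.AA.SW5

/-!
Twists by the powers of almost all characters of finite order, all weights simultaneously.
-/

set_option autoImplicit false

open Finset

namespace Pool.Agent.Y683.AA

open Pool.Agent.W192.HK
open Pool.Agent.Y690 (cop_iff cop_congr cop_mono sp_mul sp_pow hc_pow ne_zero_of_cop lift_cop sp_ne)

variable {R : Subring ℂ} {ω : ℂ}

/-- `X^(2/3) + (m X)^(1/2)` -/
noncomputable def szz (m X : ℕ) : ℝ := (X : ℝ) ^ (2 / 3 : ℝ) + (m * X : ℝ) ^ (1 / 2 : ℝ)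

/-- existence of the twists -/
theorem exists_tw (hb : H_BASIC) (hcls : H_CLS) (hR : QR R ω) {n : ℕ} (j : ℕ)
    {f c : Ideal R} {ψ χ : Ideal R → ℂ} (hψ : HC n f ψ) (hχ : HC 0 c χ) :
    ∃ (q : Ideal R) (θ : Ideal R → ℂ), HC n q θ ∧
      ∀ I : Ideal R, ψ I * χ I ≠ 0 → θ I = ψ I * χ I ^ j := by
  have := hR.ded
  rcases Nat.eq_zero_or_pos j with rfl | hj
  · exact ⟨f, ψ, hψ, fun I _ => by rw [pow_zero, mul_one]⟩
  have hj0 : j ≠ 0 := hj.ne'
  have h : Imp n (f * c) (fun I => ψ I * χ I ^ j) := by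
    refine ⟨mul_ne_zero hψ.ne hχ.ne, fun I J => ?_, fun I => ?_, fun α hα h1 => ?_⟩
    · rw [hψ.mul, hχ.mul]
      ring
    · rw [mul_eq_zero, pow_eq_zero_iff hj0, hψ.zero, hχ.zero]
      constructor
      · rintro ((h | h) | (h | h))
        · exact Or.inl h
        · exact Or.inr fun h' => h (IsCoprime.of_mul_right_left h')
        · exact Or.inl h
        · exact Or.inr fun h' => h (IsCoprime.of_mul_right_right h')
      · rintro (h | h)
        · exact Or.inl (Or.inl h)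
        · by_contra hcon
          push Not at hcon
          exact h (IsCoprime.mul_right hcon.1.2 hcon.2.2)
    · rw [hψ.princ α hα (Ideal.mul_le_left h1), hχ.princ α hα (Ideal.mul_le_right h1), pow_zero,
        one_pow, mul_one]
  obtain ⟨q, θ, -, h1, h2⟩ := exists_ind hb hcls hR h
  refine ⟨q, θ, h1, fun I hI => h2 I ?_⟩
  have h3 := mul_ne_zero_iff.1 hI
  exact mul_ne_zero h3.1 (pow_ne_zero j h3.2)

/-- the characters of small order or with a bad twist -/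
def Bq (R : Subring ℂ) (o : ℕ → (Ideal R → ℂ) → ℕ) (η : ℝ) (X : ℕ) : Set (Ideal R → ℂ) :=
  {χ | χ ∈ Hk R 0 X ∧ ∃ n : ℕ, HasOrd χ n ∧ ((n : ℝ) ≤ (X : ℝ) ^ (1 - η) ∨
    ∃ (m j : ℕ) (f q : Ideal R) (ψ θ : Ideal R → ℂ), 1 ≤ m ∧
      (Nat.gcd j n : ℝ) * szz m X ≤ (X : ℝ) ^ (1 - η) ∧ HC (2 * m - 1) f ψ ∧
      nm f ≤ (X : ℝ) ^ (η / 16) ∧ HC (2 * m - 1) q θ ∧
      (∀ I : Ideal R, ψ I * χ I ≠ 0 → θ I = ψ I * χ I ^ j) ∧ o m θ ≠ 0)}

theorem bq_sub (hb : H_BASIC) (hfp : H_FP) (hR : QR R ω) {K : ℝ}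
    {o : ℕ → (Ideal R → ℂ) → ℕ} (ho : GHk R K o) {η : ℝ} (hη : 0 < η) (hη1 : η ≤ 1) :
    ∃ X1 : ℝ, ∀ X : ℕ, X1 ≤ X → Bq R o η X ⊆ Sm R 0 X ((X : ℝ) ^ (1 - η / 16)) := by
  set δ : ℝ := η / 16 with hδ
  have hδ0 : 0 < δ := by positivity
  have hδ1 : δ ≤ 1 / 16 := by rw [hδ]; linarith
  obtain ⟨A, hA1, hA⟩ := nv_gen hb hfp hR ho hδ0 hδ1
  obtain ⟨X1, hX1⟩ := Filter.eventually_atTop.1
    ((tendsto_rpow_atTop (y := 7 * δ) (by positivity)).eventually_ge_atTop A)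
  refine ⟨max X1 1, fun X hXX => ?_⟩
  have hAX := hX1 X ((le_max_left _ _).trans hXX)
  have hX1' : (1 : ℝ) ≤ X := (le_max_right _ _).trans hXX
  have hX : 1 ≤ X := by exact_mod_cast hX1'
  have hX0 : (0 : ℝ) < X := by linarith
  rintro χ ⟨⟨c, hχ, hcX⟩, n, hn, hbad⟩
  refine ⟨c, hχ, hcX, ?_⟩
  by_contra hcon
  push Not at hcon
  have hχ' : Imp 0 c χ := HC.imp hχ
  obtain ⟨F, hF⟩ := hχ'.fin
  have hFX := hcon F hF
  have hDn : orderOf F ∣ n := fin_ord_dvd hχ' hF ((hn.2 n).2 dvd_rfl)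
  have hD0 := fin_ord_pos hb hR hχ.ne F
  have hnX : (X : ℝ) ^ (1 - δ) < n := by
    have h1 : (orderOf F : ℝ) ≤ n := by exact_mod_cast Nat.le_of_dvd hn.1 hDn
    linarith
  have hXη : (X : ℝ) ^ (1 - η) ≤ (X : ℝ) ^ (1 - δ) :=
    Real.rpow_le_rpow_of_exponent_le hX1' (by rw [hδ]; linarith)
  rcases hbad with h | ⟨m, j, f, q, ψ, θ, hm, hgcd, hψ, hfX, hθ, hag, hne⟩
  · linarith
  have hm1 : (1 : ℝ) ≤ m := by exact_mod_cast hm
  have hmX : (1 : ℝ) ≤ m * X := by nlinarith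
  have hs1 : 1 ≤ (X : ℝ) ^ (2 / 3 : ℝ) := Real.one_le_rpow hX1' (by norm_num)
  have hs2 : 0 ≤ (m * X : ℝ) ^ (1 / 2 : ℝ) := by positivity
  have hs : 1 ≤ szz m X := by unfold szz; linarith
  have hj0 : j ≠ 0 := by
    rintro rfl
    rw [Nat.gcd_zero_left] at hgcd
    have h1 : (n : ℝ) ≤ n * szz m X := le_mul_of_one_le_right (Nat.cast_nonneg _) hs
    linarith
  set g : ℕ := Nat.gcd j n with hg
  have hg0 : 0 < g := Nat.gcd_pos_of_pos_right _ hn.1
  have hg1 : (1 : ℝ) ≤ g := by exact_mod_cast hg0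
  apply hne
  refine hA X hX c _ (hχ'.pow hj0) hcX (F ^ j) (hF.pow j) m f q ψ θ hm hψ hfX hθ
    (fun I hI => ?_) ?_
  · have h1 := mul_ne_zero_iff.1 hI
    have h2 : χ I ≠ 0 := fun h => h1.2 (by
      change χ I ^ j = 0
      rw [h, zero_pow hj0])
    exact hag I (mul_ne_zero h1.1 h2)
  · -- the order of `F ^ j`
    have h1 : orderOf F ≤ g * orderOf (F ^ j) := by
      have h2 : F ^ (g * orderOf (F ^ j)) = 1 := by
        -- `g = j x + n y`
        have h3 : (F ^ j) ^ orderOf (F ^ j) = 1 := pow_orderOf_eq_one _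
        have h4 : orderOf F ∣ j * orderOf (F ^ j) := by
          refine orderOf_dvd_of_pow_eq_one ?_
          rw [pow_mul]
          exact h3
        have h5 : orderOf F ∣ n * orderOf (F ^ j) := hDn.mul_right _
        have h6 : orderOf F ∣ g * orderOf (F ^ j) := by
          rw [hg, ← Nat.gcd_mul_right]
          exact Nat.dvd_gcd h4 h5
        exact orderOf_dvd_iff_pow_eq_one.1 h6
      have h7 : 0 < orderOf (F ^ j) := fin_ord_pos hb hR hχ.ne _
      exact Nat.le_of_dvd (Nat.mul_pos hg0 h7) (orderOf_dvd_of_pow_eq_one h2)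
    have h2 : (X : ℝ) ^ (1 - δ) < g * orderOf (F ^ j) := by
      have : (orderOf F : ℝ) ≤ g * orderOf (F ^ j) := by exact_mod_cast h1
      linarith
    have h3 : (m * X : ℝ) ≤ (X : ℝ) ^ (2 : ℝ) := by
      have h4 : (m * X : ℝ) ^ (1 / 2 : ℝ) ≤ X := by
        have h5 : szz m X ≤ g * szz m X := le_mul_of_one_le_left (by linarith) hg1
        have h6 : (X : ℝ) ^ (1 - η) ≤ (X : ℝ) ^ (1 : ℝ) :=
          Real.rpow_le_rpow_of_exponent_le hX1' (by linarith)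
        rw [Real.rpow_one] at h6
        unfold szz at h5 hgcd
        linarith
      calc (m * X : ℝ) = ((m * X : ℝ) ^ (1 / 2 : ℝ)) ^ (2 : ℝ) := by
            rw [← Real.rpow_mul (by positivity)]
            norm_num
        _ ≤ (X : ℝ) ^ (2 : ℝ) := Real.rpow_le_rpow (by positivity) h4 (by norm_num)
    have h4 : (m * X : ℝ) ^ (4 * δ) ≤ (X : ℝ) ^ (8 * δ) := by
      calc (m * X : ℝ) ^ (4 * δ) ≤ ((X : ℝ) ^ (2 : ℝ)) ^ (4 * δ) :=
            Real.rpow_le_rpow (by positivity) h3 (by positivity)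
        _ = (X : ℝ) ^ (8 * δ) := by
            rw [← Real.rpow_mul hX0.le]
            congr 1
            ring
    have h5 : g * (A * ((m * X : ℝ) ^ (4 * δ) * szz m X)) ≤ (X : ℝ) ^ (1 - δ) := by
      calc g * (A * ((m * X : ℝ) ^ (4 * δ) * szz m X)) =
          A * (m * X : ℝ) ^ (4 * δ) * (g * szz m X) := by ring
        _ ≤ (X : ℝ) ^ (7 * δ) * (X : ℝ) ^ (8 * δ) * (X : ℝ) ^ (1 - η) := by
            gcongr
        _ = (X : ℝ) ^ (1 - δ) := by
            rw [← Real.rpow_add hX0, ← Real.rpow_add hX0]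
            congr 1
            rw [hδ]
            ring
    have h6 : g * (A * ((m * X : ℝ) ^ (4 * δ) * szz m X)) < g * orderOf (F ^ j) := by linarith
    exact lt_of_mul_lt_mul_left h6 (by linarith)

theorem bq_main (hb : H_BASIC) (hcls : H_CLS) (hfp : H_FP) (hdivr : H_DIVR) (hR : QR R ω)
    {C0 : ℝ} (hC : IdCount R C0) {K : ℝ} {o : ℕ → (Ideal R → ℂ) → ℕ} (ho : GHk R K o) {η : ℝ}
    (hη : 0 < η) (hη1 : η ≤ 1) :
    ∃ C c : ℝ, 0 < C ∧ 0 < c ∧ ∀ X : ℕ, 1 ≤ X →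
      (Set.ncard (Bq R o η X) : ℝ) ≤
        C * Real.exp (-c * cr X) * (Set.ncard (Hk R 0 X) : ℝ) := by
  obtain ⟨X1, hX1⟩ := bq_sub hb hfp hR ho hη hη1
  obtain ⟨C1, c1, hC1, hc1, h1⟩ := count_small hb hcls hfp hdivr hR hC (ε := η / 16)
    (by positivity) (by linarith)
  obtain ⟨C2, c2, hC2, hc2, h2⟩ := absorb hb hcls hfp hR hC hC1 hc1
  obtain ⟨N, hN⟩ := exists_nat_ge X1
  refine ⟨C2 + Real.exp (c2 * cr N), c2, by positivity, hc2, fun X hX => ?_⟩
  have hfin := hk_finite hb hcls hfp hR hC 0 X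
  have hsub : Bq R o η X ⊆ Hk R 0 X := fun χ h => h.1
  have hle : (Set.ncard (Bq R o η X) : ℝ) ≤ (Set.ncard (Hk R 0 X) : ℝ) := by
    exact_mod_cast Set.ncard_le_ncard hsub hfin
  have hpos : 0 < Real.exp (-c2 * cr X) := Real.exp_pos _
  have hn0 : (0 : ℝ) ≤ (Set.ncard (Hk R 0 X) : ℝ) := Nat.cast_nonneg _
  rcases le_or_gt X1 X with hXX | hXX
  · obtain ⟨h3, h4⟩ := h1 X 0 hX
    have h5 : (Set.ncard (Bq R o η X) : ℝ) ≤ C1 * (X : ℝ) ^ 2 * Real.exp (-c1 * cr X) := by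
      refine le_trans ?_ h4
      exact_mod_cast Set.ncard_le_ncard (hX1 X hXX) h3
    refine (h2 X 0 hX _ (fun h0 => ?_) h5).trans ?_
    · rw [h0] at hle
      simpa using hle
    · have := (Real.exp_pos (c2 * cr N)).le
      gcongr
      linarith
  · refine hle.trans ?_
    have h3 : (1 : ℝ) ≤ (C2 + Real.exp (c2 * cr N)) * Real.exp (-c2 * cr X) := by
      have h4 : cr X ≤ cr N := by
        unfold cr
        have hX0 : (0 : ℝ) < X := by exact_mod_cast hX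
        have h5 : (X : ℝ) ≤ N := by linarith
        have h6 := Real.log_le_log hX0 h5
        exact Real.rpow_le_rpow (Real.log_natCast_nonneg X) h6 (by norm_num)
      have h5 : 1 ≤ Real.exp (c2 * cr N) * Real.exp (-c2 * cr X) := by
        rw [← Real.exp_add]
        refine Real.one_le_exp ?_
        have := mul_le_mul_of_nonneg_left h4 hc2.le
        linarith
      have h6 : 0 ≤ C2 * Real.exp (-c2 * cr X) := by positivity
      linarith [add_mul C2 (Real.exp (c2 * cr N)) (Real.exp (-c2 * cr X))]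
    calc (Set.ncard (Hk R 0 X) : ℝ) = 1 * (Set.ncard (Hk R 0 X) : ℝ) := (one_mul _).symm
      _ ≤ _ := mul_le_mul_of_nonneg_right h3 hn0

end Pool.Agent.Y683.AA
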