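import Pool.Agent.Y683.AA.Exc
import Pool.Agent.TH940.Fin

/-!
Abstract consequences for a nonnegative function of the primitive Dirichlet characters which vanishes
at the characters of large order.
-/

set_option autoImplicit false

namespace Pool.Agent.Y683.AA

open Finset
open Pool.Agent.TH940 (tot GH order_prim order_dvd G_congr)

/-- the exponent of the group of Dirichlet characters -/
lemma exponent_char (q : ℕ) [NeZero q] :
    Monoid.exponent (DirichletCharacter ℂ q) = ArithmeticFunction.carmichael q := by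
  rw [ArithmeticFunction.carmichael_eq_exponent']
  exact Monoid.exponent_eq_of_mulEquiv (DirichletCharacter.mulEquiv_units ℂ q).some

lemma card_char (q : ℕ) [NeZero q] : Fintype.card (DirichletCharacter ℂ q) = q.totient := by
  have h := DirichletCharacter.card_eq_totient_of_hasEnoughRootsOfUnity ℂ q
  rwa [Nat.card_eq_fintype_card] at h

/-- the number of characters of small order -/
theorem card_small {q : ℕ} [NeZero q] {D : ℝ} (hD : 0 ≤ D)
    (S : Finset (DirichletCharacter ℂ q)) (hS : ∀ χ ∈ S, (orderOf χ : ℝ) ≤ D) :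
    (S.card : ℝ) * (ArithmeticFunction.carmichael q : ℕ) ≤
      D * (((ArithmeticFunction.carmichael q).divisors.card : ℕ) : ℝ) * q := by
  have h := card_orderOf_le hD S hS
  rw [exponent_char, card_char] at h
  refine h.trans ?_
  refine mul_le_mul_of_nonneg_left ?_ (by positivity)
  exact_mod_cast Nat.totient_le q

/-- the bound for good moduli -/
theorem tot_gen {N : ℕ} {K : ℝ} {G : (q : ℕ) → DirichletCharacter ℂ q → ℕ} (hG : GH N K G)
    {ε : ℝ} (hε : 0 < ε) : ∃ C : ℝ, 0 < C ∧ ∀ q : ℕ, 1 ≤ q → Nat.Coprime q N →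
      (q : ℝ) ^ (1 - ε / 5) ≤ (ArithmeticFunction.carmichael q : ℕ) →
      (tot G q : ℝ) ≤ C * (q : ℝ) ^ (3 / 4 + ε) := by
  classical
  have hK := hG.pos
  set δ : ℝ := ε / 5 with hδ
  have hδ0 : 0 < δ := by positivity
  obtain ⟨q1, hq1⟩ := hG.nv δ hδ0
  set q0 : ℝ := max q1 2 with hq0
  have hq02 : (2 : ℝ) ≤ q0 := le_max_right _ _
  obtain ⟨C, hC, hC1, -⟩ := Pool.Agent.W216.CY.t_div δ hδ0
  refine ⟨C * q0 * (K * (1 + 1 / δ)), by positivity, ?_⟩
  intro q hq hcopr hlam
  have hNZ : NeZero q := ⟨by omega⟩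
  have hq1' : (1 : ℝ) ≤ q := by exact_mod_cast hq
  have hq0' : (0 : ℝ) < q := by linarith
  have hlog : 0 ≤ Real.log q := Real.log_nonneg hq1'
  unfold tot
  rw [finsum_eq_sum_of_fintype]
  set S := (Finset.univ : Finset (DirichletCharacter ℂ q)).filter
    (fun χ => G χ.conductor χ.primitiveCharacter ≠ 0) with hS
  have hsum : ∑ χ : DirichletCharacter ℂ q, G χ.conductor χ.primitiveCharacter =
      ∑ χ ∈ S, G χ.conductor χ.primitiveCharacter := by
    rw [hS, Finset.sum_filter_ne_zero]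
  rw [hsum]
  have hcond : ∀ χ : DirichletCharacter ℂ q, 1 ≤ χ.conductor ∧ χ.conductor ≤ q ∧
      Nat.Coprime χ.conductor N ∧ χ.primitiveCharacter.IsPrimitive := by
    intro χ
    exact ⟨Nat.one_le_iff_ne_zero.2 χ.conductor_ne_zero, Nat.le_of_dvd hq χ.conductor_dvd_level,
      Nat.Coprime.coprime_dvd_left χ.conductor_dvd_level hcopr, χ.primitiveCharacter_isPrimitive⟩
  have hterm : ∀ χ ∈ S, ((G χ.conductor χ.primitiveCharacter : ℕ) : ℝ) ≤
      K * (1 + 1 / δ) * (q : ℝ) ^ δ := by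
    intro χ _
    obtain ⟨h1, h2, h3, h4⟩ := hcond χ
    refine (hG.bd _ _ h1 h3 h4).trans ?_
    have h5 : Real.log χ.conductor ≤ Real.log q :=
      Real.log_le_log (by exact_mod_cast h1) (by exact_mod_cast h2)
    have h6 : Real.log q ≤ (q : ℝ) ^ δ / δ := Real.log_le_rpow_div (by linarith) hδ0
    have h7 : 1 ≤ (q : ℝ) ^ δ := Real.one_le_rpow hq1' hδ0.le
    have h8 : 1 + Real.log χ.conductor ≤ (1 + 1 / δ) * (q : ℝ) ^ δ := by
      have : (1 + 1 / δ) * (q : ℝ) ^ δ = (q : ℝ) ^ δ + (q : ℝ) ^ δ / δ := by ring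
      rw [this]; linarith
    calc K * (1 + Real.log χ.conductor) ≤ K * ((1 + 1 / δ) * (q : ℝ) ^ δ) :=
          mul_le_mul_of_nonneg_left h8 hK.le
      _ = _ := by ring
  set y : ℝ := q0 * (q : ℝ) ^ (3 / 4 + δ) with hy
  have hq34 : 1 ≤ (q : ℝ) ^ (3 / 4 + δ) := Real.one_le_rpow hq1' (by positivity)
  have hord : ∀ χ ∈ S, (orderOf χ : ℝ) ≤ y := by
    intro χ hχ
    obtain ⟨h1, h2, h3, h4⟩ := hcond χ
    have hne := (Finset.mem_filter.1 hχ).2
    have hNZc : NeZero χ.conductor := ⟨χ.conductor_ne_zero⟩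
    by_cases hm : q0 ≤ χ.conductor
    · by_contra hlt
      apply hne
      push Not at hlt
      refine hq1 χ.conductor ((le_max_left _ _).trans hm) ?_ h3 _ h4 ?_
      · have : (2 : ℝ) ≤ χ.conductor := hq02.trans hm
        have h5 : 2 ≤ χ.conductor := by exact_mod_cast this
        omega
      · rw [order_prim]
        refine le_trans ?_ hlt.le
        calc (χ.conductor : ℝ) ^ (3 / 4 + δ) ≤ (q : ℝ) ^ (3 / 4 + δ) :=
              Real.rpow_le_rpow (by positivity) (by exact_mod_cast h2) (by positivity)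
          _ = 1 * (q : ℝ) ^ (3 / 4 + δ) := (one_mul _).symm
          _ ≤ y := by rw [hy]; gcongr; linarith
    · push Not at hm
      have h5 : orderOf χ ≤ χ.conductor := by
        rw [← order_prim]
        exact (Nat.le_of_dvd (Nat.totient_pos.2 h1) (order_dvd χ.primitiveCharacter)).trans
          (Nat.totient_le _)
      have h6 : (orderOf χ : ℝ) ≤ χ.conductor := by exact_mod_cast h5
      calc (orderOf χ : ℝ) ≤ χ.conductor := h6
        _ ≤ q0 := hm.le
        _ = q0 * 1 := (mul_one _).symm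
        _ ≤ y := by rw [hy]; gcongr
  have hy0 : 0 ≤ y := by positivity
  have hcard := card_small hy0 S hord
  have hlam0 : (0 : ℝ) < (ArithmeticFunction.carmichael q : ℕ) :=
    lt_of_lt_of_le (by positivity) hlam
  have htau : (((ArithmeticFunction.carmichael q).divisors.card : ℕ) : ℝ) ≤
      C * (q : ℝ) ^ δ := by
    have h1 : 1 ≤ ArithmeticFunction.carmichael q := by exact_mod_cast hlam0
    refine (hC1 _ h1).trans ?_
    have h2 : ((ArithmeticFunction.carmichael q : ℕ) : ℝ) ≤ q := by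
      have h3 := Nat.le_of_dvd (Nat.totient_pos.2 hq) (ArithmeticFunction.carmichael_dvd_totient q)
      exact_mod_cast h3.trans (Nat.totient_le q)
    gcongr
  have hScard : (S.card : ℝ) ≤ C * (q : ℝ) ^ δ * y * (q : ℝ) ^ δ := by
    have h1 : (S.card : ℝ) * (q : ℝ) ^ (1 - δ) ≤ y * (C * (q : ℝ) ^ δ) * q := by
      calc (S.card : ℝ) * (q : ℝ) ^ (1 - δ) ≤ S.card * (ArithmeticFunction.carmichael q : ℕ) :=
            mul_le_mul_of_nonneg_left hlam (Nat.cast_nonneg _)
        _ ≤ _ := hcard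
        _ ≤ _ := by gcongr
    have h2 : (q : ℝ) = (q : ℝ) ^ δ * (q : ℝ) ^ (1 - δ) := by
      rw [← Real.rpow_add hq0']
      norm_num
    have h3 : y * (C * (q : ℝ) ^ δ) * q =
        (C * (q : ℝ) ^ δ * y * (q : ℝ) ^ δ) * (q : ℝ) ^ (1 - δ) := by
      nth_rewrite 2 [h2]
      ring
    rw [h3] at h1
    exact le_of_mul_le_mul_right h1 (by positivity)
  push_cast
  calc ∑ χ ∈ S, ((G χ.conductor χ.primitiveCharacter : ℕ) : ℝ) ≤
        ∑ χ ∈ S, K * (1 + 1 / δ) * (q : ℝ) ^ δ := Finset.sum_le_sum hterm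
    _ = S.card * (K * (1 + 1 / δ) * (q : ℝ) ^ δ) := by rw [Finset.sum_const, nsmul_eq_mul]
    _ ≤ (C * (q : ℝ) ^ δ * y * (q : ℝ) ^ δ) * (K * (1 + 1 / δ) * (q : ℝ) ^ δ) :=
        mul_le_mul_of_nonneg_right hScard (by positivity)
    _ = C * q0 * (K * (1 + 1 / δ)) *
        ((q : ℝ) ^ δ * (q : ℝ) ^ (3 / 4 + δ) * (q : ℝ) ^ δ * (q : ℝ) ^ δ) := by
        rw [hy]; ring
    _ = C * q0 * (K * (1 + 1 / δ)) * (q : ℝ) ^ (δ + (3 / 4 + δ) + δ + δ) := by
        rw [← Real.rpow_add hq0', ← Real.rpow_add hq0', ← Real.rpow_add hq0']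
    _ ≤ _ := by
        refine mul_le_mul_of_nonneg_left ?_ (by positivity)
        refine Real.rpow_le_rpow_of_exponent_le hq1' ?_
        rw [hδ]; linarith

/-- the trivial bound -/
theorem tot_triv {N : ℕ} {K : ℝ} {G : (q : ℕ) → DirichletCharacter ℂ q → ℕ} (hG : GH N K G)
    {q : ℕ} (hq : 1 ≤ q) (hcopr : Nat.Coprime q N) :
    (tot G q : ℝ) ≤ q * (K * (1 + Real.log q)) := by
  classical
  have hK := hG.pos
  have hNZ : NeZero q := ⟨by omega⟩
  unfold tot
  rw [finsum_eq_sum_of_fintype]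
  have hterm : ∀ χ : DirichletCharacter ℂ q, ((G χ.conductor χ.primitiveCharacter : ℕ) : ℝ) ≤
      K * (1 + Real.log q) := by
    intro χ
    refine (hG.bd _ _ (Nat.one_le_iff_ne_zero.2 χ.conductor_ne_zero)
      (Nat.Coprime.coprime_dvd_left χ.conductor_dvd_level hcopr)
      χ.primitiveCharacter_isPrimitive).trans ?_
    have h1 : 1 ≤ χ.conductor := Nat.one_le_iff_ne_zero.2 χ.conductor_ne_zero
    have h5 : Real.log χ.conductor ≤ Real.log q :=
      Real.log_le_log (by exact_mod_cast h1)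
        (by exact_mod_cast Nat.le_of_dvd hq χ.conductor_dvd_level)
    exact mul_le_mul_of_nonneg_left (by linarith) hK.le
  push_cast
  calc ∑ χ : DirichletCharacter ℂ q, ((G χ.conductor χ.primitiveCharacter : ℕ) : ℝ) ≤
      ∑ χ : DirichletCharacter ℂ q, K * (1 + Real.log q) := sum_le_sum fun χ _ => hterm χ
    _ = (q.totient : ℝ) * (K * (1 + Real.log q)) := by
        rw [sum_const, nsmul_eq_mul, card_univ, card_char]
    _ ≤ _ := by
        have hlog : 0 ≤ Real.log q := Real.log_natCast_nonneg q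
        refine mul_le_mul_of_nonneg_right ?_ (by positivity)
        exact_mod_cast Nat.totient_le q

lemma G_level_self (G : (q : ℕ) → DirichletCharacter ℂ q → ℕ) {d q : ℕ} (h : d ∣ q) (hd : d = q)
    (ψ : DirichletCharacter ℂ d) : G d ψ = G q (DirichletCharacter.changeLevel h ψ) := by
  subst hd
  rw [DirichletCharacter.changeLevel_self]

/-- a primitive character is its own primitive character -/
lemma G_prim (G : (q : ℕ) → DirichletCharacter ℂ q → ℕ) {q : ℕ} (χ : DirichletCharacter ℂ q)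
    (hχ : χ.IsPrimitive) : G χ.conductor χ.primitiveCharacter = G q χ := by
  rw [G_level_self G χ.conductor_dvd_level hχ, DirichletCharacter.changeLevel_primitiveCharacter]

end Pool.Agent.Y683.AA
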